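import Pool.Agent.MP_e5b4ec_an.Sm.St

open Real

namespace Pool.Agent.MP_e5b4ec_an.Sm

open Mid

theorem cl_mid_Bas {a u : ℝ} (h1 : -a ≤ u) (h2 : u ≤ a) : cl a u = u := by
  rw [cl, min_eq_right h2, max_eq_right h1]

theorem cl_top_Bas {a u : ℝ} (h1 : 0 ≤ a) (h2 : a ≤ u) : cl a u = a := by
  rw [cl, min_eq_left h2, max_eq_right (by linarith)]

theorem cl_neg_Bas {a : ℝ} (h : 0 ≤ a) (u : ℝ) : cl a (-u) = -cl a u := by
  simp only [cl, max_def, min_def]
  split_ifs <;> linarith

theorem cl_lip_Bas (a : ℝ) {u w : ℝ} (h : u ≤ w) :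
    0 ≤ cl a w - cl a u ∧ cl a w - cl a u ≤ w - u := by
  simp only [cl, max_def, min_def]
  constructor <;> split_ifs <;> linarith

theorem cl_mono_Bas {a b u w : ℝ} (h0 : 0 ≤ a) (hab : a ≤ b) (h : u ≤ w) :
    cl a w - cl a u ≤ cl b w - cl b u := by
  simp only [cl, max_def, min_def]
  split_ifs <;> linarith

theorem cl_cont_Bas (a : ℝ) : Continuous (cl a) := by
  unfold cl
  fun_prop

theorem tri_Bas (x y : ℝ) : |arcsin (sin x) - arcsin (sin y)| ≤ |x - y| := by
  have hx := sin_arcsin (neg_one_le_sin x) (sin_le_one x)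
  have hy := sin_arcsin (neg_one_le_sin y) (sin_le_one y)
  have a1 := neg_pi_div_two_le_arcsin (sin x)
  have a2 := arcsin_le_pi_div_two (sin x)
  have a3 := neg_pi_div_two_le_arcsin (sin y)
  have a4 := arcsin_le_pi_div_two (sin y)
  generalize arcsin (sin x) = a at *
  generalize arcsin (sin y) = b at *
  obtain ⟨k, hk⟩ := sin_eq_sin_iff.1 hx
  obtain ⟨l, hl⟩ := sin_eq_sin_iff.1 hy
  have h : k * π - l * π = 0 ∨ π ≤ k * π - l * π ∨ k * π - l * π ≤ -π := by
    rcases lt_trichotomy k l with h | h | h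
    · have : (k : ℝ) + 1 ≤ l := by exact_mod_cast h
      exact Or.inr (Or.inr (by nlinarith [pi_pos]))
    · exact Or.inl (by rw [h, sub_self])
    · have : (l : ℝ) + 1 ≤ k := by exact_mod_cast h
      exact Or.inr (Or.inl (by nlinarith [pi_pos]))
  have b1 := le_abs_self (x - y)
  have b2 := neg_abs_le (x - y)
  rw [abs_le]
  rcases hk with hk | hk <;> rcases hl with hl | hl <;> rcases h with h | h | h <;>
    constructor <;> linarith

theorem int_cl_Bas {a : ℝ} (h0 : 0 ≤ a) (h1 : a ≤ π / 2) :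
    ∫ u in (0 : ℝ)..(π / 2), cl a u * sin u = sin a := by
  have hc : Continuous fun u => cl a u * sin u := (cl_cont_Bas a).mul continuous_sin
  have e1 : ∫ u in (0 : ℝ)..a, cl a u * sin u = ∫ u in (0 : ℝ)..a, u * sin u :=
    intervalIntegral.integral_congr fun u hu => by
      rw [Set.uIcc_of_le h0] at hu
      simp only [cl_mid_Bas (by linarith [hu.1] : -a ≤ u) hu.2]
  have e2 : ∫ u in a..(π / 2), cl a u * sin u = ∫ u in a..(π / 2), a * sin u :=
    intervalIntegral.integral_congr fun u hu => by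
      rw [Set.uIcc_of_le h1] at hu
      simp only [cl_top_Bas h0 hu.1]
  have e3 : ∫ u in (0 : ℝ)..a, u * sin u = (sin a - a * cos a) - (sin 0 - 0 * cos 0) :=
    intervalIntegral.integral_eq_sub_of_hasDerivAt (f := fun u => sin u - u * cos u)
      (fun u _ => ((hasDerivAt_sin u).fun_sub
        ((hasDerivAt_id' u).fun_mul (hasDerivAt_cos u))).congr_deriv (by ring))
      ((by fun_prop : Continuous fun u : ℝ => u * sin u).intervalIntegrable _ _)
  rw [← intervalIntegral.integral_add_adjacent_intervals (b := a) (hc.intervalIntegrable _ _)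
    (hc.intervalIntegrable _ _), e1, e2, e3, intervalIntegral.integral_const_mul, integral_sin,
    cos_pi_div_two, sin_zero]
  ring

theorem bas : BasSt := by
  rintro θ ⟨t1, t2⟩
  have p1 := pi_gt_d2
  have p2 := pi_lt_d2
  have ha : 0 ≤ π / 6 := by linarith
  have hb : 0 ≤ π / 6 + 2 * θ := by linarith
  have hc : 0 ≤ π / 2 - 3 * θ := by linarith
  have hd : 0 ≤ π / 2 - θ := by linarith
  have hV : ∀ y, -(π / 2) ≤ y → y ≤ π / 2 → V θ y = g θ y := fun y h1 h2 => by
    rw [V, arcsin_sin h1 h2]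
  have hg : ∀ u w, u ≤ w → |g θ w - g θ u| ≤ w - u := fun u w h => by
    have a1 := cl_lip_Bas (π / 6) h
    have a2 := cl_lip_Bas (π / 6 + 2 * θ) h
    have a3 := cl_lip_Bas (π / 2 - 3 * θ) h
    have a4 := cl_lip_Bas (π / 2 - θ) h
    have a5 := cl_mono_Bas hc (by linarith : π / 2 - 3 * θ ≤ π / 2 - θ) h
    unfold g
    rw [abs_le]
    constructor <;> linarith [a1.1, a1.2, a2.1, a2.2, a3.1, a3.2, a4.1, a4.2]
  have sym : ∀ y, V θ (π - y) = V θ y := fun y => by rw [V, V, sin_pi_sub]
  have hE : ∀ y, π / 2 - θ ≤ y → y ≤ π / 2 → V θ y = π / 6 := fun y h1 h2 => by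
    rw [hV y (by linarith) h2, g, cl_top_Bas ha (by linarith), cl_top_Bas hb (by linarith),
      cl_top_Bas hc (by linarith), cl_top_Bas hd h1]
    ring
  refine ⟨?_, fun y => ?_, sym, fun y => by rw [V, V, sin_add_two_pi], fun x y => ?_,
    fun y h1 h2 => ?_, fun y h1 h2 => ?_, fun y h1 h2 => ?_, fun y h1 h2 => ?_,
    fun y h1 h2 => ?_, ?_⟩
  · have h := continuous_arcsin.comp continuous_sin
    exact (((((cl_cont_Bas _).comp h).add ((cl_cont_Bas _).comp h)).add
      ((cl_cont_Bas _).comp h)).sub ((cl_cont_Bas _).comp h)).div_const 2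
  · rw [V, V, sin_neg, arcsin_neg, g, g, cl_neg_Bas ha, cl_neg_Bas hb, cl_neg_Bas hc,
      cl_neg_Bas hd]
    ring
  · refine le_trans ?_ (tri_Bas x y)
    unfold V
    rcases le_total (arcsin (sin y)) (arcsin (sin x)) with h | h
    · exact (hg _ _ h).trans (le_abs_self _)
    · rw [abs_sub_comm, abs_sub_comm (arcsin (sin x))]
      exact (hg _ _ h).trans (le_abs_self _)
  · rw [hV y (by linarith) (by linarith), g, cl_mid_Bas h1 h2,
      cl_mid_Bas (by linarith) (by linarith), cl_mid_Bas (by linarith) (by linarith),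
      cl_mid_Bas (by linarith) (by linarith)]
    ring
  · rw [hV y (by linarith) (by linarith), g, cl_top_Bas ha h1, cl_mid_Bas (by linarith) h2,
      cl_mid_Bas (by linarith) (by linarith), cl_mid_Bas (by linarith) (by linarith)]
    ring
  · rw [hV y (by linarith) (by linarith), g, cl_top_Bas ha (by linarith), cl_top_Bas hb h1,
      cl_mid_Bas (by linarith) h2, cl_mid_Bas (by linarith) (by linarith)]
    ring
  · rw [hV y (by linarith) (by linarith), g, cl_top_Bas ha (by linarith),
      cl_top_Bas hb (by linarith), cl_top_Bas hc h1, cl_mid_Bas (by linarith) h2]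
    ring
  · rcases le_total y (π / 2) with h | h
    · exact hE y h1 h
    · rw [← sym, hE _ (by linarith) (by linarith)]
  · have hi : ∀ a, IntervalIntegrable (fun u => cl a u * sin u) MeasureTheory.volume 0 (π / 2) :=
      fun a => ((cl_cont_Bas a).mul continuous_sin).intervalIntegrable _ _
    have e : ∫ y in (0 : ℝ)..(π / 2), V θ y * sin y = ∫ y in (0 : ℝ)..(π / 2),
        (cl (π / 6) y * sin y + cl (π / 6 + 2 * θ) y * sin y + cl (π / 2 - 3 * θ) y * sin y -
          cl (π / 2 - θ) y * sin y) / 2 :=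
      intervalIntegral.integral_congr fun u hu => by
        rw [Set.uIcc_of_le (by linarith)] at hu
        simp only [hV u (by linarith [hu.1]) hu.2, g]
        ring
    rw [e, intervalIntegral.integral_div, intervalIntegral.integral_sub
      (((hi _).add (hi _)).add (hi _)) (hi _), intervalIntegral.integral_add
      ((hi _).add (hi _)) (hi _), intervalIntegral.integral_add (hi _) (hi _),
      int_cl_Bas ha (by linarith), int_cl_Bas hb (by linarith), int_cl_Bas hc (by linarith),
      int_cl_Bas hd (by linarith), sin_pi_div_six, sin_pi_div_two_sub, sin_pi_div_two_sub, kap]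
    field_simp
    ring

end Pool.Agent.MP_e5b4ec_an.Sm
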