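import Pool.Agent.MP_e5b4ec_an.Sm.St

open Real

namespace Pool.Agent.MP_e5b4ec_an.Sm

open Mid

lemma alg_Low {M e t a b : ℝ} (hM : 1 ≤ M) (he0 : 0 ≤ e) (he : (M - 1) * (1 - e) = e)
    (hb : -t ≤ b) (hab : a - b ≤ t) : t + e * a ≤ M * (t + e * b) := by
  have h1 : 0 ≤ (M - 1) * (e * (b + t)) :=
    mul_nonneg (by linarith) (mul_nonneg he0 (by linarith))
  have h2 : 0 ≤ e * (t - (a - b)) := mul_nonneg he0 (by linarith)
  have h3 : (M - 1) * (1 - e) * t = e * t := by rw [he]
  nlinarith

lemma fold_Low {f : ℝ → ℝ} (hc : Continuous f) (h1 : ∀ y, f (-y) = f y)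
    (h2 : ∀ y, f (π - y) = f y) (h3 : Function.Periodic f (2 * π)) :
    ∫ y in (0 : ℝ)..(2 * π), f y = 4 * ∫ y in (0 : ℝ)..(π / 2), f y := by
  have e1 := h3.intervalIntegral_add_eq 0 (-π)
  rw [zero_add, show -π + 2 * π = π by ring] at e1
  have e2 := intervalIntegral.integral_add_adjacent_intervals
    (hc.intervalIntegrable (μ := MeasureTheory.volume) (-π) 0) (hc.intervalIntegrable 0 π)
  have e3 := intervalIntegral.integral_comp_neg (a := 0) (b := π) f
  simp only [h1, neg_zero] at e3
  have e4 := intervalIntegral.integral_add_adjacent_intervals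
    (hc.intervalIntegrable (μ := MeasureTheory.volume) 0 (π / 2)) (hc.intervalIntegrable (π / 2) π)
  have e5 := intervalIntegral.integral_comp_sub_left (a := 0) (b := π / 2) f π
  simp only [h2, sub_zero] at e5
  rw [show π - π / 2 = π / 2 by ring] at e5
  linarith

theorem low : LowSt := by
  intro θ _ hB hZ M hM
  have hM0 : 0 < M := by linarith
  have hc := hB.cont
  obtain ⟨e, he⟩ : ∃ e : ℝ, e = (M - 1) / M := ⟨_, rfl⟩
  have he0 : 0 ≤ e := by rw [he]; exact div_nonneg (by linarith) hM0.le
  have he1 : e < 1 := by rw [he, div_lt_one hM0]; linarith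
  have he2 : (M - 1) * (1 - e) = e := by rw [he]; field_simp; ring
  have hper : Function.Periodic (fun y => e * V θ y) (2 * π) := fun y => by
    simp only [hB.per]
  refine ⟨fun y => e * V θ y, ⟨by fun_prop, hper, ?_, ?_, fun x t ht0 ht => ?_⟩, ?_⟩
  · intro x y hxy
    have h1 := hB.lip x y
    rw [abs_of_neg (sub_neg.2 hxy)] at h1
    have h2 := (abs_le.1 h1).2
    have h3 : e * (V θ x - V θ y) ≤ e * (y - x) := mul_le_mul_of_nonneg_left (by linarith) he0
    have h4 : 0 < (1 - e) * (y - x) := mul_pos (by linarith) (by linarith)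
    simp only
    nlinarith
  · have h1 := hper.intervalIntegral_add_eq 0 (-π)
    rw [zero_add, show -π + 2 * π = π by ring] at h1
    rw [h1]
    have h2 := intervalIntegral.integral_comp_neg (a := -π) (b := π) (fun y => e * V θ y)
    have e1 : ∀ y : ℝ, e * V θ (-y) = -(e * V θ y) := fun y => by rw [hB.odd]; ring
    simp only [e1] at h2
    rw [intervalIntegral.integral_neg, neg_neg] at h2
    linarith
  · have h1 := hB.lip (x + t) x
    rw [show x + t - x = t by ring, abs_of_pos ht0] at h1
    have h2 := hB.lip x (x - t)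
    rw [show x - (x - t) = t by ring, abs_of_pos ht0] at h2
    have h3 := hZ x t ht0.le ht
    have h4 := hZ (-x) t ht0.le ht
    rw [show -x + t = -(x - t) by ring, show -x - t = -(x + t) by ring, hB.odd, hB.odd,
      hB.odd] at h4
    have k1 := alg_Low (a := V θ (x + t) - V θ x) (b := V θ x - V θ (x - t)) hM he0 he2
      (abs_le.1 h2).1 (by linarith)
    have k2 := alg_Low (a := V θ x - V θ (x - t)) (b := V θ (x + t) - V θ x) hM he0 he2
      (abs_le.1 h1).1 (by linarith)
    constructor
    · simp only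
      linarith
    · simp only
      linarith
  · have h1 := sin_le_norm_Z (v := fun y => e * V θ y) (by fun_prop)
    refine le_trans (le_of_eq ?_) h1
    have h2 := fold_Low (f := fun y => V θ y * sin y) (by fun_prop)
      (fun y => by rw [hB.odd, sin_neg]; ring) (fun y => by rw [hB.sym, sin_pi_sub])
      (fun y => by simp only [hB.per, sin_add_two_pi])
    simp only [mul_assoc]
    rw [intervalIntegral.integral_const_mul, h2, hB.int, he]
    have := Real.pi_pos
    field_simp

end Pool.Agent.MP_e5b4ec_an.Sm
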