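import Pool.Agent.MP_e5b4ec_an.Sm.St

open Real

namespace Pool.Agent.MP_e5b4ec_an.Sm

open Mid

/-- lower bounds on the five convex stretches -/
def Lo_Prim (P θ y v : ℝ) : Prop :=
  (-P ≤ 2 * y ∧ 2 * y ≤ -P + 2 * θ ∧ -P ≤ 6 * v) ∨
  (-P + 2 * θ ≤ 2 * y ∧ 6 * y ≤ P ∧ -(5 * P) + 6 * θ - 6 * y ≤ 12 * v ∧ -P - 6 * θ ≤ 6 * v ∧
    -P + 6 * y ≤ 12 * v ∧ y ≤ v) ∨
  (P ≤ 6 * y ∧ 6 * y ≤ P + 12 * θ ∧ P + 6 * y ≤ 12 * v) ∨
  (P + 12 * θ ≤ 6 * y ∧ 2 * y ≤ P - 6 * θ ∧ P + 6 * θ ≤ 6 * v) ∨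
  (P - 6 * θ ≤ 2 * y ∧ 2 * y ≤ P ∧ 5 * P - 6 * θ - 6 * y ≤ 12 * v ∧ P ≤ 6 * v)

theorem lo_Prim {θ : ℝ} (hR : Rng θ) (hB : Bas θ) {y : ℝ} (h1 : -(π / 2) ≤ y) (h2 : y ≤ π / 2) :
    Lo_Prim π θ y (V θ y) := by
  obtain ⟨r1, r2⟩ := hR
  have p1 := pi_gt_d4
  have p2 := pi_lt_d4
  have o := hB.odd y
  rcases le_total y (-(π / 2) + θ) with a1 | a1
  · have := hB.pE (-y) (by linarith) (by linarith)
    exact .inl ⟨by linarith, by linarith, by linarith⟩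
  rcases le_total y (-(π / 2) + 3 * θ) with a2 | a2
  · have := hB.pD (-y) (by linarith) (by linarith)
    exact .inr (.inl (by refine ⟨?_, ?_, ?_, ?_, ?_, ?_⟩ <;> linarith))
  rcases le_total y (-(π / 6) - 2 * θ) with a3 | a3
  · have := hB.pC (-y) (by linarith) (by linarith)
    exact .inr (.inl (by refine ⟨?_, ?_, ?_, ?_, ?_, ?_⟩ <;> linarith))
  rcases le_total y (-(π / 6)) with a4 | a4
  · have := hB.pB (-y) (by linarith) (by linarith)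
    exact .inr (.inl (by refine ⟨?_, ?_, ?_, ?_, ?_, ?_⟩ <;> linarith))
  rcases le_total y (π / 6) with a5 | a5
  · have := hB.pA y a4 a5
    exact .inr (.inl (by refine ⟨?_, ?_, ?_, ?_, ?_, ?_⟩ <;> linarith))
  rcases le_total y (π / 6 + 2 * θ) with a6 | a6
  · have := hB.pB y a5 a6
    exact .inr (.inr (.inl ⟨by linarith, by linarith, by linarith⟩))
  rcases le_total y (π / 2 - 3 * θ) with a7 | a7
  · have := hB.pC y a6 a7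
    exact .inr (.inr (.inr (.inl ⟨by linarith, by linarith, by linarith⟩)))
  rcases le_total y (π / 2 - θ) with a8 | a8
  · have := hB.pD y a7 a8
    exact .inr (.inr (.inr (.inr ⟨by linarith, by linarith, by linarith, by linarith⟩)))
  · have := hB.pE y a8 (by linarith)
    exact .inr (.inr (.inr (.inr ⟨by linarith, by linarith, by linarith, by linarith⟩)))

section

variable {P θ x t u v w : ℝ} (r1 : 541 * P ≤ 10000 * θ) (r2 : 10000 * θ ≤ 545 * P)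
  (t0 : 0 ≤ t) (t1 : t ≤ P) (hx : Lo_Prim P θ (-x) (-u))

include r1 r2 t0 t1 hx

omit t1 in
theorem c1_Prim (hp : Lo_Prim P θ (x + t) v) (hq : Lo_Prim P θ (x - t) w) : 2 * u - v - w ≤ t := by
  rcases hx with ⟨_, _, _⟩ | ⟨_, _, _, _, _, _⟩ | ⟨_, _, _⟩ | ⟨_, _, _⟩ | ⟨_, _, _, _⟩ <;>
  rcases hp with ⟨_, _, _⟩ | ⟨_, _, _, _, _, _⟩ | ⟨_, _, _⟩ | ⟨_, _, _⟩ | ⟨_, _, _, _⟩ <;>
  rcases hq with ⟨_, _, _⟩ | ⟨_, _, _, _, _, _⟩ | ⟨_, _, _⟩ | ⟨_, _, _⟩ | ⟨_, _, _, _⟩ <;>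
  linarith

theorem c2_Prim (hp : Lo_Prim P θ (P - (x + t)) v) (hq : Lo_Prim P θ (x - t) w) :
    2 * u - v - w ≤ t := by
  rcases hx with ⟨_, _, _⟩ | ⟨_, _, _, _, _, _⟩ | ⟨_, _, _⟩ | ⟨_, _, _⟩ | ⟨_, _, _, _⟩ <;>
  rcases hp with ⟨_, _, _⟩ | ⟨_, _, _, _, _, _⟩ | ⟨_, _, _⟩ | ⟨_, _, _⟩ | ⟨_, _, _, _⟩ <;>
  rcases hq with ⟨_, _, _⟩ | ⟨_, _, _, _, _, _⟩ | ⟨_, _, _⟩ | ⟨_, _, _⟩ | ⟨_, _, _, _⟩ <;>
  linarith

omit t1 in
theorem c3_Prim (hp : Lo_Prim P θ (x + t) v) (hq : Lo_Prim P θ (-P - (x - t)) w) :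
    2 * u - v - w ≤ t := by
  rcases hx with ⟨_, _, _⟩ | ⟨_, _, _, _, _, _⟩ | ⟨_, _, _⟩ | ⟨_, _, _⟩ | ⟨_, _, _, _⟩ <;>
  rcases hp with ⟨_, _, _⟩ | ⟨_, _, _, _, _, _⟩ | ⟨_, _, _⟩ | ⟨_, _, _⟩ | ⟨_, _, _, _⟩ <;>
  rcases hq with ⟨_, _, _⟩ | ⟨_, _, _, _, _, _⟩ | ⟨_, _, _⟩ | ⟨_, _, _⟩ | ⟨_, _, _, _⟩ <;>
  linarith

theorem c4_Prim (hp : Lo_Prim P θ (P - (x + t)) v) (hq : Lo_Prim P θ (-P - (x - t)) w) :
    2 * u - v - w ≤ t := by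
  rcases hx with ⟨_, _, _⟩ | ⟨_, _, _, _, _, _⟩ | ⟨_, _, _⟩ | ⟨_, _, _⟩ | ⟨_, _, _, _⟩ <;>
  rcases hp with ⟨_, _, _⟩ | ⟨_, _, _, _, _, _⟩ | ⟨_, _, _⟩ | ⟨_, _, _⟩ | ⟨_, _, _, _⟩ <;>
  rcases hq with ⟨_, _, _⟩ | ⟨_, _, _, _, _, _⟩ | ⟨_, _, _⟩ | ⟨_, _, _⟩ | ⟨_, _, _, _⟩ <;>
  linarith

end

theorem mid_Prim {θ : ℝ} (hR : Rng θ) (hB : Bas θ) {x t : ℝ} (h1 : -(π / 2) ≤ x) (h2 : x ≤ π / 2)
    (t0 : 0 ≤ t) (t1 : t ≤ π) : 2 * V θ x - V θ (x + t) - V θ (x - t) ≤ t := by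
  have hx := lo_Prim hR hB (y := -x) (by linarith) (by linarith)
  rw [hB.odd] at hx
  have r1 : 541 * π ≤ 10000 * θ := by linarith [pi_lt_d4, hR.1]
  have r2 : 10000 * θ ≤ 545 * π := by linarith [pi_gt_d4, hR.2]
  have e : V θ (-π - (x - t)) = V θ (x - t) := by
    rw [← hB.per, ← hB.sym (x - t)]
    congr 1
    ring
  rcases le_total (x + t) (π / 2) with a | a <;> rcases le_total (-(π / 2)) (x - t) with b | b
  · exact c1_Prim r1 r2 t0 hx (lo_Prim hR hB (by linarith) a)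
      (lo_Prim hR hB b (by linarith))
  · exact c3_Prim r1 r2 t0 hx (lo_Prim hR hB (by linarith) a)
      (e ▸ lo_Prim hR hB (by linarith) (by linarith))
  · exact c2_Prim r1 r2 t0 t1 hx
      (hB.sym (x + t) ▸ lo_Prim hR hB (by linarith) (by linarith)) (lo_Prim hR hB b (by linarith))
  · exact c4_Prim r1 r2 t0 t1 hx
      (hB.sym (x + t) ▸ lo_Prim hR hB (by linarith) (by linarith))
      (e ▸ lo_Prim hR hB (by linarith) (by linarith))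

theorem prim : PrimSt := by
  intro θ hR hB x t t0 t1
  have hp : Function.Periodic (V θ) (2 * π) := hB.per
  obtain ⟨n, n1, n2⟩ : ∃ n : ℤ, -(π / 2) ≤ x - n * (2 * π) ∧ x - n * (2 * π) ≤ 3 * π / 2 := by
    have h := toIcoMod_mem_Ico two_pi_pos (-(π / 2)) x
    rw [toIcoMod, zsmul_eq_mul] at h
    exact ⟨_, h.1, by linarith [h.2]⟩
  rw [← hp.sub_int_mul_eq n (x := x), ← hp.sub_int_mul_eq n (x := x + t),
    ← hp.sub_int_mul_eq n (x := x - t), add_sub_right_comm, sub_right_comm x t]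
  generalize x - n * (2 * π) = y at n1 n2
  rcases le_total y (π / 2) with a | a
  · exact mid_Prim hR hB n1 a t0 t1
  · have := mid_Prim hR hB (x := π - y) (by linarith) (by linarith) t0 t1
    rw [hB.sym, show π - y + t = π - (y - t) by ring, show π - y - t = π - (y + t) by ring,
      hB.sym, hB.sym] at this
    linarith

end Pool.Agent.MP_e5b4ec_an.Sm
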