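import Pool.Agent.MP_e5b4ec_an.Sm.St

open Real

namespace Pool.Agent.MP_e5b4ec_an.Sm

open Mid

/-- the oscillation of a periodic function with bounded second differences -/
theorem osc_Up {f : ℝ → ℝ} {B : ℝ} (hc : Continuous f) (hp : Function.Periodic f (2 * π))
    (hB : 0 ≤ B) (h : ∀ x t, 0 < t → t ≤ π → 2 * f x - f (x + t) - f (x - t) ≤ B) (a b : ℝ) :
    f a - f b ≤ B := by
  obtain ⟨x0, -, hx⟩ := (isCompact_Icc (a := (0 : ℝ)) (b := 2 * π)).exists_isMaxOn
    ⟨0, le_rfl, two_pi_pos.le⟩ hc.continuousOn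
  have hm : ∀ y, f y ≤ f x0 := fun y => by
    obtain ⟨z, hz, e⟩ := hp.exists_mem_Ico₀ two_pi_pos y
    rw [e]
    exact hx ⟨hz.1, hz.2.le⟩
  obtain ⟨z, hz, e⟩ := hp.exists_mem_Ioc two_pi_pos b (x0 - π)
  rw [e]
  have ha := hm a
  rcases lt_trichotomy z x0 with hl | hl | hl
  · have h1 := h x0 (x0 - z) (by linarith) (by linarith [hz.1])
    rw [sub_sub_cancel] at h1
    linarith [hm (x0 + (x0 - z))]
  · rw [hl]; linarith
  · have h1 := h x0 (z - x0) (by linarith) (by linarith [hz.2])
    rw [add_sub_cancel] at h1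
    linarith [hm (x0 - (z - x0))]

/-- the second differences of a lift -/
theorem sec_Up {M : ℝ} {H : ℝ → ℝ} (hM : 1 ≤ M) (hH : IsLift M H) (x t : ℝ) (h0 : 1 / 2 ≤ t)
    (h1 : t ≤ π) : |2 * H x - H (x + t) - H (x - t)| ≤ (M - 1) * (1 + 13 * (M - 1)) * t := by
  have hε : 0 ≤ M - 1 := by linarith
  have hp : Function.Periodic (fun y => H y - y) (2 * π) := fun y => by
    simp only [hH.per]; ring
  have cH := hH.cont
  have ho := osc_Up (f := fun y => H y - y) (B := (M - 1) * (2 * π)) (by fun_prop) hp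
    (by positivity) fun x t h0 h1 => by
      have a1 := hH.qs2 x t h0 h1
      have a2 := hH.mono.monotone (show x + t ≤ x + 2 * π by linarith)
      rw [hH.per] at a2
      have a3 := mul_le_mul_of_nonneg_left (show H (x + t) - H x ≤ 2 * π by linarith) hε
      linarith
  have hpi : (M - 1) * (2 * π) ≤ (M - 1) * (13 * t) :=
    mul_le_mul_of_nonneg_left (by linarith [pi_lt_d2]) hε
  have a1 := hH.qs2 x t (by linarith) h1
  have a2 := hH.qs1 x t (by linarith) h1
  have b1 := mul_le_mul_of_nonneg_left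
    (show H (x + t) - H x ≤ t + (M - 1) * (13 * t) by linarith [ho (x + t) x]) hε
  have b2 := mul_le_mul_of_nonneg_left
    (show H x - H (x - t) ≤ t + (M - 1) * (13 * t) by linarith [ho x (x - t)]) hε
  rw [abs_le]
  constructor <;> linarith

/-- the symmetrised function -/
noncomputable def sy_Up (f : ℝ → ℝ) (y : ℝ) : ℝ := (f y - f (-y) + f (π - y) - f (π + y)) / 4

theorem odd_Up (f : ℝ → ℝ) (y : ℝ) : sy_Up f (-y) = -sy_Up f y := by
  unfold sy_Up
  rw [neg_neg, sub_neg_eq_add, ← sub_eq_add_neg π y]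
  ring

theorem sym_Up {f : ℝ → ℝ} (hp : Function.Periodic f (2 * π)) (y : ℝ) :
    sy_Up f (π - y) = sy_Up f y := by
  unfold sy_Up
  have a1 := hp (-(π - y))
  have a2 := hp (-y)
  rw [show -(π - y) + 2 * π = π + y by ring] at a1
  rw [sub_sub_cancel, show π + (π - y) = -y + 2 * π by ring, a2, ← a1]
  ring

theorem two_Up {f : ℝ → ℝ} {B : ℝ} (x t : ℝ)
    (h : ∀ x, |2 * f x - f (x + t) - f (x - t)| ≤ B) :
    2 * sy_Up f x - sy_Up f (x + t) - sy_Up f (x - t) ≤ B := by
  unfold sy_Up
  have a1 := (abs_le.1 (h x)).2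
  have a2 := (abs_le.1 (h (-x))).1
  have a3 := (abs_le.1 (h (π - x))).2
  have a4 := (abs_le.1 (h (π + x))).1
  rw [show -(x + t) = -x - t by ring, show π - (x + t) = π - x - t by ring,
    show π + (x + t) = π + x + t by ring, show -(x - t) = -x + t by ring,
    show π - (x - t) = π - x + t by ring, show π + (x - t) = π + x - t by ring]
  linarith

theorem int_Up {f : ℝ → ℝ} (hc : Continuous f) (hp : Function.Periodic f (2 * π)) :
    ∫ y in (0 : ℝ)..(2 * π), f y * sin y = 4 * ∫ y in (0 : ℝ)..(π / 2), sy_Up f y * sin y := by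
  obtain ⟨G, hG⟩ : ∃ G : ℝ → ℝ, G = fun y => f y * sin y := ⟨_, rfl⟩
  have cG : Continuous G := by rw [hG]; fun_prop
  have e : ∀ y, 4 * (sy_Up f y * sin y) = G y + G (π - y) + G (π + y) + G (2 * π - y) := by
    intro y
    have a2 := hp (-y)
    rw [show -y + 2 * π = 2 * π - y by ring] at a2
    simp only [hG, sy_Up, sin_pi_sub, sin_two_pi_sub, add_comm π y, sin_add_pi, a2]
    ring
  have i : ∀ {g : ℝ → ℝ}, Continuous g → ∀ a b, IntervalIntegrable g MeasureTheory.volume a b :=
    fun hg a b => hg.intervalIntegrable a b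
  rw [← intervalIntegral.integral_const_mul, ← hG]
  simp only [e]
  rw [intervalIntegral.integral_add (i (by fun_prop) _ _) (i (by fun_prop) _ _),
    intervalIntegral.integral_add (i (by fun_prop) _ _) (i (by fun_prop) _ _),
    intervalIntegral.integral_add (i (by fun_prop) _ _) (i (by fun_prop) _ _),
    intervalIntegral.integral_comp_sub_left G π, intervalIntegral.integral_comp_add_left G π,
    intervalIntegral.integral_comp_sub_left G (2 * π), sub_zero, add_zero, sub_zero,
    show π - π / 2 = π / 2 by ring, show 2 * π - π / 2 = π + π / 2 by ring,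
    intervalIntegral.integral_add_adjacent_intervals (i cG _ _) (i cG _ _),
    intervalIntegral.integral_add_adjacent_intervals (i cG _ _) (i cG _ _),
    intervalIntegral.integral_add_adjacent_intervals (i cG _ _) (i cG _ _)]

theorem adm_Up {θ E : ℝ} {f : ℝ → ℝ} (hθ : Rng θ) (hV : Bas θ) (hc : Continuous f)
    (hp : Function.Periodic f (2 * π))
    (h : ∀ x t, 1 / 2 ≤ t → t ≤ π → |2 * f x - f (x + t) - f (x - t)| ≤ E * t) :
    Adm1 θ fun y => sy_Up f y - E * V θ y := by
  obtain ⟨θ0, θ1⟩ := hθ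
  have p0 := pi_gt_d2
  have p1 := pi_lt_d2
  have cV := hV.cont
  have box : ∀ t v x : ℝ, 1 / 2 ≤ x + t → x + t ≤ π → t + v + 2 * x = 2 * π →
      V θ t + V θ v + 2 * V θ x = x + t →
      (sy_Up f t - E * V θ t) + 1 * (sy_Up f v - E * V θ v)
        + (1 + 1) * (sy_Up f x - E * V θ x) ≤ 0 := by
    intro t v x a1 a2 a3 a4
    have b1 := two_Up x (x + t) fun y => h y (x + t) a1 a2
    have b2 := sym_Up hp (π - v)
    have b3 := sym_Up hp (v - π)
    rw [sub_sub_cancel, show π - v = -(v - π) by ring, odd_Up] at b2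
    rw [show x - (x + t) = -t by ring, odd_Up, show x + (x + t) = π - (v - π) by linarith,
      b3, ← a4] at b1
    linarith
  refine ⟨by unfold sy_Up; fun_prop, fun y => ?_, fun y => ?_, ?_, ?_, ?_⟩
  · rw [odd_Up, hV.odd]; ring
  · rw [sym_Up hp, hV.sym]
  · intro t v x t0 t1 v0 v1 x0 x1 e
    refine box t v x (by linarith) (by linarith) e ?_
    have a1 := hV.per (-(2 * π - v))
    rw [show -(2 * π - v) + 2 * π = v by ring, hV.odd,
      hV.pE (2 * π - v) (by linarith) (by linarith)] at a1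
    rw [a1, hV.pA t t0 t1, hV.pB x x0 x1]
    ring
  · intro t v x t0 t1 v0 v1 x0 x1 e
    refine box t v x (by linarith) (by linarith) e ?_
    rw [← hV.sym v, hV.pA (π - v) (by linarith) (by linarith), hV.pC t t0 t1, hV.pD x x0 x1]
    linarith
  · intro t v x t0 t1 v0 v1 x0 x1 e
    refine box t v x (by linarith) (by linarith) e ?_
    rw [← hV.sym v, hV.pB (π - v) (by linarith) (by linarith), hV.pB t t0 t1, hV.pE x x0 x1]
    linarith

theorem up : UpSt := by
  intro θ hθ hV hd M v hM hv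
  obtain ⟨H, hH, hZ⟩ := exists_lift hv
  have cH := hH.cont
  have cV := hV.cont
  have hpi := pi_pos
  obtain ⟨f, hf⟩ : ∃ f : ℝ → ℝ, f = fun y => H y - y := ⟨_, rfl⟩
  obtain ⟨E, hE⟩ : ∃ E, E = (M - 1) * (1 + 13 * (M - 1)) := ⟨_, rfl⟩
  have hc : Continuous f := by rw [hf]; fun_prop
  have hp : Function.Periodic f (2 * π) := fun y => by simp only [hf, hH.per]; ring
  have h1 := hd _ (adm_Up (E := E) hθ hV hc hp fun x t h0 h1 => by
    have := sec_Up hM hH x t h0 h1
    rw [← hE] at this
    refine le_trans (le_of_eq ?_) this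
    simp only [hf]
    congr 1
    ring)
  have cu : Continuous (sy_Up f) := by unfold sy_Up; fun_prop
  have e : ∀ y : ℝ, (sy_Up f y - E * V θ y) * sin y = sy_Up f y * sin y - E * (V θ y * sin y) :=
    fun y => by ring
  simp only [e] at h1
  rw [intervalIntegral.integral_sub
    ((by fun_prop : Continuous fun y : ℝ => sy_Up f y * sin y).intervalIntegrable _ _)
    ((by fun_prop : Continuous fun y : ℝ => E * (V θ y * sin y)).intervalIntegrable _ _),
    intervalIntegral.integral_const_mul, hV.int] at h1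
  have e2 : ∀ y : ℝ, H y * sin y = f y * sin y + y * sin y := fun y => by simp only [hf]; ring
  simp only [e2] at hZ
  rw [intervalIntegral.integral_add
    ((by fun_prop : Continuous fun y : ℝ => f y * sin y).intervalIntegrable _ _)
    ((by fun_prop : Continuous fun y : ℝ => y * sin y).intervalIntegrable _ _),
    int_id_sin, int_Up hc hp] at hZ
  rw [hZ, mul_assoc, ← hE]
  generalize (∫ y in (0 : ℝ)..(π / 2), sy_Up f y * sin y) = A at h1 ⊢
  have e3 : 2 + 1 / π * (4 * A + -(2 * π)) = 4 / π * A := by field_simp; ring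
  have e4 : kap θ * E = 4 / π * (E * (π / 4 * kap θ)) := by field_simp
  rw [e3, e4]
  exact mul_le_mul_of_nonneg_left (by linarith) (by positivity)

end Pool.Agent.MP_e5b4ec_an.Sm
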