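import Pool.Agent.MP_e5b4ec_an.Sm.DF
import Pool.Agent.MP_e5b4ec_an.Sm.Bas
import Pool.Agent.MP_e5b4ec_an.Sm.Prim
import Pool.Agent.MP_e5b4ec_an.Sm.Low
import Pool.Agent.MP_e5b4ec_an.Sm.Up

open Real

namespace Pool.Agent.MP_e5b4ec_an.Sm

open Mid

theorem pos_of_go {m0 : Int} {dl : Nat} {b : List Ex × List Ex}
    (h : go m0 dl [] 0 1 [] [] [b] = true) {E : ℕ → ℝ} (hM : |E 0 * 2 ^ 60 - (m0 : ℝ)| ≤ (dl : ℝ))
    (hd : Dfs (Kof []) E 1 b.1) : Pos (Kof []) E b.2 :=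
  go_pos h hM (fun i a b => by omega) trivial (fun i hi => by omega) (List.mem_singleton.2 rfl)
    (fun _ _ => rfl) hd

theorem fx_ev (t : ℝ) : fx.ev (Kof []) (fun _ => t) =
    cos (π / 6 + 2 * t) + sin t / 2 - 3 / 2 * sin (3 * t) := by
  simp only [fx, Ex.ev]
  rw [show ((1 : ℤ) : ℝ) / ((6 : ℕ) : ℝ) * π + ((2 : ℤ) : ℝ) / ((1 : ℕ) : ℝ) * t = π / 6 + 2 * t by ring,
    show ((3 : ℤ) : ℝ) / ((1 : ℕ) : ℝ) * t = 3 * t by ring]
  ring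

theorem root : ∃ θ : ℝ, (196469366616109824 - 4294967296) / 2 ^ 60 ≤ θ ∧
    θ ≤ (196469366616109824 + 4294967296) / 2 ^ 60 ∧
    cos (π / 6 + 2 * θ) + sin θ / 2 = 3 / 2 * sin (3 * θ) := by
  have h1 := (pos_of_go chk1 (E := fun _ => (196469366616109824 - 4294967296) / 2 ^ 60)
    (by norm_num) trivial).1
  have h2 := (pos_of_go chk2 (E := fun _ => (196469366616109824 + 4294967296) / 2 ^ 60)
    (by norm_num) trivial).1
  rw [fx_ev] at h1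
  rw [Ex.ev, fx_ev, Ex.ev] at h2
  obtain ⟨θ, h, e⟩ := intermediate_value_Icc' (f := fun t : ℝ =>
      cos (π / 6 + 2 * t) + sin t / 2 - 3 / 2 * sin (3 * t))
    (a := (196469366616109824 - 4294967296) / 2 ^ 60)
    (b := (196469366616109824 + 4294967296) / 2 ^ 60) (by norm_num) (by fun_prop)
    (show (0 : ℝ) ∈ _ from ⟨by linarith, h1.le⟩)
  exact ⟨θ, h.1, h.2, by linarith⟩

theorem main : ∃ θ : ℝ, Rng θ ∧ cos (π / 6 + 2 * θ) + sin θ / 2 = 3 / 2 * sin (3 * θ) ∧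
    ∀ M : ℝ, 1 ≤ M →
      kap θ * (M - 1) / M ≤ c M ∧ c M ≤ kap θ * (M - 1) * (1 + 13 * (M - 1)) := by
  obtain ⟨θ, h1, h2, he⟩ := root
  have t1 : 1704 / 10000 ≤ θ := le_trans (by norm_num) h1
  have t2 : θ ≤ 17042 / 100000 := h2.trans (by norm_num)
  have hr : Rng θ := ⟨by linarith, by linarith⟩
  obtain ⟨E, hE, hd⟩ := exists_dfs (Kof []) (fun _ => θ) 1 ds ltds
  have h0 : E 0 = θ := hE 0 one_pos
  have hc := pos_of_go chk (E := E) (by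
    rw [h0, abs_le]
    rw [div_le_iff₀ (by positivity)] at h1
    rw [le_div_iff₀ (by positivity)] at h2
    push_cast
    constructor <;> linarith) hd
  have hD : Dual1 θ := h0 ▸ dual (mkH (h0 ▸ t1) (h0 ▸ t2) (h0 ▸ he) hd hc)
  refine ⟨θ, hr, he, fun M hM => ?_⟩
  have hu := fun v => up θ hr (bas θ hr) hD M v hM
  obtain ⟨v, hv, hl⟩ := low θ hr (bas θ hr) (prim θ hr (bas θ hr)) M hM
  rw [c_eq]
  have ub : ∀ a ∈ {a : ℝ | ∃ v, IsQS M v ∧ a = ‖Z v‖},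
      a ≤ kap θ * (M - 1) * (1 + 13 * (M - 1)) := by
    rintro a ⟨u, hu', rfl⟩
    exact hu u hu'
  exact ⟨hl.trans (le_csSup ⟨_, ub⟩ ⟨v, hv, rfl⟩), csSup_le ⟨_, v, hv, rfl⟩ ub⟩

end Pool.Agent.MP_e5b4ec_an.Sm
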