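import Pool.Agent.MP_e5b4ec_an.Sm.DD

set_option maxRecDepth 20000
set_option linter.unusedVariables false
set_option linter.unusedSimpArgs false

open Real

namespace Pool.Agent.MP_e5b4ec_an.Sm

open Mid

variable {E : ℕ → ℝ} {D : ℝ → ℝ}

theorem okUt (h : H E) : okU (((((1 : ℤ) : ℝ) / ((6 : ℕ) : ℝ)) * π) + ((((2 : ℤ) : ℝ) / ((1 : ℕ) : ℝ)) * (E 0))) (((-7988075507 / 75600000000 : ℝ) * π + (28577952943 / 6300000000 : ℝ) * E 0) + (1 : ℝ) * sin (((((1 : ℤ) : ℝ) / ((6 : ℕ) : ℝ)) * π) + ((((2 : ℤ) : ℝ) / ((1 : ℕ) : ℝ)) * (E 0))) + ((-8263492693 / 12600000000 : ℝ)) * (((((1 : ℤ) : ℝ) / ((6 : ℕ) : ℝ)) * π) + ((((2 : ℤ) : ℝ) / ((1 : ℕ) : ℝ)) * (E 0)))) (Ut E) := by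
  have p1 := pi_gt_d4
  have p2 := pi_lt_d4
  have t1 := h.t1
  have t2 := h.t2
  exact okU_c (by linarith only [p1, p2, t1, t2]) (mo1 (by linarith only [p1, p2, t1, t2]) (by linarith only [p1, p2, t1, t2])) le_rfl (by linarith only [(P0 h).2.2.2.2.2.1]) (by linarith only [(P0 h).2.2.2.2.2.2.1]) <|
    okU_c (by linarith only [p1, p2, t1, t2]) (mo1 (by linarith only [p1, p2, t1, t2]) (by linarith only [p1, p2, t1, t2])) (le_of_tie (by ring)) (by linarith only [(P0 h).2.2.2.2.2.2.2.1]) (by linarith only [(P0 h).2.2.2.2.2.2.2.2.1]) <|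
    okU_c (by linarith only [p1, p2, t1, t2]) (mo1 (by linarith only [p1, p2, t1, t2]) (by linarith only [p1, p2, t1, t2])) (le_of_tie (by ring)) (by linarith only [(P0 h).2.2.2.2.2.2.2.2.2.1]) (by linarith only [(P0 h).2.2.2.2.2.2.2.2.2.2.1]) <|
    nn_of_eq (P0 h).2.2.2.2.2.2.2.2.2.2.2.1 (by ring)

theorem mUt (E : ℕ → ℝ) : pm (((((1 : ℤ) : ℝ) / ((6 : ℕ) : ℝ)) * π) + ((((2 : ℤ) : ℝ) / ((1 : ℕ) : ℝ)) * (E 0))) (Ut E) = ((55452537509 / 17010000000 : ℝ) * π * E 0 + (-55452537509 / 510300000000 : ℝ) * π ^ 2 + (-55452537509 / 2268000000 : ℝ) * E 0 ^ 2 + (-1 : ℝ) * cos (((((1 : ℤ) : ℝ) / ((2 : ℕ) : ℝ)) * π) + ((((-3 : ℤ) : ℝ) / ((1 : ℕ) : ℝ)) * (E 0))) + (1 : ℝ) * cos (((((1 : ℤ) : ℝ) / ((6 : ℕ) : ℝ)) * π) + ((((2 : ℤ)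 : ℝ) / ((1 : ℕ) : ℝ)) * (E 0)))) := by
  simp only [Ut, pm]
  ring

theorem qUt (E : ℕ → ℝ) : pq (((((1 : ℤ) : ℝ) / ((6 : ℕ) : ℝ)) * π) + ((((2 : ℤ) : ℝ) / ((1 : ℕ) : ℝ)) * (E 0))) (Ut E) = ((-758993430563 / 68040000000 : ℝ) * π * E 0 ^ 2 + (-1 / 2 : ℝ) * π * cos (((((1 : ℤ) : ℝ) / ((2 : ℕ) : ℝ)) * π) + ((((-3 : ℤ) : ℝ) / ((1 : ℕ) : ℝ)) * (E 0))) + (1 / 6 : ℝ) * π * cos (((((1 : ℤ) : ℝ) / ((6 : ℕ) : ℝ)) * π) + ((((2 : ℤ) : ℝ) / ((1 : ℕ) : ℝ)) * (E 0))) + (11232734537 / 9112500000 : ℝ) * π ^ 2 * E 0 + (-70285564229 / 1837080000000 : ℝ) * π ^ 3 + (3 : ℝ) * E 0 * cos (((((1 : ℤ) : ℝ) / ((2 : ℕ) : ℝ)) * π) + ((((-3 : ℤ) : ℝ) / ((1 : ℕ) : ℝ)) * (E 0))) + (2 : ℝ) * E 0 * cos (((((1 : ℤ) : ℝ) / ((6 : ℕ) : ℝ)) * π) + ((((2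 : ℤ) : ℝ) / ((1 : ℕ) : ℝ)) * (E 0))) + (129960296491 / 6804000000 : ℝ) * E 0 ^ 3 + (1 : ℝ) * sin (((((1 : ℤ) : ℝ) / ((2 : ℕ) : ℝ)) * π) + ((((-3 : ℤ) : ℝ) / ((1 : ℕ) : ℝ)) * (E 0))) + (-1 : ℝ) * sin (((((1 : ℤ) : ℝ) / ((6 : ℕ) : ℝ)) * π) + ((((2 : ℤ) : ℝ) / ((1 : ℕ) : ℝ)) * (E 0)))) := by
  simp only [Ut, pq]
  ring

theorem vUt (A : Adm1 (E 0) D) : pv D (((((1 : ℤ) : ℝ) / ((6 : ℕ) : ℝ)) * π) + ((((2 : ℤ) : ℝ) / ((1 : ℕ) : ℝ)) * (E 0))) (Ut E) = ((-313332737 / 2016000000 : ℝ) * π * KK D (((((1 : ℤ) : ℝ) / ((2 : ℕ) : ℝ)) * π) + ((((-3 : ℤ) : ℝ) / ((1 : ℕ) : ℝ)) * (E 0))) + (7988075507 / 75600000000 : ℝ) * π * KK D (((((1 : ℤ) : ℝ) / ((6 : ℕ) : ℝ)) * π) + ((((2 : ℤ) : ℝ) / ((1 : ℕ) : ℝ)) * (E 0))) + (-1696340903 / 90720000000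 : ℝ) * π * KK D (((((5 : ℤ) : ℝ) / ((18 : ℕ) : ℝ)) * π) + ((((1 : ℤ) : ℝ) / ((3 : ℕ) : ℝ)) * (E 0))) + (2218079807 / 32400000000 : ℝ) * π * KK D (((((7 : ℤ) : ℝ) / ((18 : ℕ) : ℝ)) * π) + ((((-4 : ℤ) : ℝ) / ((3 : ℕ) : ℝ)) * (E 0))) + (1610561843 / 336000000 : ℝ) * E 0 * KK D (((((1 : ℤ) : ℝ) / ((2 : ℕ) : ℝ)) * π) + ((((-3 : ℤ) : ℝ) / ((1 : ℕ) : ℝ)) * (E 0))) + (-28577952943 / 6300000000 : ℝ) * E 0 * KK D (((((1 : ℤ) : ℝ) / ((6 : ℕ) : ℝ)) * π) + ((((2 : ℤ) : ℝ) / ((1 : ℕ) : ℝ)) * (E 0))) + (-1696340903 / 75600000000 : ℝ) * E 0 * KK D (((((5 : ℤ) : ℝ) / ((18 : ℕ) : ℝ)) * π) + ((((1 : ℤ) : ℝ) / ((3 : ℕ) : ℝ)) * (E 0))) + (-2218079807 / 9450000000 : ℝ) * E 0 * KK D (((((7 : ℤ) : ℝ) / ((18 : ℕ) : ℝ)) * π) + ((((-4 : ℤ)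 : ℝ) / ((3 : ℕ) : ℝ)) * (E 0))) + (1 : ℝ) * SS D (((((1 : ℤ) : ℝ) / ((2 : ℕ) : ℝ)) * π) + ((((-3 : ℤ) : ℝ) / ((1 : ℕ) : ℝ)) * (E 0))) + (-1 : ℝ) * SS D (((((1 : ℤ) : ℝ) / ((6 : ℕ) : ℝ)) * π) + ((((2 : ℤ) : ℝ) / ((1 : ℕ) : ℝ)) * (E 0))) + (-183828889 / 336000000 : ℝ) * TT D (((((1 : ℤ) : ℝ) / ((2 : ℕ) : ℝ)) * π) + ((((-3 : ℤ) : ℝ) / ((1 : ℕ) : ℝ)) * (E 0))) + (8263492693 / 12600000000 : ℝ) * TT D (((((1 : ℤ) : ℝ) / ((6 : ℕ) : ℝ)) * π) + ((((2 : ℤ) : ℝ) / ((1 : ℕ) : ℝ)) * (E 0))) + (1696340903 / 25200000000 : ℝ) * TT D (((((5 : ℤ) : ℝ) / ((18 : ℕ) : ℝ)) * π) + ((((1 : ℤ) : ℝ) / ((3 : ℕ) : ℝ)) * (E 0))) + (-2218079807 / 12600000000 : ℝ) * TT D (((((7 : ℤ) : ℝ) / ((18 : ℕ) : ℝ)) * π) + ((((-4 : ℤ) : ℝ) / ((3 : ℕ) : ℝ))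 * (E 0)))) := by
  simp only [Ut, pv]
  ring

theorem okUv (h : H E) : okU ((((5 : ℤ) : ℝ) / ((6 : ℕ) : ℝ)) * π) (((-756187573 / 720000000 : ℝ) * π + (205329 / 40000 : ℝ) * E 0) + (1 : ℝ) * sin ((((5 : ℤ) : ℝ) / ((6 : ℕ) : ℝ)) * π) + ((509792773 / 600000000 : ℝ)) * ((((5 : ℤ) : ℝ) / ((6 : ℕ) : ℝ)) * π)) (Uv E) := by
  have p1 := pi_gt_d4
  have p2 := pi_lt_d4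
  have t1 := h.t1
  have t2 := h.t2
  exact okU_c (by linarith only [p1, p2, t1, t2]) (mo1 (by linarith only [p1, p2, t1, t2]) (by linarith only [p1, p2, t1, t2])) le_rfl (by linarith only [(P0 h).2.2.2.2.2.2.2.2.2.2.2.2.1]) (by linarith only [(P0 h).2.2.2.2.2.2.2.2.2.2.2.2.2.1]) <|
    okU_c (by linarith only [p1, p2, t1, t2]) (mo1 (by linarith only [p1, p2, t1, t2]) (by linarith only [p1, p2, t1, t2])) (le_of_tie (by ring)) (by linarith only [(P0 h).2.2.2.2.2.2.2.2.2.2.2.2.2.2.1]) (by linarith only [(P0 h).2.2.2.2.2.2.2.2.2.2.2.2.2.2.2.1]) <|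
    okU_c (by linarith only [p1, p2, t1, t2]) (mo1 (by linarith only [p1, p2, t1, t2]) (by linarith only [p1, p2, t1, t2])) (le_of_tie (by ring)) (by linarith only [(P1 h).1]) (by linarith only [(P1 h).2.1]) <|
    okU_c (by linarith only [p1, p2, t1, t2]) (mo1 (by linarith only [p1, p2, t1, t2]) (by linarith only [p1, p2, t1, t2])) (le_of_jump (P1 h).2.2.1 (by ring)) (by linarith only [(P1 h).2.2.2.1]) (by linarith only [(P1 h).2.2.2.2.1]) <|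
    okU_c (by linarith only [p1, p2, t1, t2]) (mo1 (by linarith only [p1, p2, t1, t2]) (by linarith only [p1, p2, t1, t2])) (le_of_jump (P1 h).2.2.2.2.2.1 (by ring)) (by linarith only [(P1 h).2.2.2.2.2.2.1]) (by linarith only [(P1 h).2.2.2.2.2.2.2.1]) <|
    okU_c (by linarith only [p1, p2, t1, t2]) (mo1 (by linarith only [p1, p2, t1, t2]) (by linarith only [p1, p2, t1, t2])) (le_of_tie (by ring)) (by linarith only [(P1 h).2.2.2.2.2.2.2.2.1]) (by linarith only [(P1 h).2.2.2.2.2.2.2.2.2.1]) <|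
    okU_c (by linarith only [p1, p2, t1, t2]) (mo1 (by linarith only [p1, p2, t1, t2]) (by linarith only [p1, p2, t1, t2])) (le_of_tie (by ring)) (by linarith only [(P1 h).2.2.2.2.2.2.2.2.2.2.1]) (by linarith only [(P1 h).2.2.2.2.2.2.2.2.2.2.2.1]) <|
    okU_c (by linarith only [p1, p2, t1, t2]) (mo1 (by linarith only [p1, p2, t1, t2]) (by linarith only [p1, p2, t1, t2])) (le_of_tie (by ring)) (by linarith only [(P1 h).2.2.2.2.2.2.2.2.2.2.2.2.1]) (by linarith only [(P1 h).2.2.2.2.2.2.2.2.2.2.2.2.2.1]) <|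
    okU_c (by linarith only [p1, p2, t1, t2]) (mo1 (by linarith only [p1, p2, t1, t2]) (by linarith only [p1, p2, t1, t2])) (le_of_jump (P1 h).2.2.2.2.2.2.2.2.2.2.2.2.2.2.1 (by ring)) (by linarith only [(P1 h).2.2.2.2.2.2.2.2.2.2.2.2.2.2.2.1]) (by linarith only [(P2 h).1]) <|
    okU_c (by linarith only [p1, p2, t1, t2]) (mo1 (by linarith only [p1, p2, t1, t2]) (by linarith only [p1, p2, t1, t2])) (le_of_tie (by ring)) (by linarith only [(P2 h).2.1]) (by linarith only [(P2 h).2.2.1]) <|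
    okU_c (by linarith only [p1, p2, t1, t2]) (mo1 (by linarith only [p1, p2, t1, t2]) (by linarith only [p1, p2, t1, t2])) (le_of_tie (by ring)) (by linarith only [(P2 h).2.2.2.1]) (by linarith only [(P2 h).2.2.2.2.1]) <|
    okU_c (by linarith only [p1, p2, t1, t2]) (mo1 (by linarith only [p1, p2, t1, t2]) (by linarith only [p1, p2, t1, t2])) (le_of_tie (by ring)) (by linarith only [(P2 h).2.2.2.2.2.1]) (by linarith only [(P2 h).2.2.2.2.2.2.1]) <|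
    okU_c (by linarith only [p1, p2, t1, t2]) (mo1 (by linarith only [p1, p2, t1, t2]) (by linarith only [p1, p2, t1, t2])) (le_of_tie (by ring)) (by linarith only [(P2 h).2.2.2.2.2.2.2.1]) (by linarith only [(P2 h).2.2.2.2.2.2.2.2.1]) <|
    okU_c (by linarith only [p1, p2, t1, t2]) (mo1 (by linarith only [p1, p2, t1, t2]) (by linarith only [p1, p2, t1, t2])) (le_of_tie (by ring)) (by linarith only [(P2 h).2.2.2.2.2.2.2.2.2.1]) (by linarith only [(P2 h).2.2.2.2.2.2.2.2.2.2.1]) <|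
    okU_c (by linarith only [p1, p2, t1, t2]) (mo1 (by linarith only [p1, p2, t1, t2]) (by linarith only [p1, p2, t1, t2])) (le_of_tie (by ring)) (by linarith only [(P2 h).2.2.2.2.2.2.2.2.2.2.2.1]) (by linarith only [(P2 h).2.2.2.2.2.2.2.2.2.2.2.2.1]) <|
    okU_c (by linarith only [p1, p2, t1, t2]) (mo1 (by linarith only [p1, p2, t1, t2]) (by linarith only [p1, p2, t1, t2])) (le_of_tie (by ring)) (by linarith only [(P2 h).2.2.2.2.2.2.2.2.2.2.2.2.2.1]) (by linarith only [(P2 h).2.2.2.2.2.2.2.2.2.2.2.2.2.2.1]) <|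
    okU_c (by linarith only [p1, p2, t1, t2]) (mo1 (by linarith only [p1, p2, t1, t2]) (by linarith only [p1, p2, t1, t2])) (le_of_tie (by ring)) (by linarith only [(P2 h).2.2.2.2.2.2.2.2.2.2.2.2.2.2.2.1]) (by linarith only [(P3 h).1]) <|
    okU_c (by linarith only [p1, p2, t1, t2]) (mo1 (by linarith only [p1, p2, t1, t2]) (by linarith only [p1, p2, t1, t2])) (le_of_tie (by ring)) (by linarith only [(P3 h).2.1]) (by linarith only [(P3 h).2.2.1]) <|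
    okU_c (by linarith only [p1, p2, t1, t2]) (mo1 (by linarith only [p1, p2, t1, t2]) (by linarith only [p1, p2, t1, t2])) (le_of_tie (by ring)) (by linarith only [(P3 h).2.2.2.1]) (by linarith only [(P3 h).2.2.2.2.1]) <|
    okU_c (by linarith only [p1, p2, t1, t2]) (mo3 (by linarith only [p1, p2, t1, t2]) (by linarith only [p1, p2, t1, t2])) (le_of_tie (by linear_combination ((1 : ℝ)) * hs)) (by linarith only [(P3 h).2.2.2.2.2.1]) (by linarith only [(P3 h).2.2.2.2.2.1]) <|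
    nn_of_zero (by ring)

theorem mUv (E : ℕ → ℝ) : pm ((((5 : ℤ) : ℝ) / ((6 : ℕ) : ℝ)) * π) (Uv E) = ((85192854167 / 34020000000 : ℝ) * π * E 0 + (-29 / 18 : ℝ) * π * E 0 * E 2 + (29 / 54 : ℝ) * π * E 0 * E 4 + (4 / 3 : ℝ) * π * E 0 * E 10 + (7 / 216 : ℝ) * π ^ 2 * E 2 + (-7 / 648 : ℝ) * π ^ 2 * E 4 + (-1 / 36 : ℝ) * π ^ 2 * E 10 + (-180361514581 / 2041200000000 : ℝ) * π ^ 2 + (56 / 3 : ℝ) * E 0 ^ 2 * E 2 + (-121 / 18 : ℝ) * E 0 ^ 2 * E 4 + (-16 : ℝ) * E 0 ^ 2 * E 10 + (-195800745347 / 11340000000 : ℝ) * E 0 ^ 2 + (-1 : ℝ) * cos ((((1 : ℤ) : ℝ) / ((1 : ℕ) : ℝ)) * π) + (1 : ℝ) * cos ((((5 : ℤ) : ℝ) / ((6 : ℕ) : ℝ)) * π)) := by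
  simp only [Uv, pm]
  ring

theorem qUv (E : ℕ → ℝ) : pq ((((5 : ℤ) : ℝ) / ((6 : ℕ) : ℝ)) * π) (Uv E) = ((-1878176389417 / 68040000000 : ℝ) * π * E 0 ^ 2 + (227 / 12 : ℝ) * π * E 0 ^ 2 * E 2 + (-121 / 18 : ℝ) * π * E 0 ^ 2 * E 4 + (-16 : ℝ) * π * E 0 ^ 2 * E 10 + (-1 : ℝ) * π * cos ((((1 : ℤ) : ℝ) / ((1 : ℕ) : ℝ)) * π) + (5 / 6 : ℝ) * π * cos ((((5 : ℤ) : ℝ) / ((6 : ℕ) : ℝ)) * π) + (302543327767 / 102060000000 : ℝ) * π ^ 2 * E 0 + (-29 / 18 : ℝ) * π ^ 2 * E 0 * E 2 + (29 / 54 : ℝ) * π ^ 2 * E 0 * E 4 + (4 / 3 : ℝ) * π ^ 2 * E 0 * E 10 + (7 / 216 : ℝ) * π ^ 3 * E 2 + (-7 / 648 : ℝ) * π ^ 3 * E 4 + (-1 / 36 : ℝ) * π ^ 3 * E 10 + (-1715157273523 / 18370800000000 : ℝ) * π ^ 3 + (-14 / 3 : ℝ) * E 0 ^ 3 * E 2 + (8 / 9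 : ℝ) * E 0 ^ 3 * E 4 + (463743467951 / 6804000000 : ℝ) * E 0 ^ 3 + (1 : ℝ) * sin ((((1 : ℤ) : ℝ) / ((1 : ℕ) : ℝ)) * π) + (-1 : ℝ) * sin ((((5 : ℤ) : ℝ) / ((6 : ℕ) : ℝ)) * π)) := by
  simp only [Uv, pq]
  ring

theorem vUv (A : Adm1 (E 0) D) : pv D ((((5 : ℤ) : ℝ) / ((6 : ℕ) : ℝ)) * π) (Uv E) = ((-1 / 6 : ℝ) * π * E 2 * KK D (((((-1 : ℤ) : ℝ) / ((6 : ℕ) : ℝ)) * π) + ((((4 : ℤ) : ℝ) / ((1 : ℕ) : ℝ)) * (E 0))) + (-1 / 36 : ℝ) * π * E 2 * KK D (((((-1 : ℤ) : ℝ) / ((6 : ℕ) : ℝ)) * π) + ((((5 : ℤ) : ℝ) / ((1 : ℕ) : ℝ)) * (E 0))) + (-2 / 9 : ℝ) * π * E 2 * KK D (((((1 : ℤ) : ℝ) / ((6 : ℕ) : ℝ)) * π) + ((((-2 : ℤ) : ℝ) / ((1 : ℕ) : ℝ)) * (E 0))) + (5 / 12 : ℝ) * π * E 2 * KK D (((((1 : ℤ) : ℝ) / ((6 : ℕ) : ℝ)) * π) + ((((-3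 : ℤ) : ℝ) / ((1 : ℕ) : ℝ)) * (E 0))) + (1 / 18 : ℝ) * π * E 4 * KK D (((((-1 : ℤ) : ℝ) / ((6 : ℕ) : ℝ)) * π) + ((((4 : ℤ) : ℝ) / ((1 : ℕ) : ℝ)) * (E 0))) + (1 / 108 : ℝ) * π * E 4 * KK D (((((-1 : ℤ) : ℝ) / ((6 : ℕ) : ℝ)) * π) + ((((5 : ℤ) : ℝ) / ((1 : ℕ) : ℝ)) * (E 0))) + (1 / 6 : ℝ) * π * E 4 * KK D (((((1 : ℤ) : ℝ) / ((6 : ℕ) : ℝ)) * π) + ((((-1 : ℤ) : ℝ) / ((1 : ℕ) : ℝ)) * (E 0))) + (-5 / 54 : ℝ) * π * E 4 * KK D (((((1 : ℤ) : ℝ) / ((6 : ℕ) : ℝ)) * π) + ((((-2 : ℤ) : ℝ) / ((1 : ℕ) : ℝ)) * (E 0))) + (-5 / 36 : ℝ) * π * E 4 * KK D (((((1 : ℤ) : ℝ) / ((6 : ℕ) : ℝ)) * π) + ((((-3 : ℤ) : ℝ) / ((1 : ℕ) : ℝ)) * (E 0))) + (2667251 / 216000000 : ℝ) * π * KK D (((((-1 : ℤ) : ℝ) / ((18 : ℕ) : ℝ)) * π) + ((((10 : ℤ) : ℝ)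 / ((3 : ℕ) : ℝ)) * (E 0))) + (90539 / 2400000 : ℝ) * π * KK D (((((-1 : ℤ) : ℝ) / ((2 : ℕ) : ℝ)) * π) + ((((10 : ℤ) : ℝ) / ((1 : ℕ) : ℝ)) * (E 0))) + (-44607401 / 1008000000 : ℝ) * π * KK D (((((-1 : ℤ) : ℝ) / ((6 : ℕ) : ℝ)) * π) + ((((4 : ℤ) : ℝ) / ((1 : ℕ) : ℝ)) * (E 0))) + (20548471 / 600000000 : ℝ) * π * KK D (((((-1 : ℤ) : ℝ) / ((6 : ℕ) : ℝ)) * π) + ((((5 : ℤ) : ℝ) / ((1 : ℕ) : ℝ)) * (E 0))) + (-131483 / 108000000 : ℝ) * π * KK D (((((-11 : ℤ) : ℝ) / ((18 : ℕ) : ℝ)) * π) + ((((35 : ℤ) : ℝ) / ((3 : ℕ) : ℝ)) * (E 0))) + (-4380857 / 288000000 : ℝ) * π * KK D (((((-13 : ℤ) : ℝ) / ((18 : ℕ) : ℝ)) * π) + ((((40 : ℤ) : ℝ) / ((3 : ℕ) : ℝ)) * (E 0))) + (-79789979 / 2268000000 : ℝ) * π * KK D (((((-5 : ℤ) : ℝ) / ((18 :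 ℕ) : ℝ)) * π) + ((((17 : ℤ) : ℝ) / ((3 : ℕ) : ℝ)) * (E 0))) + (-84234173 / 518400000 : ℝ) * π * KK D (((((-5 : ℤ) : ℝ) / ((18 : ℕ) : ℝ)) * π) + ((((20 : ℤ) : ℝ) / ((3 : ℕ) : ℝ)) * (E 0))) + (318344119 / 2160000000 : ℝ) * π * KK D (((((-7 : ℤ) : ℝ) / ((18 : ℕ) : ℝ)) * π) + ((((22 : ℤ) : ℝ) / ((3 : ℕ) : ℝ)) * (E 0))) + (99504671 / 432000000 : ℝ) * π * KK D (((((-7 : ℤ) : ℝ) / ((18 : ℕ) : ℝ)) * π) + ((((25 : ℤ) : ℝ) / ((3 : ℕ) : ℝ)) * (E 0))) + (26903153 / 10800000000 : ℝ) * π * KK D (((((1 : ℤ) : ℝ) / ((18 : ℕ) : ℝ)) * π) + ((((5 : ℤ) : ℝ) / ((3 : ℕ) : ℝ)) * (E 0))) + (-47483293 / 2520000000 : ℝ) * π * KK D (((((1 : ℤ) : ℝ) / ((2 : ℕ) : ℝ)) * π) + ((((-9 : ℤ) : ℝ) / ((1 : ℕ) : ℝ)) * (E 0))) + (8203 / 187500 : ℝ) * π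 * KK D (((((1 : ℤ) : ℝ) / ((6 : ℕ) : ℝ)) * π) + ((((-1 : ℤ) : ℝ) / ((1 : ℕ) : ℝ)) * (E 0))) + (-513299 / 6000000 : ℝ) * π * KK D (((((1 : ℤ) : ℝ) / ((6 : ℕ) : ℝ)) * π) + ((((-2 : ℤ) : ℝ) / ((1 : ℕ) : ℝ)) * (E 0))) + (39793 / 600000 : ℝ) * π * KK D (((((1 : ℤ) : ℝ) / ((6 : ℕ) : ℝ)) * π) + ((((-3 : ℤ) : ℝ) / ((1 : ℕ) : ℝ)) * (E 0))) + (-722181227 / 3600000000 : ℝ) * π * KK D ((((1 : ℤ) : ℝ) / ((6 : ℕ) : ℝ)) * π) + (-1788611 / 50400000 : ℝ) * π * KK D (((((11 : ℤ) : ℝ) / ((18 : ℕ) : ℝ)) * π) + ((((-32 : ℤ) : ℝ) / ((3 : ℕ) : ℝ)) * (E 0))) + (-91049251 / 2268000000 : ℝ) * π * KK D (((((13 : ℤ) : ℝ) / ((18 : ℕ) : ℝ)) * π) + ((((-37 : ℤ) : ℝ) / ((3 : ℕ) : ℝ)) * (E 0))) + (10430299 / 162000000 : ℝ) * π * KK D (((((17 : ℤ)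 : ℝ) / ((18 : ℕ) : ℝ)) * π) + ((((-50 : ℤ) : ℝ) / ((3 : ℕ) : ℝ)) * (E 0))) + (4 : ℝ) * E 0 * E 2 * KK D (((((-1 : ℤ) : ℝ) / ((6 : ℕ) : ℝ)) * π) + ((((4 : ℤ) : ℝ) / ((1 : ℕ) : ℝ)) * (E 0))) + (5 / 6 : ℝ) * E 0 * E 2 * KK D (((((-1 : ℤ) : ℝ) / ((6 : ℕ) : ℝ)) * π) + ((((5 : ℤ) : ℝ) / ((1 : ℕ) : ℝ)) * (E 0))) + (8 / 3 : ℝ) * E 0 * E 2 * KK D (((((1 : ℤ) : ℝ) / ((6 : ℕ) : ℝ)) * π) + ((((-2 : ℤ) : ℝ) / ((1 : ℕ) : ℝ)) * (E 0))) + (-15 / 2 : ℝ) * E 0 * E 2 * KK D (((((1 : ℤ) : ℝ) / ((6 : ℕ) : ℝ)) * π) + ((((-3 : ℤ) : ℝ) / ((1 : ℕ) : ℝ)) * (E 0))) + (-4 / 3 : ℝ) * E 0 * E 4 * KK D (((((-1 : ℤ) : ℝ) / ((6 : ℕ) : ℝ)) * π) + ((((4 : ℤ) : ℝ) / ((1 : ℕ) : ℝ)) * (E 0))) + (-5 / 18 : ℝ) * E 0 * E 4 * KK D (((((-1 : ℤ) : ℝ) / ((6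 : ℕ) : ℝ)) * π) + ((((5 : ℤ) : ℝ) / ((1 : ℕ) : ℝ)) * (E 0))) + (-2 : ℝ) * E 0 * E 4 * KK D (((((1 : ℤ) : ℝ) / ((6 : ℕ) : ℝ)) * π) + ((((-1 : ℤ) : ℝ) / ((1 : ℕ) : ℝ)) * (E 0))) + (10 / 9 : ℝ) * E 0 * E 4 * KK D (((((1 : ℤ) : ℝ) / ((6 : ℕ) : ℝ)) * π) + ((((-2 : ℤ) : ℝ) / ((1 : ℕ) : ℝ)) * (E 0))) + (5 / 2 : ℝ) * E 0 * E 4 * KK D (((((1 : ℤ) : ℝ) / ((6 : ℕ) : ℝ)) * π) + ((((-3 : ℤ) : ℝ) / ((1 : ℕ) : ℝ)) * (E 0))) + (-2667251 / 3600000 : ℝ) * E 0 * KK D (((((-1 : ℤ) : ℝ) / ((18 : ℕ) : ℝ)) * π) + ((((10 : ℤ) : ℝ) / ((3 : ℕ) : ℝ)) * (E 0))) + (-90539 / 120000 : ℝ) * E 0 * KK D (((((-1 : ℤ) : ℝ) / ((2 : ℕ) : ℝ)) * π) + ((((10 : ℤ) : ℝ) / ((1 : ℕ) : ℝ)) * (E 0))) + (44607401 / 42000000 : ℝ) * E 0 * KK D (((((-1 : ℤ) : ℝ) /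 ((6 : ℕ) : ℝ)) * π) + ((((4 : ℤ) : ℝ) / ((1 : ℕ) : ℝ)) * (E 0))) + (-107334953 / 60000000 : ℝ) * E 0 * KK D (((((-1 : ℤ) : ℝ) / ((6 : ℕ) : ℝ)) * π) + ((((5 : ℤ) : ℝ) / ((1 : ℕ) : ℝ)) * (E 0))) + (83671 / 3600000 : ℝ) * E 0 * KK D (((((-11 : ℤ) : ℝ) / ((18 : ℕ) : ℝ)) * π) + ((((35 : ℤ) : ℝ) / ((3 : ℕ) : ℝ)) * (E 0))) + (336989 / 1200000 : ℝ) * E 0 * KK D (((((-13 : ℤ) : ℝ) / ((18 : ℕ) : ℝ)) * π) + ((((40 : ℤ) : ℝ) / ((3 : ℕ) : ℝ)) * (E 0))) + (1356429643 / 1890000000 : ℝ) * E 0 * KK D (((((-5 : ℤ) : ℝ) / ((18 : ℕ) : ℝ)) * π) + ((((17 : ℤ) : ℝ) / ((3 : ℕ) : ℝ)) * (E 0))) + (84234173 / 21600000 : ℝ) * E 0 * KK D (((((-5 : ℤ) : ℝ) / ((18 : ℕ) : ℝ)) * π) + ((((20 : ℤ) : ℝ) / ((3 : ℕ) : ℝ)) * (E 0))) + (-3501785309 / 1260000000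 : ℝ) * E 0 * KK D (((((-7 : ℤ) : ℝ) / ((18 : ℕ) : ℝ)) * π) + ((((22 : ℤ) : ℝ) / ((3 : ℕ) : ℝ)) * (E 0))) + (-14214953 / 2880000 : ℝ) * E 0 * KK D (((((-7 : ℤ) : ℝ) / ((18 : ℕ) : ℝ)) * π) + ((((25 : ℤ) : ℝ) / ((3 : ℕ) : ℝ)) * (E 0))) + (26903153 / 360000000 : ℝ) * E 0 * KK D (((((1 : ℤ) : ℝ) / ((18 : ℕ) : ℝ)) * π) + ((((5 : ℤ) : ℝ) / ((3 : ℕ) : ℝ)) * (E 0))) + (47483293 / 140000000 : ℝ) * E 0 * KK D (((((1 : ℤ) : ℝ) / ((2 : ℕ) : ℝ)) * π) + ((((-9 : ℤ) : ℝ) / ((1 : ℕ) : ℝ)) * (E 0))) + (-8203 / 15625 : ℝ) * E 0 * KK D (((((1 : ℤ) : ℝ) / ((6 : ℕ) : ℝ)) * π) + ((((-1 : ℤ) : ℝ) / ((1 : ℕ) : ℝ)) * (E 0))) + (513299 / 500000 : ℝ) * E 0 * KK D (((((1 : ℤ) : ℝ) / ((6 : ℕ) : ℝ)) * π) + ((((-2 : ℤ) : ℝ) / ((1 : ℕ) : ℝ)) * (E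 0))) + (-119379 / 100000 : ℝ) * E 0 * KK D (((((1 : ℤ) : ℝ) / ((6 : ℕ) : ℝ)) * π) + ((((-3 : ℤ) : ℝ) / ((1 : ℕ) : ℝ)) * (E 0))) + (205329 / 40000 : ℝ) * E 0 * KK D ((((1 : ℤ) : ℝ) / ((6 : ℕ) : ℝ)) * π) + (162601 / 262500 : ℝ) * E 0 * KK D (((((11 : ℤ) : ℝ) / ((18 : ℕ) : ℝ)) * π) + ((((-32 : ℤ) : ℝ) / ((3 : ℕ) : ℝ)) * (E 0))) + (64025197 / 94500000 : ℝ) * E 0 * KK D (((((13 : ℤ) : ℝ) / ((18 : ℕ) : ℝ)) * π) + ((((-37 : ℤ) : ℝ) / ((3 : ℕ) : ℝ)) * (E 0))) + (-613547 / 540000 : ℝ) * E 0 * KK D (((((17 : ℤ) : ℝ) / ((18 : ℕ) : ℝ)) * π) + ((((-50 : ℤ) : ℝ) / ((3 : ℕ) : ℝ)) * (E 0))) + (-1 : ℝ) * E 2 * TT D (((((-1 : ℤ) : ℝ) / ((6 : ℕ) : ℝ)) * π) + ((((4 : ℤ) : ℝ) / ((1 : ℕ) : ℝ)) * (E 0))) + (-1 / 6 : ℝ) * E 2 * TT D (((((-1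 : ℤ) : ℝ) / ((6 : ℕ) : ℝ)) * π) + ((((5 : ℤ) : ℝ) / ((1 : ℕ) : ℝ)) * (E 0))) + (4 / 3 : ℝ) * E 2 * TT D (((((1 : ℤ) : ℝ) / ((6 : ℕ) : ℝ)) * π) + ((((-2 : ℤ) : ℝ) / ((1 : ℕ) : ℝ)) * (E 0))) + (-5 / 2 : ℝ) * E 2 * TT D (((((1 : ℤ) : ℝ) / ((6 : ℕ) : ℝ)) * π) + ((((-3 : ℤ) : ℝ) / ((1 : ℕ) : ℝ)) * (E 0))) + (1 / 3 : ℝ) * E 4 * TT D (((((-1 : ℤ) : ℝ) / ((6 : ℕ) : ℝ)) * π) + ((((4 : ℤ) : ℝ) / ((1 : ℕ) : ℝ)) * (E 0))) + (1 / 18 : ℝ) * E 4 * TT D (((((-1 : ℤ) : ℝ) / ((6 : ℕ) : ℝ)) * π) + ((((5 : ℤ) : ℝ) / ((1 : ℕ) : ℝ)) * (E 0))) + (-1 : ℝ) * E 4 * TT D (((((1 : ℤ) : ℝ) / ((6 : ℕ) : ℝ)) * π) + ((((-1 : ℤ) : ℝ) / ((1 : ℕ) : ℝ)) * (E 0))) + (5 / 9 : ℝ) * E 4 * TT D (((((1 : ℤ) : ℝ) / ((6 : ℕ) : ℝ)) * π) + ((((-2 : ℤ) : ℝ) /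 ((1 : ℕ) : ℝ)) * (E 0))) + (5 / 6 : ℝ) * E 4 * TT D (((((1 : ℤ) : ℝ) / ((6 : ℕ) : ℝ)) * π) + ((((-3 : ℤ) : ℝ) / ((1 : ℕ) : ℝ)) * (E 0))) + (1 : ℝ) * SS D ((((1 : ℤ) : ℝ) / ((6 : ℕ) : ℝ)) * π) + (2667251 / 12000000 : ℝ) * TT D (((((-1 : ℤ) : ℝ) / ((18 : ℕ) : ℝ)) * π) + ((((10 : ℤ) : ℝ) / ((3 : ℕ) : ℝ)) * (E 0))) + (90539 / 1200000 : ℝ) * TT D (((((-1 : ℤ) : ℝ) / ((2 : ℕ) : ℝ)) * π) + ((((10 : ℤ) : ℝ) / ((1 : ℕ) : ℝ)) * (E 0))) + (-44607401 / 168000000 : ℝ) * TT D (((((-1 : ℤ) : ℝ) / ((6 : ℕ) : ℝ)) * π) + ((((4 : ℤ) : ℝ) / ((1 : ℕ) : ℝ)) * (E 0))) + (166911013 / 300000000 : ℝ) * TT D (((((-1 : ℤ) : ℝ) / ((6 : ℕ) : ℝ)) * π) + ((((5 : ℤ) : ℝ) / ((1 : ℕ) : ℝ)) * (E 0))) + (-11953 / 6000000 : ℝ) * TT D (((((-11 : ℤ) : ℝ)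 / ((18 : ℕ) : ℝ)) * π) + ((((35 : ℤ) : ℝ) / ((3 : ℕ) : ℝ)) * (E 0))) + (-336989 / 16000000 : ℝ) * TT D (((((-13 : ℤ) : ℝ) / ((18 : ℕ) : ℝ)) * π) + ((((40 : ℤ) : ℝ) / ((3 : ℕ) : ℝ)) * (E 0))) + (-79789979 / 630000000 : ℝ) * TT D (((((-5 : ℤ) : ℝ) / ((18 : ℕ) : ℝ)) * π) + ((((17 : ℤ) : ℝ) / ((3 : ℕ) : ℝ)) * (E 0))) + (-84234173 / 144000000 : ℝ) * TT D (((((-5 : ℤ) : ℝ) / ((18 : ℕ) : ℝ)) * π) + ((((20 : ℤ) : ℝ) / ((3 : ℕ) : ℝ)) * (E 0))) + (318344119 / 840000000 : ℝ) * TT D (((((-7 : ℤ) : ℝ) / ((18 : ℕ) : ℝ)) * π) + ((((22 : ℤ) : ℝ) / ((3 : ℕ) : ℝ)) * (E 0))) + (14214953 / 24000000 : ℝ) * TT D (((((-7 : ℤ) : ℝ) / ((18 : ℕ) : ℝ)) * π) + ((((25 : ℤ) : ℝ) / ((3 : ℕ) : ℝ)) * (E 0))) + (-26903153 / 600000000 : ℝ) * TT D (((((1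 : ℤ) : ℝ) / ((18 : ℕ) : ℝ)) * π) + ((((5 : ℤ) : ℝ) / ((3 : ℕ) : ℝ)) * (E 0))) + (47483293 / 1260000000 : ℝ) * TT D (((((1 : ℤ) : ℝ) / ((2 : ℕ) : ℝ)) * π) + ((((-9 : ℤ) : ℝ) / ((1 : ℕ) : ℝ)) * (E 0))) + (-8203 / 31250 : ℝ) * TT D (((((1 : ℤ) : ℝ) / ((6 : ℕ) : ℝ)) * π) + ((((-1 : ℤ) : ℝ) / ((1 : ℕ) : ℝ)) * (E 0))) + (513299 / 1000000 : ℝ) * TT D (((((1 : ℤ) : ℝ) / ((6 : ℕ) : ℝ)) * π) + ((((-2 : ℤ) : ℝ) / ((1 : ℕ) : ℝ)) * (E 0))) + (-39793 / 100000 : ℝ) * TT D (((((1 : ℤ) : ℝ) / ((6 : ℕ) : ℝ)) * π) + ((((-3 : ℤ) : ℝ) / ((1 : ℕ) : ℝ)) * (E 0))) + (-509792773 / 600000000 : ℝ) * TT D ((((1 : ℤ) : ℝ) / ((6 : ℕ) : ℝ)) * π) + (162601 / 2800000 : ℝ) * TT D (((((11 : ℤ) : ℝ) / ((18 : ℕ) : ℝ)) * π) + ((((-32 : ℤ) : ℝ) / ((3 :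 ℕ) : ℝ)) * (E 0))) + (6328369 / 126000000 : ℝ) * TT D (((((13 : ℤ) : ℝ) / ((18 : ℕ) : ℝ)) * π) + ((((-37 : ℤ) : ℝ) / ((3 : ℕ) : ℝ)) * (E 0))) + (-613547 / 9000000 : ℝ) * TT D (((((17 : ℤ) : ℝ) / ((18 : ℕ) : ℝ)) * π) + ((((-50 : ℤ) : ℝ) / ((3 : ℕ) : ℝ)) * (E 0)))) := by
  simp only [Uv, pv]
  rw [(fo0 A).1, (fo0 A).2.1, (fo0 A).2.2, (fo1 A).1, (fo1 A).2.1, (fo1 A).2.2, (fo2 A).1, (fo2 A).2.1, (fo2 A).2.2, (fo3 A).1, (fo3 A).2.1, (fo3 A).2.2, (fo4 A).1, (fo4 A).2.1, (fo4 A).2.2, (fo5 A).1, (fo5 A).2.1, (fo5 A).2.2, (fo6 A).1, (fo6 A).2.1, (fo6 A).2.2, (fo7 A).1, (fo7 A).2.1, (fo7 A).2.2, (fo8 A).1, (fo8 A).2.1, (fo8 A).2.2, (fo9 A).1, (fo9 A).2.1, (fo9 A).2.2, (fo10 A).1, (fo10 A).2.1, (fo10 A).2.2, (fo11 A).1, (fo11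 A).2.1, (fo11 A).2.2, (fo12 A).1, (fo12 A).2.1, (fo12 A).2.2, (fo13 A).1, (fo13 A).2.1, (fo13 A).2.2, (fo14 A).1, (fo14 A).2.1, (fo14 A).2.2, (fo15 A).1, (fo15 A).2.1, (fo15 A).2.2, (fo16 A).1, (fo16 A).2.1, (fo16 A).2.2, (fo17 A).1, (fo17 A).2.1, (fo17 A).2.2, (fo18 A).1, (fo18 A).2.1, (fo18 A).2.2, (fo19 A).1, (fo19 A).2.1, (fo19 A).2.2, (fo20 A).1, (fo20 A).2.1, (fo20 A).2.2, (foldZ D hz).1, (foldZ D hz).2.1, (foldZ D hz).2.2]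
  ring

theorem okUx (h : H E) : okU (((((1 : ℤ) : ℝ) / ((2 : ℕ) : ℝ)) * π) + ((((-3 : ℤ) : ℝ) / ((1 : ℕ) : ℝ)) * (E 0))) (((1260712493 / 2520000000 : ℝ) * π + (-112549001 / 42000000 : ℝ) * E 0) + (1 / 2 : ℝ) * sin (((((1 : ℤ) : ℝ) / ((2 : ℕ) : ℝ)) * π) + ((((-3 : ℤ) : ℝ) / ((1 : ℕ) : ℝ)) * (E 0))) + ((-270172163 / 252000000 : ℝ)) * (((((1 : ℤ) : ℝ) / ((2 : ℕ) : ℝ)) * π) + ((((-3 : ℤ) : ℝ) / ((1 : ℕ) : ℝ)) * (E 0)))) (Ux E) := by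
  have p1 := pi_gt_d4
  have p2 := pi_lt_d4
  have t1 := h.t1
  have t2 := h.t2
  exact okU_c (by linarith only [p1, p2, t1, t2]) (mo1 (by linarith only [p1, p2, t1, t2]) (by linarith only [p1, p2, t1, t2])) le_rfl (by linarith only [(P3 h).2.2.2.2.2.2.1]) (by linarith only [(P3 h).2.2.2.2.2.2.2.1]) <|
    okU_c (by linarith only [p1, p2, t1, t2]) (mo1 (by linarith only [p1, p2, t1, t2]) (by linarith only [p1, p2, t1, t2])) (le_of_tie (by ring)) (by linarith only [(P3 h).2.2.2.2.2.2.2.2.1]) (by linarith only [(P3 h).2.2.2.2.2.2.2.2.2.1]) <|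
    okU_c (by linarith only [p1, p2, t1, t2]) (mo1 (by linarith only [p1, p2, t1, t2]) (by linarith only [p1, p2, t1, t2])) (le_of_tie (by ring)) (by linarith only [(P3 h).2.2.2.2.2.2.2.2.2.2.1]) (by linarith only [(P3 h).2.2.2.2.2.2.2.2.2.2.2.1]) <|
    okU_c (by linarith only [p1, p2, t1, t2]) (mo1 (by linarith only [p1, p2, t1, t2]) (by linarith only [p1, p2, t1, t2])) (le_of_tie (by ring)) (by linarith only [(P3 h).2.2.2.2.2.2.2.2.2.2.2.2.1]) (by linarith only [(P3 h).2.2.2.2.2.2.2.2.2.2.2.2.2.1]) <|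
    okU_c (by linarith only [p1, p2, t1, t2]) (mo1 (by linarith only [p1, p2, t1, t2]) (by linarith only [p1, p2, t1, t2])) (le_of_tie (by ring)) (by linarith only [(P3 h).2.2.2.2.2.2.2.2.2.2.2.2.2.2.1]) (by linarith only [(P3 h).2.2.2.2.2.2.2.2.2.2.2.2.2.2.2.1]) <|
    okU_c (by linarith only [p1, p2, t1, t2]) (mo1 (by linarith only [p1, p2, t1, t2]) (by linarith only [p1, p2, t1, t2])) (le_of_tie (by ring)) (by linarith only [(P4 h).1]) (by linarith only [(P4 h).2.1]) <|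
    okU_c (by linarith only [p1, p2, t1, t2]) (mo1 (by linarith only [p1, p2, t1, t2]) (by linarith only [p1, p2, t1, t2])) (le_of_tie (by ring)) (by linarith only [(P4 h).2.2.1]) (by linarith only [(P4 h).2.2.2.1]) <|
    okU_c (by linarith only [p1, p2, t1, t2]) (mo1 (by linarith only [p1, p2, t1, t2]) (by linarith only [p1, p2, t1, t2])) (le_of_tie (by ring)) (by linarith only [(P4 h).2.2.2.2.1]) (by linarith only [(P4 h).2.2.2.2.2.1]) <|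
    okU_c (by linarith only [p1, p2, t1, t2]) (mo1 (by linarith only [p1, p2, t1, t2]) (by linarith only [p1, p2, t1, t2])) (le_of_tie (by ring)) (by linarith only [(P4 h).2.2.2.2.2.2.1]) (by linarith only [(P4 h).2.2.2.2.2.2.2.1]) <|
    okU_c (by linarith only [p1, p2, t1, t2]) (mo1 (by linarith only [p1, p2, t1, t2]) (by linarith only [p1, p2, t1, t2])) (le_of_tie (by ring)) (by linarith only [(P4 h).2.2.2.2.2.2.2.2.1]) (by linarith only [(P4 h).2.2.2.2.2.2.2.2.2.1]) <|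
    okU_c (by linarith only [p1, p2, t1, t2]) (mo1 (by linarith only [p1, p2, t1, t2]) (by linarith only [p1, p2, t1, t2])) (le_of_tie (by ring)) (by linarith only [(P4 h).2.2.2.2.2.2.2.2.2.2.1]) (by linarith only [(P4 h).2.2.2.2.2.2.2.2.2.2.2.1]) <|
    okU_c (by linarith only [p1, p2, t1, t2]) (mo1 (by linarith only [p1, p2, t1, t2]) (by linarith only [p1, p2, t1, t2])) (le_of_tie (by ring)) (by linarith only [(P4 h).2.2.2.2.2.2.2.2.2.2.2.2.1]) (by linarith only [(P4 h).2.2.2.2.2.2.2.2.2.2.2.2.2.1]) <|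
    okU_c (by linarith only [p1, p2, t1, t2]) (mo1 (by linarith only [p1, p2, t1, t2]) (by linarith only [p1, p2, t1, t2])) (le_of_tie (by ring)) (by linarith only [(P4 h).2.2.2.2.2.2.2.2.2.2.2.2.2.2.1]) (by linarith only [(P4 h).2.2.2.2.2.2.2.2.2.2.2.2.2.2.2.1]) <|
    okU_c (by linarith only [p1, p2, t1, t2]) (mo1 (by linarith only [p1, p2, t1, t2]) (by linarith only [p1, p2, t1, t2])) (le_of_tie (by ring)) (by linarith only [(P5 h).1]) (by linarith only [(P5 h).2.1]) <|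
    nn_of_eq (P5 h).2.2.1 (by ring)

theorem mUx (E : ℕ → ℝ) : pm (((((1 : ℤ) : ℝ) / ((2 : ℕ) : ℝ)) * π) + ((((-3 : ℤ) : ℝ) / ((1 : ℕ) : ℝ)) * (E 0))) (Ux E) = ((55452537509 / 17010000000 : ℝ) * π * E 0 + (-55452537509 / 510300000000 : ℝ) * π ^ 2 + (-55452537509 / 2268000000 : ℝ) * E 0 ^ 2 + (-1 / 2 : ℝ) * cos (((((1 : ℤ) : ℝ) / ((2 : ℕ) : ℝ)) * π) + ((((-1 : ℤ) : ℝ) / ((1 : ℕ) : ℝ)) * (E 0))) + (1 / 2 : ℝ) * cos (((((1 : ℤ) : ℝ) / ((2 : ℕ) : ℝ)) * π) + ((((-3 : ℤ) : ℝ) / ((1 : ℕ) : ℝ)) * (E 0)))) := by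
  simp only [Ux, pm]
  ring

theorem qUx (E : ℕ → ℝ) : pq (((((1 : ℤ) : ℝ) / ((2 : ℕ) : ℝ)) * π) + ((((-3 : ℤ) : ℝ) / ((1 : ℕ) : ℝ)) * (E 0))) (Ux E) = ((-32507749187 / 22680000000 : ℝ) * π * E 0 ^ 2 + (-1 / 4 : ℝ) * π * cos (((((1 : ℤ) : ℝ) / ((2 : ℕ) : ℝ)) * π) + ((((-1 : ℤ) : ℝ) / ((1 : ℕ) : ℝ)) * (E 0))) + (1 / 4 : ℝ) * π * cos (((((1 : ℤ) : ℝ) / ((2 : ℕ) : ℝ)) * π) + ((((-3 : ℤ) : ℝ) / ((1 : ℕ) : ℝ)) * (E 0))) + (66643263739 / 85050000000 : ℝ) * π ^ 2 * E 0 + (-2225059381 / 68040000000 : ℝ) * π ^ 3 + (1 / 2 : ℝ) * E 0 * cos (((((1 : ℤ) : ℝ) / ((2 : ℕ) : ℝ)) * π) + ((((-1 : ℤ) : ℝ) / ((1 : ℕ) : ℝ)) * (E 0))) + (-3 / 2 : ℝ) * E 0 * cos (((((1 : ℤ) : ℝ) / ((2 : ℕ) : ℝ)) * π) + ((((-3 : ℤ) : ℝ) / ((1 : ℕ) : ℝ)) *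 (E 0))) + (-33592926097 / 756000000 : ℝ) * E 0 ^ 3 + (1 / 2 : ℝ) * sin (((((1 : ℤ) : ℝ) / ((2 : ℕ) : ℝ)) * π) + ((((-1 : ℤ) : ℝ) / ((1 : ℕ) : ℝ)) * (E 0))) + (-1 / 2 : ℝ) * sin (((((1 : ℤ) : ℝ) / ((2 : ℕ) : ℝ)) * π) + ((((-3 : ℤ) : ℝ) / ((1 : ℕ) : ℝ)) * (E 0)))) := by
  simp only [Ux, pq]
  ring

theorem vUx (A : Adm1 (E 0) D) : pv D (((((1 : ℤ) : ℝ) / ((2 : ℕ) : ℝ)) * π) + ((((-3 : ℤ) : ℝ) / ((1 : ℕ) : ℝ)) * (E 0))) (Ux E) = ((1020331 / 18000000 : ℝ) * π * KK D (((((-1 : ℤ) : ℝ) / ((18 : ℕ) : ℝ)) * π) + ((((22 : ℤ) : ℝ) / ((3 : ℕ) : ℝ)) * (E 0))) + (686927 / 1350000000 : ℝ) * π * KK D (((((1 : ℤ) : ℝ) / ((18 : ℕ) : ℝ)) * π) + ((((17 : ℤ) : ℝ) / ((3 : ℕ) : ℝ)) * (E 0))) + (-5095457 / 75000000 : ℝ) * π * KK D (((((1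 : ℤ) : ℝ) / ((2 : ℕ) : ℝ)) * π) + ((((-1 : ℤ) : ℝ) / ((1 : ℕ) : ℝ)) * (E 0))) + (-1260712493 / 2520000000 : ℝ) * π * KK D (((((1 : ℤ) : ℝ) / ((2 : ℕ) : ℝ)) * π) + ((((-3 : ℤ) : ℝ) / ((1 : ℕ) : ℝ)) * (E 0))) + (1756021 / 337500000 : ℝ) * π * KK D (((((1 : ℤ) : ℝ) / ((3 : ℕ) : ℝ)) * π) + ((((3 : ℤ) : ℝ) / ((2 : ℕ) : ℝ)) * (E 0))) + (5659 / 2250000 : ℝ) * π * KK D (((((1 : ℤ) : ℝ) / ((6 : ℕ) : ℝ)) * π) + ((((4 : ℤ) : ℝ) / ((1 : ℕ) : ℝ)) * (E 0))) + (1886201 / 18000000 : ℝ) * π * KK D (((((1 : ℤ) : ℝ) / ((9 : ℕ) : ℝ)) * π) + ((((29 : ℤ) : ℝ) / ((6 : ℕ) : ℝ)) * (E 0))) + (1945966957 / 22680000000 : ℝ) * π * KK D (((((11 : ℤ) : ℝ) / ((18 : ℕ) : ℝ)) * π) + ((((-14 : ℤ) : ℝ) / ((3 : ℕ) : ℝ)) * (E 0))) + (-61881 / 100000 :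 ℝ) * π * KK D (((((2 : ℤ) : ℝ) / ((3 : ℕ) : ℝ)) * π) + ((((-11 : ℤ) : ℝ) / ((2 : ℕ) : ℝ)) * (E 0))) + (17189 / 5062500 : ℝ) * π * KK D (((((2 : ℤ) : ℝ) / ((9 : ℕ) : ℝ)) * π) + ((((19 : ℤ) : ℝ) / ((6 : ℕ) : ℝ)) * (E 0))) + (-234037 / 2025000 : ℝ) * π * KK D (((((4 : ℤ) : ℝ) / ((9 : ℕ) : ℝ)) * π) + ((((-1 : ℤ) : ℝ) / ((6 : ℕ) : ℝ)) * (E 0))) + (3477019 / 810000000 : ℝ) * π * KK D (((((5 : ℤ) : ℝ) / ((18 : ℕ) : ℝ)) * π) + ((((7 : ℤ) : ℝ) / ((3 : ℕ) : ℝ)) * (E 0))) + (585876407 / 567000000 : ℝ) * π * KK D (((((5 : ℤ) : ℝ) / ((9 : ℕ) : ℝ)) * π) + ((((-23 : ℤ) : ℝ) / ((6 : ℕ) : ℝ)) * (E 0))) + (496069 / 81000000 : ℝ) * π * KK D (((((7 : ℤ) : ℝ) / ((18 : ℕ) : ℝ)) * π) + ((((2 : ℤ) : ℝ) / ((3 : ℕ) : ℝ)) * (E 0))) + (-11223641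 / 1500000 : ℝ) * E 0 * KK D (((((-1 : ℤ) : ℝ) / ((18 : ℕ) : ℝ)) * π) + ((((22 : ℤ) : ℝ) / ((3 : ℕ) : ℝ)) * (E 0))) + (11677759 / 225000000 : ℝ) * E 0 * KK D (((((1 : ℤ) : ℝ) / ((18 : ℕ) : ℝ)) * π) + ((((17 : ℤ) : ℝ) / ((3 : ℕ) : ℝ)) * (E 0))) + (391709821 / 112500000 : ℝ) * E 0 * KK D (((((1 : ℤ) : ℝ) / ((2 : ℕ) : ℝ)) * π) + ((((-1 : ℤ) : ℝ) / ((1 : ℕ) : ℝ)) * (E 0))) + (112549001 / 42000000 : ℝ) * E 0 * KK D (((((1 : ℤ) : ℝ) / ((2 : ℕ) : ℝ)) * π) + ((((-3 : ℤ) : ℝ) / ((1 : ℕ) : ℝ)) * (E 0))) + (1756021 / 75000000 : ℝ) * E 0 * KK D (((((1 : ℤ) : ℝ) / ((3 : ℕ) : ℝ)) * π) + ((((3 : ℤ) : ℝ) / ((2 : ℕ) : ℝ)) * (E 0))) + (5659 / 93750 : ℝ) * E 0 * KK D (((((1 : ℤ) : ℝ) / ((6 : ℕ) : ℝ)) * π) + ((((4 : ℤ) : ℝ) / ((1 : ℕ)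 : ℝ)) * (E 0))) + (54699829 / 12000000 : ℝ) * E 0 * KK D (((((1 : ℤ) : ℝ) / ((9 : ℕ) : ℝ)) * π) + ((((29 : ℤ) : ℝ) / ((6 : ℕ) : ℝ)) * (E 0))) + (-176906087 / 270000000 : ℝ) * E 0 * KK D (((((11 : ℤ) : ℝ) / ((18 : ℕ) : ℝ)) * π) + ((((-14 : ℤ) : ℝ) / ((3 : ℕ) : ℝ)) * (E 0))) + (2042073 / 400000 : ℝ) * E 0 * KK D (((((2 : ℤ) : ℝ) / ((3 : ℕ) : ℝ)) * π) + ((((-11 : ℤ) : ℝ) / ((2 : ℕ) : ℝ)) * (E 0))) + (326591 / 6750000 : ℝ) * E 0 * KK D (((((2 : ℤ) : ℝ) / ((9 : ℕ) : ℝ)) * π) + ((((19 : ℤ) : ℝ) / ((6 : ℕ) : ℝ)) * (E 0))) + (234037 / 5400000 : ℝ) * E 0 * KK D (((((4 : ℤ) : ℝ) / ((9 : ℕ) : ℝ)) * π) + ((((-1 : ℤ) : ℝ) / ((6 : ℕ) : ℝ)) * (E 0))) + (24339133 / 675000000 : ℝ) * E 0 * KK D (((((5 : ℤ) : ℝ) / ((18 : ℕ) : ℝ)) *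 π) + ((((7 : ℤ) : ℝ) / ((3 : ℕ) : ℝ)) * (E 0))) + (-13475157361 / 1890000000 : ℝ) * E 0 * KK D (((((5 : ℤ) : ℝ) / ((9 : ℕ) : ℝ)) * π) + ((((-23 : ℤ) : ℝ) / ((6 : ℕ) : ℝ)) * (E 0))) + (70867 / 6750000 : ℝ) * E 0 * KK D (((((7 : ℤ) : ℝ) / ((18 : ℕ) : ℝ)) * π) + ((((2 : ℤ) : ℝ) / ((3 : ℕ) : ℝ)) * (E 0))) + (-9980581 / 12000000 : ℝ) * E 0 * KK D ((((13 : ℤ) : ℝ) / ((2 : ℕ) : ℝ)) * (E 0)) + (1 / 2 : ℝ) * SS D (((((1 : ℤ) : ℝ) / ((2 : ℕ) : ℝ)) * π) + ((((-1 : ℤ) : ℝ) / ((1 : ℕ) : ℝ)) * (E 0))) + (-1 / 2 : ℝ) * SS D (((((1 : ℤ) : ℝ) / ((2 : ℕ) : ℝ)) * π) + ((((-3 : ℤ) : ℝ) / ((1 : ℕ) : ℝ)) * (E 0))) + (1020331 / 1000000 : ℝ) * TT D (((((-1 : ℤ) : ℝ) / ((18 : ℕ) : ℝ)) * π) + ((((22 : ℤ) : ℝ) / ((3 : ℕ) : ℝ)) * (E 0))) + (-686927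 / 75000000 : ℝ) * TT D (((((1 : ℤ) : ℝ) / ((18 : ℕ) : ℝ)) * π) + ((((17 : ℤ) : ℝ) / ((3 : ℕ) : ℝ)) * (E 0))) + (-42624929 / 112500000 : ℝ) * TT D (((((1 : ℤ) : ℝ) / ((2 : ℕ) : ℝ)) * π) + ((((-1 : ℤ) : ℝ) / ((1 : ℕ) : ℝ)) * (E 0))) + (270172163 / 252000000 : ℝ) * TT D (((((1 : ℤ) : ℝ) / ((2 : ℕ) : ℝ)) * π) + ((((-3 : ℤ) : ℝ) / ((1 : ℕ) : ℝ)) * (E 0))) + (-1756021 / 112500000 : ℝ) * TT D (((((1 : ℤ) : ℝ) / ((3 : ℕ) : ℝ)) * π) + ((((3 : ℤ) : ℝ) / ((2 : ℕ) : ℝ)) * (E 0))) + (-5659 / 375000 : ℝ) * TT D (((((1 : ℤ) : ℝ) / ((6 : ℕ) : ℝ)) * π) + ((((4 : ℤ) : ℝ) / ((1 : ℕ) : ℝ)) * (E 0))) + (-1886201 / 2000000 : ℝ) * TT D (((((1 : ℤ) : ℝ) / ((9 : ℕ) : ℝ)) * π) + ((((29 : ℤ) : ℝ) / ((6 : ℕ) : ℝ)) * (E 0))) + (-176906087 / 1260000000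 : ℝ) * TT D (((((11 : ℤ) : ℝ) / ((18 : ℕ) : ℝ)) * π) + ((((-14 : ℤ) : ℝ) / ((3 : ℕ) : ℝ)) * (E 0))) + (185643 / 200000 : ℝ) * TT D (((((2 : ℤ) : ℝ) / ((3 : ℕ) : ℝ)) * π) + ((((-11 : ℤ) : ℝ) / ((2 : ℕ) : ℝ)) * (E 0))) + (-17189 / 1125000 : ℝ) * TT D (((((2 : ℤ) : ℝ) / ((9 : ℕ) : ℝ)) * π) + ((((19 : ℤ) : ℝ) / ((6 : ℕ) : ℝ)) * (E 0))) + (234037 / 900000 : ℝ) * TT D (((((4 : ℤ) : ℝ) / ((9 : ℕ) : ℝ)) * π) + ((((-1 : ℤ) : ℝ) / ((6 : ℕ) : ℝ)) * (E 0))) + (-3477019 / 225000000 : ℝ) * TT D (((((5 : ℤ) : ℝ) / ((18 : ℕ) : ℝ)) * π) + ((((7 : ℤ) : ℝ) / ((3 : ℕ) : ℝ)) * (E 0))) + (-585876407 / 315000000 : ℝ) * TT D (((((5 : ℤ) : ℝ) / ((9 : ℕ) : ℝ)) * π) + ((((-23 : ℤ) : ℝ) / ((6 : ℕ) : ℝ)) * (E 0))) + (-70867 / 4500000 : ℝ) * TT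 D (((((7 : ℤ) : ℝ) / ((18 : ℕ) : ℝ)) * π) + ((((2 : ℤ) : ℝ) / ((3 : ℕ) : ℝ)) * (E 0))) + (767737 / 6000000 : ℝ) * TT D ((((13 : ℤ) : ℝ) / ((2 : ℕ) : ℝ)) * (E 0))) := by
  simp only [Ux, pv]
  ring

theorem okVt (h : H E) : okD (((((1 : ℤ) : ℝ) / ((6 : ℕ) : ℝ)) * π) + ((((2 : ℤ) : ℝ) / ((1 : ℕ) : ℝ)) * (E 0))) (((-11 / 9 : ℝ) * π * E 2 + (11 / 27 : ℝ) * π * E 4 + (-2 / 27 : ℝ) * π * E 6 + (36577 / 500000 : ℝ) * π + (-44 / 3 : ℝ) * E 0 * E 2 + (44 / 9 : ℝ) * E 0 * E 4 + (-8 / 9 : ℝ) * E 0 * E 6 + (-1621231 / 1000000 : ℝ) * E 0) + (1 : ℝ) * sin (((((1 : ℤ) : ℝ) / ((6 : ℕ) : ℝ)) * π) + ((((2 : ℤ) : ℝ) / ((1 : ℕ) : ℝ)) * (E 0))) + ((22 / 3 : ℝ) * E 2 + (-22 / 9 : ℝ) * E 4 + (4 / 9 : ℝ) * E 6 + (-109731 / 250000 : ℝ)) *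 (((((1 : ℤ) : ℝ) / ((6 : ℕ) : ℝ)) * π) + ((((2 : ℤ) : ℝ) / ((1 : ℕ) : ℝ)) * (E 0)))) (Vt E) := by
  have p1 := pi_gt_d4
  have p2 := pi_lt_d4
  have t1 := h.t1
  have t2 := h.t2
  exact okD_c (by linarith only [p1, p2, t1, t2]) (mo1 (by linarith only [p1, p2, t1, t2]) (by linarith only [p1, p2, t1, t2])) le_rfl (by linarith only [(P5 h).2.2.2.1]) (by linarith only [(P5 h).2.2.2.2.1]) <|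
    okD_c (by linarith only [p1, p2, t1, t2]) (mo1 (by linarith only [p1, p2, t1, t2]) (by linarith only [p1, p2, t1, t2])) (le_of_tie (by ring)) (by linarith only [(P5 h).2.2.2.2.2.1]) (by linarith only [(P5 h).2.2.2.2.2.2.1]) <|
    okD_c (by linarith only [p1, p2, t1, t2]) (mo1 (by linarith only [p1, p2, t1, t2]) (by linarith only [p1, p2, t1, t2])) (le_of_jump (P5 h).2.2.2.2.2.2.2.1 (by ring)) (by linarith only [(P5 h).2.2.2.2.2.2.1]) (by linarith only [(P5 h).2.2.2.2.2.2.2.2.1]) <|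
    okD_c (by linarith only [p1, p2, t1, t2]) (mo1 (by linarith only [p1, p2, t1, t2]) (by linarith only [p1, p2, t1, t2])) (le_of_jump (P5 h).2.2.2.2.2.2.2.2.2.1 (by ring)) (by linarith only [(P5 h).2.2.2.2.2.2.2.2.2.2.1]) (by linarith only [(P5 h).2.2.2.2.2.2.2.2.2.2.2.1]) <|
    okD_c (by linarith only [p1, p2, t1, t2]) (mo1 (by linarith only [p1, p2, t1, t2]) (by linarith only [p1, p2, t1, t2])) (le_of_tie (by ring)) (by linarith only [(P5 h).2.2.2.2.2.2.2.2.2.2.2.2.1]) (by linarith only [(P5 h).2.2.2.2.2.2.2.2.2.2.2.2.2.1]) <|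
    nn_of_eq (P5 h).2.2.2.2.2.2.2.2.2.2.2.2.2.2.1 (by ring)

theorem mVt (E : ℕ → ℝ) : pm (((((1 : ℤ) : ℝ) / ((6 : ℕ) : ℝ)) * π) + ((((2 : ℤ) : ℝ) / ((1 : ℕ) : ℝ)) * (E 0))) (Vt E) = ((9 / 8 : ℝ) * E 0 * E 8 + (3 : ℝ) * E 0 ^ 2 * E 2 + (1 : ℝ) * E 0 ^ 2 * E 6 + (2084169 / 500000 : ℝ) * E 0 ^ 2 + (1 : ℝ) * cos (((((1 : ℤ) : ℝ) / ((6 : ℕ) : ℝ)) * π) + ((((2 : ℤ) : ℝ) / ((1 : ℕ) : ℝ)) * (E 0))) + (-1 : ℝ) * cos ((((1 : ℤ) : ℝ) / ((6 : ℕ) : ℝ)) * π)) := by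
  simp only [Vt, pm]
  ring

theorem qVt (E : ℕ → ℝ) : pq (((((1 : ℤ) : ℝ) / ((6 : ℕ) : ℝ)) * π) + ((((2 : ℤ) : ℝ) / ((1 : ℕ) : ℝ)) * (E 0))) (Vt E) = ((3 / 16 : ℝ) * π * E 0 * E 8 + (694723 / 1000000 : ℝ) * π * E 0 ^ 2 + (1 / 2 : ℝ) * π * E 0 ^ 2 * E 2 + (1 / 6 : ℝ) * π * E 0 ^ 2 * E 6 + (1 / 6 : ℝ) * π * cos (((((1 : ℤ) : ℝ) / ((6 : ℕ) : ℝ)) * π) + ((((2 : ℤ) : ℝ) / ((1 : ℕ) : ℝ)) * (E 0))) + (-1 / 6 : ℝ) * π * cos ((((1 : ℤ) : ℝ) / ((6 : ℕ) : ℝ)) * π) + (2 : ℝ) * E 0 * cos (((((1 : ℤ) : ℝ) / ((6 : ℕ) : ℝ)) * π) + ((((2 : ℤ) : ℝ) / ((1 : ℕ) : ℝ)) * (E 0))) + (81 / 128 : ℝ) * E 0 ^ 2 * E 8 + (4 : ℝ) * E 0 ^ 3 * E 2 + (-1 / 2 : ℝ) * E 0 ^ 3 * E 4 + (2 / 3 : ℝ) * E 0 ^ 3 * E 6 + (26882237 / 6000000 : ℝ) * E 0 ^ 3 +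 (-1 : ℝ) * sin (((((1 : ℤ) : ℝ) / ((6 : ℕ) : ℝ)) * π) + ((((2 : ℤ) : ℝ) / ((1 : ℕ) : ℝ)) * (E 0))) + (1 : ℝ) * sin ((((1 : ℤ) : ℝ) / ((6 : ℕ) : ℝ)) * π)) := by
  simp only [Vt, pq]
  ring

theorem vVt (A : Adm1 (E 0) D) : pv D (((((1 : ℤ) : ℝ) / ((6 : ℕ) : ℝ)) * π) + ((((2 : ℤ) : ℝ) / ((1 : ℕ) : ℝ)) * (E 0))) (Vt E) = ((-1 / 3 : ℝ) * π * E 2 * KK D (((((1 : ℤ) : ℝ) / ((6 : ℕ) : ℝ)) * π) + ((((1 : ℤ) : ℝ) / ((1 : ℕ) : ℝ)) * (E 0))) + (4 / 9 : ℝ) * π * E 2 * KK D (((((1 : ℤ) : ℝ) / ((6 : ℕ) : ℝ)) * π) + ((((1 : ℤ) : ℝ) / ((2 : ℕ) : ℝ)) * (E 0))) + (11 / 9 : ℝ) * π * E 2 * KK D (((((1 : ℤ) : ℝ) / ((6 : ℕ) : ℝ)) * π) + ((((2 : ℤ) : ℝ) / ((1 : ℕ) : ℝ)) * (E 0))) + (-4 / 3 : ℝ) * π * E 2 * KK D (((((1 : ℤ) : ℝ) / ((6 :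 ℕ) : ℝ)) * π) + ((((3 : ℤ) : ℝ) / ((2 : ℕ) : ℝ)) * (E 0))) + (-11 / 9 : ℝ) * π * E 4 * KK D (((((1 : ℤ) : ℝ) / ((6 : ℕ) : ℝ)) * π) + ((((1 : ℤ) : ℝ) / ((1 : ℕ) : ℝ)) * (E 0))) + (32 / 27 : ℝ) * π * E 4 * KK D (((((1 : ℤ) : ℝ) / ((6 : ℕ) : ℝ)) * π) + ((((1 : ℤ) : ℝ) / ((2 : ℕ) : ℝ)) * (E 0))) + (-11 / 27 : ℝ) * π * E 4 * KK D (((((1 : ℤ) : ℝ) / ((6 : ℕ) : ℝ)) * π) + ((((2 : ℤ) : ℝ) / ((1 : ℕ) : ℝ)) * (E 0))) + (4 / 9 : ℝ) * π * E 4 * KK D (((((1 : ℤ) : ℝ) / ((6 : ℕ) : ℝ)) * π) + ((((3 : ℤ) : ℝ) / ((2 : ℕ) : ℝ)) * (E 0))) + (8 / 9 : ℝ) * π * E 6 * KK D (((((1 : ℤ) : ℝ) / ((6 : ℕ) : ℝ)) * π) + ((((1 : ℤ) : ℝ) / ((1 : ℕ) : ℝ)) * (E 0))) + (-50 / 27 : ℝ) * π * E 6 * KK D (((((1 : ℤ) : ℝ) / ((6 : ℕ) : ℝ)) * π) + ((((1 :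 ℤ) : ℝ) / ((2 : ℕ) : ℝ)) * (E 0))) + (2 / 27 : ℝ) * π * E 6 * KK D (((((1 : ℤ) : ℝ) / ((6 : ℕ) : ℝ)) * π) + ((((2 : ℤ) : ℝ) / ((1 : ℕ) : ℝ)) * (E 0))) + (2 / 9 : ℝ) * π * E 6 * KK D (((((1 : ℤ) : ℝ) / ((6 : ℕ) : ℝ)) * π) + ((((3 : ℤ) : ℝ) / ((2 : ℕ) : ℝ)) * (E 0))) + (2 / 3 : ℝ) * π * E 6 * KK D ((((1 : ℤ) : ℝ) / ((6 : ℕ) : ℝ)) * π) + (-247687 / 3000000 : ℝ) * π * KK D (((((1 : ℤ) : ℝ) / ((6 : ℕ) : ℝ)) * π) + ((((1 : ℤ) : ℝ) / ((1 : ℕ) : ℝ)) * (E 0))) + (-1291 / 150000 : ℝ) * π * KK D (((((1 : ℤ) : ℝ) / ((6 : ℕ) : ℝ)) * π) + ((((1 : ℤ) : ℝ) / ((2 : ℕ) : ℝ)) * (E 0))) + (-36577 / 500000 : ℝ) * π * KK D (((((1 : ℤ) : ℝ) / ((6 : ℕ) : ℝ)) * π) + ((((2 : ℤ) : ℝ) / ((1 : ℕ) : ℝ)) * (E 0))) + (94393 / 3375000 : ℝ) * π *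 KK D (((((1 : ℤ) : ℝ) / ((6 : ℕ) : ℝ)) * π) + ((((3 : ℤ) : ℝ) / ((2 : ℕ) : ℝ)) * (E 0))) + (3681577 / 27000000 : ℝ) * π * KK D ((((1 : ℤ) : ℝ) / ((6 : ℕ) : ℝ)) * π) + (-4 : ℝ) * E 0 * E 2 * KK D (((((1 : ℤ) : ℝ) / ((6 : ℕ) : ℝ)) * π) + ((((1 : ℤ) : ℝ) / ((1 : ℕ) : ℝ)) * (E 0))) + (4 / 3 : ℝ) * E 0 * E 2 * KK D (((((1 : ℤ) : ℝ) / ((6 : ℕ) : ℝ)) * π) + ((((1 : ℤ) : ℝ) / ((2 : ℕ) : ℝ)) * (E 0))) + (44 / 3 : ℝ) * E 0 * E 2 * KK D (((((1 : ℤ) : ℝ) / ((6 : ℕ) : ℝ)) * π) + ((((2 : ℤ) : ℝ) / ((1 : ℕ) : ℝ)) * (E 0))) + (-12 : ℝ) * E 0 * E 2 * KK D (((((1 : ℤ) : ℝ) / ((6 : ℕ) : ℝ)) * π) + ((((3 : ℤ) : ℝ) / ((2 : ℕ) : ℝ)) * (E 0))) + (-8 / 3 : ℝ) * E 0 * E 4 * KK D (((((1 : ℤ) : ℝ) / ((6 : ℕ) : ℝ)) * π) + ((((1 : ℤ) : ℝ) / ((1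 : ℕ) : ℝ)) * (E 0))) + (32 / 9 : ℝ) * E 0 * E 4 * KK D (((((1 : ℤ) : ℝ) / ((6 : ℕ) : ℝ)) * π) + ((((1 : ℤ) : ℝ) / ((2 : ℕ) : ℝ)) * (E 0))) + (-44 / 9 : ℝ) * E 0 * E 4 * KK D (((((1 : ℤ) : ℝ) / ((6 : ℕ) : ℝ)) * π) + ((((2 : ℤ) : ℝ) / ((1 : ℕ) : ℝ)) * (E 0))) + (4 : ℝ) * E 0 * E 4 * KK D (((((1 : ℤ) : ℝ) / ((6 : ℕ) : ℝ)) * π) + ((((3 : ℤ) : ℝ) / ((2 : ℕ) : ℝ)) * (E 0))) + (8 / 3 : ℝ) * E 0 * E 6 * KK D (((((1 : ℤ) : ℝ) / ((6 : ℕ) : ℝ)) * π) + ((((1 : ℤ) : ℝ) / ((1 : ℕ) : ℝ)) * (E 0))) + (-50 / 9 : ℝ) * E 0 * E 6 * KK D (((((1 : ℤ) : ℝ) / ((6 : ℕ) : ℝ)) * π) + ((((1 : ℤ) : ℝ) / ((2 : ℕ) : ℝ)) * (E 0))) + (8 / 9 : ℝ) * E 0 * E 6 * KK D (((((1 : ℤ) : ℝ) / ((6 : ℕ) : ℝ)) * π) + ((((2 : ℤ) : ℝ) / ((1 : ℕ) : ℝ)) * (E 0)))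 + (2 : ℝ) * E 0 * E 6 * KK D (((((1 : ℤ) : ℝ) / ((6 : ℕ) : ℝ)) * π) + ((((3 : ℤ) : ℝ) / ((2 : ℕ) : ℝ)) * (E 0))) + (-38199 / 100000 : ℝ) * E 0 * KK D (((((1 : ℤ) : ℝ) / ((6 : ℕ) : ℝ)) * π) + ((((1 : ℤ) : ℝ) / ((1 : ℕ) : ℝ)) * (E 0))) + (-1291 / 50000 : ℝ) * E 0 * KK D (((((1 : ℤ) : ℝ) / ((6 : ℕ) : ℝ)) * π) + ((((1 : ℤ) : ℝ) / ((2 : ℕ) : ℝ)) * (E 0))) + (1621231 / 1000000 : ℝ) * E 0 * KK D (((((1 : ℤ) : ℝ) / ((6 : ℕ) : ℝ)) * π) + ((((2 : ℤ) : ℝ) / ((1 : ℕ) : ℝ)) * (E 0))) + (94393 / 375000 : ℝ) * E 0 * KK D (((((1 : ℤ) : ℝ) / ((6 : ℕ) : ℝ)) * π) + ((((3 : ℤ) : ℝ) / ((2 : ℕ) : ℝ)) * (E 0))) + (-4395407 / 3000000 : ℝ) * E 0 * KK D ((((1 : ℤ) : ℝ) / ((6 : ℕ) : ℝ)) * π) + (2 : ℝ) * E 2 * TT D (((((1 : ℤ) : ℝ) / ((6 : ℕ)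 : ℝ)) * π) + ((((1 : ℤ) : ℝ) / ((1 : ℕ) : ℝ)) * (E 0))) + (-8 / 3 : ℝ) * E 2 * TT D (((((1 : ℤ) : ℝ) / ((6 : ℕ) : ℝ)) * π) + ((((1 : ℤ) : ℝ) / ((2 : ℕ) : ℝ)) * (E 0))) + (-22 / 3 : ℝ) * E 2 * TT D (((((1 : ℤ) : ℝ) / ((6 : ℕ) : ℝ)) * π) + ((((2 : ℤ) : ℝ) / ((1 : ℕ) : ℝ)) * (E 0))) + (8 : ℝ) * E 2 * TT D (((((1 : ℤ) : ℝ) / ((6 : ℕ) : ℝ)) * π) + ((((3 : ℤ) : ℝ) / ((2 : ℕ) : ℝ)) * (E 0))) + (22 / 3 : ℝ) * E 4 * TT D (((((1 : ℤ) : ℝ) / ((6 : ℕ) : ℝ)) * π) + ((((1 : ℤ) : ℝ) / ((1 : ℕ) : ℝ)) * (E 0))) + (-64 / 9 : ℝ) * E 4 * TT D (((((1 : ℤ) : ℝ) / ((6 : ℕ) : ℝ)) * π) + ((((1 : ℤ) : ℝ) / ((2 : ℕ) : ℝ)) * (E 0))) + (22 / 9 : ℝ) * E 4 * TT D (((((1 : ℤ) : ℝ) / ((6 : ℕ) : ℝ)) * π) + ((((2 : ℤ) : ℝ) / ((1 : ℕ) : ℝ)) * (E 0)))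 + (-8 / 3 : ℝ) * E 4 * TT D (((((1 : ℤ) : ℝ) / ((6 : ℕ) : ℝ)) * π) + ((((3 : ℤ) : ℝ) / ((2 : ℕ) : ℝ)) * (E 0))) + (-16 / 3 : ℝ) * E 6 * TT D (((((1 : ℤ) : ℝ) / ((6 : ℕ) : ℝ)) * π) + ((((1 : ℤ) : ℝ) / ((1 : ℕ) : ℝ)) * (E 0))) + (100 / 9 : ℝ) * E 6 * TT D (((((1 : ℤ) : ℝ) / ((6 : ℕ) : ℝ)) * π) + ((((1 : ℤ) : ℝ) / ((2 : ℕ) : ℝ)) * (E 0))) + (-4 / 9 : ℝ) * E 6 * TT D (((((1 : ℤ) : ℝ) / ((6 : ℕ) : ℝ)) * π) + ((((2 : ℤ) : ℝ) / ((1 : ℕ) : ℝ)) * (E 0))) + (-4 / 3 : ℝ) * E 6 * TT D (((((1 : ℤ) : ℝ) / ((6 : ℕ) : ℝ)) * π) + ((((3 : ℤ) : ℝ) / ((2 : ℕ) : ℝ)) * (E 0))) + (-4 : ℝ) * E 6 * TT D ((((1 : ℤ) : ℝ) / ((6 : ℕ) : ℝ)) * π) + (1 : ℝ) * E 8 * KK D (((((1 : ℤ) : ℝ) / ((6 : ℕ) : ℝ)) * π) + ((((9 : ℤ) : ℝ) / ((8 : ℕ) : ℝ)) *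 (E 0))) + (-1 : ℝ) * E 8 * KK D ((((1 : ℤ) : ℝ) / ((6 : ℕ) : ℝ)) * π) + (-1 : ℝ) * SS D (((((1 : ℤ) : ℝ) / ((6 : ℕ) : ℝ)) * π) + ((((2 : ℤ) : ℝ) / ((1 : ℕ) : ℝ)) * (E 0))) + (1 : ℝ) * SS D ((((1 : ℤ) : ℝ) / ((6 : ℕ) : ℝ)) * π) + (247687 / 500000 : ℝ) * TT D (((((1 : ℤ) : ℝ) / ((6 : ℕ) : ℝ)) * π) + ((((1 : ℤ) : ℝ) / ((1 : ℕ) : ℝ)) * (E 0))) + (1291 / 25000 : ℝ) * TT D (((((1 : ℤ) : ℝ) / ((6 : ℕ) : ℝ)) * π) + ((((1 : ℤ) : ℝ) / ((2 : ℕ) : ℝ)) * (E 0))) + (109731 / 250000 : ℝ) * TT D (((((1 : ℤ) : ℝ) / ((6 : ℕ) : ℝ)) * π) + ((((2 : ℤ) : ℝ) / ((1 : ℕ) : ℝ)) * (E 0))) + (-94393 / 562500 : ℝ) * TT D (((((1 : ℤ) : ℝ) / ((6 : ℕ) : ℝ)) * π) + ((((3 : ℤ) : ℝ) / ((2 : ℕ) : ℝ)) * (E 0))) + (-3681577 / 4500000 : ℝ) * TT D ((((1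 : ℤ) : ℝ) / ((6 : ℕ) : ℝ)) * π)) := by
  simp only [Vt, pv]
  ring

theorem okVv (h : H E) : okD ((((5 : ℤ) : ℝ) / ((6 : ℕ) : ℝ)) * π) (((1 : ℝ) * E 8) + (0 : ℝ) * sin ((((5 : ℤ) : ℝ) / ((6 : ℕ) : ℝ)) * π) + (0 : ℝ) * ((((5 : ℤ) : ℝ) / ((6 : ℕ) : ℝ)) * π)) (Vv E) := by
  have p1 := pi_gt_d4
  have p2 := pi_lt_d4
  have t1 := h.t1
  have t2 := h.t2
  exact okD_c (by linarith only [p1, p2, t1, t2]) (mo1 (by linarith only [p1, p2, t1, t2]) (by linarith only [p1, p2, t1, t2])) le_rfl (by simp) (by simp) <|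
    nn_of_eq (P5 h).2.2.2.2.2.2.2.1 (by ring)

theorem mVv (E : ℕ → ℝ) : pm ((((5 : ℤ) : ℝ) / ((6 : ℕ) : ℝ)) * π) (Vv E) = ((-9 / 8 : ℝ) * E 0 * E 8) := by
  simp only [Vv, pm]
  ring

theorem qVv (E : ℕ → ℝ) : pq ((((5 : ℤ) : ℝ) / ((6 : ℕ) : ℝ)) * π) (Vv E) = ((-15 / 16 : ℝ) * π * E 0 * E 8 + (81 / 128 : ℝ) * E 0 ^ 2 * E 8) := by
  simp only [Vv, pq]
  ring

theorem vVv (A : Adm1 (E 0) D) : pv D ((((5 : ℤ) : ℝ) / ((6 : ℕ) : ℝ)) * π) (Vv E) = ((-1 : ℝ) * E 8 * KK D (((((1 : ℤ) : ℝ) / ((6 : ℕ) : ℝ)) * π) + ((((9 : ℤ) : ℝ) / ((8 : ℕ) : ℝ)) * (E 0))) + (1 : ℝ) * E 8 * KK D ((((1 : ℤ) : ℝ) / ((6 : ℕ) : ℝ)) * π)) := by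
  simp only [Vv, pv]
  rw [(fo0 A).1, (fo0 A).2.1, (fo0 A).2.2, (fo21 A).1, (fo21 A).2.1, (fo21 A).2.2]
  ring

theorem okVx (h : H E) : okD ((((1 : ℤ) : ℝ) / ((2 : ℕ) : ℝ)) * π) (((-1 / 4 : ℝ) * π * E 2 + (1 / 12 : ℝ) * π * E 4 + (1 / 3 : ℝ) * π * E 6 + (-4407 / 4000000 : ℝ) * π + (1 : ℝ) * E 0 * E 2 + (-1 / 12 : ℝ) * E 0 * E 4 + (-5 / 6 : ℝ) * E 0 * E 6 + (-633843 / 500000 : ℝ) * E 0) + (1 / 2 : ℝ) * sin ((((1 : ℤ) : ℝ) / ((2 : ℕ) : ℝ)) * π) + ((1 / 2 : ℝ) * E 2 + (-1 / 6 : ℝ) * E 4 + (-2 / 3 : ℝ) * E 6 + (4407 / 2000000 : ℝ)) * ((((1 : ℤ) : ℝ) / ((2 : ℕ) : ℝ)) * π)) (Vx E) := by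
  have p1 := pi_gt_d4
  have p2 := pi_lt_d4
  have t1 := h.t1
  have t2 := h.t2
  exact okD_c (by linarith only [p1, p2, t1, t2]) (mo1 (by linarith only [p1, p2, t1, t2]) (by linarith only [p1, p2, t1, t2])) le_rfl (by linarith only [(P5 h).2.2.2.2.2.2.2.2.2.2.2.2.2.2.2.1]) (by linarith only [(P6 h).1]) <|
    nn_of_eq (P6 h).2.1 (by ring)

theorem mVx (E : ℕ → ℝ) : pm ((((1 : ℤ) : ℝ) / ((2 : ℕ) : ℝ)) * π) (Vx E) = ((-3 / 4 : ℝ) * E 0 ^ 2 * E 2 + (1 / 2 : ℝ) * E 0 ^ 2 * E 6 + (5075151 / 4000000 : ℝ) * E 0 ^ 2 + (-1 / 2 : ℝ) * cos (((((1 : ℤ) : ℝ) / ((2 : ℕ) : ℝ)) * π) + ((((-1 : ℤ) : ℝ) / ((1 : ℕ) : ℝ)) * (E 0))) + (1 / 2 : ℝ) * cos ((((1 : ℤ) : ℝ) / ((2 : ℕ) : ℝ)) * π)) := by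
  simp only [Vx, pm]
  ring

theorem qVx (E : ℕ → ℝ) : pq ((((1 : ℤ) : ℝ) / ((2 : ℕ) : ℝ)) * π) (Vx E) = ((5075151 / 8000000 : ℝ) * π * E 0 ^ 2 + (-3 / 8 : ℝ) * π * E 0 ^ 2 * E 2 + (1 / 4 : ℝ) * π * E 0 ^ 2 * E 6 + (-1 / 4 : ℝ) * π * cos (((((1 : ℤ) : ℝ) / ((2 : ℕ) : ℝ)) * π) + ((((-1 : ℤ) : ℝ) / ((1 : ℕ) : ℝ)) * (E 0))) + (1 / 4 : ℝ) * π * cos ((((1 : ℤ) : ℝ) / ((2 : ℕ) : ℝ)) * π) + (1 / 2 : ℝ) * E 0 * cos (((((1 : ℤ) : ℝ) / ((2 : ℕ) : ℝ)) * π) + ((((-1 : ℤ) : ℝ) / ((1 : ℕ) : ℝ)) * (E 0))) + (1 / 3 : ℝ) * E 0 ^ 3 * E 2 + (1 / 72 : ℝ) * E 0 ^ 3 * E 4 + (-7 / 36 : ℝ) * E 0 ^ 3 * E 6 + (-253831 / 400000 : ℝ) * E 0 ^ 3 + (1 / 2 : ℝ) * sin (((((1 : ℤ) : ℝ) / ((2 : ℕ) : ℝ)) * π) + ((((-1 : ℤ) : ℝ) / ((1 : ℕ) : ℝ)) * (E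 0))) + (-1 / 2 : ℝ) * sin ((((1 : ℤ) : ℝ) / ((2 : ℕ) : ℝ)) * π)) := by
  simp only [Vx, pq]
  ring

theorem vVx (A : Adm1 (E 0) D) : pv D ((((1 : ℤ) : ℝ) / ((2 : ℕ) : ℝ)) * π) (Vx E) = ((-1 / 4 : ℝ) * π * E 2 * KK D (((((1 : ℤ) : ℝ) / ((2 : ℕ) : ℝ)) * π) + ((((-1 : ℤ) : ℝ) / ((1 : ℕ) : ℝ)) * (E 0))) + (1 / 4 : ℝ) * π * E 2 * KK D ((((1 : ℤ) : ℝ) / ((2 : ℕ) : ℝ)) * π) + (1 / 12 : ℝ) * π * E 4 * KK D (((((1 : ℤ) : ℝ) / ((2 : ℕ) : ℝ)) * π) + ((((-1 : ℤ) : ℝ) / ((1 : ℕ) : ℝ)) * (E 0))) + (-1 / 12 : ℝ) * π * E 4 * KK D ((((1 : ℤ) : ℝ) / ((2 : ℕ) : ℝ)) * π) + (1 / 3 : ℝ) * π * E 6 * KK D (((((1 : ℤ) : ℝ) / ((2 : ℕ) : ℝ)) * π) + ((((-1 : ℤ) : ℝ) / ((1 : ℕ) : ℝ)) * (E 0))) + (-1 / 3 : ℝ) * π * E 6 * KK D ((((1 : ℤ) : ℝ) /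 ((2 : ℕ) : ℝ)) * π) + (-4407 / 4000000 : ℝ) * π * KK D (((((1 : ℤ) : ℝ) / ((2 : ℕ) : ℝ)) * π) + ((((-1 : ℤ) : ℝ) / ((1 : ℕ) : ℝ)) * (E 0))) + (4407 / 4000000 : ℝ) * π * KK D ((((1 : ℤ) : ℝ) / ((2 : ℕ) : ℝ)) * π) + (1 : ℝ) * E 0 * E 2 * KK D (((((1 : ℤ) : ℝ) / ((2 : ℕ) : ℝ)) * π) + ((((-1 : ℤ) : ℝ) / ((1 : ℕ) : ℝ)) * (E 0))) + (-1 : ℝ) * E 0 * E 2 * KK D ((((1 : ℤ) : ℝ) / ((2 : ℕ) : ℝ)) * π) + (-1 / 12 : ℝ) * E 0 * E 4 * KK D (((((1 : ℤ) : ℝ) / ((2 : ℕ) : ℝ)) * π) + ((((-1 : ℤ) : ℝ) / ((1 : ℕ) : ℝ)) * (E 0))) + (1 / 12 : ℝ) * E 0 * E 4 * KK D ((((1 : ℤ) : ℝ) / ((2 : ℕ) : ℝ)) * π) + (-5 / 6 : ℝ) * E 0 * E 6 * KK D (((((1 : ℤ) : ℝ) / ((2 : ℕ) : ℝ)) * π) + ((((-1 : ℤ) : ℝ) / ((1 : ℕ) : ℝ)) * (E 0))) + (5 / 6 : ℝ) * E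 0 * E 6 * KK D ((((1 : ℤ) : ℝ) / ((2 : ℕ) : ℝ)) * π) + (-633843 / 500000 : ℝ) * E 0 * KK D (((((1 : ℤ) : ℝ) / ((2 : ℕ) : ℝ)) * π) + ((((-1 : ℤ) : ℝ) / ((1 : ℕ) : ℝ)) * (E 0))) + (633843 / 500000 : ℝ) * E 0 * KK D ((((1 : ℤ) : ℝ) / ((2 : ℕ) : ℝ)) * π) + (1 / 2 : ℝ) * E 2 * TT D (((((1 : ℤ) : ℝ) / ((2 : ℕ) : ℝ)) * π) + ((((-1 : ℤ) : ℝ) / ((1 : ℕ) : ℝ)) * (E 0))) + (-1 / 2 : ℝ) * E 2 * TT D ((((1 : ℤ) : ℝ) / ((2 : ℕ) : ℝ)) * π) + (-1 / 6 : ℝ) * E 4 * TT D (((((1 : ℤ) : ℝ) / ((2 : ℕ) : ℝ)) * π) + ((((-1 : ℤ) : ℝ) / ((1 : ℕ) : ℝ)) * (E 0))) + (1 / 6 : ℝ) * E 4 * TT D ((((1 : ℤ) : ℝ) / ((2 : ℕ) : ℝ)) * π) + (-2 / 3 : ℝ) * E 6 * TT D (((((1 : ℤ) : ℝ) / ((2 : ℕ) : ℝ)) * π) + ((((-1 : ℤ) : ℝ) / ((1 : ℕ) : ℝ)) * (E 0))) + (2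 / 3 : ℝ) * E 6 * TT D ((((1 : ℤ) : ℝ) / ((2 : ℕ) : ℝ)) * π) + (1 / 2 : ℝ) * SS D (((((1 : ℤ) : ℝ) / ((2 : ℕ) : ℝ)) * π) + ((((-1 : ℤ) : ℝ) / ((1 : ℕ) : ℝ)) * (E 0))) + (-1 / 2 : ℝ) * SS D ((((1 : ℤ) : ℝ) / ((2 : ℕ) : ℝ)) * π) + (4407 / 2000000 : ℝ) * TT D (((((1 : ℤ) : ℝ) / ((2 : ℕ) : ℝ)) * π) + ((((-1 : ℤ) : ℝ) / ((1 : ℕ) : ℝ)) * (E 0))) + (-4407 / 2000000 : ℝ) * TT D ((((1 : ℤ) : ℝ) / ((2 : ℕ) : ℝ)) * π)) := by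
  simp only [Vx, pv]
  ring

theorem frU (h : H E) (A : Adm1 (E 0) D) : ((-1 / 6 : ℝ) * π * E 2 * KK D (((((-1 : ℤ) : ℝ) / ((6 : ℕ) : ℝ)) * π) + ((((4 : ℤ) : ℝ) / ((1 : ℕ) : ℝ)) * (E 0))) + (-1 / 36 : ℝ) * π * E 2 * KK D (((((-1 : ℤ) : ℝ) / ((6 : ℕ) : ℝ)) * π) + ((((5 : ℤ) : ℝ) / ((1 : ℕ) : ℝ)) * (E 0))) + (-2 / 9 : ℝ) * π * E 2 * KK D (((((1 : ℤ) : ℝ) / ((6 : ℕ) : ℝ)) * π) + ((((-2 : ℤ) : ℝ) / ((1 : ℕ) : ℝ)) * (E 0))) + (5 / 12 : ℝ) * π * E 2 * KK D (((((1 : ℤ) : ℝ) / ((6 : ℕ) : ℝ)) * π) + ((((-3 : ℤ) : ℝ) / ((1 : ℕ) : ℝ)) * (E 0))) + (1 / 18 : ℝ) * π * E 4 * KK D (((((-1 : ℤ) : ℝ) / ((6 : ℕ) : ℝ)) * π) + ((((4 : ℤ) : ℝ) / ((1 : ℕ) : ℝ)) * (E 0))) + (1 / 108 : ℝ) * π * E 4 * KK D (((((-1 : ℤ) : ℝ) / ((6 : ℕ) : ℝ))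 * π) + ((((5 : ℤ) : ℝ) / ((1 : ℕ) : ℝ)) * (E 0))) + (1 / 6 : ℝ) * π * E 4 * KK D (((((1 : ℤ) : ℝ) / ((6 : ℕ) : ℝ)) * π) + ((((-1 : ℤ) : ℝ) / ((1 : ℕ) : ℝ)) * (E 0))) + (-5 / 54 : ℝ) * π * E 4 * KK D (((((1 : ℤ) : ℝ) / ((6 : ℕ) : ℝ)) * π) + ((((-2 : ℤ) : ℝ) / ((1 : ℕ) : ℝ)) * (E 0))) + (-5 / 36 : ℝ) * π * E 4 * KK D (((((1 : ℤ) : ℝ) / ((6 : ℕ) : ℝ)) * π) + ((((-3 : ℤ) : ℝ) / ((1 : ℕ) : ℝ)) * (E 0))) + (2667251 / 216000000 : ℝ) * π * KK D (((((-1 : ℤ) : ℝ) / ((18 : ℕ) : ℝ)) * π) + ((((10 : ℤ) : ℝ) / ((3 : ℕ) : ℝ)) * (E 0))) + (1020331 / 9000000 : ℝ) * π * KK D (((((-1 : ℤ) : ℝ) / ((18 : ℕ) : ℝ)) * π) + ((((22 : ℤ) : ℝ) / ((3 : ℕ) : ℝ)) * (E 0))) + (90539 / 2400000 : ℝ) * π * KK D (((((-1 : ℤ) : ℝ) / ((2 : ℕ) : ℝ)) *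 π) + ((((10 : ℤ) : ℝ) / ((1 : ℕ) : ℝ)) * (E 0))) + (-44607401 / 1008000000 : ℝ) * π * KK D (((((-1 : ℤ) : ℝ) / ((6 : ℕ) : ℝ)) * π) + ((((4 : ℤ) : ℝ) / ((1 : ℕ) : ℝ)) * (E 0))) + (20548471 / 600000000 : ℝ) * π * KK D (((((-1 : ℤ) : ℝ) / ((6 : ℕ) : ℝ)) * π) + ((((5 : ℤ) : ℝ) / ((1 : ℕ) : ℝ)) * (E 0))) + (-131483 / 108000000 : ℝ) * π * KK D (((((-11 : ℤ) : ℝ) / ((18 : ℕ) : ℝ)) * π) + ((((35 : ℤ) : ℝ) / ((3 : ℕ) : ℝ)) * (E 0))) + (-4380857 / 288000000 : ℝ) * π * KK D (((((-13 : ℤ) : ℝ) / ((18 : ℕ) : ℝ)) * π) + ((((40 : ℤ) : ℝ) / ((3 : ℕ) : ℝ)) * (E 0))) + (-79789979 / 2268000000 : ℝ) * π * KK D (((((-5 : ℤ) : ℝ) / ((18 : ℕ) : ℝ)) * π) + ((((17 : ℤ) : ℝ) / ((3 : ℕ) : ℝ)) * (E 0))) + (-84234173 / 518400000 : ℝ) * π * KK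 D (((((-5 : ℤ) : ℝ) / ((18 : ℕ) : ℝ)) * π) + ((((20 : ℤ) : ℝ) / ((3 : ℕ) : ℝ)) * (E 0))) + (318344119 / 2160000000 : ℝ) * π * KK D (((((-7 : ℤ) : ℝ) / ((18 : ℕ) : ℝ)) * π) + ((((22 : ℤ) : ℝ) / ((3 : ℕ) : ℝ)) * (E 0))) + (99504671 / 432000000 : ℝ) * π * KK D (((((-7 : ℤ) : ℝ) / ((18 : ℕ) : ℝ)) * π) + ((((25 : ℤ) : ℝ) / ((3 : ℕ) : ℝ)) * (E 0))) + (686927 / 675000000 : ℝ) * π * KK D (((((1 : ℤ) : ℝ) / ((18 : ℕ) : ℝ)) * π) + ((((17 : ℤ) : ℝ) / ((3 : ℕ) : ℝ)) * (E 0))) + (26903153 / 10800000000 : ℝ) * π * KK D (((((1 : ℤ) : ℝ) / ((18 : ℕ) : ℝ)) * π) + ((((5 : ℤ) : ℝ) / ((3 : ℕ) : ℝ)) * (E 0))) + (-5095457 / 37500000 : ℝ) * π * KK D (((((1 : ℤ) : ℝ) / ((2 : ℕ) : ℝ)) * π) + ((((-1 : ℤ) : ℝ) / ((1 : ℕ) : ℝ)) * (E 0))) + (-11652363629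 / 10080000000 : ℝ) * π * KK D (((((1 : ℤ) : ℝ) / ((2 : ℕ) : ℝ)) * π) + ((((-3 : ℤ) : ℝ) / ((1 : ℕ) : ℝ)) * (E 0))) + (-47483293 / 2520000000 : ℝ) * π * KK D (((((1 : ℤ) : ℝ) / ((2 : ℕ) : ℝ)) * π) + ((((-9 : ℤ) : ℝ) / ((1 : ℕ) : ℝ)) * (E 0))) + (1756021 / 168750000 : ℝ) * π * KK D (((((1 : ℤ) : ℝ) / ((3 : ℕ) : ℝ)) * π) + ((((3 : ℤ) : ℝ) / ((2 : ℕ) : ℝ)) * (E 0))) + (8203 / 187500 : ℝ) * π * KK D (((((1 : ℤ) : ℝ) / ((6 : ℕ) : ℝ)) * π) + ((((-1 : ℤ) : ℝ) / ((1 : ℕ) : ℝ)) * (E 0))) + (-513299 / 6000000 : ℝ) * π * KK D (((((1 : ℤ) : ℝ) / ((6 : ℕ) : ℝ)) * π) + ((((-2 : ℤ) : ℝ) / ((1 : ℕ) : ℝ)) * (E 0))) + (39793 / 600000 : ℝ) * π * KK D (((((1 : ℤ) : ℝ) / ((6 : ℕ) : ℝ)) * π) + ((((-3 : ℤ) : ℝ) / ((1 : ℕ) : ℝ)) * (E 0)))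 + (7988075507 / 75600000000 : ℝ) * π * KK D (((((1 : ℤ) : ℝ) / ((6 : ℕ) : ℝ)) * π) + ((((2 : ℤ) : ℝ) / ((1 : ℕ) : ℝ)) * (E 0))) + (5659 / 1125000 : ℝ) * π * KK D (((((1 : ℤ) : ℝ) / ((6 : ℕ) : ℝ)) * π) + ((((4 : ℤ) : ℝ) / ((1 : ℕ) : ℝ)) * (E 0))) + (-722181227 / 3600000000 : ℝ) * π * KK D ((((1 : ℤ) : ℝ) / ((6 : ℕ) : ℝ)) * π) + (1886201 / 9000000 : ℝ) * π * KK D (((((1 : ℤ) : ℝ) / ((9 : ℕ) : ℝ)) * π) + ((((29 : ℤ) : ℝ) / ((6 : ℕ) : ℝ)) * (E 0))) + (1945966957 / 11340000000 : ℝ) * π * KK D (((((11 : ℤ) : ℝ) / ((18 : ℕ) : ℝ)) * π) + ((((-14 : ℤ) : ℝ) / ((3 : ℕ) : ℝ)) * (E 0))) + (-1788611 / 50400000 : ℝ) * π * KK D (((((11 : ℤ) : ℝ) / ((18 : ℕ) : ℝ)) * π) + ((((-32 : ℤ) : ℝ) / ((3 : ℕ) : ℝ)) * (E 0))) + (-91049251 /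 2268000000 : ℝ) * π * KK D (((((13 : ℤ) : ℝ) / ((18 : ℕ) : ℝ)) * π) + ((((-37 : ℤ) : ℝ) / ((3 : ℕ) : ℝ)) * (E 0))) + (10430299 / 162000000 : ℝ) * π * KK D (((((17 : ℤ) : ℝ) / ((18 : ℕ) : ℝ)) * π) + ((((-50 : ℤ) : ℝ) / ((3 : ℕ) : ℝ)) * (E 0))) + (-61881 / 50000 : ℝ) * π * KK D (((((2 : ℤ) : ℝ) / ((3 : ℕ) : ℝ)) * π) + ((((-11 : ℤ) : ℝ) / ((2 : ℕ) : ℝ)) * (E 0))) + (17189 / 2531250 : ℝ) * π * KK D (((((2 : ℤ) : ℝ) / ((9 : ℕ) : ℝ)) * π) + ((((19 : ℤ) : ℝ) / ((6 : ℕ) : ℝ)) * (E 0))) + (-234037 / 1012500 : ℝ) * π * KK D (((((4 : ℤ) : ℝ) / ((9 : ℕ) : ℝ)) * π) + ((((-1 : ℤ) : ℝ) / ((6 : ℕ) : ℝ)) * (E 0))) + (-1696340903 / 90720000000 : ℝ) * π * KK D (((((5 : ℤ) : ℝ) / ((18 : ℕ) : ℝ)) * π) + ((((1 : ℤ) : ℝ) / ((3 : ℕ) : ℝ))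 * (E 0))) + (3477019 / 405000000 : ℝ) * π * KK D (((((5 : ℤ) : ℝ) / ((18 : ℕ) : ℝ)) * π) + ((((7 : ℤ) : ℝ) / ((3 : ℕ) : ℝ)) * (E 0))) + (585876407 / 283500000 : ℝ) * π * KK D (((((5 : ℤ) : ℝ) / ((9 : ℕ) : ℝ)) * π) + ((((-23 : ℤ) : ℝ) / ((6 : ℕ) : ℝ)) * (E 0))) + (2218079807 / 32400000000 : ℝ) * π * KK D (((((7 : ℤ) : ℝ) / ((18 : ℕ) : ℝ)) * π) + ((((-4 : ℤ) : ℝ) / ((3 : ℕ) : ℝ)) * (E 0))) + (496069 / 40500000 : ℝ) * π * KK D (((((7 : ℤ) : ℝ) / ((18 : ℕ) : ℝ)) * π) + ((((2 : ℤ) : ℝ) / ((3 : ℕ) : ℝ)) * (E 0))) + (4 : ℝ) * E 0 * E 2 * KK D (((((-1 : ℤ) : ℝ) / ((6 : ℕ) : ℝ)) * π) + ((((4 : ℤ) : ℝ) / ((1 : ℕ) : ℝ)) * (E 0))) + (5 / 6 : ℝ) * E 0 * E 2 * KK D (((((-1 : ℤ) : ℝ) / ((6 : ℕ) : ℝ)) * π) + ((((5 : ℤ) : ℝ) / ((1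 : ℕ) : ℝ)) * (E 0))) + (8 / 3 : ℝ) * E 0 * E 2 * KK D (((((1 : ℤ) : ℝ) / ((6 : ℕ) : ℝ)) * π) + ((((-2 : ℤ) : ℝ) / ((1 : ℕ) : ℝ)) * (E 0))) + (-15 / 2 : ℝ) * E 0 * E 2 * KK D (((((1 : ℤ) : ℝ) / ((6 : ℕ) : ℝ)) * π) + ((((-3 : ℤ) : ℝ) / ((1 : ℕ) : ℝ)) * (E 0))) + (-4 / 3 : ℝ) * E 0 * E 4 * KK D (((((-1 : ℤ) : ℝ) / ((6 : ℕ) : ℝ)) * π) + ((((4 : ℤ) : ℝ) / ((1 : ℕ) : ℝ)) * (E 0))) + (-5 / 18 : ℝ) * E 0 * E 4 * KK D (((((-1 : ℤ) : ℝ) / ((6 : ℕ) : ℝ)) * π) + ((((5 : ℤ) : ℝ) / ((1 : ℕ) : ℝ)) * (E 0))) + (-2 : ℝ) * E 0 * E 4 * KK D (((((1 : ℤ) : ℝ) / ((6 : ℕ) : ℝ)) * π) + ((((-1 : ℤ) : ℝ) / ((1 : ℕ) : ℝ)) * (E 0))) + (10 / 9 : ℝ) * E 0 * E 4 * KK D (((((1 : ℤ) : ℝ) / ((6 : ℕ) : ℝ)) * π) + ((((-2 : ℤ) : ℝ) / ((1 : ℕ) : ℝ)) *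 (E 0))) + (5 / 2 : ℝ) * E 0 * E 4 * KK D (((((1 : ℤ) : ℝ) / ((6 : ℕ) : ℝ)) * π) + ((((-3 : ℤ) : ℝ) / ((1 : ℕ) : ℝ)) * (E 0))) + (-2667251 / 3600000 : ℝ) * E 0 * KK D (((((-1 : ℤ) : ℝ) / ((18 : ℕ) : ℝ)) * π) + ((((10 : ℤ) : ℝ) / ((3 : ℕ) : ℝ)) * (E 0))) + (-11223641 / 750000 : ℝ) * E 0 * KK D (((((-1 : ℤ) : ℝ) / ((18 : ℕ) : ℝ)) * π) + ((((22 : ℤ) : ℝ) / ((3 : ℕ) : ℝ)) * (E 0))) + (-90539 / 120000 : ℝ) * E 0 * KK D (((((-1 : ℤ) : ℝ) / ((2 : ℕ) : ℝ)) * π) + ((((10 : ℤ) : ℝ) / ((1 : ℕ) : ℝ)) * (E 0))) + (44607401 / 42000000 : ℝ) * E 0 * KK D (((((-1 : ℤ) : ℝ) / ((6 : ℕ) : ℝ)) * π) + ((((4 : ℤ) : ℝ) / ((1 : ℕ) : ℝ)) * (E 0))) + (-107334953 / 60000000 : ℝ) * E 0 * KK D (((((-1 : ℤ) : ℝ) / ((6 : ℕ) : ℝ)) * π) + ((((5 : ℤ)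 : ℝ) / ((1 : ℕ) : ℝ)) * (E 0))) + (83671 / 3600000 : ℝ) * E 0 * KK D (((((-11 : ℤ) : ℝ) / ((18 : ℕ) : ℝ)) * π) + ((((35 : ℤ) : ℝ) / ((3 : ℕ) : ℝ)) * (E 0))) + (336989 / 1200000 : ℝ) * E 0 * KK D (((((-13 : ℤ) : ℝ) / ((18 : ℕ) : ℝ)) * π) + ((((40 : ℤ) : ℝ) / ((3 : ℕ) : ℝ)) * (E 0))) + (1356429643 / 1890000000 : ℝ) * E 0 * KK D (((((-5 : ℤ) : ℝ) / ((18 : ℕ) : ℝ)) * π) + ((((17 : ℤ) : ℝ) / ((3 : ℕ) : ℝ)) * (E 0))) + (84234173 / 21600000 : ℝ) * E 0 * KK D (((((-5 : ℤ) : ℝ) / ((18 : ℕ) : ℝ)) * π) + ((((20 : ℤ) : ℝ) / ((3 : ℕ) : ℝ)) * (E 0))) + (-3501785309 / 1260000000 : ℝ) * E 0 * KK D (((((-7 : ℤ) : ℝ) / ((18 : ℕ) : ℝ)) * π) + ((((22 : ℤ) : ℝ) / ((3 : ℕ) : ℝ)) * (E 0))) + (-14214953 / 2880000 : ℝ) * E 0 * KK D (((((-7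 : ℤ) : ℝ) / ((18 : ℕ) : ℝ)) * π) + ((((25 : ℤ) : ℝ) / ((3 : ℕ) : ℝ)) * (E 0))) + (11677759 / 112500000 : ℝ) * E 0 * KK D (((((1 : ℤ) : ℝ) / ((18 : ℕ) : ℝ)) * π) + ((((17 : ℤ) : ℝ) / ((3 : ℕ) : ℝ)) * (E 0))) + (26903153 / 360000000 : ℝ) * E 0 * KK D (((((1 : ℤ) : ℝ) / ((18 : ℕ) : ℝ)) * π) + ((((5 : ℤ) : ℝ) / ((3 : ℕ) : ℝ)) * (E 0))) + (391709821 / 56250000 : ℝ) * E 0 * KK D (((((1 : ℤ) : ℝ) / ((2 : ℕ) : ℝ)) * π) + ((((-1 : ℤ) : ℝ) / ((1 : ℕ) : ℝ)) * (E 0))) + (3411345859 / 336000000 : ℝ) * E 0 * KK D (((((1 : ℤ) : ℝ) / ((2 : ℕ) : ℝ)) * π) + ((((-3 : ℤ) : ℝ) / ((1 : ℕ) : ℝ)) * (E 0))) + (47483293 / 140000000 : ℝ) * E 0 * KK D (((((1 : ℤ) : ℝ) / ((2 : ℕ) : ℝ)) * π) + ((((-9 : ℤ) : ℝ) / ((1 : ℕ) : ℝ)) * (E 0))) + (1756021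 / 37500000 : ℝ) * E 0 * KK D (((((1 : ℤ) : ℝ) / ((3 : ℕ) : ℝ)) * π) + ((((3 : ℤ) : ℝ) / ((2 : ℕ) : ℝ)) * (E 0))) + (-8203 / 15625 : ℝ) * E 0 * KK D (((((1 : ℤ) : ℝ) / ((6 : ℕ) : ℝ)) * π) + ((((-1 : ℤ) : ℝ) / ((1 : ℕ) : ℝ)) * (E 0))) + (513299 / 500000 : ℝ) * E 0 * KK D (((((1 : ℤ) : ℝ) / ((6 : ℕ) : ℝ)) * π) + ((((-2 : ℤ) : ℝ) / ((1 : ℕ) : ℝ)) * (E 0))) + (-119379 / 100000 : ℝ) * E 0 * KK D (((((1 : ℤ) : ℝ) / ((6 : ℕ) : ℝ)) * π) + ((((-3 : ℤ) : ℝ) / ((1 : ℕ) : ℝ)) * (E 0))) + (-28577952943 / 6300000000 : ℝ) * E 0 * KK D (((((1 : ℤ) : ℝ) / ((6 : ℕ) : ℝ)) * π) + ((((2 : ℤ) : ℝ) / ((1 : ℕ) : ℝ)) * (E 0))) + (5659 / 46875 : ℝ) * E 0 * KK D (((((1 : ℤ) : ℝ) / ((6 : ℕ) : ℝ)) * π) + ((((4 : ℤ) : ℝ) / ((1 : ℕ) : ℝ)) * (E 0)))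 + (205329 / 40000 : ℝ) * E 0 * KK D ((((1 : ℤ) : ℝ) / ((6 : ℕ) : ℝ)) * π) + (54699829 / 6000000 : ℝ) * E 0 * KK D (((((1 : ℤ) : ℝ) / ((9 : ℕ) : ℝ)) * π) + ((((29 : ℤ) : ℝ) / ((6 : ℕ) : ℝ)) * (E 0))) + (-176906087 / 135000000 : ℝ) * E 0 * KK D (((((11 : ℤ) : ℝ) / ((18 : ℕ) : ℝ)) * π) + ((((-14 : ℤ) : ℝ) / ((3 : ℕ) : ℝ)) * (E 0))) + (162601 / 262500 : ℝ) * E 0 * KK D (((((11 : ℤ) : ℝ) / ((18 : ℕ) : ℝ)) * π) + ((((-32 : ℤ) : ℝ) / ((3 : ℕ) : ℝ)) * (E 0))) + (64025197 / 94500000 : ℝ) * E 0 * KK D (((((13 : ℤ) : ℝ) / ((18 : ℕ) : ℝ)) * π) + ((((-37 : ℤ) : ℝ) / ((3 : ℕ) : ℝ)) * (E 0))) + (-613547 / 540000 : ℝ) * E 0 * KK D (((((17 : ℤ) : ℝ) / ((18 : ℕ) : ℝ)) * π) + ((((-50 : ℤ) : ℝ) / ((3 : ℕ) : ℝ)) * (E 0))) + (2042073 /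 200000 : ℝ) * E 0 * KK D (((((2 : ℤ) : ℝ) / ((3 : ℕ) : ℝ)) * π) + ((((-11 : ℤ) : ℝ) / ((2 : ℕ) : ℝ)) * (E 0))) + (326591 / 3375000 : ℝ) * E 0 * KK D (((((2 : ℤ) : ℝ) / ((9 : ℕ) : ℝ)) * π) + ((((19 : ℤ) : ℝ) / ((6 : ℕ) : ℝ)) * (E 0))) + (234037 / 2700000 : ℝ) * E 0 * KK D (((((4 : ℤ) : ℝ) / ((9 : ℕ) : ℝ)) * π) + ((((-1 : ℤ) : ℝ) / ((6 : ℕ) : ℝ)) * (E 0))) + (-1696340903 / 75600000000 : ℝ) * E 0 * KK D (((((5 : ℤ) : ℝ) / ((18 : ℕ) : ℝ)) * π) + ((((1 : ℤ) : ℝ) / ((3 : ℕ) : ℝ)) * (E 0))) + (24339133 / 337500000 : ℝ) * E 0 * KK D (((((5 : ℤ) : ℝ) / ((18 : ℕ) : ℝ)) * π) + ((((7 : ℤ) : ℝ) / ((3 : ℕ) : ℝ)) * (E 0))) + (-13475157361 / 945000000 : ℝ) * E 0 * KK D (((((5 : ℤ) : ℝ) / ((9 : ℕ) : ℝ)) * π) + ((((-23 : ℤ) : ℝ) /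 ((6 : ℕ) : ℝ)) * (E 0))) + (-2218079807 / 9450000000 : ℝ) * E 0 * KK D (((((7 : ℤ) : ℝ) / ((18 : ℕ) : ℝ)) * π) + ((((-4 : ℤ) : ℝ) / ((3 : ℕ) : ℝ)) * (E 0))) + (70867 / 3375000 : ℝ) * E 0 * KK D (((((7 : ℤ) : ℝ) / ((18 : ℕ) : ℝ)) * π) + ((((2 : ℤ) : ℝ) / ((3 : ℕ) : ℝ)) * (E 0))) + (-9980581 / 6000000 : ℝ) * E 0 * KK D ((((13 : ℤ) : ℝ) / ((2 : ℕ) : ℝ)) * (E 0)) + (-1 : ℝ) * E 2 * TT D (((((-1 : ℤ) : ℝ) / ((6 : ℕ) : ℝ)) * π) + ((((4 : ℤ) : ℝ) / ((1 : ℕ) : ℝ)) * (E 0))) + (-1 / 6 : ℝ) * E 2 * TT D (((((-1 : ℤ) : ℝ) / ((6 : ℕ) : ℝ)) * π) + ((((5 : ℤ) : ℝ) / ((1 : ℕ) : ℝ)) * (E 0))) + (4 / 3 : ℝ) * E 2 * TT D (((((1 : ℤ) : ℝ) / ((6 : ℕ) : ℝ)) * π) + ((((-2 : ℤ) : ℝ) / ((1 : ℕ) : ℝ)) * (E 0))) + (-5 / 2 : ℝ) * E 2 * TT D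 (((((1 : ℤ) : ℝ) / ((6 : ℕ) : ℝ)) * π) + ((((-3 : ℤ) : ℝ) / ((1 : ℕ) : ℝ)) * (E 0))) + (1 / 3 : ℝ) * E 4 * TT D (((((-1 : ℤ) : ℝ) / ((6 : ℕ) : ℝ)) * π) + ((((4 : ℤ) : ℝ) / ((1 : ℕ) : ℝ)) * (E 0))) + (1 / 18 : ℝ) * E 4 * TT D (((((-1 : ℤ) : ℝ) / ((6 : ℕ) : ℝ)) * π) + ((((5 : ℤ) : ℝ) / ((1 : ℕ) : ℝ)) * (E 0))) + (-1 : ℝ) * E 4 * TT D (((((1 : ℤ) : ℝ) / ((6 : ℕ) : ℝ)) * π) + ((((-1 : ℤ) : ℝ) / ((1 : ℕ) : ℝ)) * (E 0))) + (5 / 9 : ℝ) * E 4 * TT D (((((1 : ℤ) : ℝ) / ((6 : ℕ) : ℝ)) * π) + ((((-2 : ℤ) : ℝ) / ((1 : ℕ) : ℝ)) * (E 0))) + (5 / 6 : ℝ) * E 4 * TT D (((((1 : ℤ) : ℝ) / ((6 : ℕ) : ℝ)) * π) + ((((-3 : ℤ) : ℝ) / ((1 : ℕ) : ℝ)) * (E 0))) + (1 : ℝ) * SS D (((((1 : ℤ) : ℝ) / ((2 : ℕ) : ℝ)) * π) + ((((-1 : ℤ) : ℝ) / ((1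 : ℕ) : ℝ)) * (E 0))) + (-1 : ℝ) * SS D (((((1 : ℤ) : ℝ) / ((6 : ℕ) : ℝ)) * π) + ((((2 : ℤ) : ℝ) / ((1 : ℕ) : ℝ)) * (E 0))) + (1 : ℝ) * SS D ((((1 : ℤ) : ℝ) / ((6 : ℕ) : ℝ)) * π) + (2667251 / 12000000 : ℝ) * TT D (((((-1 : ℤ) : ℝ) / ((18 : ℕ) : ℝ)) * π) + ((((10 : ℤ) : ℝ) / ((3 : ℕ) : ℝ)) * (E 0))) + (1020331 / 500000 : ℝ) * TT D (((((-1 : ℤ) : ℝ) / ((18 : ℕ) : ℝ)) * π) + ((((22 : ℤ) : ℝ) / ((3 : ℕ) : ℝ)) * (E 0))) + (90539 / 1200000 : ℝ) * TT D (((((-1 : ℤ) : ℝ) / ((2 : ℕ) : ℝ)) * π) + ((((10 : ℤ) : ℝ) / ((1 : ℕ) : ℝ)) * (E 0))) + (-44607401 / 168000000 : ℝ) * TT D (((((-1 : ℤ) : ℝ) / ((6 : ℕ) : ℝ)) * π) + ((((4 : ℤ) : ℝ) / ((1 : ℕ) : ℝ)) * (E 0))) + (166911013 / 300000000 : ℝ) * TT D (((((-1 : ℤ) : ℝ) / ((6 : ℕ)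 : ℝ)) * π) + ((((5 : ℤ) : ℝ) / ((1 : ℕ) : ℝ)) * (E 0))) + (-11953 / 6000000 : ℝ) * TT D (((((-11 : ℤ) : ℝ) / ((18 : ℕ) : ℝ)) * π) + ((((35 : ℤ) : ℝ) / ((3 : ℕ) : ℝ)) * (E 0))) + (-336989 / 16000000 : ℝ) * TT D (((((-13 : ℤ) : ℝ) / ((18 : ℕ) : ℝ)) * π) + ((((40 : ℤ) : ℝ) / ((3 : ℕ) : ℝ)) * (E 0))) + (-79789979 / 630000000 : ℝ) * TT D (((((-5 : ℤ) : ℝ) / ((18 : ℕ) : ℝ)) * π) + ((((17 : ℤ) : ℝ) / ((3 : ℕ) : ℝ)) * (E 0))) + (-84234173 / 144000000 : ℝ) * TT D (((((-5 : ℤ) : ℝ) / ((18 : ℕ) : ℝ)) * π) + ((((20 : ℤ) : ℝ) / ((3 : ℕ) : ℝ)) * (E 0))) + (318344119 / 840000000 : ℝ) * TT D (((((-7 : ℤ) : ℝ) / ((18 : ℕ) : ℝ)) * π) + ((((22 : ℤ) : ℝ) / ((3 : ℕ) : ℝ)) * (E 0))) + (14214953 / 24000000 : ℝ) * TT D (((((-7 : ℤ) : ℝ)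 / ((18 : ℕ) : ℝ)) * π) + ((((25 : ℤ) : ℝ) / ((3 : ℕ) : ℝ)) * (E 0))) + (-686927 / 37500000 : ℝ) * TT D (((((1 : ℤ) : ℝ) / ((18 : ℕ) : ℝ)) * π) + ((((17 : ℤ) : ℝ) / ((3 : ℕ) : ℝ)) * (E 0))) + (-26903153 / 600000000 : ℝ) * TT D (((((1 : ℤ) : ℝ) / ((18 : ℕ) : ℝ)) * π) + ((((5 : ℤ) : ℝ) / ((3 : ℕ) : ℝ)) * (E 0))) + (-42624929 / 56250000 : ℝ) * TT D (((((1 : ℤ) : ℝ) / ((2 : ℕ) : ℝ)) * π) + ((((-1 : ℤ) : ℝ) / ((1 : ℕ) : ℝ)) * (E 0))) + (1609890637 / 1008000000 : ℝ) * TT D (((((1 : ℤ) : ℝ) / ((2 : ℕ) : ℝ)) * π) + ((((-3 : ℤ) : ℝ) / ((1 : ℕ) : ℝ)) * (E 0))) + (47483293 / 1260000000 : ℝ) * TT D (((((1 : ℤ) : ℝ) / ((2 : ℕ) : ℝ)) * π) + ((((-9 : ℤ) : ℝ) / ((1 : ℕ) : ℝ)) * (E 0))) + (-1756021 / 56250000 : ℝ) * TT D (((((1 : ℤ)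 : ℝ) / ((3 : ℕ) : ℝ)) * π) + ((((3 : ℤ) : ℝ) / ((2 : ℕ) : ℝ)) * (E 0))) + (-8203 / 31250 : ℝ) * TT D (((((1 : ℤ) : ℝ) / ((6 : ℕ) : ℝ)) * π) + ((((-1 : ℤ) : ℝ) / ((1 : ℕ) : ℝ)) * (E 0))) + (513299 / 1000000 : ℝ) * TT D (((((1 : ℤ) : ℝ) / ((6 : ℕ) : ℝ)) * π) + ((((-2 : ℤ) : ℝ) / ((1 : ℕ) : ℝ)) * (E 0))) + (-39793 / 100000 : ℝ) * TT D (((((1 : ℤ) : ℝ) / ((6 : ℕ) : ℝ)) * π) + ((((-3 : ℤ) : ℝ) / ((1 : ℕ) : ℝ)) * (E 0))) + (8263492693 / 12600000000 : ℝ) * TT D (((((1 : ℤ) : ℝ) / ((6 : ℕ) : ℝ)) * π) + ((((2 : ℤ) : ℝ) / ((1 : ℕ) : ℝ)) * (E 0))) + (-5659 / 187500 : ℝ) * TT D (((((1 : ℤ) : ℝ) / ((6 : ℕ) : ℝ)) * π) + ((((4 : ℤ) : ℝ) / ((1 : ℕ) : ℝ)) * (E 0))) + (-509792773 / 600000000 : ℝ) * TT D ((((1 : ℤ) : ℝ) / ((6 : ℕ) :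 ℝ)) * π) + (-1886201 / 1000000 : ℝ) * TT D (((((1 : ℤ) : ℝ) / ((9 : ℕ) : ℝ)) * π) + ((((29 : ℤ) : ℝ) / ((6 : ℕ) : ℝ)) * (E 0))) + (-176906087 / 630000000 : ℝ) * TT D (((((11 : ℤ) : ℝ) / ((18 : ℕ) : ℝ)) * π) + ((((-14 : ℤ) : ℝ) / ((3 : ℕ) : ℝ)) * (E 0))) + (162601 / 2800000 : ℝ) * TT D (((((11 : ℤ) : ℝ) / ((18 : ℕ) : ℝ)) * π) + ((((-32 : ℤ) : ℝ) / ((3 : ℕ) : ℝ)) * (E 0))) + (6328369 / 126000000 : ℝ) * TT D (((((13 : ℤ) : ℝ) / ((18 : ℕ) : ℝ)) * π) + ((((-37 : ℤ) : ℝ) / ((3 : ℕ) : ℝ)) * (E 0))) + (-613547 / 9000000 : ℝ) * TT D (((((17 : ℤ) : ℝ) / ((18 : ℕ) : ℝ)) * π) + ((((-50 : ℤ) : ℝ) / ((3 : ℕ) : ℝ)) * (E 0))) + (185643 / 100000 : ℝ) * TT D (((((2 : ℤ) : ℝ) / ((3 : ℕ) : ℝ)) * π) + ((((-11 : ℤ) : ℝ) / ((2 : ℕ) : ℝ))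 * (E 0))) + (-17189 / 562500 : ℝ) * TT D (((((2 : ℤ) : ℝ) / ((9 : ℕ) : ℝ)) * π) + ((((19 : ℤ) : ℝ) / ((6 : ℕ) : ℝ)) * (E 0))) + (234037 / 450000 : ℝ) * TT D (((((4 : ℤ) : ℝ) / ((9 : ℕ) : ℝ)) * π) + ((((-1 : ℤ) : ℝ) / ((6 : ℕ) : ℝ)) * (E 0))) + (1696340903 / 25200000000 : ℝ) * TT D (((((5 : ℤ) : ℝ) / ((18 : ℕ) : ℝ)) * π) + ((((1 : ℤ) : ℝ) / ((3 : ℕ) : ℝ)) * (E 0))) + (-3477019 / 112500000 : ℝ) * TT D (((((5 : ℤ) : ℝ) / ((18 : ℕ) : ℝ)) * π) + ((((7 : ℤ) : ℝ) / ((3 : ℕ) : ℝ)) * (E 0))) + (-585876407 / 157500000 : ℝ) * TT D (((((5 : ℤ) : ℝ) / ((9 : ℕ) : ℝ)) * π) + ((((-23 : ℤ) : ℝ) / ((6 : ℕ) : ℝ)) * (E 0))) + (-2218079807 / 12600000000 : ℝ) * TT D (((((7 : ℤ) : ℝ) / ((18 : ℕ) : ℝ)) * π) + ((((-4 : ℤ) : ℝ) / ((3 : ℕ)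 : ℝ)) * (E 0))) + (-70867 / 2250000 : ℝ) * TT D (((((7 : ℤ) : ℝ) / ((18 : ℕ) : ℝ)) * π) + ((((2 : ℤ) : ℝ) / ((3 : ℕ) : ℝ)) * (E 0))) + (767737 / 3000000 : ℝ) * TT D ((((13 : ℤ) : ℝ) / ((2 : ℕ) : ℝ)) * (E 0))) ≤ 0 := by
  have p1 := pi_gt_d4
  have p2 := pi_lt_d4
  have t1 := h.t1
  have t2 := h.t2
  have r := frame_up (@ww3) A.cont A.b2 (okUt h) (okUv h) (okUx h)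
    (by linarith only [p1, p2, t1, t2])
    (by simp only [lUt E, lUv E, lUx E]; linarith only [p1, p2, t1, t2])
    (by linarith only [p1, p2, t1, t2])
    (by simp only [lUt E, lUv E, lUx E]; linarith only [p1, p2, t1, t2])
    (by linarith only [p1, p2, t1, t2])
    (by simp only [lUt E, lUv E, lUx E]; linarith only [p1, p2, t1, t2])
    (by simp only [lUt E, lUv E, lUx E]; linarith only [p1, p2, t1, t2])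
    (by simp only [lUt E, lUv E, lUx E]; linarith only [p1, p2, t1, t2])
    (by simp only [lUt E, lUv E, lUx E]; linarith only [p1, p2, t1, t2])
    (by simp only [lUt E, lUv E, lUx E]; linarith only [p1, p2, t1, t2])
    (by simp only [lUt E, lUv E, lUx E]; linarith only [p1, p2, t1, t2])
    (by simp only [lUt E, lUv E, lUx E]; linarith only [p1, p2, t1, t2])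
    (by simp only [lUt E, lUv E, lUx E]; linarith only [p1, p2, t1, t2])
    (by rw [mUt, mUx]; linear_combination hU1 h)
    (by rw [mUv, mUx]; linear_combination (-1) * S5 h)
    (by rw [mUx]; linarith only [(P6 h).2.2.1])
    (by rw [qUt, qUv, qUx, mUx]; linear_combination (1) * S2 h + π * (-1) * S5 h)
  rw [vUt A, vUv A, vUx A] at r
  linear_combination r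

theorem frV (h : H E) (A : Adm1 (E 0) D) : ((1 / 2 : ℝ) * π * E 2 * KK D (((((1 : ℤ) : ℝ) / ((2 : ℕ) : ℝ)) * π) + ((((-1 : ℤ) : ℝ) / ((1 : ℕ) : ℝ)) * (E 0))) + (-1 / 2 : ℝ) * π * E 2 * KK D ((((1 : ℤ) : ℝ) / ((2 : ℕ) : ℝ)) * π) + (1 / 3 : ℝ) * π * E 2 * KK D (((((1 : ℤ) : ℝ) / ((6 : ℕ) : ℝ)) * π) + ((((1 : ℤ) : ℝ) / ((1 : ℕ) : ℝ)) * (E 0))) + (-4 / 9 : ℝ) * π * E 2 * KK D (((((1 : ℤ) : ℝ) / ((6 : ℕ) : ℝ)) * π) + ((((1 : ℤ) : ℝ) / ((2 : ℕ) : ℝ)) * (E 0))) + (-11 / 9 : ℝ) * π * E 2 * KK D (((((1 : ℤ) : ℝ) / ((6 : ℕ) : ℝ)) * π) + ((((2 : ℤ) : ℝ) / ((1 : ℕ) : ℝ)) * (E 0))) + (4 / 3 : ℝ) * π * E 2 * KK D (((((1 : ℤ) : ℝ) / ((6 : ℕ) : ℝ)) * π) + ((((3 : ℤ) : ℝ) / ((2 : ℕ) : ℝ)) * (E 0))) + (-1 / 6 : ℝ) * π * E 4 * KK D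 (((((1 : ℤ) : ℝ) / ((2 : ℕ) : ℝ)) * π) + ((((-1 : ℤ) : ℝ) / ((1 : ℕ) : ℝ)) * (E 0))) + (1 / 6 : ℝ) * π * E 4 * KK D ((((1 : ℤ) : ℝ) / ((2 : ℕ) : ℝ)) * π) + (11 / 9 : ℝ) * π * E 4 * KK D (((((1 : ℤ) : ℝ) / ((6 : ℕ) : ℝ)) * π) + ((((1 : ℤ) : ℝ) / ((1 : ℕ) : ℝ)) * (E 0))) + (-32 / 27 : ℝ) * π * E 4 * KK D (((((1 : ℤ) : ℝ) / ((6 : ℕ) : ℝ)) * π) + ((((1 : ℤ) : ℝ) / ((2 : ℕ) : ℝ)) * (E 0))) + (11 / 27 : ℝ) * π * E 4 * KK D (((((1 : ℤ) : ℝ) / ((6 : ℕ) : ℝ)) * π) + ((((2 : ℤ) : ℝ) / ((1 : ℕ) : ℝ)) * (E 0))) + (-4 / 9 : ℝ) * π * E 4 * KK D (((((1 : ℤ) : ℝ) / ((6 : ℕ) : ℝ)) * π) + ((((3 : ℤ) : ℝ) / ((2 : ℕ) : ℝ)) * (E 0))) + (-2 / 3 : ℝ) * π * E 6 * KK D (((((1 : ℤ) : ℝ) / ((2 : ℕ) : ℝ)) * π) + ((((-1 : ℤ) : ℝ) / ((1 : ℕ) :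 ℝ)) * (E 0))) + (2 / 3 : ℝ) * π * E 6 * KK D ((((1 : ℤ) : ℝ) / ((2 : ℕ) : ℝ)) * π) + (-8 / 9 : ℝ) * π * E 6 * KK D (((((1 : ℤ) : ℝ) / ((6 : ℕ) : ℝ)) * π) + ((((1 : ℤ) : ℝ) / ((1 : ℕ) : ℝ)) * (E 0))) + (50 / 27 : ℝ) * π * E 6 * KK D (((((1 : ℤ) : ℝ) / ((6 : ℕ) : ℝ)) * π) + ((((1 : ℤ) : ℝ) / ((2 : ℕ) : ℝ)) * (E 0))) + (-2 / 27 : ℝ) * π * E 6 * KK D (((((1 : ℤ) : ℝ) / ((6 : ℕ) : ℝ)) * π) + ((((2 : ℤ) : ℝ) / ((1 : ℕ) : ℝ)) * (E 0))) + (-2 / 9 : ℝ) * π * E 6 * KK D (((((1 : ℤ) : ℝ) / ((6 : ℕ) : ℝ)) * π) + ((((3 : ℤ) : ℝ) / ((2 : ℕ) : ℝ)) * (E 0))) + (-2 / 3 : ℝ) * π * E 6 * KK D ((((1 : ℤ) : ℝ) / ((6 : ℕ) : ℝ)) * π) + (4407 / 2000000 : ℝ) * π * KK D (((((1 : ℤ) : ℝ) / ((2 : ℕ) : ℝ)) * π) + ((((-1 : ℤ) : ℝ) / ((1 : ℕ) :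 ℝ)) * (E 0))) + (-4407 / 2000000 : ℝ) * π * KK D ((((1 : ℤ) : ℝ) / ((2 : ℕ) : ℝ)) * π) + (247687 / 3000000 : ℝ) * π * KK D (((((1 : ℤ) : ℝ) / ((6 : ℕ) : ℝ)) * π) + ((((1 : ℤ) : ℝ) / ((1 : ℕ) : ℝ)) * (E 0))) + (1291 / 150000 : ℝ) * π * KK D (((((1 : ℤ) : ℝ) / ((6 : ℕ) : ℝ)) * π) + ((((1 : ℤ) : ℝ) / ((2 : ℕ) : ℝ)) * (E 0))) + (36577 / 500000 : ℝ) * π * KK D (((((1 : ℤ) : ℝ) / ((6 : ℕ) : ℝ)) * π) + ((((2 : ℤ) : ℝ) / ((1 : ℕ) : ℝ)) * (E 0))) + (-94393 / 3375000 : ℝ) * π * KK D (((((1 : ℤ) : ℝ) / ((6 : ℕ) : ℝ)) * π) + ((((3 : ℤ) : ℝ) / ((2 : ℕ) : ℝ)) * (E 0))) + (-3681577 / 27000000 : ℝ) * π * KK D ((((1 : ℤ) : ℝ) / ((6 : ℕ) : ℝ)) * π) + (-2 : ℝ) * E 0 * E 2 * KK D (((((1 : ℤ) : ℝ) / ((2 : ℕ) : ℝ)) * π) + ((((-1 : ℤ) :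 ℝ) / ((1 : ℕ) : ℝ)) * (E 0))) + (2 : ℝ) * E 0 * E 2 * KK D ((((1 : ℤ) : ℝ) / ((2 : ℕ) : ℝ)) * π) + (4 : ℝ) * E 0 * E 2 * KK D (((((1 : ℤ) : ℝ) / ((6 : ℕ) : ℝ)) * π) + ((((1 : ℤ) : ℝ) / ((1 : ℕ) : ℝ)) * (E 0))) + (-4 / 3 : ℝ) * E 0 * E 2 * KK D (((((1 : ℤ) : ℝ) / ((6 : ℕ) : ℝ)) * π) + ((((1 : ℤ) : ℝ) / ((2 : ℕ) : ℝ)) * (E 0))) + (-44 / 3 : ℝ) * E 0 * E 2 * KK D (((((1 : ℤ) : ℝ) / ((6 : ℕ) : ℝ)) * π) + ((((2 : ℤ) : ℝ) / ((1 : ℕ) : ℝ)) * (E 0))) + (12 : ℝ) * E 0 * E 2 * KK D (((((1 : ℤ) : ℝ) / ((6 : ℕ) : ℝ)) * π) + ((((3 : ℤ) : ℝ) / ((2 : ℕ) : ℝ)) * (E 0))) + (1 / 6 : ℝ) * E 0 * E 4 * KK D (((((1 : ℤ) : ℝ) / ((2 : ℕ) : ℝ)) * π) + ((((-1 : ℤ) : ℝ) / ((1 : ℕ) : ℝ)) * (E 0))) + (-1 / 6 : ℝ) * E 0 * E 4 * KK D ((((1 : ℤ)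 : ℝ) / ((2 : ℕ) : ℝ)) * π) + (8 / 3 : ℝ) * E 0 * E 4 * KK D (((((1 : ℤ) : ℝ) / ((6 : ℕ) : ℝ)) * π) + ((((1 : ℤ) : ℝ) / ((1 : ℕ) : ℝ)) * (E 0))) + (-32 / 9 : ℝ) * E 0 * E 4 * KK D (((((1 : ℤ) : ℝ) / ((6 : ℕ) : ℝ)) * π) + ((((1 : ℤ) : ℝ) / ((2 : ℕ) : ℝ)) * (E 0))) + (44 / 9 : ℝ) * E 0 * E 4 * KK D (((((1 : ℤ) : ℝ) / ((6 : ℕ) : ℝ)) * π) + ((((2 : ℤ) : ℝ) / ((1 : ℕ) : ℝ)) * (E 0))) + (-4 : ℝ) * E 0 * E 4 * KK D (((((1 : ℤ) : ℝ) / ((6 : ℕ) : ℝ)) * π) + ((((3 : ℤ) : ℝ) / ((2 : ℕ) : ℝ)) * (E 0))) + (5 / 3 : ℝ) * E 0 * E 6 * KK D (((((1 : ℤ) : ℝ) / ((2 : ℕ) : ℝ)) * π) + ((((-1 : ℤ) : ℝ) / ((1 : ℕ) : ℝ)) * (E 0))) + (-5 / 3 : ℝ) * E 0 * E 6 * KK D ((((1 : ℤ) : ℝ) / ((2 : ℕ) : ℝ)) * π) + (-8 / 3 : ℝ) * E 0 * E 6 * KK D (((((1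 : ℤ) : ℝ) / ((6 : ℕ) : ℝ)) * π) + ((((1 : ℤ) : ℝ) / ((1 : ℕ) : ℝ)) * (E 0))) + (50 / 9 : ℝ) * E 0 * E 6 * KK D (((((1 : ℤ) : ℝ) / ((6 : ℕ) : ℝ)) * π) + ((((1 : ℤ) : ℝ) / ((2 : ℕ) : ℝ)) * (E 0))) + (-8 / 9 : ℝ) * E 0 * E 6 * KK D (((((1 : ℤ) : ℝ) / ((6 : ℕ) : ℝ)) * π) + ((((2 : ℤ) : ℝ) / ((1 : ℕ) : ℝ)) * (E 0))) + (-2 : ℝ) * E 0 * E 6 * KK D (((((1 : ℤ) : ℝ) / ((6 : ℕ) : ℝ)) * π) + ((((3 : ℤ) : ℝ) / ((2 : ℕ) : ℝ)) * (E 0))) + (633843 / 250000 : ℝ) * E 0 * KK D (((((1 : ℤ) : ℝ) / ((2 : ℕ) : ℝ)) * π) + ((((-1 : ℤ) : ℝ) / ((1 : ℕ) : ℝ)) * (E 0))) + (-633843 / 250000 : ℝ) * E 0 * KK D ((((1 : ℤ) : ℝ) / ((2 : ℕ) : ℝ)) * π) + (38199 / 100000 : ℝ) * E 0 * KK D (((((1 : ℤ) : ℝ) / ((6 : ℕ) : ℝ)) * π) + ((((1 : ℤ) : ℝ) / ((1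 : ℕ) : ℝ)) * (E 0))) + (1291 / 50000 : ℝ) * E 0 * KK D (((((1 : ℤ) : ℝ) / ((6 : ℕ) : ℝ)) * π) + ((((1 : ℤ) : ℝ) / ((2 : ℕ) : ℝ)) * (E 0))) + (-1621231 / 1000000 : ℝ) * E 0 * KK D (((((1 : ℤ) : ℝ) / ((6 : ℕ) : ℝ)) * π) + ((((2 : ℤ) : ℝ) / ((1 : ℕ) : ℝ)) * (E 0))) + (-94393 / 375000 : ℝ) * E 0 * KK D (((((1 : ℤ) : ℝ) / ((6 : ℕ) : ℝ)) * π) + ((((3 : ℤ) : ℝ) / ((2 : ℕ) : ℝ)) * (E 0))) + (4395407 / 3000000 : ℝ) * E 0 * KK D ((((1 : ℤ) : ℝ) / ((6 : ℕ) : ℝ)) * π) + (-1 : ℝ) * E 2 * TT D (((((1 : ℤ) : ℝ) / ((2 : ℕ) : ℝ)) * π) + ((((-1 : ℤ) : ℝ) / ((1 : ℕ) : ℝ)) * (E 0))) + (1 : ℝ) * E 2 * TT D ((((1 : ℤ) : ℝ) / ((2 : ℕ) : ℝ)) * π) + (-2 : ℝ) * E 2 * TT D (((((1 : ℤ) : ℝ) / ((6 : ℕ) : ℝ)) * π) + ((((1 : ℤ) : ℝ) / ((1 : ℕ)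 : ℝ)) * (E 0))) + (8 / 3 : ℝ) * E 2 * TT D (((((1 : ℤ) : ℝ) / ((6 : ℕ) : ℝ)) * π) + ((((1 : ℤ) : ℝ) / ((2 : ℕ) : ℝ)) * (E 0))) + (22 / 3 : ℝ) * E 2 * TT D (((((1 : ℤ) : ℝ) / ((6 : ℕ) : ℝ)) * π) + ((((2 : ℤ) : ℝ) / ((1 : ℕ) : ℝ)) * (E 0))) + (-8 : ℝ) * E 2 * TT D (((((1 : ℤ) : ℝ) / ((6 : ℕ) : ℝ)) * π) + ((((3 : ℤ) : ℝ) / ((2 : ℕ) : ℝ)) * (E 0))) + (1 / 3 : ℝ) * E 4 * TT D (((((1 : ℤ) : ℝ) / ((2 : ℕ) : ℝ)) * π) + ((((-1 : ℤ) : ℝ) / ((1 : ℕ) : ℝ)) * (E 0))) + (-1 / 3 : ℝ) * E 4 * TT D ((((1 : ℤ) : ℝ) / ((2 : ℕ) : ℝ)) * π) + (-22 / 3 : ℝ) * E 4 * TT D (((((1 : ℤ) : ℝ) / ((6 : ℕ) : ℝ)) * π) + ((((1 : ℤ) : ℝ) / ((1 : ℕ) : ℝ)) * (E 0))) + (64 / 9 : ℝ) * E 4 * TT D (((((1 : ℤ) : ℝ) / ((6 : ℕ) : ℝ)) * π) + ((((1 : ℤ) : ℝ)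 / ((2 : ℕ) : ℝ)) * (E 0))) + (-22 / 9 : ℝ) * E 4 * TT D (((((1 : ℤ) : ℝ) / ((6 : ℕ) : ℝ)) * π) + ((((2 : ℤ) : ℝ) / ((1 : ℕ) : ℝ)) * (E 0))) + (8 / 3 : ℝ) * E 4 * TT D (((((1 : ℤ) : ℝ) / ((6 : ℕ) : ℝ)) * π) + ((((3 : ℤ) : ℝ) / ((2 : ℕ) : ℝ)) * (E 0))) + (4 / 3 : ℝ) * E 6 * TT D (((((1 : ℤ) : ℝ) / ((2 : ℕ) : ℝ)) * π) + ((((-1 : ℤ) : ℝ) / ((1 : ℕ) : ℝ)) * (E 0))) + (-4 / 3 : ℝ) * E 6 * TT D ((((1 : ℤ) : ℝ) / ((2 : ℕ) : ℝ)) * π) + (16 / 3 : ℝ) * E 6 * TT D (((((1 : ℤ) : ℝ) / ((6 : ℕ) : ℝ)) * π) + ((((1 : ℤ) : ℝ) / ((1 : ℕ) : ℝ)) * (E 0))) + (-100 / 9 : ℝ) * E 6 * TT D (((((1 : ℤ) : ℝ) / ((6 : ℕ) : ℝ)) * π) + ((((1 : ℤ) : ℝ) / ((2 : ℕ) : ℝ)) * (E 0))) + (4 / 9 : ℝ) * E 6 * TT D (((((1 : ℤ) : ℝ) / ((6 : ℕ) : ℝ)) * π) +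 ((((2 : ℤ) : ℝ) / ((1 : ℕ) : ℝ)) * (E 0))) + (4 / 3 : ℝ) * E 6 * TT D (((((1 : ℤ) : ℝ) / ((6 : ℕ) : ℝ)) * π) + ((((3 : ℤ) : ℝ) / ((2 : ℕ) : ℝ)) * (E 0))) + (4 : ℝ) * E 6 * TT D ((((1 : ℤ) : ℝ) / ((6 : ℕ) : ℝ)) * π) + (-1 : ℝ) * SS D (((((1 : ℤ) : ℝ) / ((2 : ℕ) : ℝ)) * π) + ((((-1 : ℤ) : ℝ) / ((1 : ℕ) : ℝ)) * (E 0))) + (1 : ℝ) * SS D ((((1 : ℤ) : ℝ) / ((2 : ℕ) : ℝ)) * π) + (1 : ℝ) * SS D (((((1 : ℤ) : ℝ) / ((6 : ℕ) : ℝ)) * π) + ((((2 : ℤ) : ℝ) / ((1 : ℕ) : ℝ)) * (E 0))) + (-1 : ℝ) * SS D ((((1 : ℤ) : ℝ) / ((6 : ℕ) : ℝ)) * π) + (-4407 / 1000000 : ℝ) * TT D (((((1 : ℤ) : ℝ) / ((2 : ℕ) : ℝ)) * π) + ((((-1 : ℤ) : ℝ) / ((1 : ℕ) : ℝ)) * (E 0))) + (4407 / 1000000 : ℝ) * TT D ((((1 : ℤ) : ℝ) / ((2 : ℕ) : ℝ)) * π) + (-247687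 / 500000 : ℝ) * TT D (((((1 : ℤ) : ℝ) / ((6 : ℕ) : ℝ)) * π) + ((((1 : ℤ) : ℝ) / ((1 : ℕ) : ℝ)) * (E 0))) + (-1291 / 25000 : ℝ) * TT D (((((1 : ℤ) : ℝ) / ((6 : ℕ) : ℝ)) * π) + ((((1 : ℤ) : ℝ) / ((2 : ℕ) : ℝ)) * (E 0))) + (-109731 / 250000 : ℝ) * TT D (((((1 : ℤ) : ℝ) / ((6 : ℕ) : ℝ)) * π) + ((((2 : ℤ) : ℝ) / ((1 : ℕ) : ℝ)) * (E 0))) + (94393 / 562500 : ℝ) * TT D (((((1 : ℤ) : ℝ) / ((6 : ℕ) : ℝ)) * π) + ((((3 : ℤ) : ℝ) / ((2 : ℕ) : ℝ)) * (E 0))) + (3681577 / 4500000 : ℝ) * TT D ((((1 : ℤ) : ℝ) / ((6 : ℕ) : ℝ)) * π)) ≤ 0 := by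
  have p1 := pi_gt_d4
  have p2 := pi_lt_d4
  have t1 := h.t1
  have t2 := h.t2
  have r := frame_down (@ww3) A.cont A.b3 (okVt h) (okVv h) (okVx h)
    (by simp only [lVt E, lVv E, lVx E]; linarith only [p1, p2, t1, t2])
    (by linarith only [p1, p2, t1, t2])
    (by simp only [lVt E, lVv E, lVx E]; linarith only [p1, p2, t1, t2])
    (by linarith only [p1, p2, t1, t2])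
    (by simp only [lVt E, lVv E, lVx E]; linarith only [p1, p2, t1, t2])
    (by linarith only [p1, p2, t1, t2])
    (by simp only [lVt E, lVv E, lVx E]; linarith only [p1, p2, t1, t2])
    (by simp only [lVt E, lVv E, lVx E]; linarith only [p1, p2, t1, t2])
    (by simp only [lVt E, lVv E, lVx E]; linarith only [p1, p2, t1, t2])
    (by simp only [lVt E, lVv E, lVx E]; linarith only [p1, p2, t1, t2])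
    (by simp only [lVt E, lVv E, lVx E]; linarith only [p1, p2, t1, t2])
    (by simp only [lVt E, lVv E, lVx E]; linarith only [p1, p2, t1, t2])
    (by simp only [lVt E, lVv E, lVx E]; linarith only [p1, p2, t1, t2])
    (by rw [mVt, mVx]; linear_combination (1) * S1 h - (-1) * S4 h)
    (by rw [mVv, mVx]; linear_combination (-1) * S4 h)
    (by rw [mVx]; linarith only [(P6 h).2.2.2.1])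
    (by rw [qVt, qVv, qVx, mVx]; linear_combination (-1) * S3 h + ((2 / 3 : ℝ) * π + (-9 / 8 : ℝ) * E 0) * (-1) * S4 h)
  rw [vVt A, vVv A, vVx A] at r
  linear_combination r

end Pool.Agent.MP_e5b4ec_an.Sm
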