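import Pool.Agent.MP_e5b4ec_an.Mid.AA

set_option maxRecDepth 20000
set_option linter.unusedVariables false
set_option linter.unusedSimpArgs false

open Real

namespace Pool.Agent.MP_e5b4ec_an.Sm

open Mid

def ds : List Ex := [
  .inv (.mul (.mul (.q 9 2) (.v 0)) (.v 0)),
  .sub (.q 0 1) (.mul (.add (.add (.add (.add (.mul (.mul (.q 130461 80000) (.v 0)) (.v 0)) (.mul (.q 1 1) (.cos (.add (.mul (.q 1 2) .pi) (.mul (.q (-1) 1) (.v 0)))))) (.mul (.q (-1) 1) (.cos (.mul (.q 1 2) .pi)))) (.mul (.q 1 1) (.cos (.add (.mul (.q 1 6) .pi) (.mul (.q 2 1) (.v 0)))))) (.mul (.q (-1) 1) (.cos (.mul (.q 1 6) .pi)))) (.v 1)),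
  .inv (.mul (.mul (.mul (.q 8 9) (.v 0)) (.v 0)) (.v 0)),
  .sub (.q 0 1) (.mul (.add (.add (.add (.add (.add (.add (.add (.add (.add (.add (.add (.add (.mul (.mul (.mul (.q 43487 480000) .pi) (.v 0)) (.v 0)) (.mul (.mul (.mul (.mul (.q 1 4) .pi) (.v 0)) (.v 0)) (.v 2))) (.mul (.mul (.q (-1) 2) .pi) (.cos (.add (.mul (.q 1 2) .pi) (.mul (.q (-3) 1) (.v 0)))))) (.mul (.mul (.q 1 6) .pi) (.cos (.add (.mul (.q 1 6) .pi) (.mul (.q 2 1) (.v 0)))))) (.mul (.mul (.q (-1) 6) .pi) (.cos (.mul (.q 5 6) .pi)))) (.mul (.mul (.q 1 1) (.v 0)) (.cos (.add (.mul (.q 1 2) .pi) (.mul (.q (-1) 1) (.v 0)))))) (.mul (.mul (.q 2 1) (.v 0)) (.cos (.add (.mul (.q 1 6) .pi) (.mul (.q 2 1) (.v 0)))))) (.mul (.mul (.mul (.mul (.q (-14) 3) (.v 0)) (.v 0)) (.v 0)) (.v 2))) (.mul (.mul (.mul (.q (-806063) 500000) (.v 0)) (.v 0)) (.v 0))) (.mul (.q 1 1) (.sin (.mul (.q 1 1) .pi))))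 (.mul (.q 1 1) (.sin (.add (.mul (.q 1 2) .pi) (.mul (.q (-1) 1) (.v 0)))))) (.mul (.q (-1) 1) (.sin (.add (.mul (.q 1 6) .pi) (.mul (.q 2 1) (.v 0)))))) (.mul (.q (-1) 1) (.sin (.mul (.q 5 6) .pi)))) (.v 3)),
  .inv (.mul (.mul (.mul (.q 41 144) (.v 0)) (.v 0)) (.v 0)),
  .sub (.q 0 1) (.mul (.add (.add (.add (.add (.add (.add (.add (.add (.add (.add (.add (.add (.add (.add (.add (.mul (.mul (.mul (.q (-43487) 160000) .pi) (.v 0)) (.v 0)) (.mul (.mul (.mul (.mul (.q (-3) 4) .pi) (.v 0)) (.v 0)) (.v 2))) (.mul (.mul (.q (-1) 6) .pi) (.cos (.add (.mul (.q 1 2) .pi) (.mul (.q (-1) 1) (.v 0)))))) (.mul (.mul (.q 1 6) .pi) (.cos (.mul (.q 1 2) .pi)))) (.mul (.mul (.q (-1) 6) .pi) (.cos (.add (.mul (.q 1 6) .pi) (.mul (.q 2 1) (.v 0)))))) (.mul (.mul (.q 1 6) .pi) (.cos (.mul (.q 1 6) .pi)))) (.mul (.mul (.q (-25) 16) (.v 0)) (.cos (.add (.mul (.q 1 2) .pi)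 (.mul (.q (-1) 1) (.v 0)))))) (.mul (.mul (.q 9 16) (.v 0)) (.cos (.mul (.q 1 2) .pi)))) (.mul (.mul (.q (-2) 1) (.v 0)) (.cos (.add (.mul (.q 1 6) .pi) (.mul (.q 2 1) (.v 0)))))) (.mul (.mul (.mul (.mul (.q (-529) 96) (.v 0)) (.v 0)) (.v 0)) (.v 2))) (.mul (.mul (.mul (.mul (.q 17 36) (.v 0)) (.v 0)) (.v 0)) (.v 4))) (.mul (.mul (.mul (.q (-34249567) 19200000) (.v 0)) (.v 0)) (.v 0))) (.mul (.q (-1) 1) (.sin (.add (.mul (.q 1 2) .pi) (.mul (.q (-1) 1) (.v 0)))))) (.mul (.q 1 1) (.sin (.mul (.q 1 2) .pi)))) (.mul (.q 1 1) (.sin (.add (.mul (.q 1 6) .pi) (.mul (.q 2 1) (.v 0)))))) (.mul (.q (-1) 1) (.sin (.mul (.q 1 6) .pi)))) (.v 5)),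
  .inv (.mul (.q 9 8) (.v 0)),
  .sub (.q 0 1) (.mul (.add (.add (.add (.add (.mul (.mul (.mul (.q (-3) 4) (.v 0)) (.v 0)) (.v 2)) (.mul (.mul (.mul (.q 1 2) (.v 0)) (.v 0)) (.v 6))) (.mul (.mul (.q 5075151 4000000) (.v 0)) (.v 0))) (.mul (.q (-1) 2) (.cos (.add (.mul (.q 1 2) .pi) (.mul (.q (-1) 1) (.v 0)))))) (.mul (.q 1 2) (.cos (.mul (.q 1 2) .pi)))) (.v 7)),
  .inv (.add (.add (.mul (.mul (.q (-4) 3) .pi) (.v 0)) (.mul (.mul (.q 1 36) .pi) .pi)) (.mul (.mul (.q 16 1) (.v 0)) (.v 0))),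
  .sub (.q 0 1) (.mul (.add (.add (.add (.add (.add (.add (.add (.add (.add (.add (.add (.add (.mul (.mul (.q 25712220851 34020000000) .pi) (.v 0)) (.mul (.mul (.mul (.q 29 18) .pi) (.v 0)) (.v 2))) (.mul (.mul (.mul (.q (-29) 54) .pi) (.v 0)) (.v 4))) (.mul (.mul (.mul (.q (-7) 216) .pi) .pi) (.v 2))) (.mul (.mul (.mul (.q 7 648) .pi) .pi) (.v 4))) (.mul (.mul (.q (-8289727091) 408240000000) .pi) .pi)) (.mul (.mul (.mul (.q (-56) 3) (.v 0)) (.v 0)) (.v 2))) (.mul (.mul (.mul (.q 121 18) (.v 0)) (.v 0)) (.v 4))) (.mul (.mul (.q (-5818710157) 810000000) (.v 0)) (.v 0))) (.mul (.q 1 1) (.cos (.mul (.q 1 1) .pi)))) (.mul (.q (-1) 2) (.cos (.add (.mul (.q 1 2) .pi) (.mul (.q (-1) 1) (.v 0)))))) (.mul (.q 1 2) (.cos (.add (.mul (.q 1 2) .pi) (.mul (.q (-3) 1) (.v 0)))))) (.mul (.q (-1) 1) (.cos (.mul (.q 5 6) .pi)))) (.v 9))]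

def cs0 : List Ex := [
  .mul (.mul (.q 9 2) (.v 0)) (.v 0),
  .mul (.mul (.mul (.q 8 9) (.v 0)) (.v 0)) (.v 0),
  .mul (.mul (.mul (.q 41 144) (.v 0)) (.v 0)) (.v 0),
  .mul (.q 9 8) (.v 0),
  .add (.add (.mul (.mul (.q (-4) 3) .pi) (.v 0)) (.mul (.mul (.q 1 36) .pi) .pi)) (.mul (.mul (.q 16 1) (.v 0)) (.v 0)),
  .add (.mul (.q (-1) 1) (.cos (.add (.mul (.q 1 6) .pi) (.mul (.q 2 1) (.v 0))))) (.q 8263492693 12600000000),
  .add (.mul (.q (-1) 1) (.cos (.add (.mul (.q 5 18) .pi) (.mul (.q 1 3) (.v 0))))) (.q 8263492693 12600000000),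
  .add (.mul (.q (-1) 1) (.cos (.add (.mul (.q 5 18) .pi) (.mul (.q 1 3) (.v 0))))) (.q 2603332327 3600000000),
  .add (.mul (.q (-1) 1) (.cos (.add (.mul (.q 7 18) .pi) (.mul (.q (-4) 3) (.v 0))))) (.q 2603332327 3600000000),
  .add (.mul (.q (-1) 1) (.cos (.add (.mul (.q 7 18) .pi) (.mul (.q (-4) 3) (.v 0))))) (.q 183828889 336000000),
  .add (.mul (.q (-1) 1) (.cos (.add (.mul (.q 1 2) .pi) (.mul (.q (-3) 1) (.v 0))))) (.q 183828889 336000000),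
  .add (.add (.mul (.q (-216204851) 504000000) .pi) (.mul (.q 216204851 33600000) (.v 0))) (.mul (.q 1 1) (.sin (.add (.mul (.q 1 2) .pi) (.mul (.q (-3) 1) (.v 0))))),
  .add (.mul (.q (-1) 1) (.cos (.mul (.q 5 6) .pi))) (.q (-509792773) 600000000),
  .add (.mul (.q (-1) 1) (.cos (.add (.mul (.q 17 18) .pi) (.mul (.q (-5) 3) (.v 0))))) (.q (-509792773) 600000000),
  .add (.mul (.q (-1) 1) (.cos (.add (.mul (.q 17 18) .pi) (.mul (.q (-5) 3) (.v 0))))) (.q (-89449321) 100000000),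
  .add (.mul (.q (-1) 1) (.cos (.add (.mul (.q 19 18) .pi) (.mul (.q (-10) 3) (.v 0))))) (.q (-89449321) 100000000)]

def cs1 : List Ex := [
  .add (.mul (.q (-1) 1) (.cos (.add (.mul (.q 19 18) .pi) (.mul (.q (-10) 3) (.v 0))))) (.q (-1575521) 2343750),
  .add (.mul (.q (-1) 1) (.cos (.add (.mul (.q 5 6) .pi) (.mul (.q 1 1) (.v 0))))) (.q (-1575521) 2343750),
  .add (.mul (.mul (.q 1 1) (.v 0)) (.v 4)) (.mul (.q 8203 31250) (.v 0)),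
  .add (.add (.mul (.q (-1) 1) (.v 4)) (.mul (.q (-1) 1) (.cos (.add (.mul (.q 5 6) .pi) (.mul (.q 1 1) (.v 0)))))) (.q (-1095373) 1171875),
  .add (.add (.mul (.q (-1) 1) (.v 4)) (.mul (.q (-1) 1) (.cos (.add (.mul (.q 7 6) .pi) (.mul (.q (-5) 1) (.v 0)))))) (.q (-1095373) 1171875),
  .add (.mul (.q 65791 1125000) .pi) (.mul (.q (-2978803) 3000000) (.v 0)),
  .add (.add (.add (.mul (.q (-1) 6) (.v 2)) (.mul (.q (-17) 18) (.v 4))) (.mul (.q (-1) 1) (.cos (.add (.mul (.q 7 6) .pi) (.mul (.q (-5) 1) (.v 0)))))) (.q (-1513393) 4000000),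
  .add (.add (.add (.mul (.q (-1) 6) (.v 2)) (.mul (.q (-17) 18) (.v 4))) (.mul (.q (-1) 1) (.cos (.add (.mul (.q 23 18) .pi) (.mul (.q (-20) 3) (.v 0)))))) (.q (-1513393) 4000000),
  .add (.add (.add (.mul (.q (-1) 6) (.v 2)) (.mul (.q (-17) 18) (.v 4))) (.mul (.q (-1) 1) (.cos (.add (.mul (.q 23 18) .pi) (.mul (.q (-20) 3) (.v 0)))))) (.q (-138716321) 144000000),
  .add (.add (.add (.mul (.q (-1) 6) (.v 2)) (.mul (.q (-17) 18) (.v 4))) (.mul (.q (-1) 1) (.cos (.add (.mul (.q 25 18) .pi) (.mul (.q (-25) 3) (.v 0)))))) (.q (-138716321) 144000000),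
  .add (.add (.add (.mul (.q (-1) 6) (.v 2)) (.mul (.q (-17) 18) (.v 4))) (.mul (.q (-1) 1) (.cos (.add (.mul (.q 25 18) .pi) (.mul (.q (-25) 3) (.v 0)))))) (.q (-53426603) 144000000),
  .add (.add (.add (.mul (.q (-1) 6) (.v 2)) (.mul (.q (-17) 18) (.v 4))) (.mul (.q (-1) 1) (.cos (.add (.mul (.q 5 6) .pi) (.mul (.q 2 1) (.v 0)))))) (.q (-53426603) 144000000),
  .add (.add (.add (.mul (.q 7 6) (.v 2)) (.mul (.q (-7) 18) (.v 4))) (.mul (.q (-1) 1) (.cos (.add (.mul (.q 5 6) .pi) (.mul (.q 2 1) (.v 0)))))) (.q 20488453 144000000),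
  .add (.add (.add (.mul (.q 7 6) (.v 2)) (.mul (.q (-7) 18) (.v 4))) (.mul (.q (-1) 1) (.cos (.add (.mul (.q 5 18) .pi) (.mul (.q 37 3) (.v 0)))))) (.q 20488453 144000000),
  .add (.mul (.q 162601 42000000) .pi) (.mul (.q (-162601) 2800000) (.v 0)),
  .add (.add (.add (.mul (.q 7 6) (.v 2)) (.mul (.q (-7) 18) (.v 4))) (.mul (.q (-1) 1) (.cos (.add (.mul (.q 5 18) .pi) (.mul (.q 37 3) (.v 0)))))) (.q 64682041 336000000)]

def cs2 : List Ex := [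
  .add (.add (.add (.mul (.q 7 6) (.v 2)) (.mul (.q (-7) 18) (.v 4))) (.mul (.q (-1) 1) (.cos (.add (.mul (.q 7 6) .pi) (.mul (.q (-4) 1) (.v 0)))))) (.q 64682041 336000000),
  .add (.add (.add (.add (.mul (.q 1 6) (.v 2)) (.mul (.q (-1) 18) (.v 4))) (.mul (.q 1 1) (.v 10))) (.mul (.q (-1) 1) (.cos (.add (.mul (.q 7 6) .pi) (.mul (.q (-4) 1) (.v 0)))))) (.q (-8177587) 112000000),
  .add (.add (.add (.add (.mul (.q 1 6) (.v 2)) (.mul (.q (-1) 18) (.v 4))) (.mul (.q 1 1) (.v 10))) (.mul (.q (-1) 1) (.cos (.add (.mul (.q 3 2) .pi) (.mul (.q (-10) 1) (.v 0)))))) (.q (-8177587) 112000000),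
  .add (.add (.add (.add (.mul (.q 1 6) (.v 2)) (.mul (.q (-1) 18) (.v 4))) (.mul (.q 1 1) (.v 10))) (.mul (.q (-1) 1) (.cos (.add (.mul (.q 3 2) .pi) (.mul (.q (-10) 1) (.v 0)))))) (.q 818159 336000000),
  .add (.add (.add (.add (.mul (.q 1 6) (.v 2)) (.mul (.q (-1) 18) (.v 4))) (.mul (.q 1 1) (.v 10))) (.mul (.q (-1) 1) (.cos (.add (.mul (.q 1 18) .pi) (.mul (.q 50 3) (.v 0)))))) (.q 818159 336000000),
  .add (.add (.add (.add (.mul (.q 1 6) (.v 2)) (.mul (.q (-1) 18) (.v 4))) (.mul (.q 1 1) (.v 10))) (.mul (.q (-1) 1) (.cos (.add (.mul (.q 1 18) .pi) (.mul (.q 50 3) (.v 0)))))) (.q (-66262787) 1008000000),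
  .add (.add (.add (.add (.mul (.q 1 6) (.v 2)) (.mul (.q (-1) 18) (.v 4))) (.mul (.q 1 1) (.v 10))) (.mul (.q (-1) 1) (.cos (.add (.mul (.q 7 18) .pi) (.mul (.q 32 3) (.v 0)))))) (.q (-66262787) 1008000000),
  .add (.add (.add (.add (.mul (.q 1 6) (.v 2)) (.mul (.q (-1) 18) (.v 4))) (.mul (.q 1 1) (.v 10))) (.mul (.q (-1) 1) (.cos (.add (.mul (.q 7 18) .pi) (.mul (.q 32 3) (.v 0)))))) (.q (-7726427) 1008000000),
  .add (.add (.add (.add (.mul (.q 1 6) (.v 2)) (.mul (.q (-1) 18) (.v 4))) (.mul (.q 1 1) (.v 10))) (.mul (.q (-1) 1) (.cos (.add (.mul (.q 23 18) .pi) (.mul (.q (-17) 3) (.v 0)))))) (.q (-7726427) 1008000000),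
  .add (.add (.add (.add (.mul (.q 1 6) (.v 2)) (.mul (.q (-1) 18) (.v 4))) (.mul (.q 1 1) (.v 10))) (.mul (.q (-1) 1) (.cos (.add (.mul (.q 23 18) .pi) (.mul (.q (-17) 3) (.v 0)))))) (.q (-676951967) 5040000000),
  .add (.add (.add (.add (.mul (.q 1 6) (.v 2)) (.mul (.q (-1) 18) (.v 4))) (.mul (.q 1 1) (.v 10))) (.mul (.q (-1) 1) (.cos (.add (.mul (.q 29 18) .pi) (.mul (.q (-35) 3) (.v 0)))))) (.q (-676951967) 5040000000),
  .add (.add (.add (.add (.mul (.q 1 6) (.v 2)) (.mul (.q (-1) 18) (.v 4))) (.mul (.q 1 1) (.v 10))) (.mul (.q (-1) 1) (.cos (.add (.mul (.q 29 18) .pi) (.mul (.q (-35) 3) (.v 0)))))) (.q (-686992487) 5040000000),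
  .add (.add (.add (.add (.mul (.q 1 6) (.v 2)) (.mul (.q (-1) 18) (.v 4))) (.mul (.q 1 1) (.v 10))) (.mul (.q (-1) 1) (.cos (.add (.mul (.q 1 2) .pi) (.mul (.q 9 1) (.v 0)))))) (.q (-686992487) 5040000000),
  .add (.add (.add (.add (.mul (.q 1 6) (.v 2)) (.mul (.q (-1) 18) (.v 4))) (.mul (.q 1 1) (.v 10))) (.mul (.q (-1) 1) (.cos (.add (.mul (.q 1 2) .pi) (.mul (.q 9 1) (.v 0)))))) (.q (-99411863) 1008000000),
  .add (.add (.add (.add (.mul (.q 1 6) (.v 2)) (.mul (.q (-1) 18) (.v 4))) (.mul (.q 1 1) (.v 10))) (.mul (.q (-1) 1) (.cos (.add (.mul (.q 25 18) .pi) (.mul (.q (-22) 3) (.v 0)))))) (.q (-99411863) 1008000000),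
  .add (.add (.add (.add (.mul (.q 1 6) (.v 2)) (.mul (.q (-1) 18) (.v 4))) (.mul (.q 1 1) (.v 10))) (.mul (.q (-1) 1) (.cos (.add (.mul (.q 25 18) .pi) (.mul (.q (-22) 3) (.v 0)))))) (.q 1413005399 5040000000)]

def cs3 : List Ex := [
  .add (.add (.add (.add (.mul (.q 1 6) (.v 2)) (.mul (.q (-1) 18) (.v 4))) (.mul (.q 1 1) (.v 10))) (.mul (.q (-1) 1) (.cos (.add (.mul (.q 5 6) .pi) (.mul (.q 3 1) (.v 0)))))) (.q 1413005399 5040000000),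
  .add (.add (.add (.add (.mul (.q (-7) 3) (.v 2)) (.mul (.q 7 9) (.v 4))) (.mul (.q 1 1) (.v 10))) (.mul (.q (-1) 1) (.cos (.add (.mul (.q 5 6) .pi) (.mul (.q 3 1) (.v 0)))))) (.q (-592561801) 5040000000),
  .add (.add (.add (.add (.mul (.q (-7) 3) (.v 2)) (.mul (.q 7 9) (.v 4))) (.mul (.q 1 1) (.v 10))) (.mul (.q (-1) 1) (.cos (.add (.mul (.q 31 18) .pi) (.mul (.q (-40) 3) (.v 0)))))) (.q (-592561801) 5040000000),
  .add (.add (.add (.add (.mul (.q (-7) 3) (.v 2)) (.mul (.q 7 9) (.v 4))) (.mul (.q 1 1) (.v 10))) (.mul (.q (-1) 1) (.cos (.add (.mul (.q 31 18) .pi) (.mul (.q (-40) 3) (.v 0)))))) (.q (-87339167) 630000000),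
  .add (.add (.add (.add (.mul (.q (-7) 3) (.v 2)) (.mul (.q 7 9) (.v 4))) (.mul (.q 1 1) (.v 10))) (.mul (.q (-1) 1) (.cos (.mul (.q 1 1) .pi)))) (.q (-87339167) 630000000),
  .mul (.q (-1) 1) (.v 10),
  .add (.mul (.q (-1) 2) (.cos (.add (.mul (.q 1 2) .pi) (.mul (.q (-3) 1) (.v 0))))) (.q 270172163 252000000),
  .add (.mul (.q (-1) 2) (.cos (.add (.mul (.q (-1) 18) .pi) (.mul (.q 22 3) (.v 0))))) (.q 270172163 252000000),
  .add (.mul (.q (-1) 2) (.cos (.add (.mul (.q (-1) 18) .pi) (.mul (.q 22 3) (.v 0))))) (.q 21091823 10080000),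
  .add (.mul (.q (-1) 2) (.cos (.add (.mul (.q 5 9) .pi) (.mul (.q (-23) 6) (.v 0))))) (.q 21091823 10080000),
  .add (.mul (.q (-1) 2) (.cos (.add (.mul (.q 5 9) .pi) (.mul (.q (-23) 6) (.v 0))))) (.q 292972247 1260000000),
  .add (.mul (.q (-1) 2) (.cos (.mul (.q 13 2) (.v 0)))) (.q 292972247 1260000000),
  .add (.mul (.q (-1) 2) (.cos (.mul (.q 13 2) (.v 0)))) (.q 454197017 1260000000),
  .add (.mul (.q (-1) 2) (.cos (.add (.mul (.q 11 18) .pi) (.mul (.q (-14) 3) (.v 0))))) (.q 454197017 1260000000),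
  .add (.mul (.q (-1) 2) (.cos (.add (.mul (.q 11 18) .pi) (.mul (.q (-14) 3) (.v 0))))) (.q 1320433 6000000),
  .add (.mul (.q (-1) 2) (.cos (.add (.mul (.q 1 18) .pi) (.mul (.q 17 3) (.v 0))))) (.q 1320433 6000000)]

def cs4 : List Ex := [
  .add (.mul (.q (-1) 2) (.cos (.add (.mul (.q 1 18) .pi) (.mul (.q 17 3) (.v 0))))) (.q 10545657 50000000),
  .add (.mul (.q (-1) 2) (.cos (.add (.mul (.q 2 3) .pi) (.mul (.q (-11) 2) (.v 0))))) (.q 10545657 50000000),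
  .add (.mul (.q (-1) 2) (.cos (.add (.mul (.q 2 3) .pi) (.mul (.q (-11) 2) (.v 0))))) (.q 56956407 50000000),
  .add (.mul (.q (-1) 2) (.cos (.add (.mul (.q 1 9) .pi) (.mul (.q 29 6) (.v 0))))) (.q 56956407 50000000),
  .add (.mul (.q (-1) 2) (.cos (.add (.mul (.q 1 9) .pi) (.mul (.q 29 6) (.v 0))))) (.q 4900691 25000000),
  .add (.mul (.q (-1) 2) (.cos (.add (.mul (.q 1 6) .pi) (.mul (.q 4 1) (.v 0))))) (.q 4900691 25000000),
  .add (.mul (.q (-1) 2) (.cos (.add (.mul (.q 1 6) .pi) (.mul (.q 4 1) (.v 0))))) (.q 13570273 75000000),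
  .add (.mul (.q (-1) 2) (.cos (.add (.mul (.q 2 9) .pi) (.mul (.q 19 6) (.v 0))))) (.q 13570273 75000000),
  .add (.mul (.q (-1) 2) (.cos (.add (.mul (.q 2 9) .pi) (.mul (.q 19 6) (.v 0))))) (.q 37273019 225000000),
  .add (.mul (.q (-1) 2) (.cos (.add (.mul (.q 5 18) .pi) (.mul (.q 7 3) (.v 0))))) (.q 37273019 225000000),
  .add (.mul (.q (-1) 2) (.cos (.add (.mul (.q 5 18) .pi) (.mul (.q 7 3) (.v 0))))) (.q 8449 56250),
  .add (.mul (.q (-1) 2) (.cos (.add (.mul (.q 1 3) .pi) (.mul (.q 3 2) (.v 0))))) (.q 8449 56250),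
  .add (.mul (.q (-1) 2) (.cos (.add (.mul (.q 1 3) .pi) (.mul (.q 3 2) (.v 0))))) (.q 15141979 112500000),
  .add (.mul (.q (-1) 2) (.cos (.add (.mul (.q 7 18) .pi) (.mul (.q 2 3) (.v 0))))) (.q 15141979 112500000),
  .add (.mul (.q (-1) 2) (.cos (.add (.mul (.q 7 18) .pi) (.mul (.q 2 3) (.v 0))))) (.q 139274 1171875),
  .add (.mul (.q (-1) 2) (.cos (.add (.mul (.q 4 9) .pi) (.mul (.q (-1) 6) (.v 0))))) (.q 139274 1171875)]

def cs5 : List Ex := [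
  .add (.mul (.q (-1) 2) (.cos (.add (.mul (.q 4 9) .pi) (.mul (.q (-1) 6) (.v 0))))) (.q 42624929 112500000),
  .add (.mul (.q (-1) 2) (.cos (.add (.mul (.q 1 2) .pi) (.mul (.q (-1) 1) (.v 0))))) (.q 42624929 112500000),
  .add (.add (.mul (.q (-579113) 2250000) .pi) (.mul (.q 579113 150000) (.v 0))) (.mul (.q 1 2) (.sin (.add (.mul (.q 1 2) .pi) (.mul (.q (-1) 1) (.v 0))))),
  .add (.add (.add (.add (.mul (.q 22 3) (.v 2)) (.mul (.q (-22) 9) (.v 4))) (.mul (.q 4 9) (.v 6))) (.mul (.q 1 1) (.cos (.add (.mul (.q 1 6) .pi) (.mul (.q 2 1) (.v 0)))))) (.q (-109731) 250000),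
  .add (.add (.add (.add (.mul (.q 22 3) (.v 2)) (.mul (.q (-22) 9) (.v 4))) (.mul (.q 4 9) (.v 6))) (.mul (.q 1 1) (.cos (.add (.mul (.q 1 6) .pi) (.mul (.q 3 2) (.v 0)))))) (.q (-109731) 250000),
  .add (.add (.add (.add (.mul (.q (-2) 3) (.v 2)) (.mul (.q 2 9) (.v 4))) (.mul (.q 16 9) (.v 6))) (.mul (.q 1 1) (.cos (.add (.mul (.q 1 6) .pi) (.mul (.q 3 2) (.v 0)))))) (.q (-610007) 2250000),
  .add (.add (.add (.add (.mul (.q (-2) 3) (.v 2)) (.mul (.q 2 9) (.v 4))) (.mul (.q 16 9) (.v 6))) (.mul (.q 1 1) (.cos (.add (.mul (.q 1 6) .pi) (.mul (.q 9 8) (.v 0)))))) (.q (-610007) 2250000),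
  .mul (.q 1 1) (.v 8),
  .add (.add (.add (.add (.mul (.q (-2) 3) (.v 2)) (.mul (.q 2 9) (.v 4))) (.mul (.q 16 9) (.v 6))) (.mul (.q 1 1) (.cos (.add (.mul (.q 1 6) .pi) (.mul (.q 1 1) (.v 0)))))) (.q (-610007) 2250000),
  .add (.add (.add (.mul (.mul (.q (-2) 1) (.v 0)) (.v 2)) (.mul (.mul (.q 14 3) (.v 0)) (.v 4))) (.mul (.mul (.q (-8) 3) (.v 0)) (.v 6))) (.mul (.q 14173 125000) (.v 0)),
  .add (.add (.add (.add (.mul (.q (-8) 3) (.v 2)) (.mul (.q (-64) 9) (.v 4))) (.mul (.q 64 9) (.v 6))) (.mul (.q 1 1) (.cos (.add (.mul (.q 1 6) .pi) (.mul (.q 1 1) (.v 0)))))) (.q (-3449197) 4500000),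
  .add (.add (.add (.add (.mul (.q (-8) 3) (.v 2)) (.mul (.q (-64) 9) (.v 4))) (.mul (.q 64 9) (.v 6))) (.mul (.q 1 1) (.cos (.add (.mul (.q 1 6) .pi) (.mul (.q 1 2) (.v 0)))))) (.q (-3449197) 4500000),
  .add (.add (.mul (.q (-4) 1) (.v 6)) (.mul (.q 1 1) (.cos (.add (.mul (.q 1 6) .pi) (.mul (.q 1 2) (.v 0)))))) (.q (-3681577) 4500000),
  .add (.add (.mul (.q (-4) 1) (.v 6)) (.mul (.q 1 1) (.cos (.mul (.q 1 6) .pi)))) (.q (-3681577) 4500000),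
  .add (.add (.mul (.q (-4395407) 3000000) (.v 0)) (.mul (.q (-1) 1) (.v 8))) (.mul (.q 1 1) (.sin (.mul (.q 1 6) .pi))),
  .add (.add (.add (.add (.mul (.q 1 2) (.v 2)) (.mul (.q (-1) 6) (.v 4))) (.mul (.q (-2) 3) (.v 6))) (.mul (.q 1 2) (.cos (.mul (.q 1 2) .pi)))) (.q 4407 2000000)]

def cs6 : List Ex := [
  .add (.add (.add (.add (.mul (.q 1 2) (.v 2)) (.mul (.q (-1) 6) (.v 4))) (.mul (.q (-2) 3) (.v 6))) (.mul (.q 1 2) (.cos (.add (.mul (.q 1 2) .pi) (.mul (.q (-1) 1) (.v 0)))))) (.q 4407 2000000),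
  .add (.add (.add (.add (.mul (.mul (.q 1 2) (.v 0)) (.v 2)) (.mul (.mul (.q 1 12) (.v 0)) (.v 4))) (.mul (.mul (.q (-1) 6) (.v 0)) (.v 6))) (.mul (.q (-2539779) 2000000) (.v 0))) (.mul (.q 1 2) (.sin (.add (.mul (.q 1 2) .pi) (.mul (.q (-1) 1) (.v 0))))),
  .add (.add (.add (.add (.mul (.mul (.q 55452537509 17010000000) .pi) (.v 0)) (.mul (.mul (.q (-55452537509) 510300000000) .pi) .pi)) (.mul (.mul (.q (-55452537509) 2268000000) (.v 0)) (.v 0))) (.mul (.q (-1) 2) (.cos (.add (.mul (.q 1 2) .pi) (.mul (.q (-1) 1) (.v 0)))))) (.mul (.q 1 2) (.cos (.add (.mul (.q 1 2) .pi) (.mul (.q (-3) 1) (.v 0))))),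
  .add (.add (.add (.add (.mul (.mul (.mul (.q 3 4) (.v 0)) (.v 0)) (.v 2)) (.mul (.mul (.mul (.q (-1) 2) (.v 0)) (.v 0)) (.v 6))) (.mul (.mul (.q (-5075151) 4000000) (.v 0)) (.v 0))) (.mul (.q 1 2) (.cos (.add (.mul (.q 1 2) .pi) (.mul (.q (-1) 1) (.v 0)))))) (.mul (.q (-1) 2) (.cos (.mul (.q 1 2) .pi))),
  .add (.add (.mul (.q 1 1) (.v 4)) (.mul (.q (-2) 3) (.v 6))) (.q 26983 250000),
  .add (.add (.mul (.q 4 3) (.v 2)) (.mul (.q (-4) 9) (.v 4))) (.q 39793 187500),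
  .add (.mul (.q 2 3) (.v 6)) (.q 38641 250000),
  .add (.add (.mul (.q 1 1) (.v 2)) (.mul (.q (-1) 3) (.v 4))) (.q 39793 250000),
  .add (.add (.mul (.q 2 3) (.v 2)) (.mul (.q (-2) 9) (.v 4))) (.q 39793 375000),
  .add (.mul (.q 1 1) (.v 6)) (.q 115923 500000)]

def cs : List Ex := cs0 ++ (cs1 ++ (cs2 ++ (cs3 ++ (cs4 ++ (cs5 ++ (cs6))))))

def fx : Ex := .sub (.add (.cos (.add (.mul (.q 1 6) .pi) (.mul (.q 2 1) (.v 0)))) (.mul (.q 1 2) (.sin (.v 0)))) (.mul (.q 3 2) (.sin (.mul (.q 3 1) (.v 0))))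

theorem chk : go 196469366616109824 4294967296 [] 0 1 [] [] [(ds, cs)] = true := by decide +kernel

theorem chk1 : go 196469362321142528 0 [] 0 1 [] [] [([], [fx])] = true := by decide +kernel

theorem chk2 : go 196469370911077120 0 [] 0 1 [] [] [([], [.sub (.q 0 1) fx])] = true := by decide +kernel

theorem ltds : ltAll 1 ds = true := by decide +kernel

end Pool.Agent.MP_e5b4ec_an.Sm
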