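import Pool.Agent.MP_e5b4ec_an.Sm.Lb
import Pool.Agent.MP_e5b4ec_an.Sm.DX

set_option maxRecDepth 20000
set_option linter.unusedVariables false
set_option linter.unusedSimpArgs false

open Real

namespace Pool.Agent.MP_e5b4ec_an.Sm

open Mid

structure H (E : ℕ → ℝ) : Prop where
  t1 : 1704 / 10000 ≤ E 0
  t2 : E 0 ≤ 17042 / 100000
  eq : cos (π / 6 + 2 * E 0) + sin (E 0) / 2 = 3 / 2 * sin (3 * E 0)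
  d : Dfs (Kof []) E 1 ds
  c0 : Pos (Kof []) E cs0
  c1 : Pos (Kof []) E cs1
  c2 : Pos (Kof []) E cs2
  c3 : Pos (Kof []) E cs3
  c4 : Pos (Kof []) E cs4
  c5 : Pos (Kof []) E cs5
  c6 : Pos (Kof []) E cs6

variable {E : ℕ → ℝ} {D : ℝ → ℝ}

theorem mkH (t1 : 1704 / 10000 ≤ E 0) (t2 : E 0 ≤ 17042 / 100000)
    (eq : cos (π / 6 + 2 * E 0) + sin (E 0) / 2 = 3 / 2 * sin (3 * E 0)) (d : Dfs (Kof []) E 1 ds)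
    (hc : Pos (Kof []) E cs) : H E := by
  obtain ⟨c0, hc⟩ := Pos_app hc
  obtain ⟨c1, hc⟩ := Pos_app hc
  obtain ⟨c2, hc⟩ := Pos_app hc
  obtain ⟨c3, hc⟩ := Pos_app hc
  obtain ⟨c4, hc⟩ := Pos_app hc
  obtain ⟨c5, hc⟩ := Pos_app hc
  exact ⟨t1, t2, eq, d, c0, c1, c2, c3, c4, c5, hc⟩

theorem F0 (h : H E) :
    E 1 = (((((9 : ℤ) : ℝ) / ((2 : ℕ) : ℝ)) * (E 0)) * (E 0))⁻¹ ∧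
    E 2 = (((0 : ℤ) : ℝ) / ((1 : ℕ) : ℝ)) - ((((((((((130461 : ℤ) : ℝ) / ((80000 : ℕ) : ℝ)) * (E 0)) * (E 0)) + ((((1 : ℤ) : ℝ) / ((1 : ℕ) : ℝ)) * (cos (((((1 : ℤ) : ℝ) / ((2 : ℕ) : ℝ)) * π) + ((((-1 : ℤ) : ℝ) / ((1 : ℕ) : ℝ)) * (E 0)))))) + ((((-1 : ℤ) : ℝ) / ((1 : ℕ) : ℝ)) * (cos ((((1 : ℤ) : ℝ) / ((2 : ℕ) : ℝ)) * π)))) + ((((1 : ℤ) : ℝ) / ((1 : ℕ) : ℝ)) * (cos (((((1 : ℤ) : ℝ) / ((6 : ℕ) : ℝ)) * π) + ((((2 : ℤ) : ℝ) / ((1 : ℕ) : ℝ)) * (E 0)))))) + ((((-1 : ℤ) : ℝ) / ((1 : ℕ) : ℝ)) * (cos ((((1 : ℤ) : ℝ) / ((6 : ℕ) : ℝ)) * π)))) * (E 1)) ∧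
    E 3 = ((((((8 : ℤ) : ℝ) / ((9 : ℕ) : ℝ)) * (E 0)) * (E 0)) * (E 0))⁻¹ ∧
    E 4 = (((0 : ℤ) : ℝ) / ((1 : ℕ) : ℝ)) - (((((((((((((((((((43487 : ℤ) : ℝ) / ((480000 : ℕ) : ℝ)) * π) * (E 0)) * (E 0)) + (((((((1 : ℤ) : ℝ) / ((4 : ℕ) : ℝ)) * π) * (E 0)) * (E 0)) * (E 2))) + (((((-1 : ℤ) : ℝ) / ((2 : ℕ) : ℝ)) * π) * (cos (((((1 : ℤ) : ℝ) / ((2 : ℕ) : ℝ)) * π) + ((((-3 : ℤ) : ℝ) / ((1 : ℕ) : ℝ)) * (E 0)))))) + (((((1 : ℤ) : ℝ) / ((6 : ℕ) : ℝ)) * π) * (cos (((((1 : ℤ) : ℝ) / ((6 : ℕ) : ℝ)) * π) + ((((2 : ℤ) : ℝ) / ((1 : ℕ) : ℝ)) * (E 0)))))) + (((((-1 : ℤ) : ℝ) / ((6 : ℕ) : ℝ)) * π) * (cos ((((5 : ℤ) : ℝ) / ((6 : ℕ) : ℝ)) * π)))) + (((((1 : ℤ) : ℝ) / ((1 : ℕ) : ℝ)) * (E 0)) * (cos (((((1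 : ℤ) : ℝ) / ((2 : ℕ) : ℝ)) * π) + ((((-1 : ℤ) : ℝ) / ((1 : ℕ) : ℝ)) * (E 0)))))) + (((((2 : ℤ) : ℝ) / ((1 : ℕ) : ℝ)) * (E 0)) * (cos (((((1 : ℤ) : ℝ) / ((6 : ℕ) : ℝ)) * π) + ((((2 : ℤ) : ℝ) / ((1 : ℕ) : ℝ)) * (E 0)))))) + (((((((-14 : ℤ) : ℝ) / ((3 : ℕ) : ℝ)) * (E 0)) * (E 0)) * (E 0)) * (E 2))) + ((((((-806063 : ℤ) : ℝ) / ((500000 : ℕ) : ℝ)) * (E 0)) * (E 0)) * (E 0))) + ((((1 : ℤ) : ℝ) / ((1 : ℕ) : ℝ)) * (sin ((((1 : ℤ) : ℝ) / ((1 : ℕ) : ℝ)) * π)))) + ((((1 : ℤ) : ℝ) / ((1 : ℕ) : ℝ)) * (sin (((((1 : ℤ) : ℝ) / ((2 : ℕ) : ℝ)) * π) + ((((-1 : ℤ) : ℝ) / ((1 : ℕ) : ℝ)) * (E 0)))))) + ((((-1 : ℤ) : ℝ) / ((1 : ℕ) : ℝ)) * (sin (((((1 : ℤ) : ℝ) / ((6 : ℕ) : ℝ)) * π) + ((((2 : ℤ) : ℝ) /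 ((1 : ℕ) : ℝ)) * (E 0)))))) + ((((-1 : ℤ) : ℝ) / ((1 : ℕ) : ℝ)) * (sin ((((5 : ℤ) : ℝ) / ((6 : ℕ) : ℝ)) * π)))) * (E 3)) ∧
    E 5 = ((((((41 : ℤ) : ℝ) / ((144 : ℕ) : ℝ)) * (E 0)) * (E 0)) * (E 0))⁻¹ ∧
    E 6 = (((0 : ℤ) : ℝ) / ((1 : ℕ) : ℝ)) - ((((((((((((((((((((((-43487 : ℤ) : ℝ) / ((160000 : ℕ) : ℝ)) * π) * (E 0)) * (E 0)) + (((((((-3 : ℤ) : ℝ) / ((4 : ℕ) : ℝ)) * π) * (E 0)) * (E 0)) * (E 2))) + (((((-1 : ℤ) : ℝ) / ((6 : ℕ) : ℝ)) * π) * (cos (((((1 : ℤ) : ℝ) / ((2 : ℕ) : ℝ)) * π) + ((((-1 : ℤ) : ℝ) / ((1 : ℕ) : ℝ)) * (E 0)))))) + (((((1 : ℤ) : ℝ) / ((6 : ℕ) : ℝ)) * π) * (cos ((((1 : ℤ) : ℝ) / ((2 : ℕ) : ℝ)) * π)))) + (((((-1 : ℤ) : ℝ) / ((6 : ℕ) : ℝ)) * π) * (cos (((((1 : ℤ)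 : ℝ) / ((6 : ℕ) : ℝ)) * π) + ((((2 : ℤ) : ℝ) / ((1 : ℕ) : ℝ)) * (E 0)))))) + (((((1 : ℤ) : ℝ) / ((6 : ℕ) : ℝ)) * π) * (cos ((((1 : ℤ) : ℝ) / ((6 : ℕ) : ℝ)) * π)))) + (((((-25 : ℤ) : ℝ) / ((16 : ℕ) : ℝ)) * (E 0)) * (cos (((((1 : ℤ) : ℝ) / ((2 : ℕ) : ℝ)) * π) + ((((-1 : ℤ) : ℝ) / ((1 : ℕ) : ℝ)) * (E 0)))))) + (((((9 : ℤ) : ℝ) / ((16 : ℕ) : ℝ)) * (E 0)) * (cos ((((1 : ℤ) : ℝ) / ((2 : ℕ) : ℝ)) * π)))) + (((((-2 : ℤ) : ℝ) / ((1 : ℕ) : ℝ)) * (E 0)) * (cos (((((1 : ℤ) : ℝ) / ((6 : ℕ) : ℝ)) * π) + ((((2 : ℤ) : ℝ) / ((1 : ℕ) : ℝ)) * (E 0)))))) + (((((((-529 : ℤ) : ℝ) / ((96 : ℕ) : ℝ)) * (E 0)) * (E 0)) * (E 0)) * (E 2))) + (((((((17 : ℤ) : ℝ) / ((36 : ℕ) : ℝ)) * (E 0)) * (E 0)) * (E 0)) *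 (E 4))) + ((((((-34249567 : ℤ) : ℝ) / ((19200000 : ℕ) : ℝ)) * (E 0)) * (E 0)) * (E 0))) + ((((-1 : ℤ) : ℝ) / ((1 : ℕ) : ℝ)) * (sin (((((1 : ℤ) : ℝ) / ((2 : ℕ) : ℝ)) * π) + ((((-1 : ℤ) : ℝ) / ((1 : ℕ) : ℝ)) * (E 0)))))) + ((((1 : ℤ) : ℝ) / ((1 : ℕ) : ℝ)) * (sin ((((1 : ℤ) : ℝ) / ((2 : ℕ) : ℝ)) * π)))) + ((((1 : ℤ) : ℝ) / ((1 : ℕ) : ℝ)) * (sin (((((1 : ℤ) : ℝ) / ((6 : ℕ) : ℝ)) * π) + ((((2 : ℤ) : ℝ) / ((1 : ℕ) : ℝ)) * (E 0)))))) + ((((-1 : ℤ) : ℝ) / ((1 : ℕ) : ℝ)) * (sin ((((1 : ℤ) : ℝ) / ((6 : ℕ) : ℝ)) * π)))) * (E 5)) ∧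
    E 7 = ((((9 : ℤ) : ℝ) / ((8 : ℕ) : ℝ)) * (E 0))⁻¹ ∧
    E 8 = (((0 : ℤ) : ℝ) / ((1 : ℕ) : ℝ)) - (((((((((((-3 : ℤ) : ℝ) / ((4 : ℕ) : ℝ)) * (E 0)) * (E 0)) * (E 2)) + ((((((1 : ℤ) : ℝ) / ((2 : ℕ) : ℝ)) * (E 0)) * (E 0)) * (E 6))) + (((((5075151 : ℤ) : ℝ) / ((4000000 : ℕ) : ℝ)) * (E 0)) * (E 0))) + ((((-1 : ℤ) : ℝ) / ((2 : ℕ) : ℝ)) * (cos (((((1 : ℤ) : ℝ) / ((2 : ℕ) : ℝ)) * π) + ((((-1 : ℤ) : ℝ) / ((1 : ℕ) : ℝ)) * (E 0)))))) + ((((1 : ℤ) : ℝ) / ((2 : ℕ) : ℝ)) * (cos ((((1 : ℤ) : ℝ) / ((2 : ℕ) : ℝ)) * π)))) * (E 7)) ∧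
    E 9 = (((((((-4 : ℤ) : ℝ) / ((3 : ℕ) : ℝ)) * π) * (E 0)) + (((((1 : ℤ) : ℝ) / ((36 : ℕ) : ℝ)) * π) * π)) + (((((16 : ℤ) : ℝ) / ((1 : ℕ) : ℝ)) * (E 0)) * (E 0)))⁻¹ ∧
    E 10 = (((0 : ℤ) : ℝ) / ((1 : ℕ) : ℝ)) - ((((((((((((((((((25712220851 : ℤ) : ℝ) / ((34020000000 : ℕ) : ℝ)) * π) * (E 0)) + ((((((29 : ℤ) : ℝ) / ((18 : ℕ) : ℝ)) * π) * (E 0)) * (E 2))) + ((((((-29 : ℤ) : ℝ) / ((54 : ℕ) : ℝ)) * π) * (E 0)) * (E 4))) + ((((((-7 : ℤ) : ℝ) / ((216 : ℕ) : ℝ)) * π) * π) * (E 2))) + ((((((7 : ℤ) : ℝ) / ((648 : ℕ) : ℝ)) * π) * π) * (E 4))) + (((((-8289727091 : ℤ) : ℝ) / ((408240000000 : ℕ) : ℝ)) * π) * π)) + ((((((-56 : ℤ) : ℝ) / ((3 : ℕ) : ℝ)) * (E 0)) * (E 0)) * (E 2))) + ((((((121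 : ℤ) : ℝ) / ((18 : ℕ) : ℝ)) * (E 0)) * (E 0)) * (E 4))) + (((((-5818710157 : ℤ) : ℝ) / ((810000000 : ℕ) : ℝ)) * (E 0)) * (E 0))) + ((((1 : ℤ) : ℝ) / ((1 : ℕ) : ℝ)) * (cos ((((1 : ℤ) : ℝ) / ((1 : ℕ) : ℝ)) * π)))) + ((((-1 : ℤ) : ℝ) / ((2 : ℕ) : ℝ)) * (cos (((((1 : ℤ) : ℝ) / ((2 : ℕ) : ℝ)) * π) + ((((-1 : ℤ) : ℝ) / ((1 : ℕ) : ℝ)) * (E 0)))))) + ((((1 : ℤ) : ℝ) / ((2 : ℕ) : ℝ)) * (cos (((((1 : ℤ) : ℝ) / ((2 : ℕ) : ℝ)) * π) + ((((-3 : ℤ) : ℝ) / ((1 : ℕ) : ℝ)) * (E 0)))))) + ((((-1 : ℤ) : ℝ) / ((1 : ℕ) : ℝ)) * (cos ((((5 : ℤ) : ℝ) / ((6 : ℕ) : ℝ)) * π)))) * (E 9)) ∧ True := h.d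

theorem P0 (h : H E) :
    0 < ((((9 : ℤ) : ℝ) / ((2 : ℕ) : ℝ)) * (E 0)) * (E 0) ∧
    0 < (((((8 : ℤ) : ℝ) / ((9 : ℕ) : ℝ)) * (E 0)) * (E 0)) * (E 0) ∧
    0 < (((((41 : ℤ) : ℝ) / ((144 : ℕ) : ℝ)) * (E 0)) * (E 0)) * (E 0) ∧
    0 < (((9 : ℤ) : ℝ) / ((8 : ℕ) : ℝ)) * (E 0) ∧
    0 < ((((((-4 : ℤ) : ℝ) / ((3 : ℕ) : ℝ)) * π) * (E 0)) + (((((1 : ℤ) : ℝ) / ((36 : ℕ) : ℝ)) * π) * π)) + (((((16 : ℤ) : ℝ) / ((1 : ℕ) : ℝ)) * (E 0)) * (E 0)) ∧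
    0 < ((((-1 : ℤ) : ℝ) / ((1 : ℕ) : ℝ)) * (cos (((((1 : ℤ) : ℝ) / ((6 : ℕ) : ℝ)) * π) + ((((2 : ℤ) : ℝ) / ((1 : ℕ) : ℝ)) * (E 0))))) + (((8263492693 : ℤ) : ℝ) / ((12600000000 : ℕ) : ℝ)) ∧
    0 < ((((-1 : ℤ) : ℝ) / ((1 : ℕ) : ℝ)) * (cos (((((5 : ℤ) : ℝ) / ((18 : ℕ) : ℝ)) * π) + ((((1 : ℤ) : ℝ) / ((3 : ℕ) : ℝ)) * (E 0))))) + (((8263492693 : ℤ) : ℝ) / ((12600000000 : ℕ) : ℝ)) ∧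
    0 < ((((-1 : ℤ) : ℝ) / ((1 : ℕ) : ℝ)) * (cos (((((5 : ℤ) : ℝ) / ((18 : ℕ) : ℝ)) * π) + ((((1 : ℤ) : ℝ) / ((3 : ℕ) : ℝ)) * (E 0))))) + (((2603332327 : ℤ) : ℝ) / ((3600000000 : ℕ) : ℝ)) ∧
    0 < ((((-1 : ℤ) : ℝ) / ((1 : ℕ) : ℝ)) * (cos (((((7 : ℤ) : ℝ) / ((18 : ℕ) : ℝ)) * π) + ((((-4 : ℤ) : ℝ) / ((3 : ℕ) : ℝ)) * (E 0))))) + (((2603332327 : ℤ) : ℝ) / ((3600000000 : ℕ) : ℝ)) ∧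
    0 < ((((-1 : ℤ) : ℝ) / ((1 : ℕ) : ℝ)) * (cos (((((7 : ℤ) : ℝ) / ((18 : ℕ) : ℝ)) * π) + ((((-4 : ℤ) : ℝ) / ((3 : ℕ) : ℝ)) * (E 0))))) + (((183828889 : ℤ) : ℝ) / ((336000000 : ℕ) : ℝ)) ∧
    0 < ((((-1 : ℤ) : ℝ) / ((1 : ℕ) : ℝ)) * (cos (((((1 : ℤ) : ℝ) / ((2 : ℕ) : ℝ)) * π) + ((((-3 : ℤ) : ℝ) / ((1 : ℕ) : ℝ)) * (E 0))))) + (((183828889 : ℤ) : ℝ) / ((336000000 : ℕ) : ℝ)) ∧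
    0 < (((((-216204851 : ℤ) : ℝ) / ((504000000 : ℕ) : ℝ)) * π) + ((((216204851 : ℤ) : ℝ) / ((33600000 : ℕ) : ℝ)) * (E 0))) + ((((1 : ℤ) : ℝ) / ((1 : ℕ) : ℝ)) * (sin (((((1 : ℤ) : ℝ) / ((2 : ℕ) : ℝ)) * π) + ((((-3 : ℤ) : ℝ) / ((1 : ℕ) : ℝ)) * (E 0))))) ∧
    0 < ((((-1 : ℤ) : ℝ) / ((1 : ℕ) : ℝ)) * (cos ((((5 : ℤ) : ℝ) / ((6 : ℕ) : ℝ)) * π))) + (((-509792773 : ℤ) : ℝ) / ((600000000 : ℕ) : ℝ)) ∧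
    0 < ((((-1 : ℤ) : ℝ) / ((1 : ℕ) : ℝ)) * (cos (((((17 : ℤ) : ℝ) / ((18 : ℕ) : ℝ)) * π) + ((((-5 : ℤ) : ℝ) / ((3 : ℕ) : ℝ)) * (E 0))))) + (((-509792773 : ℤ) : ℝ) / ((600000000 : ℕ) : ℝ)) ∧
    0 < ((((-1 : ℤ) : ℝ) / ((1 : ℕ) : ℝ)) * (cos (((((17 : ℤ) : ℝ) / ((18 : ℕ) : ℝ)) * π) + ((((-5 : ℤ) : ℝ) / ((3 : ℕ) : ℝ)) * (E 0))))) + (((-89449321 : ℤ) : ℝ) / ((100000000 : ℕ) : ℝ)) ∧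
    0 < ((((-1 : ℤ) : ℝ) / ((1 : ℕ) : ℝ)) * (cos (((((19 : ℤ) : ℝ) / ((18 : ℕ) : ℝ)) * π) + ((((-10 : ℤ) : ℝ) / ((3 : ℕ) : ℝ)) * (E 0))))) + (((-89449321 : ℤ) : ℝ) / ((100000000 : ℕ) : ℝ)) ∧ True := h.c0

theorem P1 (h : H E) :
    0 < ((((-1 : ℤ) : ℝ) / ((1 : ℕ) : ℝ)) * (cos (((((19 : ℤ) : ℝ) / ((18 : ℕ) : ℝ)) * π) + ((((-10 : ℤ) : ℝ) / ((3 : ℕ) : ℝ)) * (E 0))))) + (((-1575521 : ℤ) : ℝ) / ((2343750 : ℕ) : ℝ)) ∧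
    0 < ((((-1 : ℤ) : ℝ) / ((1 : ℕ) : ℝ)) * (cos (((((5 : ℤ) : ℝ) / ((6 : ℕ) : ℝ)) * π) + ((((1 : ℤ) : ℝ) / ((1 : ℕ) : ℝ)) * (E 0))))) + (((-1575521 : ℤ) : ℝ) / ((2343750 : ℕ) : ℝ)) ∧
    0 < (((((1 : ℤ) : ℝ) / ((1 : ℕ) : ℝ)) * (E 0)) * (E 4)) + ((((8203 : ℤ) : ℝ) / ((31250 : ℕ) : ℝ)) * (E 0)) ∧
    0 < (((((-1 : ℤ) : ℝ) / ((1 : ℕ) : ℝ)) * (E 4)) + ((((-1 : ℤ) : ℝ) / ((1 : ℕ) : ℝ)) * (cos (((((5 : ℤ) : ℝ) / ((6 : ℕ) : ℝ)) * π) + ((((1 : ℤ) : ℝ) / ((1 : ℕ) : ℝ)) * (E 0)))))) + (((-1095373 : ℤ) : ℝ) / ((1171875 : ℕ) : ℝ)) ∧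
    0 < (((((-1 : ℤ) : ℝ) / ((1 : ℕ) : ℝ)) * (E 4)) + ((((-1 : ℤ) : ℝ) / ((1 : ℕ) : ℝ)) * (cos (((((7 : ℤ) : ℝ) / ((6 : ℕ) : ℝ)) * π) + ((((-5 : ℤ) : ℝ) / ((1 : ℕ) : ℝ)) * (E 0)))))) + (((-1095373 : ℤ) : ℝ) / ((1171875 : ℕ) : ℝ)) ∧
    0 < ((((65791 : ℤ) : ℝ) / ((1125000 : ℕ) : ℝ)) * π) + ((((-2978803 : ℤ) : ℝ) / ((3000000 : ℕ) : ℝ)) * (E 0)) ∧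
    0 < ((((((-1 : ℤ) : ℝ) / ((6 : ℕ) : ℝ)) * (E 2)) + ((((-17 : ℤ) : ℝ) / ((18 : ℕ) : ℝ)) * (E 4))) + ((((-1 : ℤ) : ℝ) / ((1 : ℕ) : ℝ)) * (cos (((((7 : ℤ) : ℝ) / ((6 : ℕ) : ℝ)) * π) + ((((-5 : ℤ) : ℝ) / ((1 : ℕ) : ℝ)) * (E 0)))))) + (((-1513393 : ℤ) : ℝ) / ((4000000 : ℕ) : ℝ)) ∧
    0 < ((((((-1 : ℤ) : ℝ) / ((6 : ℕ) : ℝ)) * (E 2)) + ((((-17 : ℤ) : ℝ) / ((18 : ℕ) : ℝ)) * (E 4))) + ((((-1 : ℤ) : ℝ) / ((1 : ℕ) : ℝ)) * (cos (((((23 : ℤ) : ℝ) / ((18 : ℕ) : ℝ)) * π) + ((((-20 : ℤ) : ℝ) / ((3 : ℕ) : ℝ)) * (E 0)))))) + (((-1513393 : ℤ) : ℝ) / ((4000000 : ℕ) : ℝ)) ∧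
    0 < ((((((-1 : ℤ) : ℝ) / ((6 : ℕ) : ℝ)) * (E 2)) + ((((-17 : ℤ) : ℝ) / ((18 : ℕ) : ℝ)) * (E 4))) + ((((-1 : ℤ) : ℝ) / ((1 : ℕ) : ℝ)) * (cos (((((23 : ℤ) : ℝ) / ((18 : ℕ) : ℝ)) * π) + ((((-20 : ℤ) : ℝ) / ((3 : ℕ) : ℝ)) * (E 0)))))) + (((-138716321 : ℤ) : ℝ) / ((144000000 : ℕ) : ℝ)) ∧
    0 < ((((((-1 : ℤ) : ℝ) / ((6 : ℕ) : ℝ)) * (E 2)) + ((((-17 : ℤ) : ℝ) / ((18 : ℕ) : ℝ)) * (E 4))) + ((((-1 : ℤ) : ℝ) / ((1 : ℕ) : ℝ)) * (cos (((((25 : ℤ) : ℝ) / ((18 : ℕ) : ℝ)) * π) + ((((-25 : ℤ) : ℝ) / ((3 : ℕ) : ℝ)) * (E 0)))))) + (((-138716321 : ℤ) : ℝ) / ((144000000 : ℕ) : ℝ)) ∧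
    0 < ((((((-1 : ℤ) : ℝ) / ((6 : ℕ) : ℝ)) * (E 2)) + ((((-17 : ℤ) : ℝ) / ((18 : ℕ) : ℝ)) * (E 4))) + ((((-1 : ℤ) : ℝ) / ((1 : ℕ) : ℝ)) * (cos (((((25 : ℤ) : ℝ) / ((18 : ℕ) : ℝ)) * π) + ((((-25 : ℤ) : ℝ) / ((3 : ℕ) : ℝ)) * (E 0)))))) + (((-53426603 : ℤ) : ℝ) / ((144000000 : ℕ) : ℝ)) ∧
    0 < ((((((-1 : ℤ) : ℝ) / ((6 : ℕ) : ℝ)) * (E 2)) + ((((-17 : ℤ) : ℝ) / ((18 : ℕ) : ℝ)) * (E 4))) + ((((-1 : ℤ) : ℝ) / ((1 : ℕ) : ℝ)) * (cos (((((5 : ℤ) : ℝ) / ((6 : ℕ) : ℝ)) * π) + ((((2 : ℤ) : ℝ) / ((1 : ℕ) : ℝ)) * (E 0)))))) + (((-53426603 : ℤ) : ℝ) / ((144000000 : ℕ) : ℝ)) ∧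
    0 < ((((((7 : ℤ) : ℝ) / ((6 : ℕ) : ℝ)) * (E 2)) + ((((-7 : ℤ) : ℝ) / ((18 : ℕ) : ℝ)) * (E 4))) + ((((-1 : ℤ) : ℝ) / ((1 : ℕ) : ℝ)) * (cos (((((5 : ℤ) : ℝ) / ((6 : ℕ) : ℝ)) * π) + ((((2 : ℤ) : ℝ) / ((1 : ℕ) : ℝ)) * (E 0)))))) + (((20488453 : ℤ) : ℝ) / ((144000000 : ℕ) : ℝ)) ∧
    0 < ((((((7 : ℤ) : ℝ) / ((6 : ℕ) : ℝ)) * (E 2)) + ((((-7 : ℤ) : ℝ) / ((18 : ℕ) : ℝ)) * (E 4))) + ((((-1 : ℤ) : ℝ) / ((1 : ℕ) : ℝ)) * (cos (((((5 : ℤ) : ℝ) / ((18 : ℕ) : ℝ)) * π) + ((((37 : ℤ) : ℝ) / ((3 : ℕ) : ℝ)) * (E 0)))))) + (((20488453 : ℤ) : ℝ) / ((144000000 : ℕ) : ℝ)) ∧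
    0 < ((((162601 : ℤ) : ℝ) / ((42000000 : ℕ) : ℝ)) * π) + ((((-162601 : ℤ) : ℝ) / ((2800000 : ℕ) : ℝ)) * (E 0)) ∧
    0 < ((((((7 : ℤ) : ℝ) / ((6 : ℕ) : ℝ)) * (E 2)) + ((((-7 : ℤ) : ℝ) / ((18 : ℕ) : ℝ)) * (E 4))) + ((((-1 : ℤ) : ℝ) / ((1 : ℕ) : ℝ)) * (cos (((((5 : ℤ) : ℝ) / ((18 : ℕ) : ℝ)) * π) + ((((37 : ℤ) : ℝ) / ((3 : ℕ) : ℝ)) * (E 0)))))) + (((64682041 : ℤ) : ℝ) / ((336000000 : ℕ) : ℝ)) ∧ True := h.c1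

theorem P2 (h : H E) :
    0 < ((((((7 : ℤ) : ℝ) / ((6 : ℕ) : ℝ)) * (E 2)) + ((((-7 : ℤ) : ℝ) / ((18 : ℕ) : ℝ)) * (E 4))) + ((((-1 : ℤ) : ℝ) / ((1 : ℕ) : ℝ)) * (cos (((((7 : ℤ) : ℝ) / ((6 : ℕ) : ℝ)) * π) + ((((-4 : ℤ) : ℝ) / ((1 : ℕ) : ℝ)) * (E 0)))))) + (((64682041 : ℤ) : ℝ) / ((336000000 : ℕ) : ℝ)) ∧
    0 < (((((((1 : ℤ) : ℝ) / ((6 : ℕ) : ℝ)) * (E 2)) + ((((-1 : ℤ) : ℝ) / ((18 : ℕ) : ℝ)) * (E 4))) + ((((1 : ℤ) : ℝ) / ((1 : ℕ) : ℝ)) * (E 10))) + ((((-1 : ℤ) : ℝ) / ((1 : ℕ) : ℝ)) * (cos (((((7 : ℤ) : ℝ) / ((6 : ℕ) : ℝ)) * π) + ((((-4 : ℤ) : ℝ) / ((1 : ℕ) : ℝ)) * (E 0)))))) + (((-8177587 : ℤ) : ℝ) / ((112000000 : ℕ) : ℝ)) ∧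
    0 < (((((((1 : ℤ) : ℝ) / ((6 : ℕ) : ℝ)) * (E 2)) + ((((-1 : ℤ) : ℝ) / ((18 : ℕ) : ℝ)) * (E 4))) + ((((1 : ℤ) : ℝ) / ((1 : ℕ) : ℝ)) * (E 10))) + ((((-1 : ℤ) : ℝ) / ((1 : ℕ) : ℝ)) * (cos (((((3 : ℤ) : ℝ) / ((2 : ℕ) : ℝ)) * π) + ((((-10 : ℤ) : ℝ) / ((1 : ℕ) : ℝ)) * (E 0)))))) + (((-8177587 : ℤ) : ℝ) / ((112000000 : ℕ) : ℝ)) ∧
    0 < (((((((1 : ℤ) : ℝ) / ((6 : ℕ) : ℝ)) * (E 2)) + ((((-1 : ℤ) : ℝ) / ((18 : ℕ) : ℝ)) * (E 4))) + ((((1 : ℤ) : ℝ) / ((1 : ℕ) : ℝ)) * (E 10))) + ((((-1 : ℤ) : ℝ) / ((1 : ℕ) : ℝ)) * (cos (((((3 : ℤ) : ℝ) / ((2 : ℕ) : ℝ)) * π) + ((((-10 : ℤ) : ℝ) / ((1 : ℕ) : ℝ)) * (E 0)))))) + (((818159 : ℤ) : ℝ) / ((336000000 : ℕ) : ℝ)) ∧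
    0 < (((((((1 : ℤ) : ℝ) / ((6 : ℕ) : ℝ)) * (E 2)) + ((((-1 : ℤ) : ℝ) / ((18 : ℕ) : ℝ)) * (E 4))) + ((((1 : ℤ) : ℝ) / ((1 : ℕ) : ℝ)) * (E 10))) + ((((-1 : ℤ) : ℝ) / ((1 : ℕ) : ℝ)) * (cos (((((1 : ℤ) : ℝ) / ((18 : ℕ) : ℝ)) * π) + ((((50 : ℤ) : ℝ) / ((3 : ℕ) : ℝ)) * (E 0)))))) + (((818159 : ℤ) : ℝ) / ((336000000 : ℕ) : ℝ)) ∧
    0 < (((((((1 : ℤ) : ℝ) / ((6 : ℕ) : ℝ)) * (E 2)) + ((((-1 : ℤ) : ℝ) / ((18 : ℕ) : ℝ)) * (E 4))) + ((((1 : ℤ) : ℝ) / ((1 : ℕ) : ℝ)) * (E 10))) + ((((-1 : ℤ) : ℝ) / ((1 : ℕ) : ℝ)) * (cos (((((1 : ℤ) : ℝ) / ((18 : ℕ) : ℝ)) * π) + ((((50 : ℤ) : ℝ) / ((3 : ℕ) : ℝ)) * (E 0)))))) + (((-66262787 : ℤ) : ℝ) / ((1008000000 : ℕ) : ℝ)) ∧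
    0 < (((((((1 : ℤ) : ℝ) / ((6 : ℕ) : ℝ)) * (E 2)) + ((((-1 : ℤ) : ℝ) / ((18 : ℕ) : ℝ)) * (E 4))) + ((((1 : ℤ) : ℝ) / ((1 : ℕ) : ℝ)) * (E 10))) + ((((-1 : ℤ) : ℝ) / ((1 : ℕ) : ℝ)) * (cos (((((7 : ℤ) : ℝ) / ((18 : ℕ) : ℝ)) * π) + ((((32 : ℤ) : ℝ) / ((3 : ℕ) : ℝ)) * (E 0)))))) + (((-66262787 : ℤ) : ℝ) / ((1008000000 : ℕ) : ℝ)) ∧
    0 < (((((((1 : ℤ) : ℝ) / ((6 : ℕ) : ℝ)) * (E 2)) + ((((-1 : ℤ) : ℝ) / ((18 : ℕ) : ℝ)) * (E 4))) + ((((1 : ℤ) : ℝ) / ((1 : ℕ) : ℝ)) * (E 10))) + ((((-1 : ℤ) : ℝ) / ((1 : ℕ) : ℝ)) * (cos (((((7 : ℤ) : ℝ) / ((18 : ℕ) : ℝ)) * π) + ((((32 : ℤ) : ℝ) / ((3 : ℕ) : ℝ)) * (E 0)))))) + (((-7726427 : ℤ) : ℝ) / ((1008000000 : ℕ) : ℝ)) ∧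
    0 < (((((((1 : ℤ) : ℝ) / ((6 : ℕ) : ℝ)) * (E 2)) + ((((-1 : ℤ) : ℝ) / ((18 : ℕ) : ℝ)) * (E 4))) + ((((1 : ℤ) : ℝ) / ((1 : ℕ) : ℝ)) * (E 10))) + ((((-1 : ℤ) : ℝ) / ((1 : ℕ) : ℝ)) * (cos (((((23 : ℤ) : ℝ) / ((18 : ℕ) : ℝ)) * π) + ((((-17 : ℤ) : ℝ) / ((3 : ℕ) : ℝ)) * (E 0)))))) + (((-7726427 : ℤ) : ℝ) / ((1008000000 : ℕ) : ℝ)) ∧
    0 < (((((((1 : ℤ) : ℝ) / ((6 : ℕ) : ℝ)) * (E 2)) + ((((-1 : ℤ) : ℝ) / ((18 : ℕ) : ℝ)) * (E 4))) + ((((1 : ℤ) : ℝ) / ((1 : ℕ) : ℝ)) * (E 10))) + ((((-1 : ℤ) : ℝ) / ((1 : ℕ) : ℝ)) * (cos (((((23 : ℤ) : ℝ) / ((18 : ℕ) : ℝ)) * π) + ((((-17 : ℤ) : ℝ) / ((3 : ℕ) : ℝ)) * (E 0)))))) + (((-676951967 : ℤ) : ℝ) / ((5040000000 : ℕ) : ℝ)) ∧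
    0 < (((((((1 : ℤ) : ℝ) / ((6 : ℕ) : ℝ)) * (E 2)) + ((((-1 : ℤ) : ℝ) / ((18 : ℕ) : ℝ)) * (E 4))) + ((((1 : ℤ) : ℝ) / ((1 : ℕ) : ℝ)) * (E 10))) + ((((-1 : ℤ) : ℝ) / ((1 : ℕ) : ℝ)) * (cos (((((29 : ℤ) : ℝ) / ((18 : ℕ) : ℝ)) * π) + ((((-35 : ℤ) : ℝ) / ((3 : ℕ) : ℝ)) * (E 0)))))) + (((-676951967 : ℤ) : ℝ) / ((5040000000 : ℕ) : ℝ)) ∧
    0 < (((((((1 : ℤ) : ℝ) / ((6 : ℕ) : ℝ)) * (E 2)) + ((((-1 : ℤ) : ℝ) / ((18 : ℕ) : ℝ)) * (E 4))) + ((((1 : ℤ) : ℝ) / ((1 : ℕ) : ℝ)) * (E 10))) + ((((-1 : ℤ) : ℝ) / ((1 : ℕ) : ℝ)) * (cos (((((29 : ℤ) : ℝ) / ((18 : ℕ) : ℝ)) * π) + ((((-35 : ℤ) : ℝ) / ((3 : ℕ) : ℝ)) * (E 0)))))) + (((-686992487 : ℤ) : ℝ) / ((5040000000 : ℕ) : ℝ)) ∧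
    0 < (((((((1 : ℤ) : ℝ) / ((6 : ℕ) : ℝ)) * (E 2)) + ((((-1 : ℤ) : ℝ) / ((18 : ℕ) : ℝ)) * (E 4))) + ((((1 : ℤ) : ℝ) / ((1 : ℕ) : ℝ)) * (E 10))) + ((((-1 : ℤ) : ℝ) / ((1 : ℕ) : ℝ)) * (cos (((((1 : ℤ) : ℝ) / ((2 : ℕ) : ℝ)) * π) + ((((9 : ℤ) : ℝ) / ((1 : ℕ) : ℝ)) * (E 0)))))) + (((-686992487 : ℤ) : ℝ) / ((5040000000 : ℕ) : ℝ)) ∧
    0 < (((((((1 : ℤ) : ℝ) / ((6 : ℕ) : ℝ)) * (E 2)) + ((((-1 : ℤ) : ℝ) / ((18 : ℕ) : ℝ)) * (E 4))) + ((((1 : ℤ) : ℝ) / ((1 : ℕ) : ℝ)) * (E 10))) + ((((-1 : ℤ) : ℝ) / ((1 : ℕ) : ℝ)) * (cos (((((1 : ℤ) : ℝ) / ((2 : ℕ) : ℝ)) * π) + ((((9 : ℤ) : ℝ) / ((1 : ℕ) : ℝ)) * (E 0)))))) + (((-99411863 : ℤ) : ℝ) / ((1008000000 : ℕ) : ℝ)) ∧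
    0 < (((((((1 : ℤ) : ℝ) / ((6 : ℕ) : ℝ)) * (E 2)) + ((((-1 : ℤ) : ℝ) / ((18 : ℕ) : ℝ)) * (E 4))) + ((((1 : ℤ) : ℝ) / ((1 : ℕ) : ℝ)) * (E 10))) + ((((-1 : ℤ) : ℝ) / ((1 : ℕ) : ℝ)) * (cos (((((25 : ℤ) : ℝ) / ((18 : ℕ) : ℝ)) * π) + ((((-22 : ℤ) : ℝ) / ((3 : ℕ) : ℝ)) * (E 0)))))) + (((-99411863 : ℤ) : ℝ) / ((1008000000 : ℕ) : ℝ)) ∧
    0 < (((((((1 : ℤ) : ℝ) / ((6 : ℕ) : ℝ)) * (E 2)) + ((((-1 : ℤ) : ℝ) / ((18 : ℕ) : ℝ)) * (E 4))) + ((((1 : ℤ) : ℝ) / ((1 : ℕ) : ℝ)) * (E 10))) + ((((-1 : ℤ) : ℝ) / ((1 : ℕ) : ℝ)) * (cos (((((25 : ℤ) : ℝ) / ((18 : ℕ) : ℝ)) * π) + ((((-22 : ℤ) : ℝ) / ((3 : ℕ) : ℝ)) * (E 0)))))) + (((1413005399 : ℤ) : ℝ) / ((5040000000 : ℕ) : ℝ)) ∧ True := h.c2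

theorem P3 (h : H E) :
    0 < (((((((1 : ℤ) : ℝ) / ((6 : ℕ) : ℝ)) * (E 2)) + ((((-1 : ℤ) : ℝ) / ((18 : ℕ) : ℝ)) * (E 4))) + ((((1 : ℤ) : ℝ) / ((1 : ℕ) : ℝ)) * (E 10))) + ((((-1 : ℤ) : ℝ) / ((1 : ℕ) : ℝ)) * (cos (((((5 : ℤ) : ℝ) / ((6 : ℕ) : ℝ)) * π) + ((((3 : ℤ) : ℝ) / ((1 : ℕ) : ℝ)) * (E 0)))))) + (((1413005399 : ℤ) : ℝ) / ((5040000000 : ℕ) : ℝ)) ∧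
    0 < (((((((-7 : ℤ) : ℝ) / ((3 : ℕ) : ℝ)) * (E 2)) + ((((7 : ℤ) : ℝ) / ((9 : ℕ) : ℝ)) * (E 4))) + ((((1 : ℤ) : ℝ) / ((1 : ℕ) : ℝ)) * (E 10))) + ((((-1 : ℤ) : ℝ) / ((1 : ℕ) : ℝ)) * (cos (((((5 : ℤ) : ℝ) / ((6 : ℕ) : ℝ)) * π) + ((((3 : ℤ) : ℝ) / ((1 : ℕ) : ℝ)) * (E 0)))))) + (((-592561801 : ℤ) : ℝ) / ((5040000000 : ℕ) : ℝ)) ∧
    0 < (((((((-7 : ℤ) : ℝ) / ((3 : ℕ) : ℝ)) * (E 2)) + ((((7 : ℤ) : ℝ) / ((9 : ℕ) : ℝ)) * (E 4))) + ((((1 : ℤ) : ℝ) / ((1 : ℕ) : ℝ)) * (E 10))) + ((((-1 : ℤ) : ℝ) / ((1 : ℕ) : ℝ)) * (cos (((((31 : ℤ) : ℝ) / ((18 : ℕ) : ℝ)) * π) + ((((-40 : ℤ) : ℝ) / ((3 : ℕ) : ℝ)) * (E 0)))))) + (((-592561801 : ℤ) : ℝ) / ((5040000000 : ℕ) : ℝ)) ∧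
    0 < (((((((-7 : ℤ) : ℝ) / ((3 : ℕ) : ℝ)) * (E 2)) + ((((7 : ℤ) : ℝ) / ((9 : ℕ) : ℝ)) * (E 4))) + ((((1 : ℤ) : ℝ) / ((1 : ℕ) : ℝ)) * (E 10))) + ((((-1 : ℤ) : ℝ) / ((1 : ℕ) : ℝ)) * (cos (((((31 : ℤ) : ℝ) / ((18 : ℕ) : ℝ)) * π) + ((((-40 : ℤ) : ℝ) / ((3 : ℕ) : ℝ)) * (E 0)))))) + (((-87339167 : ℤ) : ℝ) / ((630000000 : ℕ) : ℝ)) ∧
    0 < (((((((-7 : ℤ) : ℝ) / ((3 : ℕ) : ℝ)) * (E 2)) + ((((7 : ℤ) : ℝ) / ((9 : ℕ) : ℝ)) * (E 4))) + ((((1 : ℤ) : ℝ) / ((1 : ℕ) : ℝ)) * (E 10))) + ((((-1 : ℤ) : ℝ) / ((1 : ℕ) : ℝ)) * (cos ((((1 : ℤ) : ℝ) / ((1 : ℕ) : ℝ)) * π)))) + (((-87339167 : ℤ) : ℝ) / ((630000000 : ℕ) : ℝ)) ∧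
    0 < (((-1 : ℤ) : ℝ) / ((1 : ℕ) : ℝ)) * (E 10) ∧
    0 < ((((-1 : ℤ) : ℝ) / ((2 : ℕ) : ℝ)) * (cos (((((1 : ℤ) : ℝ) / ((2 : ℕ) : ℝ)) * π) + ((((-3 : ℤ) : ℝ) / ((1 : ℕ) : ℝ)) * (E 0))))) + (((270172163 : ℤ) : ℝ) / ((252000000 : ℕ) : ℝ)) ∧
    0 < ((((-1 : ℤ) : ℝ) / ((2 : ℕ) : ℝ)) * (cos (((((-1 : ℤ) : ℝ) / ((18 : ℕ) : ℝ)) * π) + ((((22 : ℤ) : ℝ) / ((3 : ℕ) : ℝ)) * (E 0))))) + (((270172163 : ℤ) : ℝ) / ((252000000 : ℕ) : ℝ)) ∧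
    0 < ((((-1 : ℤ) : ℝ) / ((2 : ℕ) : ℝ)) * (cos (((((-1 : ℤ) : ℝ) / ((18 : ℕ) : ℝ)) * π) + ((((22 : ℤ) : ℝ) / ((3 : ℕ) : ℝ)) * (E 0))))) + (((21091823 : ℤ) : ℝ) / ((10080000 : ℕ) : ℝ)) ∧
    0 < ((((-1 : ℤ) : ℝ) / ((2 : ℕ) : ℝ)) * (cos (((((5 : ℤ) : ℝ) / ((9 : ℕ) : ℝ)) * π) + ((((-23 : ℤ) : ℝ) / ((6 : ℕ) : ℝ)) * (E 0))))) + (((21091823 : ℤ) : ℝ) / ((10080000 : ℕ) : ℝ)) ∧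
    0 < ((((-1 : ℤ) : ℝ) / ((2 : ℕ) : ℝ)) * (cos (((((5 : ℤ) : ℝ) / ((9 : ℕ) : ℝ)) * π) + ((((-23 : ℤ) : ℝ) / ((6 : ℕ) : ℝ)) * (E 0))))) + (((292972247 : ℤ) : ℝ) / ((1260000000 : ℕ) : ℝ)) ∧
    0 < ((((-1 : ℤ) : ℝ) / ((2 : ℕ) : ℝ)) * (cos ((((13 : ℤ) : ℝ) / ((2 : ℕ) : ℝ)) * (E 0)))) + (((292972247 : ℤ) : ℝ) / ((1260000000 : ℕ) : ℝ)) ∧
    0 < ((((-1 : ℤ) : ℝ) / ((2 : ℕ) : ℝ)) * (cos ((((13 : ℤ) : ℝ) / ((2 : ℕ) : ℝ)) * (E 0)))) + (((454197017 : ℤ) : ℝ) / ((1260000000 : ℕ) : ℝ)) ∧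
    0 < ((((-1 : ℤ) : ℝ) / ((2 : ℕ) : ℝ)) * (cos (((((11 : ℤ) : ℝ) / ((18 : ℕ) : ℝ)) * π) + ((((-14 : ℤ) : ℝ) / ((3 : ℕ) : ℝ)) * (E 0))))) + (((454197017 : ℤ) : ℝ) / ((1260000000 : ℕ) : ℝ)) ∧
    0 < ((((-1 : ℤ) : ℝ) / ((2 : ℕ) : ℝ)) * (cos (((((11 : ℤ) : ℝ) / ((18 : ℕ) : ℝ)) * π) + ((((-14 : ℤ) : ℝ) / ((3 : ℕ) : ℝ)) * (E 0))))) + (((1320433 : ℤ) : ℝ) / ((6000000 : ℕ) : ℝ)) ∧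
    0 < ((((-1 : ℤ) : ℝ) / ((2 : ℕ) : ℝ)) * (cos (((((1 : ℤ) : ℝ) / ((18 : ℕ) : ℝ)) * π) + ((((17 : ℤ) : ℝ) / ((3 : ℕ) : ℝ)) * (E 0))))) + (((1320433 : ℤ) : ℝ) / ((6000000 : ℕ) : ℝ)) ∧ True := h.c3

theorem P4 (h : H E) :
    0 < ((((-1 : ℤ) : ℝ) / ((2 : ℕ) : ℝ)) * (cos (((((1 : ℤ) : ℝ) / ((18 : ℕ) : ℝ)) * π) + ((((17 : ℤ) : ℝ) / ((3 : ℕ) : ℝ)) * (E 0))))) + (((10545657 : ℤ) : ℝ) / ((50000000 : ℕ) : ℝ)) ∧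
    0 < ((((-1 : ℤ) : ℝ) / ((2 : ℕ) : ℝ)) * (cos (((((2 : ℤ) : ℝ) / ((3 : ℕ) : ℝ)) * π) + ((((-11 : ℤ) : ℝ) / ((2 : ℕ) : ℝ)) * (E 0))))) + (((10545657 : ℤ) : ℝ) / ((50000000 : ℕ) : ℝ)) ∧
    0 < ((((-1 : ℤ) : ℝ) / ((2 : ℕ) : ℝ)) * (cos (((((2 : ℤ) : ℝ) / ((3 : ℕ) : ℝ)) * π) + ((((-11 : ℤ) : ℝ) / ((2 : ℕ) : ℝ)) * (E 0))))) + (((56956407 : ℤ) : ℝ) / ((50000000 : ℕ) : ℝ)) ∧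
    0 < ((((-1 : ℤ) : ℝ) / ((2 : ℕ) : ℝ)) * (cos (((((1 : ℤ) : ℝ) / ((9 : ℕ) : ℝ)) * π) + ((((29 : ℤ) : ℝ) / ((6 : ℕ) : ℝ)) * (E 0))))) + (((56956407 : ℤ) : ℝ) / ((50000000 : ℕ) : ℝ)) ∧
    0 < ((((-1 : ℤ) : ℝ) / ((2 : ℕ) : ℝ)) * (cos (((((1 : ℤ) : ℝ) / ((9 : ℕ) : ℝ)) * π) + ((((29 : ℤ) : ℝ) / ((6 : ℕ) : ℝ)) * (E 0))))) + (((4900691 : ℤ) : ℝ) / ((25000000 : ℕ) : ℝ)) ∧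
    0 < ((((-1 : ℤ) : ℝ) / ((2 : ℕ) : ℝ)) * (cos (((((1 : ℤ) : ℝ) / ((6 : ℕ) : ℝ)) * π) + ((((4 : ℤ) : ℝ) / ((1 : ℕ) : ℝ)) * (E 0))))) + (((4900691 : ℤ) : ℝ) / ((25000000 : ℕ) : ℝ)) ∧
    0 < ((((-1 : ℤ) : ℝ) / ((2 : ℕ) : ℝ)) * (cos (((((1 : ℤ) : ℝ) / ((6 : ℕ) : ℝ)) * π) + ((((4 : ℤ) : ℝ) / ((1 : ℕ) : ℝ)) * (E 0))))) + (((13570273 : ℤ) : ℝ) / ((75000000 : ℕ) : ℝ)) ∧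
    0 < ((((-1 : ℤ) : ℝ) / ((2 : ℕ) : ℝ)) * (cos (((((2 : ℤ) : ℝ) / ((9 : ℕ) : ℝ)) * π) + ((((19 : ℤ) : ℝ) / ((6 : ℕ) : ℝ)) * (E 0))))) + (((13570273 : ℤ) : ℝ) / ((75000000 : ℕ) : ℝ)) ∧
    0 < ((((-1 : ℤ) : ℝ) / ((2 : ℕ) : ℝ)) * (cos (((((2 : ℤ) : ℝ) / ((9 : ℕ) : ℝ)) * π) + ((((19 : ℤ) : ℝ) / ((6 : ℕ) : ℝ)) * (E 0))))) + (((37273019 : ℤ) : ℝ) / ((225000000 : ℕ) : ℝ)) ∧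
    0 < ((((-1 : ℤ) : ℝ) / ((2 : ℕ) : ℝ)) * (cos (((((5 : ℤ) : ℝ) / ((18 : ℕ) : ℝ)) * π) + ((((7 : ℤ) : ℝ) / ((3 : ℕ) : ℝ)) * (E 0))))) + (((37273019 : ℤ) : ℝ) / ((225000000 : ℕ) : ℝ)) ∧
    0 < ((((-1 : ℤ) : ℝ) / ((2 : ℕ) : ℝ)) * (cos (((((5 : ℤ) : ℝ) / ((18 : ℕ) : ℝ)) * π) + ((((7 : ℤ) : ℝ) / ((3 : ℕ) : ℝ)) * (E 0))))) + (((8449 : ℤ) : ℝ) / ((56250 : ℕ) : ℝ)) ∧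
    0 < ((((-1 : ℤ) : ℝ) / ((2 : ℕ) : ℝ)) * (cos (((((1 : ℤ) : ℝ) / ((3 : ℕ) : ℝ)) * π) + ((((3 : ℤ) : ℝ) / ((2 : ℕ) : ℝ)) * (E 0))))) + (((8449 : ℤ) : ℝ) / ((56250 : ℕ) : ℝ)) ∧
    0 < ((((-1 : ℤ) : ℝ) / ((2 : ℕ) : ℝ)) * (cos (((((1 : ℤ) : ℝ) / ((3 : ℕ) : ℝ)) * π) + ((((3 : ℤ) : ℝ) / ((2 : ℕ) : ℝ)) * (E 0))))) + (((15141979 : ℤ) : ℝ) / ((112500000 : ℕ) : ℝ)) ∧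
    0 < ((((-1 : ℤ) : ℝ) / ((2 : ℕ) : ℝ)) * (cos (((((7 : ℤ) : ℝ) / ((18 : ℕ) : ℝ)) * π) + ((((2 : ℤ) : ℝ) / ((3 : ℕ) : ℝ)) * (E 0))))) + (((15141979 : ℤ) : ℝ) / ((112500000 : ℕ) : ℝ)) ∧
    0 < ((((-1 : ℤ) : ℝ) / ((2 : ℕ) : ℝ)) * (cos (((((7 : ℤ) : ℝ) / ((18 : ℕ) : ℝ)) * π) + ((((2 : ℤ) : ℝ) / ((3 : ℕ) : ℝ)) * (E 0))))) + (((139274 : ℤ) : ℝ) / ((1171875 : ℕ) : ℝ)) ∧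
    0 < ((((-1 : ℤ) : ℝ) / ((2 : ℕ) : ℝ)) * (cos (((((4 : ℤ) : ℝ) / ((9 : ℕ) : ℝ)) * π) + ((((-1 : ℤ) : ℝ) / ((6 : ℕ) : ℝ)) * (E 0))))) + (((139274 : ℤ) : ℝ) / ((1171875 : ℕ) : ℝ)) ∧ True := h.c4

theorem P5 (h : H E) :
    0 < ((((-1 : ℤ) : ℝ) / ((2 : ℕ) : ℝ)) * (cos (((((4 : ℤ) : ℝ) / ((9 : ℕ) : ℝ)) * π) + ((((-1 : ℤ) : ℝ) / ((6 : ℕ) : ℝ)) * (E 0))))) + (((42624929 : ℤ) : ℝ) / ((112500000 : ℕ) : ℝ)) ∧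
    0 < ((((-1 : ℤ) : ℝ) / ((2 : ℕ) : ℝ)) * (cos (((((1 : ℤ) : ℝ) / ((2 : ℕ) : ℝ)) * π) + ((((-1 : ℤ) : ℝ) / ((1 : ℕ) : ℝ)) * (E 0))))) + (((42624929 : ℤ) : ℝ) / ((112500000 : ℕ) : ℝ)) ∧
    0 < (((((-579113 : ℤ) : ℝ) / ((2250000 : ℕ) : ℝ)) * π) + ((((579113 : ℤ) : ℝ) / ((150000 : ℕ) : ℝ)) * (E 0))) + ((((1 : ℤ) : ℝ) / ((2 : ℕ) : ℝ)) * (sin (((((1 : ℤ) : ℝ) / ((2 : ℕ) : ℝ)) * π) + ((((-1 : ℤ) : ℝ) / ((1 : ℕ) : ℝ)) * (E 0))))) ∧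
    0 < (((((((22 : ℤ) : ℝ) / ((3 : ℕ) : ℝ)) * (E 2)) + ((((-22 : ℤ) : ℝ) / ((9 : ℕ) : ℝ)) * (E 4))) + ((((4 : ℤ) : ℝ) / ((9 : ℕ) : ℝ)) * (E 6))) + ((((1 : ℤ) : ℝ) / ((1 : ℕ) : ℝ)) * (cos (((((1 : ℤ) : ℝ) / ((6 : ℕ) : ℝ)) * π) + ((((2 : ℤ) : ℝ) / ((1 : ℕ) : ℝ)) * (E 0)))))) + (((-109731 : ℤ) : ℝ) / ((250000 : ℕ) : ℝ)) ∧
    0 < (((((((22 : ℤ) : ℝ) / ((3 : ℕ) : ℝ)) * (E 2)) + ((((-22 : ℤ) : ℝ) / ((9 : ℕ) : ℝ)) * (E 4))) + ((((4 : ℤ) : ℝ) / ((9 : ℕ) : ℝ)) * (E 6))) + ((((1 : ℤ) : ℝ) / ((1 : ℕ) : ℝ)) * (cos (((((1 : ℤ) : ℝ) / ((6 : ℕ) : ℝ)) * π) + ((((3 : ℤ) : ℝ) / ((2 : ℕ) : ℝ)) * (E 0)))))) + (((-109731 : ℤ) : ℝ) / ((250000 : ℕ) : ℝ)) ∧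
    0 < (((((((-2 : ℤ) : ℝ) / ((3 : ℕ) : ℝ)) * (E 2)) + ((((2 : ℤ) : ℝ) / ((9 : ℕ) : ℝ)) * (E 4))) + ((((16 : ℤ) : ℝ) / ((9 : ℕ) : ℝ)) * (E 6))) + ((((1 : ℤ) : ℝ) / ((1 : ℕ) : ℝ)) * (cos (((((1 : ℤ) : ℝ) / ((6 : ℕ) : ℝ)) * π) + ((((3 : ℤ) : ℝ) / ((2 : ℕ) : ℝ)) * (E 0)))))) + (((-610007 : ℤ) : ℝ) / ((2250000 : ℕ) : ℝ)) ∧
    0 < (((((((-2 : ℤ) : ℝ) / ((3 : ℕ) : ℝ)) * (E 2)) + ((((2 : ℤ) : ℝ) / ((9 : ℕ) : ℝ)) * (E 4))) + ((((16 : ℤ) : ℝ) / ((9 : ℕ) : ℝ)) * (E 6))) + ((((1 : ℤ) : ℝ) / ((1 : ℕ) : ℝ)) * (cos (((((1 : ℤ) : ℝ) / ((6 : ℕ) : ℝ)) * π) + ((((9 : ℤ) : ℝ) / ((8 : ℕ) : ℝ)) * (E 0)))))) + (((-610007 : ℤ) : ℝ) / ((2250000 : ℕ) : ℝ)) ∧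
    0 < (((1 : ℤ) : ℝ) / ((1 : ℕ) : ℝ)) * (E 8) ∧
    0 < (((((((-2 : ℤ) : ℝ) / ((3 : ℕ) : ℝ)) * (E 2)) + ((((2 : ℤ) : ℝ) / ((9 : ℕ) : ℝ)) * (E 4))) + ((((16 : ℤ) : ℝ) / ((9 : ℕ) : ℝ)) * (E 6))) + ((((1 : ℤ) : ℝ) / ((1 : ℕ) : ℝ)) * (cos (((((1 : ℤ) : ℝ) / ((6 : ℕ) : ℝ)) * π) + ((((1 : ℤ) : ℝ) / ((1 : ℕ) : ℝ)) * (E 0)))))) + (((-610007 : ℤ) : ℝ) / ((2250000 : ℕ) : ℝ)) ∧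
    0 < (((((((-2 : ℤ) : ℝ) / ((1 : ℕ) : ℝ)) * (E 0)) * (E 2)) + (((((14 : ℤ) : ℝ) / ((3 : ℕ) : ℝ)) * (E 0)) * (E 4))) + (((((-8 : ℤ) : ℝ) / ((3 : ℕ) : ℝ)) * (E 0)) * (E 6))) + ((((14173 : ℤ) : ℝ) / ((125000 : ℕ) : ℝ)) * (E 0)) ∧
    0 < (((((((-8 : ℤ) : ℝ) / ((3 : ℕ) : ℝ)) * (E 2)) + ((((-64 : ℤ) : ℝ) / ((9 : ℕ) : ℝ)) * (E 4))) + ((((64 : ℤ) : ℝ) / ((9 : ℕ) : ℝ)) * (E 6))) + ((((1 : ℤ) : ℝ) / ((1 : ℕ) : ℝ)) * (cos (((((1 : ℤ) : ℝ) / ((6 : ℕ) : ℝ)) * π) + ((((1 : ℤ) : ℝ) / ((1 : ℕ) : ℝ)) * (E 0)))))) + (((-3449197 : ℤ) : ℝ) / ((4500000 : ℕ) : ℝ)) ∧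
    0 < (((((((-8 : ℤ) : ℝ) / ((3 : ℕ) : ℝ)) * (E 2)) + ((((-64 : ℤ) : ℝ) / ((9 : ℕ) : ℝ)) * (E 4))) + ((((64 : ℤ) : ℝ) / ((9 : ℕ) : ℝ)) * (E 6))) + ((((1 : ℤ) : ℝ) / ((1 : ℕ) : ℝ)) * (cos (((((1 : ℤ) : ℝ) / ((6 : ℕ) : ℝ)) * π) + ((((1 : ℤ) : ℝ) / ((2 : ℕ) : ℝ)) * (E 0)))))) + (((-3449197 : ℤ) : ℝ) / ((4500000 : ℕ) : ℝ)) ∧
    0 < (((((-4 : ℤ) : ℝ) / ((1 : ℕ) : ℝ)) * (E 6)) + ((((1 : ℤ) : ℝ) / ((1 : ℕ) : ℝ)) * (cos (((((1 : ℤ) : ℝ) / ((6 : ℕ) : ℝ)) * π) + ((((1 : ℤ) : ℝ) / ((2 : ℕ) : ℝ)) * (E 0)))))) + (((-3681577 : ℤ) : ℝ) / ((4500000 : ℕ) : ℝ)) ∧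
    0 < (((((-4 : ℤ) : ℝ) / ((1 : ℕ) : ℝ)) * (E 6)) + ((((1 : ℤ) : ℝ) / ((1 : ℕ) : ℝ)) * (cos ((((1 : ℤ) : ℝ) / ((6 : ℕ) : ℝ)) * π)))) + (((-3681577 : ℤ) : ℝ) / ((4500000 : ℕ) : ℝ)) ∧
    0 < (((((-4395407 : ℤ) : ℝ) / ((3000000 : ℕ) : ℝ)) * (E 0)) + ((((-1 : ℤ) : ℝ) / ((1 : ℕ) : ℝ)) * (E 8))) + ((((1 : ℤ) : ℝ) / ((1 : ℕ) : ℝ)) * (sin ((((1 : ℤ) : ℝ) / ((6 : ℕ) : ℝ)) * π))) ∧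
    0 < (((((((1 : ℤ) : ℝ) / ((2 : ℕ) : ℝ)) * (E 2)) + ((((-1 : ℤ) : ℝ) / ((6 : ℕ) : ℝ)) * (E 4))) + ((((-2 : ℤ) : ℝ) / ((3 : ℕ) : ℝ)) * (E 6))) + ((((1 : ℤ) : ℝ) / ((2 : ℕ) : ℝ)) * (cos ((((1 : ℤ) : ℝ) / ((2 : ℕ) : ℝ)) * π)))) + (((4407 : ℤ) : ℝ) / ((2000000 : ℕ) : ℝ)) ∧ True := h.c5

theorem P6 (h : H E) :
    0 < (((((((1 : ℤ) : ℝ) / ((2 : ℕ) : ℝ)) * (E 2)) + ((((-1 : ℤ) : ℝ) / ((6 : ℕ) : ℝ)) * (E 4))) + ((((-2 : ℤ) : ℝ) / ((3 : ℕ) : ℝ)) * (E 6))) + ((((1 : ℤ) : ℝ) / ((2 : ℕ) : ℝ)) * (cos (((((1 : ℤ) : ℝ) / ((2 : ℕ) : ℝ)) * π) + ((((-1 : ℤ) : ℝ) / ((1 : ℕ) : ℝ)) * (E 0)))))) + (((4407 : ℤ) : ℝ) / ((2000000 : ℕ) : ℝ)) ∧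
    0 < ((((((((1 : ℤ) : ℝ) / ((2 : ℕ) : ℝ)) * (E 0)) * (E 2)) + (((((1 : ℤ) : ℝ) / ((12 : ℕ) : ℝ)) * (E 0)) * (E 4))) + (((((-1 : ℤ) : ℝ) / ((6 : ℕ) : ℝ)) * (E 0)) * (E 6))) + ((((-2539779 : ℤ) : ℝ) / ((2000000 : ℕ) : ℝ)) * (E 0))) + ((((1 : ℤ) : ℝ) / ((2 : ℕ) : ℝ)) * (sin (((((1 : ℤ) : ℝ) / ((2 : ℕ) : ℝ)) * π) + ((((-1 : ℤ) : ℝ) / ((1 : ℕ) : ℝ)) * (E 0))))) ∧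
    0 < ((((((((55452537509 : ℤ) : ℝ) / ((17010000000 : ℕ) : ℝ)) * π) * (E 0)) + (((((-55452537509 : ℤ) : ℝ) / ((510300000000 : ℕ) : ℝ)) * π) * π)) + (((((-55452537509 : ℤ) : ℝ) / ((2268000000 : ℕ) : ℝ)) * (E 0)) * (E 0))) + ((((-1 : ℤ) : ℝ) / ((2 : ℕ) : ℝ)) * (cos (((((1 : ℤ) : ℝ) / ((2 : ℕ) : ℝ)) * π) + ((((-1 : ℤ) : ℝ) / ((1 : ℕ) : ℝ)) * (E 0)))))) + ((((1 : ℤ) : ℝ) / ((2 : ℕ) : ℝ)) * (cos (((((1 : ℤ) : ℝ) / ((2 : ℕ) : ℝ)) * π) + ((((-3 : ℤ) : ℝ) / ((1 : ℕ) : ℝ)) * (E 0))))) ∧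
    0 < (((((((((3 : ℤ) : ℝ) / ((4 : ℕ) : ℝ)) * (E 0)) * (E 0)) * (E 2)) + ((((((-1 : ℤ) : ℝ) / ((2 : ℕ) : ℝ)) * (E 0)) * (E 0)) * (E 6))) + (((((-5075151 : ℤ) : ℝ) / ((4000000 : ℕ) : ℝ)) * (E 0)) * (E 0))) + ((((1 : ℤ) : ℝ) / ((2 : ℕ) : ℝ)) * (cos (((((1 : ℤ) : ℝ) / ((2 : ℕ) : ℝ)) * π) + ((((-1 : ℤ) : ℝ) / ((1 : ℕ) : ℝ)) * (E 0)))))) + ((((-1 : ℤ) : ℝ) / ((2 : ℕ) : ℝ)) * (cos ((((1 : ℤ) : ℝ) / ((2 : ℕ) : ℝ)) * π))) ∧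
    0 < (((((1 : ℤ) : ℝ) / ((1 : ℕ) : ℝ)) * (E 4)) + ((((-2 : ℤ) : ℝ) / ((3 : ℕ) : ℝ)) * (E 6))) + (((26983 : ℤ) : ℝ) / ((250000 : ℕ) : ℝ)) ∧
    0 < (((((4 : ℤ) : ℝ) / ((3 : ℕ) : ℝ)) * (E 2)) + ((((-4 : ℤ) : ℝ) / ((9 : ℕ) : ℝ)) * (E 4))) + (((39793 : ℤ) : ℝ) / ((187500 : ℕ) : ℝ)) ∧
    0 < ((((2 : ℤ) : ℝ) / ((3 : ℕ) : ℝ)) * (E 6)) + (((38641 : ℤ) : ℝ) / ((250000 : ℕ) : ℝ)) ∧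
    0 < (((((1 : ℤ) : ℝ) / ((1 : ℕ) : ℝ)) * (E 2)) + ((((-1 : ℤ) : ℝ) / ((3 : ℕ) : ℝ)) * (E 4))) + (((39793 : ℤ) : ℝ) / ((250000 : ℕ) : ℝ)) ∧
    0 < (((((2 : ℤ) : ℝ) / ((3 : ℕ) : ℝ)) * (E 2)) + ((((-2 : ℤ) : ℝ) / ((9 : ℕ) : ℝ)) * (E 4))) + (((39793 : ℤ) : ℝ) / ((375000 : ℕ) : ℝ)) ∧
    0 < ((((1 : ℤ) : ℝ) / ((1 : ℕ) : ℝ)) * (E 6)) + (((115923 : ℤ) : ℝ) / ((500000 : ℕ) : ℝ)) ∧ True := h.c6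

theorem hm : ((((1 : ℤ) : ℝ) / ((2 : ℕ) : ℝ)) * π) = π / 2 := by ring

theorem hz : (((0 : ℤ) : ℝ) / ((1 : ℕ) : ℝ)) = 0 := by ring

theorem hs : sin ((((1 : ℤ) : ℝ) / ((1 : ℕ) : ℝ)) * π) = 0 := by rw [show ((((1 : ℤ) : ℝ) / ((1 : ℕ) : ℝ)) * π) = π by ring, sin_pi]

theorem okU_c {a b top l s e : ℝ} {r : List Cell} (h1 : a ≤ b) (hm : Mono a b)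
    (hj : l + s * sin a + e * a ≤ top) (h2 : s * cos a + e ≤ 0) (h3 : s * cos b + e ≤ 0)
    (h4 : okU b (l + s * sin b + e * b) r) : okU a top (⟨b, l, s, e⟩ :: r) := ⟨h1, hm, hj, h2, h3, h4⟩

theorem okD_c {a b top l s e : ℝ} {r : List Cell} (h1 : b ≤ a) (hm : Mono b a)
    (hj : l + s * sin a + e * a ≤ top) (h2 : 0 ≤ s * cos a + e) (h3 : 0 ≤ s * cos b + e)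
    (h4 : okD b (l + s * sin b + e * b) r) : okD a top (⟨b, l, s, e⟩ :: r) := ⟨h1, hm, hj, h2, h3, h4⟩

theorem S1 (h : H E) : (((((9 : ℤ) : ℝ) / ((2 : ℕ) : ℝ)) * (E 0)) * (E 0)) * E 2 + (((((((((130461 : ℤ) : ℝ) / ((80000 : ℕ) : ℝ)) * (E 0)) * (E 0)) + ((((1 : ℤ) : ℝ) / ((1 : ℕ) : ℝ)) * (cos (((((1 : ℤ) : ℝ) / ((2 : ℕ) : ℝ)) * π) + ((((-1 : ℤ) : ℝ) / ((1 : ℕ) : ℝ)) * (E 0)))))) + ((((-1 : ℤ) : ℝ) / ((1 : ℕ) : ℝ)) * (cos ((((1 : ℤ) : ℝ) / ((2 : ℕ) : ℝ)) * π)))) + ((((1 : ℤ) : ℝ) / ((1 : ℕ) : ℝ)) * (cos (((((1 : ℤ) : ℝ) / ((6 : ℕ) : ℝ)) * π) + ((((2 : ℤ) : ℝ) / ((1 : ℕ) : ℝ)) * (E 0)))))) + ((((-1 : ℤ) : ℝ) / ((1 : ℕ) : ℝ)) * (cos ((((1 : ℤ) : ℝ) / ((6 : ℕ) : ℝ)) * π)))) = 0 :=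
  solv (P0 h).1 (F0 h).1 (F0 h).2.1

theorem S2 (h : H E) : ((((((8 : ℤ) : ℝ) / ((9 : ℕ) : ℝ)) * (E 0)) * (E 0)) * (E 0)) * E 4 + ((((((((((((((((((43487 : ℤ) : ℝ) / ((480000 : ℕ) : ℝ)) * π) * (E 0)) * (E 0)) + (((((((1 : ℤ) : ℝ) / ((4 : ℕ) : ℝ)) * π) * (E 0)) * (E 0)) * (E 2))) + (((((-1 : ℤ) : ℝ) / ((2 : ℕ) : ℝ)) * π) * (cos (((((1 : ℤ) : ℝ) / ((2 : ℕ) : ℝ)) * π) + ((((-3 : ℤ) : ℝ) / ((1 : ℕ) : ℝ)) * (E 0)))))) + (((((1 : ℤ) : ℝ) / ((6 : ℕ) : ℝ)) * π) * (cos (((((1 : ℤ) : ℝ) / ((6 : ℕ) : ℝ)) * π) + ((((2 : ℤ) : ℝ) / ((1 : ℕ) : ℝ)) * (E 0)))))) + (((((-1 : ℤ) : ℝ) / ((6 : ℕ) : ℝ)) * π) * (cos ((((5 : ℤ) : ℝ) / ((6 : ℕ) : ℝ)) * π)))) + (((((1 : ℤ) : ℝ) / ((1 : ℕ) : ℝ)) * (E 0)) *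 (cos (((((1 : ℤ) : ℝ) / ((2 : ℕ) : ℝ)) * π) + ((((-1 : ℤ) : ℝ) / ((1 : ℕ) : ℝ)) * (E 0)))))) + (((((2 : ℤ) : ℝ) / ((1 : ℕ) : ℝ)) * (E 0)) * (cos (((((1 : ℤ) : ℝ) / ((6 : ℕ) : ℝ)) * π) + ((((2 : ℤ) : ℝ) / ((1 : ℕ) : ℝ)) * (E 0)))))) + (((((((-14 : ℤ) : ℝ) / ((3 : ℕ) : ℝ)) * (E 0)) * (E 0)) * (E 0)) * (E 2))) + ((((((-806063 : ℤ) : ℝ) / ((500000 : ℕ) : ℝ)) * (E 0)) * (E 0)) * (E 0))) + ((((1 : ℤ) : ℝ) / ((1 : ℕ) : ℝ)) * (sin ((((1 : ℤ) : ℝ) / ((1 : ℕ) : ℝ)) * π)))) + ((((1 : ℤ) : ℝ) / ((1 : ℕ) : ℝ)) * (sin (((((1 : ℤ) : ℝ) / ((2 : ℕ) : ℝ)) * π) + ((((-1 : ℤ) : ℝ) / ((1 : ℕ) : ℝ)) * (E 0)))))) + ((((-1 : ℤ) : ℝ) / ((1 : ℕ) : ℝ)) * (sin (((((1 : ℤ) : ℝ) / ((6 : ℕ) : ℝ)) * π) + ((((2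 : ℤ) : ℝ) / ((1 : ℕ) : ℝ)) * (E 0)))))) + ((((-1 : ℤ) : ℝ) / ((1 : ℕ) : ℝ)) * (sin ((((5 : ℤ) : ℝ) / ((6 : ℕ) : ℝ)) * π)))) = 0 :=
  solv (P0 h).2.1 (F0 h).2.2.1 (F0 h).2.2.2.1

theorem S3 (h : H E) : ((((((41 : ℤ) : ℝ) / ((144 : ℕ) : ℝ)) * (E 0)) * (E 0)) * (E 0)) * E 6 + (((((((((((((((((((((-43487 : ℤ) : ℝ) / ((160000 : ℕ) : ℝ)) * π) * (E 0)) * (E 0)) + (((((((-3 : ℤ) : ℝ) / ((4 : ℕ) : ℝ)) * π) * (E 0)) * (E 0)) * (E 2))) + (((((-1 : ℤ) : ℝ) / ((6 : ℕ) : ℝ)) * π) * (cos (((((1 : ℤ) : ℝ) / ((2 : ℕ) : ℝ)) * π) + ((((-1 : ℤ) : ℝ) / ((1 : ℕ) : ℝ)) * (E 0)))))) + (((((1 : ℤ) : ℝ) / ((6 : ℕ) : ℝ)) * π) * (cos ((((1 : ℤ) : ℝ) / ((2 : ℕ) : ℝ)) * π)))) + (((((-1 : ℤ) : ℝ) / ((6 : ℕ) :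 ℝ)) * π) * (cos (((((1 : ℤ) : ℝ) / ((6 : ℕ) : ℝ)) * π) + ((((2 : ℤ) : ℝ) / ((1 : ℕ) : ℝ)) * (E 0)))))) + (((((1 : ℤ) : ℝ) / ((6 : ℕ) : ℝ)) * π) * (cos ((((1 : ℤ) : ℝ) / ((6 : ℕ) : ℝ)) * π)))) + (((((-25 : ℤ) : ℝ) / ((16 : ℕ) : ℝ)) * (E 0)) * (cos (((((1 : ℤ) : ℝ) / ((2 : ℕ) : ℝ)) * π) + ((((-1 : ℤ) : ℝ) / ((1 : ℕ) : ℝ)) * (E 0)))))) + (((((9 : ℤ) : ℝ) / ((16 : ℕ) : ℝ)) * (E 0)) * (cos ((((1 : ℤ) : ℝ) / ((2 : ℕ) : ℝ)) * π)))) + (((((-2 : ℤ) : ℝ) / ((1 : ℕ) : ℝ)) * (E 0)) * (cos (((((1 : ℤ) : ℝ) / ((6 : ℕ) : ℝ)) * π) + ((((2 : ℤ) : ℝ) / ((1 : ℕ) : ℝ)) * (E 0)))))) + (((((((-529 : ℤ) : ℝ) / ((96 : ℕ) : ℝ)) * (E 0)) * (E 0)) * (E 0)) * (E 2))) + (((((((17 : ℤ) : ℝ) / ((36 : ℕ) : ℝ))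 * (E 0)) * (E 0)) * (E 0)) * (E 4))) + ((((((-34249567 : ℤ) : ℝ) / ((19200000 : ℕ) : ℝ)) * (E 0)) * (E 0)) * (E 0))) + ((((-1 : ℤ) : ℝ) / ((1 : ℕ) : ℝ)) * (sin (((((1 : ℤ) : ℝ) / ((2 : ℕ) : ℝ)) * π) + ((((-1 : ℤ) : ℝ) / ((1 : ℕ) : ℝ)) * (E 0)))))) + ((((1 : ℤ) : ℝ) / ((1 : ℕ) : ℝ)) * (sin ((((1 : ℤ) : ℝ) / ((2 : ℕ) : ℝ)) * π)))) + ((((1 : ℤ) : ℝ) / ((1 : ℕ) : ℝ)) * (sin (((((1 : ℤ) : ℝ) / ((6 : ℕ) : ℝ)) * π) + ((((2 : ℤ) : ℝ) / ((1 : ℕ) : ℝ)) * (E 0)))))) + ((((-1 : ℤ) : ℝ) / ((1 : ℕ) : ℝ)) * (sin ((((1 : ℤ) : ℝ) / ((6 : ℕ) : ℝ)) * π)))) = 0 :=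
  solv (P0 h).2.2.1 (F0 h).2.2.2.2.1 (F0 h).2.2.2.2.2.1

theorem S4 (h : H E) : ((((9 : ℤ) : ℝ) / ((8 : ℕ) : ℝ)) * (E 0)) * E 8 + ((((((((((-3 : ℤ) : ℝ) / ((4 : ℕ) : ℝ)) * (E 0)) * (E 0)) * (E 2)) + ((((((1 : ℤ) : ℝ) / ((2 : ℕ) : ℝ)) * (E 0)) * (E 0)) * (E 6))) + (((((5075151 : ℤ) : ℝ) / ((4000000 : ℕ) : ℝ)) * (E 0)) * (E 0))) + ((((-1 : ℤ) : ℝ) / ((2 : ℕ) : ℝ)) * (cos (((((1 : ℤ) : ℝ) / ((2 : ℕ) : ℝ)) * π) + ((((-1 : ℤ) : ℝ) / ((1 : ℕ) : ℝ)) * (E 0)))))) + ((((1 : ℤ) : ℝ) / ((2 : ℕ) : ℝ)) * (cos ((((1 : ℤ) : ℝ) / ((2 : ℕ) : ℝ)) * π)))) = 0 :=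
  solv (P0 h).2.2.2.1 (F0 h).2.2.2.2.2.2.1 (F0 h).2.2.2.2.2.2.2.1

theorem S5 (h : H E) : (((((((-4 : ℤ) : ℝ) / ((3 : ℕ) : ℝ)) * π) * (E 0)) + (((((1 : ℤ) : ℝ) / ((36 : ℕ) : ℝ)) * π) * π)) + (((((16 : ℤ) : ℝ) / ((1 : ℕ) : ℝ)) * (E 0)) * (E 0))) * E 10 + (((((((((((((((((25712220851 : ℤ) : ℝ) / ((34020000000 : ℕ) : ℝ)) * π) * (E 0)) + ((((((29 : ℤ) : ℝ) / ((18 : ℕ) : ℝ)) * π) * (E 0)) * (E 2))) + ((((((-29 : ℤ) : ℝ) / ((54 : ℕ) : ℝ)) * π) * (E 0)) * (E 4))) + ((((((-7 : ℤ) : ℝ) / ((216 : ℕ) : ℝ)) * π) * π) * (E 2))) + ((((((7 : ℤ) : ℝ) / ((648 : ℕ) : ℝ)) * π) * π) * (E 4))) + (((((-8289727091 : ℤ) : ℝ) / ((408240000000 : ℕ) : ℝ)) * π) * π)) + ((((((-56 : ℤ) : ℝ) / ((3 : ℕ) : ℝ)) *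 (E 0)) * (E 0)) * (E 2))) + ((((((121 : ℤ) : ℝ) / ((18 : ℕ) : ℝ)) * (E 0)) * (E 0)) * (E 4))) + (((((-5818710157 : ℤ) : ℝ) / ((810000000 : ℕ) : ℝ)) * (E 0)) * (E 0))) + ((((1 : ℤ) : ℝ) / ((1 : ℕ) : ℝ)) * (cos ((((1 : ℤ) : ℝ) / ((1 : ℕ) : ℝ)) * π)))) + ((((-1 : ℤ) : ℝ) / ((2 : ℕ) : ℝ)) * (cos (((((1 : ℤ) : ℝ) / ((2 : ℕ) : ℝ)) * π) + ((((-1 : ℤ) : ℝ) / ((1 : ℕ) : ℝ)) * (E 0)))))) + ((((1 : ℤ) : ℝ) / ((2 : ℕ) : ℝ)) * (cos (((((1 : ℤ) : ℝ) / ((2 : ℕ) : ℝ)) * π) + ((((-3 : ℤ) : ℝ) / ((1 : ℕ) : ℝ)) * (E 0)))))) + ((((-1 : ℤ) : ℝ) / ((1 : ℕ) : ℝ)) * (cos ((((5 : ℤ) : ℝ) / ((6 : ℕ) : ℝ)) * π)))) = 0 :=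
  solv (P0 h).2.2.2.2.1 (F0 h).2.2.2.2.2.2.2.2.1 (F0 h).2.2.2.2.2.2.2.2.2.1

noncomputable def Ut (E : ℕ → ℝ) : List Cell := [
  ⟨(((((5 : ℤ) : ℝ) / ((18 : ℕ) : ℝ)) * π) + ((((1 : ℤ) : ℝ) / ((3 : ℕ) : ℝ)) * (E 0))), ((-7988075507 / 75600000000 : ℝ) * π + (28577952943 / 6300000000 : ℝ) * E 0), (1 : ℝ), ((-8263492693 / 12600000000 : ℝ))⟩,
  ⟨(((((7 : ℤ) : ℝ) / ((18 : ℕ) : ℝ)) * π) + ((((-4 : ℤ) : ℝ) / ((3 : ℕ) : ℝ)) * (E 0))), ((-39446748527 / 453600000000 : ℝ) * π + (344631776219 / 75600000000 : ℝ) * E 0), (1 : ℝ), ((-2603332327 / 3600000000 : ℝ))⟩,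
  ⟨(((((1 : ℤ) : ℝ) / ((2 : ℕ) : ℝ)) * π) + ((((-3 : ℤ) : ℝ) / ((1 : ℕ) : ℝ)) * (E 0))), ((-313332737 / 2016000000 : ℝ) * π + (1610561843 / 336000000 : ℝ) * E 0), (1 : ℝ), ((-183828889 / 336000000 : ℝ))⟩]

theorem lUt (E : ℕ → ℝ) : lastc (((((1 : ℤ) : ℝ) / ((6 : ℕ) : ℝ)) * π) + ((((2 : ℤ) : ℝ) / ((1 : ℕ) : ℝ)) * (E 0))) (Ut E) = (((((1 : ℤ) : ℝ) / ((2 : ℕ) : ℝ)) * π) + ((((-3 : ℤ) : ℝ) / ((1 : ℕ) : ℝ)) * (E 0))) := rfl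

noncomputable def Uv (E : ℕ → ℝ) : List Cell := [
  ⟨(((((17 : ℤ) : ℝ) / ((18 : ℕ) : ℝ)) * π) + ((((-5 : ℤ) : ℝ) / ((3 : ℕ) : ℝ)) * (E 0))), ((-756187573 / 720000000 : ℝ) * π + (205329 / 40000 : ℝ) * E 0), (1 : ℝ), ((509792773 / 600000000 : ℝ))⟩,
  ⟨(((((19 : ℤ) : ℝ) / ((18 : ℕ) : ℝ)) * π) + ((((-10 : ℤ) : ℝ) / ((3 : ℕ) : ℝ)) * (E 0))), ((-2950041799 / 2700000000 : ℝ) * π + (1874864153 / 360000000 : ℝ) * E 0), (1 : ℝ), ((89449321 / 100000000 : ℝ))⟩,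
  ⟨(((((5 : ℤ) : ℝ) / ((6 : ℕ) : ℝ)) * π) + ((((1 : ℤ) : ℝ) / ((1 : ℕ) : ℝ)) * (E 0))), ((-1544379791 / 1800000000 : ℝ) * π + (178682117 / 40000000 : ℝ) * E 0), (1 : ℝ), ((1575521 / 2343750 : ℝ))⟩,
  ⟨(((((7 : ℤ) : ℝ) / ((6 : ℕ) : ℝ)) * π) + ((((-5 : ℤ) : ℝ) / ((1 : ℕ) : ℝ)) * (E 0))), ((-5 / 6 : ℝ) * π * E 4 + (-1938123791 / 1800000000 : ℝ) * π + (-2 : ℝ) * E 0 * E 4 + (157682437 / 40000000 : ℝ) * E 0), (1 : ℝ), ((1 : ℝ) * E 4 + (1095373 / 1171875 : ℝ))⟩,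
  ⟨(((((23 : ℤ) : ℝ) / ((18 : ℕ) : ℝ)) * π) + ((((-20 : ℤ) : ℝ) / ((3 : ℕ) : ℝ)) * (E 0))), ((-7 / 36 : ℝ) * π * E 2 + (-83 / 108 : ℝ) * π * E 4 + (-8750123 / 18000000 : ℝ) * π + (5 / 6 : ℝ) * E 0 * E 2 + (-41 / 18 : ℝ) * E 0 * E 4 + (51675481 / 24000000 : ℝ) * E 0), (1 : ℝ), ((1 / 6 : ℝ) * E 2 + (17 / 18 : ℝ) * E 4 + (1513393 / 4000000 : ℝ))⟩,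
  ⟨(((((25 : ℤ) : ℝ) / ((18 : ℕ) : ℝ)) * π) + ((((-25 : ℤ) : ℝ) / ((3 : ℕ) : ℝ)) * (E 0))), ((-7 / 36 : ℝ) * π * E 2 + (-83 / 108 : ℝ) * π * E 4 + (-3197403691 / 2592000000 : ℝ) * π + (5 / 6 : ℝ) * E 0 * E 2 + (-41 / 18 : ℝ) * E 0 * E 4 + (1307421059 / 216000000 : ℝ) * E 0), (1 : ℝ), ((1 / 6 : ℝ) * E 2 + (17 / 18 : ℝ) * E 4 + (138716321 / 144000000 : ℝ))⟩,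
  ⟨(((((5 : ℤ) : ℝ) / ((6 : ℕ) : ℝ)) * π) + ((((2 : ℤ) : ℝ) / ((1 : ℕ) : ℝ)) * (E 0))), ((-7 / 36 : ℝ) * π * E 2 + (-83 / 108 : ℝ) * π * E 4 + (-1065160741 / 2592000000 : ℝ) * π + (5 / 6 : ℝ) * E 0 * E 2 + (-41 / 18 : ℝ) * E 0 * E 4 + (1885153 / 1687500 : ℝ) * E 0), (1 : ℝ), ((1 / 6 : ℝ) * E 2 + (17 / 18 : ℝ) * E 4 + (53426603 / 144000000 : ℝ))⟩,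
  ⟨(((((5 : ℤ) : ℝ) / ((18 : ℕ) : ℝ)) * π) + ((((37 : ℤ) : ℝ) / ((3 : ℕ) : ℝ)) * (E 0))), ((11 / 12 : ℝ) * π * E 2 + (-11 / 36 : ℝ) * π * E 4 + (43565099 / 2592000000 : ℝ) * π + (7 / 2 : ℝ) * E 0 * E 2 + (-7 / 6 : ℝ) * E 0 * E 4 + (28940297 / 13500000 : ℝ) * E 0), (1 : ℝ), ((-7 / 6 : ℝ) * E 2 + (7 / 18 : ℝ) * E 4 + (-20488453 / 144000000 : ℝ))⟩,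
  ⟨(((((7 : ℤ) : ℝ) / ((6 : ℕ) : ℝ)) * π) + ((((-4 : ℤ) : ℝ) / ((1 : ℕ) : ℝ)) * (E 0))), ((11 / 12 : ℝ) * π * E 2 + (-11 / 36 : ℝ) * π * E 4 + (23230801 / 864000000 : ℝ) * π + (7 / 2 : ℝ) * E 0 * E 2 + (-7 / 6 : ℝ) * E 0 * E 4 + (22217273 / 7875000 : ℝ) * E 0), (1 : ℝ), ((-7 / 6 : ℝ) * E 2 + (7 / 18 : ℝ) * E 4 + (-64682041 / 336000000 : ℝ))⟩,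
  ⟨(((((3 : ℤ) : ℝ) / ((2 : ℕ) : ℝ)) * π) + ((((-10 : ℤ) : ℝ) / ((1 : ℕ) : ℝ)) * (E 0))), ((-1 / 4 : ℝ) * π * E 2 + (1 / 12 : ℝ) * π * E 4 + (7 / 6 : ℝ) * π * E 10 + (-48882721 / 172800000 : ℝ) * π + (15 / 2 : ℝ) * E 0 * E 2 + (-5 / 2 : ℝ) * E 0 * E 4 + (-4 : ℝ) * E 0 * E 10 + (489298571 / 126000000 : ℝ) * E 0), (1 : ℝ), ((-1 / 6 : ℝ) * E 2 + (1 / 18 : ℝ) * E 4 + (-1 : ℝ) * E 10 + (8177587 / 112000000 : ℝ))⟩,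
  ⟨(((((1 : ℤ) : ℝ) / ((18 : ℕ) : ℝ)) * π) + ((((50 : ℤ) : ℝ) / ((3 : ℕ) : ℝ)) * (E 0))), ((-1 / 4 : ℝ) * π * E 2 + (1 / 12 : ℝ) * π * E 4 + (7 / 6 : ℝ) * π * E 10 + (-29326297 / 172800000 : ℝ) * π + (15 / 2 : ℝ) * E 0 * E 2 + (-5 / 2 : ℝ) * E 0 * E 4 + (-4 : ℝ) * E 0 * E 10 + (394232621 / 126000000 : ℝ) * E 0), (1 : ℝ), ((-1 / 6 : ℝ) * E 2 + (1 / 18 : ℝ) * E 4 + (-1 : ℝ) * E 10 + (-818159 / 336000000 : ℝ))⟩,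
  ⟨(((((7 : ℤ) : ℝ) / ((18 : ℕ) : ℝ)) * π) + ((((32 : ℤ) : ℝ) / ((3 : ℕ) : ℝ)) * (E 0))), ((-1 / 4 : ℝ) * π * E 2 + (1 / 12 : ℝ) * π * E 4 + (7 / 6 : ℝ) * π * E 10 + (-449711207 / 2592000000 : ℝ) * π + (15 / 2 : ℝ) * E 0 * E 2 + (-5 / 2 : ℝ) * E 0 * E 4 + (-4 : ℝ) * E 0 * E 10 + (753214963 / 378000000 : ℝ) * E 0), (1 : ℝ), ((-1 / 6 : ℝ) * E 2 + (1 / 18 : ℝ) * E 4 + (-1 : ℝ) * E 10 + (66262787 / 1008000000 : ℝ))⟩,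
  ⟨(((((23 : ℤ) : ℝ) / ((18 : ℕ) : ℝ)) * π) + ((((-17 : ℤ) : ℝ) / ((3 : ℕ) : ℝ)) * (E 0))), ((-1 / 4 : ℝ) * π * E 2 + (1 / 12 : ℝ) * π * E 4 + (7 / 6 : ℝ) * π * E 10 + (-391174847 / 2592000000 : ℝ) * π + (15 / 2 : ℝ) * E 0 * E 2 + (-5 / 2 : ℝ) * E 0 * E 4 + (-4 : ℝ) * E 0 * E 10 + (987360403 / 378000000 : ℝ) * E 0), (1 : ℝ), ((-1 / 6 : ℝ) * E 2 + (1 / 18 : ℝ) * E 4 + (-1 : ℝ) * E 10 + (7726427 / 1008000000 : ℝ))⟩,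
  ⟨(((((29 : ℤ) : ℝ) / ((18 : ℕ) : ℝ)) * π) + ((((-35 : ℤ) : ℝ) / ((3 : ℕ) : ℝ)) * (E 0))), ((-1 / 4 : ℝ) * π * E 2 + (1 / 12 : ℝ) * π * E 4 + (7 / 6 : ℝ) * π * E 10 + (-3152497309 / 10080000000 : ℝ) * π + (15 / 2 : ℝ) * E 0 * E 2 + (-5 / 2 : ℝ) * E 0 * E 4 + (-4 : ℝ) * E 0 * E 10 + (16648761 / 5000000 : ℝ) * E 0), (1 : ℝ), ((-1 / 6 : ℝ) * E 2 + (1 / 18 : ℝ) * E 4 + (-1 : ℝ) * E 10 + (676951967 / 5040000000 : ℝ))⟩,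
  ⟨(((((1 : ℤ) : ℝ) / ((2 : ℕ) : ℝ)) * π) + ((((9 : ℤ) : ℝ) / ((1 : ℕ) : ℝ)) * (E 0))), ((-1 / 4 : ℝ) * π * E 2 + (1 / 12 : ℝ) * π * E 4 + (7 / 6 : ℝ) * π * E 10 + (-9554550287 / 30240000000 : ℝ) * π + (15 / 2 : ℝ) * E 0 * E 2 + (-5 / 2 : ℝ) * E 0 * E 4 + (-4 : ℝ) * E 0 * E 10 + (301769473 / 90000000 : ℝ) * E 0), (1 : ℝ), ((-1 / 6 : ℝ) * E 2 + (1 / 18 : ℝ) * E 4 + (-1 : ℝ) * E 10 + (686992487 / 5040000000 : ℝ))⟩,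
  ⟨(((((25 : ℤ) : ℝ) / ((18 : ℕ) : ℝ)) * π) + ((((-22 : ℤ) : ℝ) / ((3 : ℕ) : ℝ)) * (E 0))), ((-1 / 4 : ℝ) * π * E 2 + (1 / 12 : ℝ) * π * E 4 + (7 / 6 : ℝ) * π * E 10 + (-8984750771 / 30240000000 : ℝ) * π + (15 / 2 : ℝ) * E 0 * E 2 + (-5 / 2 : ℝ) * E 0 * E 4 + (-4 : ℝ) * E 0 * E 10 + (4652122259 / 1260000000 : ℝ) * E 0), (1 : ℝ), ((-1 / 6 : ℝ) * E 2 + (1 / 18 : ℝ) * E 4 + (-1 : ℝ) * E 10 + (99411863 / 1008000000 : ℝ))⟩,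
  ⟨(((((5 : ℤ) : ℝ) / ((6 : ℕ) : ℝ)) * π) + ((((3 : ℤ) : ℝ) / ((1 : ℕ) : ℝ)) * (E 0))), ((-1 / 4 : ℝ) * π * E 2 + (1 / 12 : ℝ) * π * E 4 + (7 / 6 : ℝ) * π * E 10 + (2310818393 / 10080000000 : ℝ) * π + (15 / 2 : ℝ) * E 0 * E 2 + (-5 / 2 : ℝ) * E 0 * E 4 + (-4 : ℝ) * E 0 * E 10 + (1095559 / 1200000 : ℝ) * E 0), (1 : ℝ), ((-1 / 6 : ℝ) * E 2 + (1 / 18 : ℝ) * E 4 + (-1 : ℝ) * E 10 + (-1413005399 / 5040000000 : ℝ))⟩,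
  ⟨(((((31 : ℤ) : ℝ) / ((18 : ℕ) : ℝ)) * π) + ((((-40 : ℤ) : ℝ) / ((3 : ℕ) : ℝ)) * (E 0))), ((-7 / 3 : ℝ) * π * E 2 + (7 / 9 : ℝ) * π * E 4 + (7 / 6 : ℝ) * π * E 10 + (-1031793607 / 10080000000 : ℝ) * π + (-4 : ℝ) * E 0 * E 10 + (-336989 / 1200000 : ℝ) * E 0), (1 : ℝ), ((7 / 3 : ℝ) * E 2 + (-7 / 9 : ℝ) * E 4 + (-1 : ℝ) * E 10 + (592561801 / 5040000000 : ℝ))⟩,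
  ⟨((((1 : ℤ) : ℝ) / ((1 : ℕ) : ℝ)) * π), ((-7 / 3 : ℝ) * π * E 2 + (7 / 9 : ℝ) * π * E 4 + (7 / 6 : ℝ) * π * E 10 + (-87339167 / 630000000 : ℝ) * π + (-4 : ℝ) * E 0 * E 10), (1 : ℝ), ((7 / 3 : ℝ) * E 2 + (-7 / 9 : ℝ) * E 4 + (-1 : ℝ) * E 10 + (87339167 / 630000000 : ℝ))⟩,
  ⟨(((((5 : ℤ) : ℝ) / ((6 : ℕ) : ℝ)) * π) + ((((4 : ℤ) : ℝ) / ((1 : ℕ) : ℝ)) * (E 0))), ((-5 / 6 : ℝ) * π * E 10 + (-4 : ℝ) * E 0 * E 10), (0 : ℝ), ((1 : ℝ) * E 10)⟩]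

theorem lUv (E : ℕ → ℝ) : lastc ((((5 : ℤ) : ℝ) / ((6 : ℕ) : ℝ)) * π) (Uv E) = (((((5 : ℤ) : ℝ) / ((6 : ℕ) : ℝ)) * π) + ((((4 : ℤ) : ℝ) / ((1 : ℕ) : ℝ)) * (E 0))) := rfl

noncomputable def Ux (E : ℕ → ℝ) : List Cell := [
  ⟨(((((-1 : ℤ) : ℝ) / ((18 : ℕ) : ℝ)) * π) + ((((22 : ℤ) : ℝ) / ((3 : ℕ) : ℝ)) * (E 0))), ((1260712493 / 2520000000 : ℝ) * π + (-112549001 / 42000000 : ℝ) * E 0), (1 / 2 : ℝ), ((-270172163 / 252000000 : ℝ))⟩,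
  ⟨(((((5 : ℤ) : ℝ) / ((9 : ℕ) : ℝ)) * π) + ((((-23 : ℤ) : ℝ) / ((6 : ℕ) : ℝ)) * (E 0))), ((372622051 / 840000000 : ℝ) * π + (67237649 / 14000000 : ℝ) * E 0), (1 / 2 : ℝ), ((-21091823 / 10080000 : ℝ))⟩,
  ⟨((((13 : ℤ) : ℝ) / ((2 : ℕ) : ℝ)) * (E 0)), ((-13374260903 / 22680000000 : ℝ) * π + (402718571 / 33750000 : ℝ) * E 0), (1 / 2 : ℝ), ((-292972247 / 1260000000 : ℝ))⟩,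
  ⟨(((((11 : ℤ) : ℝ) / ((18 : ℕ) : ℝ)) * π) + ((((-14 : ℤ) : ℝ) / ((3 : ℕ) : ℝ)) * (E 0))), ((-13374260903 / 22680000000 : ℝ) * π + (6892623281 / 540000000 : ℝ) * E 0), (1 / 2 : ℝ), ((-454197017 / 1260000000 : ℝ))⟩,
  ⟨(((((1 : ℤ) : ℝ) / ((18 : ℕ) : ℝ)) * π) + ((((17 : ℤ) : ℝ) / ((3 : ℕ) : ℝ)) * (E 0))), ((-12158911 / 18000000 : ℝ) * π + (161031899 / 12000000 : ℝ) * E 0), (1 / 2 : ℝ), ((-1320433 / 6000000 : ℝ))⟩,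
  ⟨(((((2 : ℤ) : ℝ) / ((3 : ℕ) : ℝ)) * π) + ((((-11 : ℤ) : ℝ) / ((2 : ℕ) : ℝ)) * (E 0))), ((-228151313 / 337500000 : ℝ) * π + (12030681389 / 900000000 : ℝ) * E 0), (1 / 2 : ℝ), ((-10545657 / 50000000 : ℝ))⟩,
  ⟨(((((1 : ℤ) : ℝ) / ((9 : ℕ) : ℝ)) * π) + ((((29 : ℤ) : ℝ) / ((6 : ℕ) : ℝ)) * (E 0))), ((-9651469 / 168750000 : ℝ) * π + (7436017139 / 900000000 : ℝ) * E 0), (1 / 2 : ℝ), ((-56956407 / 50000000 : ℝ))⟩,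
  ⟨(((((1 : ℤ) : ℝ) / ((6 : ℕ) : ℝ)) * π) + ((((4 : ℤ) : ℝ) / ((1 : ℕ) : ℝ)) * (E 0))), ((-218676827 / 1350000000 : ℝ) * π + (833382491 / 225000000 : ℝ) * E 0), (1 / 2 : ℝ), ((-4900691 / 25000000 : ℝ))⟩,
  ⟨(((((2 : ℤ) : ℝ) / ((9 : ℕ) : ℝ)) * π) + ((((19 : ℤ) : ℝ) / ((6 : ℕ) : ℝ)) * (E 0))), ((-222072227 / 1350000000 : ℝ) * π + (819800891 / 225000000 : ℝ) * E 0), (1 / 2 : ℝ), ((-13570273 / 75000000 : ℝ))⟩,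
  ⟨(((((5 : ℤ) : ℝ) / ((18 : ℕ) : ℝ)) * π) + ((((7 : ℤ) : ℝ) / ((3 : ℕ) : ℝ)) * (E 0))), ((-679967881 / 4050000000 : ℝ) * π + (2426743573 / 675000000 : ℝ) * E 0), (1 / 2 : ℝ), ((-37273019 / 225000000 : ℝ))⟩,
  ⟨(((((1 : ℤ) : ℝ) / ((3 : ℕ) : ℝ)) * π) + ((((3 : ℤ) : ℝ) / ((2 : ℕ) : ℝ)) * (E 0))), ((-538081 / 3125000 : ℝ) * π + (20020037 / 5625000 : ℝ) * E 0), (1 / 2 : ℝ), ((-8449 / 56250 : ℝ))⟩,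
  ⟨(((((7 : ℤ) : ℝ) / ((18 : ℕ) : ℝ)) * π) + ((((2 : ℤ) : ℝ) / ((3 : ℕ) : ℝ)) * (E 0))), ((-59868769 / 337500000 : ℝ) * π + (795533417 / 225000000 : ℝ) * E 0), (1 / 2 : ℝ), ((-15141979 / 112500000 : ℝ))⟩,
  ⟨(((((4 : ℤ) : ℝ) / ((9 : ℕ) : ℝ)) * π) + ((((-1 : ℤ) : ℝ) / ((6 : ℕ) : ℝ)) * (E 0))), ((-371614339 / 2025000000 : ℝ) * π + (2379513551 / 675000000 : ℝ) * E 0), (1 / 2 : ℝ), ((-139274 / 1171875 : ℝ))⟩,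
  ⟨(((((1 : ℤ) : ℝ) / ((2 : ℕ) : ℝ)) * π) + ((((-1 : ℤ) : ℝ) / ((1 : ℕ) : ℝ)) * (E 0))), ((-5095457 / 75000000 : ℝ) * π + (391709821 / 112500000 : ℝ) * E 0), (1 / 2 : ℝ), ((-42624929 / 112500000 : ℝ))⟩]

theorem lUx (E : ℕ → ℝ) : lastc (((((1 : ℤ) : ℝ) / ((2 : ℕ) : ℝ)) * π) + ((((-3 : ℤ) : ℝ) / ((1 : ℕ) : ℝ)) * (E 0))) (Ux E) = (((((1 : ℤ) : ℝ) / ((2 : ℕ) : ℝ)) * π) + ((((-1 : ℤ) : ℝ) / ((1 : ℕ) : ℝ)) * (E 0))) := rfl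

noncomputable def Vt (E : ℕ → ℝ) : List Cell := [
  ⟨(((((1 : ℤ) : ℝ) / ((6 : ℕ) : ℝ)) * π) + ((((3 : ℤ) : ℝ) / ((2 : ℕ) : ℝ)) * (E 0))), ((-11 / 9 : ℝ) * π * E 2 + (11 / 27 : ℝ) * π * E 4 + (-2 / 27 : ℝ) * π * E 6 + (36577 / 500000 : ℝ) * π + (-44 / 3 : ℝ) * E 0 * E 2 + (44 / 9 : ℝ) * E 0 * E 4 + (-8 / 9 : ℝ) * E 0 * E 6 + (-1621231 / 1000000 : ℝ) * E 0), (1 : ℝ), ((22 / 3 : ℝ) * E 2 + (-22 / 9 : ℝ) * E 4 + (4 / 9 : ℝ) * E 6 + (-109731 / 250000 : ℝ))⟩,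
  ⟨(((((1 : ℤ) : ℝ) / ((6 : ℕ) : ℝ)) * π) + ((((9 : ℤ) : ℝ) / ((8 : ℕ) : ℝ)) * (E 0))), ((1 / 9 : ℝ) * π * E 2 + (-1 / 27 : ℝ) * π * E 4 + (-8 / 27 : ℝ) * π * E 6 + (610007 / 13500000 : ℝ) * π + (-8 / 3 : ℝ) * E 0 * E 2 + (8 / 9 : ℝ) * E 0 * E 4 + (-26 / 9 : ℝ) * E 0 * E 6 + (-5618837 / 3000000 : ℝ) * E 0), (1 : ℝ), ((-2 / 3 : ℝ) * E 2 + (2 / 9 : ℝ) * E 4 + (16 / 9 : ℝ) * E 6 + (-610007 / 2250000 : ℝ))⟩,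
  ⟨(((((1 : ℤ) : ℝ) / ((6 : ℕ) : ℝ)) * π) + ((((1 : ℤ) : ℝ) / ((1 : ℕ) : ℝ)) * (E 0))), ((1 / 9 : ℝ) * π * E 2 + (-1 / 27 : ℝ) * π * E 4 + (-8 / 27 : ℝ) * π * E 6 + (610007 / 13500000 : ℝ) * π + (-8 / 3 : ℝ) * E 0 * E 2 + (8 / 9 : ℝ) * E 0 * E 4 + (-26 / 9 : ℝ) * E 0 * E 6 + (-5618837 / 3000000 : ℝ) * E 0 + (-1 : ℝ) * E 8), (1 : ℝ), ((-2 / 3 : ℝ) * E 2 + (2 / 9 : ℝ) * E 4 + (16 / 9 : ℝ) * E 6 + (-610007 / 2250000 : ℝ))⟩,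
  ⟨(((((1 : ℤ) : ℝ) / ((6 : ℕ) : ℝ)) * π) + ((((1 : ℤ) : ℝ) / ((2 : ℕ) : ℝ)) * (E 0))), ((4 / 9 : ℝ) * π * E 2 + (32 / 27 : ℝ) * π * E 4 + (-32 / 27 : ℝ) * π * E 6 + (3449197 / 27000000 : ℝ) * π + (4 / 3 : ℝ) * E 0 * E 2 + (32 / 9 : ℝ) * E 0 * E 4 + (-50 / 9 : ℝ) * E 0 * E 6 + (-4472867 / 3000000 : ℝ) * E 0 + (-1 : ℝ) * E 8), (1 : ℝ), ((-8 / 3 : ℝ) * E 2 + (-64 / 9 : ℝ) * E 4 + (64 / 9 : ℝ) * E 6 + (-3449197 / 4500000 : ℝ))⟩,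
  ⟨((((1 : ℤ) : ℝ) / ((6 : ℕ) : ℝ)) * π), ((2 / 3 : ℝ) * π * E 6 + (3681577 / 27000000 : ℝ) * π + (-4395407 / 3000000 : ℝ) * E 0 + (-1 : ℝ) * E 8), (1 : ℝ), ((-4 : ℝ) * E 6 + (-3681577 / 4500000 : ℝ))⟩]

theorem lVt (E : ℕ → ℝ) : lastc (((((1 : ℤ) : ℝ) / ((6 : ℕ) : ℝ)) * π) + ((((2 : ℤ) : ℝ) / ((1 : ℕ) : ℝ)) * (E 0))) (Vt E) = ((((1 : ℤ) : ℝ) / ((6 : ℕ) : ℝ)) * π) := rfl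

noncomputable def Vv (E : ℕ → ℝ) : List Cell := [
  ⟨(((((5 : ℤ) : ℝ) / ((6 : ℕ) : ℝ)) * π) + ((((-9 : ℤ) : ℝ) / ((8 : ℕ) : ℝ)) * (E 0))), ((1 : ℝ) * E 8), (0 : ℝ), (0 : ℝ)⟩]

theorem lVv (E : ℕ → ℝ) : lastc ((((5 : ℤ) : ℝ) / ((6 : ℕ) : ℝ)) * π) (Vv E) = (((((5 : ℤ) : ℝ) / ((6 : ℕ) : ℝ)) * π) + ((((-9 : ℤ) : ℝ) / ((8 : ℕ) : ℝ)) * (E 0))) := rfl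

noncomputable def Vx (E : ℕ → ℝ) : List Cell := [
  ⟨(((((1 : ℤ) : ℝ) / ((2 : ℕ) : ℝ)) * π) + ((((-1 : ℤ) : ℝ) / ((1 : ℕ) : ℝ)) * (E 0))), ((-1 / 4 : ℝ) * π * E 2 + (1 / 12 : ℝ) * π * E 4 + (1 / 3 : ℝ) * π * E 6 + (-4407 / 4000000 : ℝ) * π + (1 : ℝ) * E 0 * E 2 + (-1 / 12 : ℝ) * E 0 * E 4 + (-5 / 6 : ℝ) * E 0 * E 6 + (-633843 / 500000 : ℝ) * E 0), (1 / 2 : ℝ), ((1 / 2 : ℝ) * E 2 + (-1 / 6 : ℝ) * E 4 + (-2 / 3 : ℝ) * E 6 + (4407 / 2000000 : ℝ))⟩]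

theorem lVx (E : ℕ → ℝ) : lastc ((((1 : ℤ) : ℝ) / ((2 : ℕ) : ℝ)) * π) (Vx E) = (((((1 : ℤ) : ℝ) / ((2 : ℕ) : ℝ)) * π) + ((((-1 : ℤ) : ℝ) / ((1 : ℕ) : ℝ)) * (E 0))) := rfl

theorem hU1 (h : H E) : ((1 / 2 : ℝ) * cos (((((1 : ℤ) : ℝ) / ((2 : ℕ) : ℝ)) * π) + ((((-1 : ℤ) : ℝ) / ((1 : ℕ) : ℝ)) * (E 0))) + (-3 / 2 : ℝ) * cos (((((1 : ℤ) : ℝ) / ((2 : ℕ) : ℝ)) * π) + ((((-3 : ℤ) : ℝ) / ((1 : ℕ) : ℝ)) * (E 0))) + (1 : ℝ) * cos (((((1 : ℤ) : ℝ) / ((6 : ℕ) : ℝ)) * π) + ((((2 : ℤ) : ℝ) / ((1 : ℕ) : ℝ)) * (E 0)))) = 0 := by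
  rw [show (((((1 : ℤ) : ℝ) / ((6 : ℕ) : ℝ)) * π) + ((((2 : ℤ) : ℝ) / ((1 : ℕ) : ℝ)) * (E 0))) = π / 6 + 2 * E 0 by ring, show (((((1 : ℤ) : ℝ) / ((2 : ℕ) : ℝ)) * π) + ((((-3 : ℤ) : ℝ) / ((1 : ℕ) : ℝ)) * (E 0))) = π / 2 - 3 * E 0 by ring,
    show (((((1 : ℤ) : ℝ) / ((2 : ℕ) : ℝ)) * π) + ((((-1 : ℤ) : ℝ) / ((1 : ℕ) : ℝ)) * (E 0))) = π / 2 - E 0 by ring, cos_pi_div_two_sub, cos_pi_div_two_sub]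
  linear_combination h.eq

theorem fo0 (A : Adm1 (E 0) D) : type_of% (foldP A (w := ((((5 : ℤ) : ℝ) / ((6 : ℕ) : ℝ)) * π)) (u := ((((1 : ℤ) : ℝ) / ((6 : ℕ) : ℝ)) * π)) hm (by ring)) :=
  foldP A hm (by ring)

theorem fo1 (A : Adm1 (E 0) D) : type_of% (foldP A (w := (((((17 : ℤ) : ℝ) / ((18 : ℕ) : ℝ)) * π) + ((((-5 : ℤ) : ℝ) / ((3 : ℕ) : ℝ)) * (E 0)))) (u := (((((1 : ℤ) : ℝ) / ((18 : ℕ) : ℝ)) * π) + ((((5 : ℤ) : ℝ) / ((3 : ℕ) : ℝ)) * (E 0)))) hm (by ring)) :=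
  foldP A hm (by ring)

theorem fo2 (A : Adm1 (E 0) D) : type_of% (foldP A (w := (((((19 : ℤ) : ℝ) / ((18 : ℕ) : ℝ)) * π) + ((((-10 : ℤ) : ℝ) / ((3 : ℕ) : ℝ)) * (E 0)))) (u := (((((-1 : ℤ) : ℝ) / ((18 : ℕ) : ℝ)) * π) + ((((10 : ℤ) : ℝ) / ((3 : ℕ) : ℝ)) * (E 0)))) hm (by ring)) :=
  foldP A hm (by ring)

theorem fo3 (A : Adm1 (E 0) D) : type_of% (foldP A (w := (((((5 : ℤ) : ℝ) / ((6 : ℕ) : ℝ)) * π) + ((((1 : ℤ) : ℝ) / ((1 : ℕ) : ℝ)) * (E 0)))) (u := (((((1 : ℤ) : ℝ) / ((6 : ℕ) : ℝ)) * π) + ((((-1 : ℤ) : ℝ) / ((1 : ℕ) : ℝ)) * (E 0)))) hm (by ring)) :=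
  foldP A hm (by ring)

theorem fo4 (A : Adm1 (E 0) D) : type_of% (foldP A (w := (((((7 : ℤ) : ℝ) / ((6 : ℕ) : ℝ)) * π) + ((((-5 : ℤ) : ℝ) / ((1 : ℕ) : ℝ)) * (E 0)))) (u := (((((-1 : ℤ) : ℝ) / ((6 : ℕ) : ℝ)) * π) + ((((5 : ℤ) : ℝ) / ((1 : ℕ) : ℝ)) * (E 0)))) hm (by ring)) :=
  foldP A hm (by ring)

theorem fo5 (A : Adm1 (E 0) D) : type_of% (foldP A (w := (((((23 : ℤ) : ℝ) / ((18 : ℕ) : ℝ)) * π) + ((((-20 : ℤ) : ℝ) / ((3 : ℕ) : ℝ)) * (E 0)))) (u := (((((-5 : ℤ) : ℝ) / ((18 : ℕ) : ℝ)) * π) + ((((20 : ℤ) : ℝ) / ((3 : ℕ) : ℝ)) * (E 0)))) hm (by ring)) :=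
  foldP A hm (by ring)

theorem fo6 (A : Adm1 (E 0) D) : type_of% (foldP A (w := (((((25 : ℤ) : ℝ) / ((18 : ℕ) : ℝ)) * π) + ((((-25 : ℤ) : ℝ) / ((3 : ℕ) : ℝ)) * (E 0)))) (u := (((((-7 : ℤ) : ℝ) / ((18 : ℕ) : ℝ)) * π) + ((((25 : ℤ) : ℝ) / ((3 : ℕ) : ℝ)) * (E 0)))) hm (by ring)) :=
  foldP A hm (by ring)

theorem fo7 (A : Adm1 (E 0) D) : type_of% (foldP A (w := (((((5 : ℤ) : ℝ) / ((6 : ℕ) : ℝ)) * π) + ((((2 : ℤ) : ℝ) / ((1 : ℕ) : ℝ)) * (E 0)))) (u := (((((1 : ℤ) : ℝ) / ((6 : ℕ) : ℝ)) * π) + ((((-2 : ℤ) : ℝ) / ((1 : ℕ) : ℝ)) * (E 0)))) hm (by ring)) :=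
  foldP A hm (by ring)

theorem fo8 (A : Adm1 (E 0) D) : type_of% (foldP A (w := (((((5 : ℤ) : ℝ) / ((18 : ℕ) : ℝ)) * π) + ((((37 : ℤ) : ℝ) / ((3 : ℕ) : ℝ)) * (E 0)))) (u := (((((13 : ℤ) : ℝ) / ((18 : ℕ) : ℝ)) * π) + ((((-37 : ℤ) : ℝ) / ((3 : ℕ) : ℝ)) * (E 0)))) hm (by ring)) :=
  foldP A hm (by ring)

theorem fo9 (A : Adm1 (E 0) D) : type_of% (foldP A (w := (((((7 : ℤ) : ℝ) / ((6 : ℕ) : ℝ)) * π) + ((((-4 : ℤ) : ℝ) / ((1 : ℕ) : ℝ)) * (E 0)))) (u := (((((-1 : ℤ) : ℝ) / ((6 : ℕ) : ℝ)) * π) + ((((4 : ℤ) : ℝ) / ((1 : ℕ) : ℝ)) * (E 0)))) hm (by ring)) :=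
  foldP A hm (by ring)

theorem fo10 (A : Adm1 (E 0) D) : type_of% (foldP A (w := (((((3 : ℤ) : ℝ) / ((2 : ℕ) : ℝ)) * π) + ((((-10 : ℤ) : ℝ) / ((1 : ℕ) : ℝ)) * (E 0)))) (u := (((((-1 : ℤ) : ℝ) / ((2 : ℕ) : ℝ)) * π) + ((((10 : ℤ) : ℝ) / ((1 : ℕ) : ℝ)) * (E 0)))) hm (by ring)) :=
  foldP A hm (by ring)

theorem fo11 (A : Adm1 (E 0) D) : type_of% (foldP A (w := (((((1 : ℤ) : ℝ) / ((18 : ℕ) : ℝ)) * π) + ((((50 : ℤ) : ℝ) / ((3 : ℕ) : ℝ)) * (E 0)))) (u := (((((17 : ℤ) : ℝ) / ((18 : ℕ) : ℝ)) * π) + ((((-50 : ℤ) : ℝ) / ((3 : ℕ) : ℝ)) * (E 0)))) hm (by ring)) :=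
  foldP A hm (by ring)

theorem fo12 (A : Adm1 (E 0) D) : type_of% (foldP A (w := (((((7 : ℤ) : ℝ) / ((18 : ℕ) : ℝ)) * π) + ((((32 : ℤ) : ℝ) / ((3 : ℕ) : ℝ)) * (E 0)))) (u := (((((11 : ℤ) : ℝ) / ((18 : ℕ) : ℝ)) * π) + ((((-32 : ℤ) : ℝ) / ((3 : ℕ) : ℝ)) * (E 0)))) hm (by ring)) :=
  foldP A hm (by ring)

theorem fo13 (A : Adm1 (E 0) D) : type_of% (foldP A (w := (((((23 : ℤ) : ℝ) / ((18 : ℕ) : ℝ)) * π) + ((((-17 : ℤ) : ℝ) / ((3 : ℕ) : ℝ)) * (E 0)))) (u := (((((-5 : ℤ) : ℝ) / ((18 : ℕ) : ℝ)) * π) + ((((17 : ℤ) : ℝ) / ((3 : ℕ) : ℝ)) * (E 0)))) hm (by ring)) :=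
  foldP A hm (by ring)

theorem fo14 (A : Adm1 (E 0) D) : type_of% (foldP A (w := (((((29 : ℤ) : ℝ) / ((18 : ℕ) : ℝ)) * π) + ((((-35 : ℤ) : ℝ) / ((3 : ℕ) : ℝ)) * (E 0)))) (u := (((((-11 : ℤ) : ℝ) / ((18 : ℕ) : ℝ)) * π) + ((((35 : ℤ) : ℝ) / ((3 : ℕ) : ℝ)) * (E 0)))) hm (by ring)) :=
  foldP A hm (by ring)

theorem fo15 (A : Adm1 (E 0) D) : type_of% (foldP A (w := (((((1 : ℤ) : ℝ) / ((2 : ℕ) : ℝ)) * π) + ((((9 : ℤ) : ℝ) / ((1 : ℕ) : ℝ)) * (E 0)))) (u := (((((1 : ℤ) : ℝ) / ((2 : ℕ) : ℝ)) * π) + ((((-9 : ℤ) : ℝ) / ((1 : ℕ) : ℝ)) * (E 0)))) hm (by ring)) :=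
  foldP A hm (by ring)

theorem fo16 (A : Adm1 (E 0) D) : type_of% (foldP A (w := (((((25 : ℤ) : ℝ) / ((18 : ℕ) : ℝ)) * π) + ((((-22 : ℤ) : ℝ) / ((3 : ℕ) : ℝ)) * (E 0)))) (u := (((((-7 : ℤ) : ℝ) / ((18 : ℕ) : ℝ)) * π) + ((((22 : ℤ) : ℝ) / ((3 : ℕ) : ℝ)) * (E 0)))) hm (by ring)) :=
  foldP A hm (by ring)

theorem fo17 (A : Adm1 (E 0) D) : type_of% (foldP A (w := (((((5 : ℤ) : ℝ) / ((6 : ℕ) : ℝ)) * π) + ((((3 : ℤ) : ℝ) / ((1 : ℕ) : ℝ)) * (E 0)))) (u := (((((1 : ℤ) : ℝ) / ((6 : ℕ) : ℝ)) * π) + ((((-3 : ℤ) : ℝ) / ((1 : ℕ) : ℝ)) * (E 0)))) hm (by ring)) :=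
  foldP A hm (by ring)

theorem fo18 (A : Adm1 (E 0) D) : type_of% (foldP A (w := (((((31 : ℤ) : ℝ) / ((18 : ℕ) : ℝ)) * π) + ((((-40 : ℤ) : ℝ) / ((3 : ℕ) : ℝ)) * (E 0)))) (u := (((((-13 : ℤ) : ℝ) / ((18 : ℕ) : ℝ)) * π) + ((((40 : ℤ) : ℝ) / ((3 : ℕ) : ℝ)) * (E 0)))) hm (by ring)) :=
  foldP A hm (by ring)

theorem fo19 (A : Adm1 (E 0) D) : type_of% (foldP A (w := ((((1 : ℤ) : ℝ) / ((1 : ℕ) : ℝ)) * π)) (u := (((0 : ℤ) : ℝ) / ((1 : ℕ) : ℝ))) hm (by ring)) :=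
  foldP A hm (by ring)

theorem fo20 (A : Adm1 (E 0) D) : type_of% (foldQ A (w := (((((5 : ℤ) : ℝ) / ((6 : ℕ) : ℝ)) * π) + ((((4 : ℤ) : ℝ) / ((1 : ℕ) : ℝ)) * (E 0)))) (u := (((((-1 : ℤ) : ℝ) / ((6 : ℕ) : ℝ)) * π) + ((((4 : ℤ) : ℝ) / ((1 : ℕ) : ℝ)) * (E 0)))) hm (by ring)) :=
  foldQ A hm (by ring)

theorem fo21 (A : Adm1 (E 0) D) : type_of% (foldP A (w := (((((5 : ℤ) : ℝ) / ((6 : ℕ) : ℝ)) * π) + ((((-9 : ℤ) : ℝ) / ((8 : ℕ) : ℝ)) * (E 0)))) (u := (((((1 : ℤ) : ℝ) / ((6 : ℕ) : ℝ)) * π) + ((((9 : ℤ) : ℝ) / ((8 : ℕ) : ℝ)) * (E 0)))) hm (by ring)) :=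
  foldP A hm (by ring)

theorem fo22 (A : Adm1 (E 0) D) : type_of% (foldQ A (w := (((((35 : ℤ) : ℝ) / ((18 : ℕ) : ℝ)) * π) + ((((-50 : ℤ) : ℝ) / ((3 : ℕ) : ℝ)) * (E 0)))) (u := (((((17 : ℤ) : ℝ) / ((18 : ℕ) : ℝ)) * π) + ((((-50 : ℤ) : ℝ) / ((3 : ℕ) : ℝ)) * (E 0)))) hm (by ring)) :=
  foldQ A hm (by ring)

theorem fo23 (A : Adm1 (E 0) D) : type_of% (foldQ A (w := (((((13 : ℤ) : ℝ) / ((18 : ℕ) : ℝ)) * π) + ((((17 : ℤ) : ℝ) / ((3 : ℕ) : ℝ)) * (E 0)))) (u := (((((-5 : ℤ) : ℝ) / ((18 : ℕ) : ℝ)) * π) + ((((17 : ℤ) : ℝ) / ((3 : ℕ) : ℝ)) * (E 0)))) hm (by ring)) :=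
  foldQ A hm (by ring)

theorem fo24 (A : Adm1 (E 0) D) : type_of% (foldQ A (w := (((((11 : ℤ) : ℝ) / ((18 : ℕ) : ℝ)) * π) + ((((22 : ℤ) : ℝ) / ((3 : ℕ) : ℝ)) * (E 0)))) (u := (((((-7 : ℤ) : ℝ) / ((18 : ℕ) : ℝ)) * π) + ((((22 : ℤ) : ℝ) / ((3 : ℕ) : ℝ)) * (E 0)))) hm (by ring)) :=
  foldQ A hm (by ring)

theorem fo25 (A : Adm1 (E 0) D) : type_of% (foldS A (w := (((((3 : ℤ) : ℝ) / ((2 : ℕ) : ℝ)) * π) + ((((1 : ℤ) : ℝ) / ((1 : ℕ) : ℝ)) * (E 0)))) (u := (((((1 : ℤ) : ℝ) / ((2 : ℕ) : ℝ)) * π) + ((((-1 : ℤ) : ℝ) / ((1 : ℕ) : ℝ)) * (E 0)))) hm (by ring)) :=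
  foldS A hm (by ring)

theorem fo26 (A : Adm1 (E 0) D) : type_of% (foldQ A (w := (((((3 : ℤ) : ℝ) / ((2 : ℕ) : ℝ)) * π) + ((((-1 : ℤ) : ℝ) / ((1 : ℕ) : ℝ)) * (E 0)))) (u := (((((1 : ℤ) : ℝ) / ((2 : ℕ) : ℝ)) * π) + ((((-1 : ℤ) : ℝ) / ((1 : ℕ) : ℝ)) * (E 0)))) hm (by ring)) :=
  foldQ A hm (by ring)

theorem fo27 (A : Adm1 (E 0) D) : type_of% (foldQ A (w := ((((3 : ℤ) : ℝ) / ((2 : ℕ) : ℝ)) * π)) (u := ((((1 : ℤ) : ℝ) / ((2 : ℕ) : ℝ)) * π)) hm (by ring)) :=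
  foldQ A hm (by ring)

theorem fo28 (A : Adm1 (E 0) D) : type_of% (foldN A (w := (((((1 : ℤ) : ℝ) / ((6 : ℕ) : ℝ)) * π) + ((((-4 : ℤ) : ℝ) / ((1 : ℕ) : ℝ)) * (E 0)))) (u := (((((-1 : ℤ) : ℝ) / ((6 : ℕ) : ℝ)) * π) + ((((4 : ℤ) : ℝ) / ((1 : ℕ) : ℝ)) * (E 0)))) (by ring)) :=
  foldN A (by ring)

theorem fo29 (A : Adm1 (E 0) D) : type_of% (foldN A (w := (((((1 : ℤ) : ℝ) / ((6 : ℕ) : ℝ)) * π) + ((((-5 : ℤ) : ℝ) / ((1 : ℕ) : ℝ)) * (E 0)))) (u := (((((-1 : ℤ) : ℝ) / ((6 : ℕ) : ℝ)) * π) + ((((5 : ℤ) : ℝ) / ((1 : ℕ) : ℝ)) * (E 0)))) (by ring)) :=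
  foldN A (by ring)

theorem fo30 (A : Adm1 (E 0) D) : type_of% (foldP A (w := (((((5 : ℤ) : ℝ) / ((6 : ℕ) : ℝ)) * π) + ((((-1 : ℤ) : ℝ) / ((2 : ℕ) : ℝ)) * (E 0)))) (u := (((((1 : ℤ) : ℝ) / ((6 : ℕ) : ℝ)) * π) + ((((1 : ℤ) : ℝ) / ((2 : ℕ) : ℝ)) * (E 0)))) hm (by ring)) :=
  foldP A hm (by ring)

theorem fo31 (A : Adm1 (E 0) D) : type_of% (foldP A (w := (((((5 : ℤ) : ℝ) / ((6 : ℕ) : ℝ)) * π) + ((((-1 : ℤ) : ℝ) / ((1 : ℕ) : ℝ)) * (E 0)))) (u := (((((1 : ℤ) : ℝ) / ((6 : ℕ) : ℝ)) * π) + ((((1 : ℤ) : ℝ) / ((1 : ℕ) : ℝ)) * (E 0)))) hm (by ring)) :=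
  foldP A hm (by ring)

theorem fo32 (A : Adm1 (E 0) D) : type_of% (foldP A (w := (((((5 : ℤ) : ℝ) / ((6 : ℕ) : ℝ)) * π) + ((((-3 : ℤ) : ℝ) / ((2 : ℕ) : ℝ)) * (E 0)))) (u := (((((1 : ℤ) : ℝ) / ((6 : ℕ) : ℝ)) * π) + ((((3 : ℤ) : ℝ) / ((2 : ℕ) : ℝ)) * (E 0)))) hm (by ring)) :=
  foldP A hm (by ring)

end Pool.Agent.MP_e5b4ec_an.Sm
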