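import Pool.Agent.MP_e5b4ec_an.Sm.DD

set_option maxRecDepth 20000
set_option linter.unusedVariables false
set_option linter.unusedSimpArgs false

open Real

namespace Pool.Agent.MP_e5b4ec_an.Sm

open Mid

variable {E : ℕ → ℝ} {D : ℝ → ℝ}

theorem ry0 (h : H E) (A : Adm1 (E 0) D) : ((-961601 / 9000000 : ℝ) * π * KK D (((((1 : ℤ) : ℝ) / ((18 : ℕ) : ℝ)) * π) + ((((5 : ℤ) : ℝ) / ((3 : ℕ) : ℝ)) * (E 0))) + (435277 / 1500000 : ℝ) * π * KK D (((((1 : ℤ) : ℝ) / ((2 : ℕ) : ℝ)) * π) + ((((-1 : ℤ) : ℝ) / ((1 : ℕ) : ℝ)) * (E 0))) + (-617371 / 9000000 : ℝ) * π * KK D (((((1 : ℤ) : ℝ) / ((6 : ℕ) : ℝ)) * π) + ((((2 : ℤ) : ℝ) / ((1 : ℕ) : ℝ)) * (E 0))) + (961601 / 9000000 : ℝ) * π * KK D ((((1 : ℤ) : ℝ) / ((6 : ℕ) : ℝ)) * π) + (617371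 / 9000000 : ℝ) * π * KK D (((((5 : ℤ) : ℝ) / ((18 : ℕ) : ℝ)) * π) + ((((1 : ℤ) : ℝ) / ((3 : ℕ) : ℝ)) * (E 0))) + (-435277 / 1500000 : ℝ) * π * KK D (((((7 : ℤ) : ℝ) / ((18 : ℕ) : ℝ)) * π) + ((((2 : ℤ) : ℝ) / ((3 : ℕ) : ℝ)) * (E 0))) + (131581 / 100000 : ℝ) * E 0 * KK D (((((1 : ℤ) : ℝ) / ((18 : ℕ) : ℝ)) * π) + ((((5 : ℤ) : ℝ) / ((3 : ℕ) : ℝ)) * (E 0))) + (-214583 / 75000 : ℝ) * E 0 * KK D (((((1 : ℤ) : ℝ) / ((2 : ℕ) : ℝ)) * π) + ((((-1 : ℤ) : ℝ) / ((1 : ℕ) : ℝ)) * (E 0))) + (463589 / 300000 : ℝ) * E 0 * KK D (((((1 : ℤ) : ℝ) / ((6 : ℕ) : ℝ)) * π) + ((((2 : ℤ) : ℝ) / ((1 : ℕ) : ℝ)) * (E 0))) + (-131581 / 100000 : ℝ) * E 0 * KK D ((((1 : ℤ) : ℝ) / ((6 : ℕ) : ℝ)) * π) + (-463589 / 300000 : ℝ) * E 0 * KK D (((((5 : ℤ) : ℝ)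 / ((18 : ℕ) : ℝ)) * π) + ((((1 : ℤ) : ℝ) / ((3 : ℕ) : ℝ)) * (E 0))) + (214583 / 75000 : ℝ) * E 0 * KK D (((((7 : ℤ) : ℝ) / ((18 : ℕ) : ℝ)) * π) + ((((2 : ℤ) : ℝ) / ((3 : ℕ) : ℝ)) * (E 0))) + (34423 / 300000 : ℝ) * TT D (((((1 : ℤ) : ℝ) / ((18 : ℕ) : ℝ)) * π) + ((((5 : ℤ) : ℝ) / ((3 : ℕ) : ℝ)) * (E 0))) + (-34423 / 150000 : ℝ) * TT D (((((1 : ℤ) : ℝ) / ((2 : ℕ) : ℝ)) * π) + ((((-1 : ℤ) : ℝ) / ((1 : ℕ) : ℝ)) * (E 0))) + (-34423 / 300000 : ℝ) * TT D (((((1 : ℤ) : ℝ) / ((6 : ℕ) : ℝ)) * π) + ((((2 : ℤ) : ℝ) / ((1 : ℕ) : ℝ)) * (E 0))) + (-34423 / 300000 : ℝ) * TT D ((((1 : ℤ) : ℝ) / ((6 : ℕ) : ℝ)) * π) + (34423 / 300000 : ℝ) * TT D (((((5 : ℤ) : ℝ) / ((18 : ℕ) : ℝ)) * π) + ((((1 : ℤ) : ℝ) / ((3 : ℕ) : ℝ)) * (E 0))) + (34423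 / 150000 : ℝ) * TT D (((((7 : ℤ) : ℝ) / ((18 : ℕ) : ℝ)) * π) + ((((2 : ℤ) : ℝ) / ((3 : ℕ) : ℝ)) * (E 0)))) ≤ 0 := by
  have p1 := pi_gt_d4
  have p2 := pi_lt_d4
  have t1 := h.t1
  have t2 := h.t2
  have r := rayL A.cont A.b2 (((((1 : ℤ) : ℝ) / ((6 : ℕ) : ℝ)) * π) + ((((2 : ℤ) : ℝ) / ((1 : ℕ) : ℝ)) * (E 0))) ((((5 : ℤ) : ℝ) / ((6 : ℕ) : ℝ)) * π) (((((1 : ℤ) : ℝ) / ((2 : ℕ) : ℝ)) * π) + ((((-1 : ℤ) : ℝ) / ((1 : ℕ) : ℝ)) * (E 0))) (((((5 : ℤ) : ℝ) / ((18 : ℕ) : ℝ)) * π) + ((((1 : ℤ) : ℝ) / ((3 : ℕ) : ℝ)) * (E 0))) (((((17 : ℤ) : ℝ) / ((18 : ℕ) : ℝ)) * π) + ((((-5 : ℤ) : ℝ) / ((3 : ℕ) : ℝ)) * (E 0))) (((((7 : ℤ) : ℝ) / ((18 : ℕ) : ℝ)) * π) + ((((2 : ℤ) : ℝ) / ((3 : ℕ) : ℝ)) * (E 0)))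
    (((((1 : ℤ) : ℝ) / ((9 : ℕ) : ℝ)) * π) + ((((-5 : ℤ) : ℝ) / ((3 : ℕ) : ℝ)) * (E 0))) (1 : ℝ) (1 : ℝ) (-1 : ℝ) ((394743 / 500000 : ℝ)) ((169543 / 187500 : ℝ)) (by linarith only [p1, p2, t1, t2])
    (by norm_num) (by norm_num) (by norm_num) (by ring) (by ring) (by ring) (by ring) (by ring) (by norm_num) (by norm_num)
    ⟨by linarith only [p1, p2, t1, t2], by linarith only [p1, p2, t1, t2], by linarith only [p1, p2, t1, t2], by linarith only [p1, p2, t1, t2], by linarith only [p1, p2, t1, t2], by linarith only [p1, p2, t1, t2]⟩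
    ⟨by linarith only [p1, p2, t1, t2], by linarith only [p1, p2, t1, t2], by linarith only [p1, p2, t1, t2], by linarith only [p1, p2, t1, t2], by linarith only [p1, p2, t1, t2], by linarith only [p1, p2, t1, t2]⟩
  unfold sd at r
  rw [(fo0 A).1, (fo0 A).2.1, (fo1 A).1, (fo1 A).2.1] at r
  linear_combination r

theorem ry1 (h : H E) (A : Adm1 (E 0) D) : ((-10407373 / 150000000 : ℝ) * π * KK D (((((1 : ℤ) : ℝ) / ((18 : ℕ) : ℝ)) * π) + ((((5 : ℤ) : ℝ) / ((3 : ℕ) : ℝ)) * (E 0))) + (-1446617 / 9375000 : ℝ) * π * KK D (((((1 : ℤ) : ℝ) / ((2 : ℕ) : ℝ)) * π) + ((((-1 : ℤ) : ℝ) / ((1 : ℕ) : ℝ)) * (E 0))) + (1446617 / 9375000 : ℝ) * π * KK D (((((1 : ℤ) : ℝ) / ((3 : ℕ) : ℝ)) * π) + ((((3 : ℤ) : ℝ) / ((2 : ℕ) : ℝ)) * (E 0))) +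 (-104115077 / 600000000 : ℝ) * π * KK D (((((1 : ℤ) : ℝ) / ((6 : ℕ) : ℝ)) * π) + ((((2 : ℤ) : ℝ) / ((1 : ℕ) : ℝ)) * (E 0))) + (10407373 / 150000000 : ℝ) * π * KK D ((((1 : ℤ) : ℝ) / ((6 : ℕ) : ℝ)) * π) + (104115077 / 600000000 : ℝ) * π * KK D (((((7 : ℤ) : ℝ) / ((18 : ℕ) : ℝ)) * π) + ((((-4 : ℤ) : ℝ) / ((3 : ℕ) : ℝ)) * (E 0))) + (763483 / 200000 : ℝ) * E 0 * KK D (((((1 : ℤ) : ℝ) / ((18 : ℕ) : ℝ)) * π) + ((((5 : ℤ) : ℝ) / ((3 : ℕ) : ℝ)) * (E 0))) + (-230772571 / 56250000 : ℝ) * E 0 * KK D (((((1 : ℤ) : ℝ) / ((2 : ℕ) : ℝ)) * π) + ((((-1 : ℤ) : ℝ) / ((1 : ℕ) : ℝ)) * (E 0))) + (230772571 / 56250000 : ℝ) * E 0 * KK D (((((1 : ℤ) : ℝ) / ((3 : ℕ) : ℝ)) * π) + ((((3 : ℤ) : ℝ) / ((2 : ℕ) : ℝ)) * (E 0))) + (33834299 / 25000000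 : ℝ) * E 0 * KK D (((((1 : ℤ) : ℝ) / ((6 : ℕ) : ℝ)) * π) + ((((2 : ℤ) : ℝ) / ((1 : ℕ) : ℝ)) * (E 0))) + (-763483 / 200000 : ℝ) * E 0 * KK D ((((1 : ℤ) : ℝ) / ((6 : ℕ) : ℝ)) * π) + (-33834299 / 25000000 : ℝ) * E 0 * KK D (((((7 : ℤ) : ℝ) / ((18 : ℕ) : ℝ)) * π) + ((((-4 : ℤ) : ℝ) / ((3 : ℕ) : ℝ)) * (E 0))) + (-27766777 / 25000000 : ℝ) * TT D (((((1 : ℤ) : ℝ) / ((18 : ℕ) : ℝ)) * π) + ((((5 : ℤ) : ℝ) / ((3 : ℕ) : ℝ)) * (E 0))) + (27766777 / 28125000 : ℝ) * TT D (((((1 : ℤ) : ℝ) / ((2 : ℕ) : ℝ)) * π) + ((((-1 : ℤ) : ℝ) / ((1 : ℕ) : ℝ)) * (E 0))) + (-27766777 / 28125000 : ℝ) * TT D (((((1 : ℤ) : ℝ) / ((3 : ℕ) : ℝ)) * π) + ((((3 : ℤ) : ℝ) / ((2 : ℕ) : ℝ)) * (E 0))) + (27766777 / 100000000 : ℝ) * TT D (((((1 : ℤ) : ℝ) / ((6 :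 ℕ) : ℝ)) * π) + ((((2 : ℤ) : ℝ) / ((1 : ℕ) : ℝ)) * (E 0))) + (27766777 / 25000000 : ℝ) * TT D ((((1 : ℤ) : ℝ) / ((6 : ℕ) : ℝ)) * π) + (-27766777 / 100000000 : ℝ) * TT D (((((7 : ℤ) : ℝ) / ((18 : ℕ) : ℝ)) * π) + ((((-4 : ℤ) : ℝ) / ((3 : ℕ) : ℝ)) * (E 0)))) ≤ 0 := by
  have p1 := pi_gt_d4
  have p2 := pi_lt_d4
  have t1 := h.t1
  have t2 := h.t2
  have r := rayL A.cont A.b2 (((((1 : ℤ) : ℝ) / ((6 : ℕ) : ℝ)) * π) + ((((2 : ℤ) : ℝ) / ((1 : ℕ) : ℝ)) * (E 0))) ((((5 : ℤ) : ℝ) / ((6 : ℕ) : ℝ)) * π) (((((1 : ℤ) : ℝ) / ((2 : ℕ) : ℝ)) * π) + ((((-1 : ℤ) : ℝ) / ((1 : ℕ) : ℝ)) * (E 0))) (((((7 : ℤ) : ℝ) / ((18 : ℕ) : ℝ)) * π) + ((((-4 : ℤ) : ℝ) / ((3 : ℕ) : ℝ)) * (E 0))) (((((17 : ℤ) : ℝ) / ((18 : ℕ) : ℝ)) * π) + ((((-5 : ℤ) : ℝ)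 / ((3 : ℕ) : ℝ)) * (E 0))) (((((1 : ℤ) : ℝ) / ((3 : ℕ) : ℝ)) * π) + ((((3 : ℤ) : ℝ) / ((2 : ℕ) : ℝ)) * (E 0)))
    (((((1 : ℤ) : ℝ) / ((9 : ℕ) : ℝ)) * π) + ((((-5 : ℤ) : ℝ) / ((3 : ℕ) : ℝ)) * (E 0))) (2 : ℝ) (1 : ℝ) (-3 / 2 : ℝ) ((2290449 / 1000000 : ℝ)) ((1843403 / 1562500 : ℝ)) (by linarith only [p1, p2, t1, t2])
    (by norm_num) (by norm_num) (by norm_num) (by ring) (by ring) (by ring) (by ring) (by ring) (by norm_num) (by norm_num)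
    ⟨by linarith only [p1, p2, t1, t2], by linarith only [p1, p2, t1, t2], by linarith only [p1, p2, t1, t2], by linarith only [p1, p2, t1, t2], by linarith only [p1, p2, t1, t2], by linarith only [p1, p2, t1, t2]⟩
    ⟨by linarith only [p1, p2, t1, t2], by linarith only [p1, p2, t1, t2], by linarith only [p1, p2, t1, t2], by linarith only [p1, p2, t1, t2], by linarith only [p1, p2, t1, t2], by linarith only [p1, p2, t1, t2]⟩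
  unfold sd at r
  rw [(fo0 A).1, (fo0 A).2.1, (fo1 A).1, (fo1 A).2.1] at r
  linear_combination r

theorem ry2 (h : H E) (A : Adm1 (E 0) D) : ((-234037 / 9600000 : ℝ) * π * KK D (((((-5 : ℤ) : ℝ) / ((18 : ℕ) : ℝ)) * π) + ((((20 : ℤ) : ℝ) / ((3 : ℕ) : ℝ)) * (E 0))) + (-234037 / 1440000 : ℝ) * π * KK D (((((1 : ℤ) : ℝ) / ((2 : ℕ) : ℝ)) * π) + ((((-3 : ℤ) : ℝ) / ((1 : ℕ) : ℝ)) * (E 0))) + (234037 / 9600000 : ℝ) * π * KK D ((((1 : ℤ) : ℝ) / ((6 : ℕ) : ℝ)) * π) + (-234037 / 1012500 : ℝ) * π * KK D (((((1 : ℤ) : ℝ) / ((9 : ℕ) : ℝ)) * π) + ((((29 : ℤ) : ℝ) / ((6 : ℕ) : ℝ)) * (E 0))) + (234037 / 1012500 : ℝ) * π * KK D (((((4 : ℤ) : ℝ) / ((9 : ℕ) : ℝ)) * π) + ((((-1 : ℤ) : ℝ) / ((6 : ℕ) : ℝ)) * (E 0))) + (234037 / 1440000 : ℝ)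 * π * KK D (((((5 : ℤ) : ℝ) / ((18 : ℕ) : ℝ)) * π) + ((((1 : ℤ) : ℝ) / ((3 : ℕ) : ℝ)) * (E 0))) + (-234037 / 1200000 : ℝ) * E 0 * KK D (((((1 : ℤ) : ℝ) / ((2 : ℕ) : ℝ)) * π) + ((((-3 : ℤ) : ℝ) / ((1 : ℕ) : ℝ)) * (E 0))) + (234037 / 2700000 : ℝ) * E 0 * KK D (((((1 : ℤ) : ℝ) / ((9 : ℕ) : ℝ)) * π) + ((((29 : ℤ) : ℝ) / ((6 : ℕ) : ℝ)) * (E 0))) + (-234037 / 2700000 : ℝ) * E 0 * KK D (((((4 : ℤ) : ℝ) / ((9 : ℕ) : ℝ)) * π) + ((((-1 : ℤ) : ℝ) / ((6 : ℕ) : ℝ)) * (E 0))) + (234037 / 1200000 : ℝ) * E 0 * KK D (((((5 : ℤ) : ℝ) / ((18 : ℕ) : ℝ)) * π) + ((((1 : ℤ) : ℝ) / ((3 : ℕ) : ℝ)) * (E 0))) + (234037 / 1600000 : ℝ) * TT D (((((-5 : ℤ) : ℝ) / ((18 : ℕ) : ℝ)) * π) + ((((20 : ℤ) : ℝ) / ((3 : ℕ) : ℝ)) * (E 0))) + (234037 / 400000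 : ℝ) * TT D (((((1 : ℤ) : ℝ) / ((2 : ℕ) : ℝ)) * π) + ((((-3 : ℤ) : ℝ) / ((1 : ℕ) : ℝ)) * (E 0))) + (-234037 / 1600000 : ℝ) * TT D ((((1 : ℤ) : ℝ) / ((6 : ℕ) : ℝ)) * π) + (234037 / 450000 : ℝ) * TT D (((((1 : ℤ) : ℝ) / ((9 : ℕ) : ℝ)) * π) + ((((29 : ℤ) : ℝ) / ((6 : ℕ) : ℝ)) * (E 0))) + (-234037 / 450000 : ℝ) * TT D (((((4 : ℤ) : ℝ) / ((9 : ℕ) : ℝ)) * π) + ((((-1 : ℤ) : ℝ) / ((6 : ℕ) : ℝ)) * (E 0))) + (-234037 / 400000 : ℝ) * TT D (((((5 : ℤ) : ℝ) / ((18 : ℕ) : ℝ)) * π) + ((((1 : ℤ) : ℝ) / ((3 : ℕ) : ℝ)) * (E 0)))) ≤ 0 := by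
  have p1 := pi_gt_d4
  have p2 := pi_lt_d4
  have t1 := h.t1
  have t2 := h.t2
  have r := rayL A.cont A.b2 (((((5 : ℤ) : ℝ) / ((18 : ℕ) : ℝ)) * π) + ((((1 : ℤ) : ℝ) / ((3 : ℕ) : ℝ)) * (E 0))) ((((5 : ℤ) : ℝ) / ((6 : ℕ) : ℝ)) * π) (((((4 : ℤ) : ℝ) / ((9 : ℕ) : ℝ)) * π) + ((((-1 : ℤ) : ℝ) / ((6 : ℕ) : ℝ)) * (E 0))) (((((1 : ℤ) : ℝ) / ((2 : ℕ) : ℝ)) * π) + ((((-3 : ℤ) : ℝ) / ((1 : ℕ) : ℝ)) * (E 0))) (((((23 : ℤ) : ℝ) / ((18 : ℕ) : ℝ)) * π) + ((((-20 : ℤ) : ℝ) / ((3 : ℕ) : ℝ)) * (E 0))) (((((1 : ℤ) : ℝ) / ((9 : ℕ) : ℝ)) * π) + ((((29 : ℤ) : ℝ) / ((6 : ℕ) : ℝ)) * (E 0)))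
    (((((1 : ℤ) : ℝ) / ((9 : ℕ) : ℝ)) * π) + ((((-5 : ℤ) : ℝ) / ((3 : ℕ) : ℝ)) * (E 0))) (2 : ℝ) (4 : ℝ) (-3 : ℝ) (0 : ℝ) ((234037 / 100000 : ℝ)) (by linarith only [p1, p2, t1, t2])
    (by norm_num) (by norm_num) (by norm_num) (by ring) (by ring) (by ring) (by ring) (by ring) (by norm_num) (by norm_num)
    ⟨by linarith only [p1, p2, t1, t2], by linarith only [p1, p2, t1, t2], by linarith only [p1, p2, t1, t2], by linarith only [p1, p2, t1, t2], by linarith only [p1, p2, t1, t2], by linarith only [p1, p2, t1, t2]⟩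
    ⟨by linarith only [p1, p2, t1, t2], by linarith only [p1, p2, t1, t2], by linarith only [p1, p2, t1, t2], by linarith only [p1, p2, t1, t2], by linarith only [p1, p2, t1, t2], by linarith only [p1, p2, t1, t2]⟩
  unfold sd at r
  rw [(fo0 A).1, (fo0 A).2.1, (fo5 A).1, (fo5 A).2.1] at r
  linear_combination r

theorem ry3 (h : H E) (A : Adm1 (E 0) D) : ((-526361 / 13500000 : ℝ) * π * KK D (((((-1 : ℤ) : ℝ) / ((18 : ℕ) : ℝ)) * π) + ((((10 : ℤ) : ℝ) / ((3 : ℕ) : ℝ)) * (E 0))) + (526361 / 13500000 : ℝ) * π * KK D (((((1 : ℤ) : ℝ) / ((18 : ℕ) : ℝ)) * π) + ((((5 : ℤ) : ℝ) / ((3 : ℕ) : ℝ)) * (E 0))) + (526361 / 2700000 : ℝ) * π * KK D (((((5 : ℤ) : ℝ) / ((18 : ℕ) : ℝ)) * π) + ((((1 : ℤ) : ℝ) / ((3 : ℕ) : ℝ)) * (E 0))) + (-3684527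 / 6750000 : ℝ) * π * KK D (((((5 : ℤ) : ℝ) / ((18 : ℕ) : ℝ)) * π) + ((((7 : ℤ) : ℝ) / ((3 : ℕ) : ℝ)) * (E 0))) + (-526361 / 2700000 : ℝ) * π * KK D (((((7 : ℤ) : ℝ) / ((18 : ℕ) : ℝ)) * π) + ((((-4 : ℤ) : ℝ) / ((3 : ℕ) : ℝ)) * (E 0))) + (3684527 / 6750000 : ℝ) * π * KK D (((((7 : ℤ) : ℝ) / ((18 : ℕ) : ℝ)) * π) + ((((2 : ℤ) : ℝ) / ((3 : ℕ) : ℝ)) * (E 0))) + (-526361 / 450000 : ℝ) * E 0 * KK D (((((-1 : ℤ) : ℝ) / ((18 : ℕ) : ℝ)) * π) + ((((10 : ℤ) : ℝ) / ((3 : ℕ) : ℝ)) * (E 0))) + (526361 / 450000 : ℝ) * E 0 * KK D (((((1 : ℤ) : ℝ) / ((18 : ℕ) : ℝ)) * π) + ((((5 : ℤ) : ℝ) / ((3 : ℕ) : ℝ)) * (E 0))) + (526361 / 2250000 : ℝ) * E 0 * KK D (((((5 : ℤ) : ℝ) / ((18 : ℕ) : ℝ)) * π) + ((((1 : ℤ) : ℝ) / ((3 : ℕ) : ℝ)) * (E 0))) +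 (-526361 / 562500 : ℝ) * E 0 * KK D (((((5 : ℤ) : ℝ) / ((18 : ℕ) : ℝ)) * π) + ((((7 : ℤ) : ℝ) / ((3 : ℕ) : ℝ)) * (E 0))) + (-526361 / 2250000 : ℝ) * E 0 * KK D (((((7 : ℤ) : ℝ) / ((18 : ℕ) : ℝ)) * π) + ((((-4 : ℤ) : ℝ) / ((3 : ℕ) : ℝ)) * (E 0))) + (526361 / 562500 : ℝ) * E 0 * KK D (((((7 : ℤ) : ℝ) / ((18 : ℕ) : ℝ)) * π) + ((((2 : ℤ) : ℝ) / ((3 : ℕ) : ℝ)) * (E 0))) + (526361 / 750000 : ℝ) * TT D (((((-1 : ℤ) : ℝ) / ((18 : ℕ) : ℝ)) * π) + ((((10 : ℤ) : ℝ) / ((3 : ℕ) : ℝ)) * (E 0))) + (-526361 / 750000 : ℝ) * TT D (((((1 : ℤ) : ℝ) / ((18 : ℕ) : ℝ)) * π) + ((((5 : ℤ) : ℝ) / ((3 : ℕ) : ℝ)) * (E 0))) + (-526361 / 750000 : ℝ) * TT D (((((5 : ℤ) : ℝ) / ((18 : ℕ) : ℝ)) * π) + ((((1 : ℤ) : ℝ) / ((3 : ℕ) : ℝ)) * (E 0))) + (526361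 / 375000 : ℝ) * TT D (((((5 : ℤ) : ℝ) / ((18 : ℕ) : ℝ)) * π) + ((((7 : ℤ) : ℝ) / ((3 : ℕ) : ℝ)) * (E 0))) + (526361 / 750000 : ℝ) * TT D (((((7 : ℤ) : ℝ) / ((18 : ℕ) : ℝ)) * π) + ((((-4 : ℤ) : ℝ) / ((3 : ℕ) : ℝ)) * (E 0))) + (-526361 / 375000 : ℝ) * TT D (((((7 : ℤ) : ℝ) / ((18 : ℕ) : ℝ)) * π) + ((((2 : ℤ) : ℝ) / ((3 : ℕ) : ℝ)) * (E 0)))) ≤ 0 := by
  have p1 := pi_gt_d4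
  have p2 := pi_lt_d4
  have t1 := h.t1
  have t2 := h.t2
  have r := rayL A.cont A.b2 (((((5 : ℤ) : ℝ) / ((18 : ℕ) : ℝ)) * π) + ((((1 : ℤ) : ℝ) / ((3 : ℕ) : ℝ)) * (E 0))) (((((17 : ℤ) : ℝ) / ((18 : ℕ) : ℝ)) * π) + ((((-5 : ℤ) : ℝ) / ((3 : ℕ) : ℝ)) * (E 0))) (((((7 : ℤ) : ℝ) / ((18 : ℕ) : ℝ)) * π) + ((((2 : ℤ) : ℝ) / ((3 : ℕ) : ℝ)) * (E 0))) (((((7 : ℤ) : ℝ) / ((18 : ℕ) : ℝ)) * π) + ((((-4 : ℤ) : ℝ) / ((3 : ℕ) : ℝ)) * (E 0))) (((((19 : ℤ) : ℝ) / ((18 : ℕ) : ℝ)) * π) + ((((-10 : ℤ) : ℝ) / ((3 : ℕ) : ℝ)) * (E 0))) (((((5 : ℤ) : ℝ) / ((18 : ℕ) : ℝ)) * π) + ((((7 : ℤ) : ℝ) / ((3 : ℕ) : ℝ)) * (E 0)))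
    (((((1 : ℤ) : ℝ) / ((9 : ℕ) : ℝ)) * π) + ((((-5 : ℤ) : ℝ) / ((3 : ℕ) : ℝ)) * (E 0))) (1 : ℝ) (1 : ℝ) (-1 : ℝ) (0 : ℝ) ((526361 / 750000 : ℝ)) (by linarith only [p1, p2, t1, t2])
    (by norm_num) (by norm_num) (by norm_num) (by ring) (by ring) (by ring) (by ring) (by ring) (by norm_num) (by norm_num)
    ⟨by linarith only [p1, p2, t1, t2], by linarith only [p1, p2, t1, t2], by linarith only [p1, p2, t1, t2], by linarith only [p1, p2, t1, t2], by linarith only [p1, p2, t1, t2], by linarith only [p1, p2, t1, t2]⟩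
    ⟨by linarith only [p1, p2, t1, t2], by linarith only [p1, p2, t1, t2], by linarith only [p1, p2, t1, t2], by linarith only [p1, p2, t1, t2], by linarith only [p1, p2, t1, t2], by linarith only [p1, p2, t1, t2]⟩
  unfold sd at r
  rw [(fo1 A).1, (fo1 A).2.1, (fo2 A).1, (fo2 A).2.1] at r
  linear_combination r

theorem ry4 (h : H E) (A : Adm1 (E 0) D) : ((-169543 / 2250000 : ℝ) * π * KK D (((((-1 : ℤ) : ℝ) / ((18 : ℕ) : ℝ)) * π) + ((((10 : ℤ) : ℝ) / ((3 : ℕ) : ℝ)) * (E 0))) + (169543 / 2250000 : ℝ) * π * KK D (((((1 : ℤ) : ℝ) / ((18 : ℕ) : ℝ)) * π) + ((((5 : ℤ) : ℝ) / ((3 : ℕ) : ℝ)) * (E 0))) + (169543 / 1000000 : ℝ) * π * KK D (((((1 : ℤ) : ℝ) / ((2 : ℕ) : ℝ)) * π) + ((((-3 : ℤ) : ℝ) / ((1 : ℕ) : ℝ)) * (E 0))) + (339086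 / 1265625 : ℝ) * π * KK D (((((2 : ℤ) : ℝ) / ((9 : ℕ) : ℝ)) * π) + ((((19 : ℤ) : ℝ) / ((6 : ℕ) : ℝ)) * (E 0))) + (-169543 / 1000000 : ℝ) * π * KK D (((((5 : ℤ) : ℝ) / ((18 : ℕ) : ℝ)) * π) + ((((1 : ℤ) : ℝ) / ((3 : ℕ) : ℝ)) * (E 0))) + (-339086 / 1265625 : ℝ) * π * KK D (((((7 : ℤ) : ℝ) / ((18 : ℕ) : ℝ)) * π) + ((((2 : ℤ) : ℝ) / ((3 : ℕ) : ℝ)) * (E 0))) + (169543 / 37500 : ℝ) * E 0 * KK D (((((-1 : ℤ) : ℝ) / ((18 : ℕ) : ℝ)) * π) + ((((10 : ℤ) : ℝ) / ((3 : ℕ) : ℝ)) * (E 0))) + (-169543 / 37500 : ℝ) * E 0 * KK D (((((1 : ℤ) : ℝ) / ((18 : ℕ) : ℝ)) * π) + ((((5 : ℤ) : ℝ) / ((3 : ℕ) : ℝ)) * (E 0))) + (-508629 / 500000 : ℝ) * E 0 * KK D (((((1 : ℤ) : ℝ) / ((2 : ℕ) : ℝ)) * π) + ((((-3 : ℤ) : ℝ) / ((1 : ℕ) : ℝ)) * (E 0))) + (3221317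 / 843750 : ℝ) * E 0 * KK D (((((2 : ℤ) : ℝ) / ((9 : ℕ) : ℝ)) * π) + ((((19 : ℤ) : ℝ) / ((6 : ℕ) : ℝ)) * (E 0))) + (508629 / 500000 : ℝ) * E 0 * KK D (((((5 : ℤ) : ℝ) / ((18 : ℕ) : ℝ)) * π) + ((((1 : ℤ) : ℝ) / ((3 : ℕ) : ℝ)) * (E 0))) + (-3221317 / 843750 : ℝ) * E 0 * KK D (((((7 : ℤ) : ℝ) / ((18 : ℕ) : ℝ)) * π) + ((((2 : ℤ) : ℝ) / ((3 : ℕ) : ℝ)) * (E 0))) + (-169543 / 125000 : ℝ) * TT D (((((-1 : ℤ) : ℝ) / ((18 : ℕ) : ℝ)) * π) + ((((10 : ℤ) : ℝ) / ((3 : ℕ) : ℝ)) * (E 0))) + (169543 / 125000 : ℝ) * TT D (((((1 : ℤ) : ℝ) / ((18 : ℕ) : ℝ)) * π) + ((((5 : ℤ) : ℝ) / ((3 : ℕ) : ℝ)) * (E 0))) + (-169543 / 500000 : ℝ) * TT D (((((1 : ℤ) : ℝ) / ((2 : ℕ) : ℝ)) * π) + ((((-3 : ℤ) : ℝ) / ((1 : ℕ) : ℝ)) * (E 0))) + (-169543 / 140625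 : ℝ) * TT D (((((2 : ℤ) : ℝ) / ((9 : ℕ) : ℝ)) * π) + ((((19 : ℤ) : ℝ) / ((6 : ℕ) : ℝ)) * (E 0))) + (169543 / 500000 : ℝ) * TT D (((((5 : ℤ) : ℝ) / ((18 : ℕ) : ℝ)) * π) + ((((1 : ℤ) : ℝ) / ((3 : ℕ) : ℝ)) * (E 0))) + (169543 / 140625 : ℝ) * TT D (((((7 : ℤ) : ℝ) / ((18 : ℕ) : ℝ)) * π) + ((((2 : ℤ) : ℝ) / ((3 : ℕ) : ℝ)) * (E 0)))) ≤ 0 := by
  have p1 := pi_gt_d4
  have p2 := pi_lt_d4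
  have t1 := h.t1
  have t2 := h.t2
  have r := rayL A.cont A.b2 (((((5 : ℤ) : ℝ) / ((18 : ℕ) : ℝ)) * π) + ((((1 : ℤ) : ℝ) / ((3 : ℕ) : ℝ)) * (E 0))) (((((17 : ℤ) : ℝ) / ((18 : ℕ) : ℝ)) * π) + ((((-5 : ℤ) : ℝ) / ((3 : ℕ) : ℝ)) * (E 0))) (((((7 : ℤ) : ℝ) / ((18 : ℕ) : ℝ)) * π) + ((((2 : ℤ) : ℝ) / ((3 : ℕ) : ℝ)) * (E 0))) (((((1 : ℤ) : ℝ) / ((2 : ℕ) : ℝ)) * π) + ((((-3 : ℤ) : ℝ) / ((1 : ℕ) : ℝ)) * (E 0))) (((((19 : ℤ) : ℝ) / ((18 : ℕ) : ℝ)) * π) + ((((-10 : ℤ) : ℝ) / ((3 : ℕ) : ℝ)) * (E 0))) (((((2 : ℤ) : ℝ) / ((9 : ℕ) : ℝ)) * π) + ((((19 : ℤ) : ℝ) / ((6 : ℕ) : ℝ)) * (E 0)))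
    (((((1 : ℤ) : ℝ) / ((9 : ℕ) : ℝ)) * π) + ((((-5 : ℤ) : ℝ) / ((3 : ℕ) : ℝ)) * (E 0))) (2 : ℝ) (1 : ℝ) (-3 / 2 : ℝ) ((169543 / 125000 : ℝ)) (0 : ℝ) (by linarith only [p1, p2, t1, t2])
    (by norm_num) (by norm_num) (by norm_num) (by ring) (by ring) (by ring) (by ring) (by ring) (by norm_num) (by norm_num)
    ⟨by linarith only [p1, p2, t1, t2], by linarith only [p1, p2, t1, t2], by linarith only [p1, p2, t1, t2], by linarith only [p1, p2, t1, t2], by linarith only [p1, p2, t1, t2], by linarith only [p1, p2, t1, t2]⟩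
    ⟨by linarith only [p1, p2, t1, t2], by linarith only [p1, p2, t1, t2], by linarith only [p1, p2, t1, t2], by linarith only [p1, p2, t1, t2], by linarith only [p1, p2, t1, t2], by linarith only [p1, p2, t1, t2]⟩
  unfold sd at r
  rw [(fo1 A).1, (fo1 A).2.1, (fo2 A).1, (fo2 A).2.1] at r
  linear_combination r

theorem ry5 (h : H E) (A : Adm1 (E 0) D) : ((-434137 / 36000000 : ℝ) * π * KK D (((((-1 : ℤ) : ℝ) / ((18 : ℕ) : ℝ)) * π) + ((((10 : ℤ) : ℝ) / ((3 : ℕ) : ℝ)) * (E 0))) + (434137 / 36000000 : ℝ) * π * KK D (((((1 : ℤ) : ℝ) / ((18 : ℕ) : ℝ)) * π) + ((((5 : ℤ) : ℝ) / ((3 : ℕ) : ℝ)) * (E 0))) + (-434137 / 28800000 : ℝ) * π * KK D (((((1 : ℤ) : ℝ) / ((2 : ℕ) : ℝ)) * π) + ((((-3 : ℤ) : ℝ) / ((1 : ℕ) : ℝ)) * (E 0))) +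 (434137 / 750000 : ℝ) * π * KK D (((((1 : ℤ) : ℝ) / ((3 : ℕ) : ℝ)) * π) + ((((3 : ℤ) : ℝ) / ((2 : ℕ) : ℝ)) * (E 0))) + (434137 / 28800000 : ℝ) * π * KK D (((((5 : ℤ) : ℝ) / ((18 : ℕ) : ℝ)) * π) + ((((1 : ℤ) : ℝ) / ((3 : ℕ) : ℝ)) * (E 0))) + (-434137 / 750000 : ℝ) * π * KK D (((((5 : ℤ) : ℝ) / ((18 : ℕ) : ℝ)) * π) + ((((7 : ℤ) : ℝ) / ((3 : ℕ) : ℝ)) * (E 0))) + (434137 / 600000 : ℝ) * E 0 * KK D (((((-1 : ℤ) : ℝ) / ((18 : ℕ) : ℝ)) * π) + ((((10 : ℤ) : ℝ) / ((3 : ℕ) : ℝ)) * (E 0))) + (-434137 / 600000 : ℝ) * E 0 * KK D (((((1 : ℤ) : ℝ) / ((18 : ℕ) : ℝ)) * π) + ((((5 : ℤ) : ℝ) / ((3 : ℕ) : ℝ)) * (E 0))) + (-434137 / 24000000 : ℝ) * E 0 * KK D (((((1 : ℤ) : ℝ) / ((2 : ℕ) : ℝ)) * π) + ((((-3 : ℤ) : ℝ) / ((1 : ℕ) : ℝ)) * (E 0)))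 + (1302411 / 500000 : ℝ) * E 0 * KK D (((((1 : ℤ) : ℝ) / ((3 : ℕ) : ℝ)) * π) + ((((3 : ℤ) : ℝ) / ((2 : ℕ) : ℝ)) * (E 0))) + (434137 / 24000000 : ℝ) * E 0 * KK D (((((5 : ℤ) : ℝ) / ((18 : ℕ) : ℝ)) * π) + ((((1 : ℤ) : ℝ) / ((3 : ℕ) : ℝ)) * (E 0))) + (-1302411 / 500000 : ℝ) * E 0 * KK D (((((5 : ℤ) : ℝ) / ((18 : ℕ) : ℝ)) * π) + ((((7 : ℤ) : ℝ) / ((3 : ℕ) : ℝ)) * (E 0))) + (-434137 / 2000000 : ℝ) * TT D (((((-1 : ℤ) : ℝ) / ((18 : ℕ) : ℝ)) * π) + ((((10 : ℤ) : ℝ) / ((3 : ℕ) : ℝ)) * (E 0))) + (434137 / 2000000 : ℝ) * TT D (((((1 : ℤ) : ℝ) / ((18 : ℕ) : ℝ)) * π) + ((((5 : ℤ) : ℝ) / ((3 : ℕ) : ℝ)) * (E 0))) + (434137 / 8000000 : ℝ) * TT D (((((1 : ℤ) : ℝ) / ((2 : ℕ) : ℝ)) * π) + ((((-3 : ℤ) : ℝ) / ((1 : ℕ) : ℝ)) * (E 0))) + (-434137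 / 250000 : ℝ) * TT D (((((1 : ℤ) : ℝ) / ((3 : ℕ) : ℝ)) * π) + ((((3 : ℤ) : ℝ) / ((2 : ℕ) : ℝ)) * (E 0))) + (-434137 / 8000000 : ℝ) * TT D (((((5 : ℤ) : ℝ) / ((18 : ℕ) : ℝ)) * π) + ((((1 : ℤ) : ℝ) / ((3 : ℕ) : ℝ)) * (E 0))) + (434137 / 250000 : ℝ) * TT D (((((5 : ℤ) : ℝ) / ((18 : ℕ) : ℝ)) * π) + ((((7 : ℤ) : ℝ) / ((3 : ℕ) : ℝ)) * (E 0)))) ≤ 0 := by
  have p1 := pi_gt_d4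
  have p2 := pi_lt_d4
  have t1 := h.t1
  have t2 := h.t2
  have r := rayL A.cont A.b2 (((((5 : ℤ) : ℝ) / ((18 : ℕ) : ℝ)) * π) + ((((1 : ℤ) : ℝ) / ((3 : ℕ) : ℝ)) * (E 0))) (((((19 : ℤ) : ℝ) / ((18 : ℕ) : ℝ)) * π) + ((((-10 : ℤ) : ℝ) / ((3 : ℕ) : ℝ)) * (E 0))) (((((1 : ℤ) : ℝ) / ((3 : ℕ) : ℝ)) * π) + ((((3 : ℤ) : ℝ) / ((2 : ℕ) : ℝ)) * (E 0))) (((((1 : ℤ) : ℝ) / ((2 : ℕ) : ℝ)) * π) + ((((-3 : ℤ) : ℝ) / ((1 : ℕ) : ℝ)) * (E 0))) (((((17 : ℤ) : ℝ) / ((18 : ℕ) : ℝ)) * π) + ((((-5 : ℤ) : ℝ) / ((3 : ℕ) : ℝ)) * (E 0))) (((((5 : ℤ) : ℝ) / ((18 : ℕ) : ℝ)) * π) + ((((7 : ℤ) : ℝ) / ((3 : ℕ) : ℝ)) * (E 0)))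
    (((((1 : ℤ) : ℝ) / ((9 : ℕ) : ℝ)) * π) + ((((-5 : ℤ) : ℝ) / ((3 : ℕ) : ℝ)) * (E 0))) (2 : ℝ) (-1 : ℝ) (-1 / 2 : ℝ) (0 : ℝ) ((434137 / 2000000 : ℝ)) (by linarith only [p1, p2, t1, t2])
    (by norm_num) (by norm_num) (by norm_num) (by ring) (by ring) (by ring) (by ring) (by ring) (by norm_num) (by norm_num)
    ⟨by linarith only [p1, p2, t1, t2], by linarith only [p1, p2, t1, t2], by linarith only [p1, p2, t1, t2], by linarith only [p1, p2, t1, t2], by linarith only [p1, p2, t1, t2], by linarith only [p1, p2, t1, t2]⟩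
    ⟨by linarith only [p1, p2, t1, t2], by linarith only [p1, p2, t1, t2], by linarith only [p1, p2, t1, t2], by linarith only [p1, p2, t1, t2], by linarith only [p1, p2, t1, t2], by linarith only [p1, p2, t1, t2]⟩
  unfold sd at r
  rw [(fo2 A).1, (fo2 A).2.1, (fo1 A).1, (fo1 A).2.1] at r
  linear_combination r

theorem ry6 (h : H E) (A : Adm1 (E 0) D) : ((-1556993 / 112500000 : ℝ) * π * KK D (((((-1 : ℤ) : ℝ) / ((6 : ℕ) : ℝ)) * π) + ((((5 : ℤ) : ℝ) / ((1 : ℕ) : ℝ)) * (E 0))) + (1556993 / 112500000 : ℝ) * π * KK D (((((1 : ℤ) : ℝ) / ((18 : ℕ) : ℝ)) * π) + ((((5 : ℤ) : ℝ) / ((3 : ℕ) : ℝ)) * (E 0))) + (-1556993 / 2109375 : ℝ) * π * KK D (((((1 : ℤ) : ℝ) / ((3 : ℕ) : ℝ)) * π) + ((((3 : ℤ) : ℝ) / ((2 : ℕ) : ℝ)) * (E 0)))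 + (1556993 / 16875000 : ℝ) * π * KK D (((((5 : ℤ) : ℝ) / ((18 : ℕ) : ℝ)) * π) + ((((1 : ℤ) : ℝ) / ((3 : ℕ) : ℝ)) * (E 0))) + (1556993 / 2109375 : ℝ) * π * KK D (((((5 : ℤ) : ℝ) / ((18 : ℕ) : ℝ)) * π) + ((((7 : ℤ) : ℝ) / ((3 : ℕ) : ℝ)) * (E 0))) + (-1556993 / 16875000 : ℝ) * π * KK D (((((7 : ℤ) : ℝ) / ((18 : ℕ) : ℝ)) * π) + ((((-4 : ℤ) : ℝ) / ((3 : ℕ) : ℝ)) * (E 0))) + (1556993 / 3750000 : ℝ) * E 0 * KK D (((((-1 : ℤ) : ℝ) / ((6 : ℕ) : ℝ)) * π) + ((((5 : ℤ) : ℝ) / ((1 : ℕ) : ℝ)) * (E 0))) + (-1556993 / 3750000 : ℝ) * E 0 * KK D (((((1 : ℤ) : ℝ) / ((18 : ℕ) : ℝ)) * π) + ((((5 : ℤ) : ℝ) / ((3 : ℕ) : ℝ)) * (E 0))) + (-21797902 / 3515625 : ℝ) * E 0 * KK D (((((1 : ℤ) : ℝ) / ((3 : ℕ) : ℝ)) * π) + ((((3 : ℤ) : ℝ) / ((2 : ℕ)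 : ℝ)) * (E 0))) + (1556993 / 14062500 : ℝ) * E 0 * KK D (((((5 : ℤ) : ℝ) / ((18 : ℕ) : ℝ)) * π) + ((((1 : ℤ) : ℝ) / ((3 : ℕ) : ℝ)) * (E 0))) + (21797902 / 3515625 : ℝ) * E 0 * KK D (((((5 : ℤ) : ℝ) / ((18 : ℕ) : ℝ)) * π) + ((((7 : ℤ) : ℝ) / ((3 : ℕ) : ℝ)) * (E 0))) + (-1556993 / 14062500 : ℝ) * E 0 * KK D (((((7 : ℤ) : ℝ) / ((18 : ℕ) : ℝ)) * π) + ((((-4 : ℤ) : ℝ) / ((3 : ℕ) : ℝ)) * (E 0))) + (-1556993 / 18750000 : ℝ) * TT D (((((-1 : ℤ) : ℝ) / ((6 : ℕ) : ℝ)) * π) + ((((5 : ℤ) : ℝ) / ((1 : ℕ) : ℝ)) * (E 0))) + (1556993 / 18750000 : ℝ) * TT D (((((1 : ℤ) : ℝ) / ((18 : ℕ) : ℝ)) * π) + ((((5 : ℤ) : ℝ) / ((3 : ℕ) : ℝ)) * (E 0))) + (3113986 / 1171875 : ℝ) * TT D (((((1 : ℤ) : ℝ) / ((3 : ℕ) : ℝ)) * π) + ((((3 : ℤ) : ℝ) / ((2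 : ℕ) : ℝ)) * (E 0))) + (-1556993 / 4687500 : ℝ) * TT D (((((5 : ℤ) : ℝ) / ((18 : ℕ) : ℝ)) * π) + ((((1 : ℤ) : ℝ) / ((3 : ℕ) : ℝ)) * (E 0))) + (-3113986 / 1171875 : ℝ) * TT D (((((5 : ℤ) : ℝ) / ((18 : ℕ) : ℝ)) * π) + ((((7 : ℤ) : ℝ) / ((3 : ℕ) : ℝ)) * (E 0))) + (1556993 / 4687500 : ℝ) * TT D (((((7 : ℤ) : ℝ) / ((18 : ℕ) : ℝ)) * π) + ((((-4 : ℤ) : ℝ) / ((3 : ℕ) : ℝ)) * (E 0)))) ≤ 0 := by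
  have p1 := pi_gt_d4
  have p2 := pi_lt_d4
  have t1 := h.t1
  have t2 := h.t2
  have r := rayL A.cont A.b2 (((((7 : ℤ) : ℝ) / ((18 : ℕ) : ℝ)) * π) + ((((-4 : ℤ) : ℝ) / ((3 : ℕ) : ℝ)) * (E 0))) (((((17 : ℤ) : ℝ) / ((18 : ℕ) : ℝ)) * π) + ((((-5 : ℤ) : ℝ) / ((3 : ℕ) : ℝ)) * (E 0))) (((((1 : ℤ) : ℝ) / ((3 : ℕ) : ℝ)) * π) + ((((3 : ℤ) : ℝ) / ((2 : ℕ) : ℝ)) * (E 0))) (((((5 : ℤ) : ℝ) / ((18 : ℕ) : ℝ)) * π) + ((((1 : ℤ) : ℝ) / ((3 : ℕ) : ℝ)) * (E 0))) (((((7 : ℤ) : ℝ) / ((6 : ℕ) : ℝ)) * π) + ((((-5 : ℤ) : ℝ) / ((1 : ℕ) : ℝ)) * (E 0))) (((((5 : ℤ) : ℝ) / ((18 : ℕ) : ℝ)) * π) + ((((7 : ℤ) : ℝ) / ((3 : ℕ) : ℝ)) * (E 0)))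
    (((((1 : ℤ) : ℝ) / ((9 : ℕ) : ℝ)) * π) + ((((-5 : ℤ) : ℝ) / ((3 : ℕ) : ℝ)) * (E 0))) (-1 : ℝ) (2 : ℝ) (-1 / 2 : ℝ) ((1556993 / 4687500 : ℝ)) (0 : ℝ) (by linarith only [p1, p2, t1, t2])
    (by norm_num) (by norm_num) (by norm_num) (by ring) (by ring) (by ring) (by ring) (by ring) (by norm_num) (by norm_num)
    ⟨by linarith only [p1, p2, t1, t2], by linarith only [p1, p2, t1, t2], by linarith only [p1, p2, t1, t2], by linarith only [p1, p2, t1, t2], by linarith only [p1, p2, t1, t2], by linarith only [p1, p2, t1, t2]⟩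
    ⟨by linarith only [p1, p2, t1, t2], by linarith only [p1, p2, t1, t2], by linarith only [p1, p2, t1, t2], by linarith only [p1, p2, t1, t2], by linarith only [p1, p2, t1, t2], by linarith only [p1, p2, t1, t2]⟩
  unfold sd at r
  rw [(fo1 A).1, (fo1 A).2.1, (fo4 A).1, (fo4 A).2.1] at r
  linear_combination r

theorem ry7 (h : H E) (A : Adm1 (E 0) D) : ((-66829 / 9000000 : ℝ) * π * KK D (((((-7 : ℤ) : ℝ) / ((18 : ℕ) : ℝ)) * π) + ((((25 : ℤ) : ℝ) / ((3 : ℕ) : ℝ)) * (E 0))) + (19094 / 3515625 : ℝ) * π * KK D (((((1 : ℤ) : ℝ) / ((18 : ℕ) : ℝ)) * π) + ((((17 : ℤ) : ℝ) / ((3 : ℕ) : ℝ)) * (E 0))) + (66829 / 9000000 : ℝ) * π * KK D (((((1 : ℤ) : ℝ) / ((18 : ℕ) : ℝ)) * π) + ((((5 : ℤ) : ℝ) / ((3 : ℕ) : ℝ)) * (E 0))) + (9547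 / 62500 : ℝ) * π * KK D (((((1 : ℤ) : ℝ) / ((2 : ℕ) : ℝ)) * π) + ((((-3 : ℤ) : ℝ) / ((1 : ℕ) : ℝ)) * (E 0))) + (-19094 / 3515625 : ℝ) * π * KK D (((((1 : ℤ) : ℝ) / ((3 : ℕ) : ℝ)) * π) + ((((3 : ℤ) : ℝ) / ((2 : ℕ) : ℝ)) * (E 0))) + (-9547 / 62500 : ℝ) * π * KK D (((((7 : ℤ) : ℝ) / ((18 : ℕ) : ℝ)) * π) + ((((-4 : ℤ) : ℝ) / ((3 : ℕ) : ℝ)) * (E 0))) + (9547 / 60000 : ℝ) * E 0 * KK D (((((-7 : ℤ) : ℝ) / ((18 : ℕ) : ℝ)) * π) + ((((25 : ℤ) : ℝ) / ((3 : ℕ) : ℝ)) * (E 0))) + (649196 / 1171875 : ℝ) * E 0 * KK D (((((1 : ℤ) : ℝ) / ((18 : ℕ) : ℝ)) * π) + ((((17 : ℤ) : ℝ) / ((3 : ℕ) : ℝ)) * (E 0))) + (-9547 / 60000 : ℝ) * E 0 * KK D (((((1 : ℤ) : ℝ) / ((18 : ℕ) : ℝ)) * π) + ((((5 : ℤ) : ℝ) / ((3 : ℕ) : ℝ)) * (E 0))) + (-28641 / 31250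 : ℝ) * E 0 * KK D (((((1 : ℤ) : ℝ) / ((2 : ℕ) : ℝ)) * π) + ((((-3 : ℤ) : ℝ) / ((1 : ℕ) : ℝ)) * (E 0))) + (-649196 / 1171875 : ℝ) * E 0 * KK D (((((1 : ℤ) : ℝ) / ((3 : ℕ) : ℝ)) * π) + ((((3 : ℤ) : ℝ) / ((2 : ℕ) : ℝ)) * (E 0))) + (28641 / 31250 : ℝ) * E 0 * KK D (((((7 : ℤ) : ℝ) / ((18 : ℕ) : ℝ)) * π) + ((((-4 : ℤ) : ℝ) / ((3 : ℕ) : ℝ)) * (E 0))) + (-9547 / 500000 : ℝ) * TT D (((((-7 : ℤ) : ℝ) / ((18 : ℕ) : ℝ)) * π) + ((((25 : ℤ) : ℝ) / ((3 : ℕ) : ℝ)) * (E 0))) + (-38188 / 390625 : ℝ) * TT D (((((1 : ℤ) : ℝ) / ((18 : ℕ) : ℝ)) * π) + ((((17 : ℤ) : ℝ) / ((3 : ℕ) : ℝ)) * (E 0))) + (9547 / 500000 : ℝ) * TT D (((((1 : ℤ) : ℝ) / ((18 : ℕ) : ℝ)) * π) + ((((5 : ℤ) : ℝ) / ((3 : ℕ) : ℝ)) * (E 0))) + (-9547 / 31250 : ℝ) * TT D (((((1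 : ℤ) : ℝ) / ((2 : ℕ) : ℝ)) * π) + ((((-3 : ℤ) : ℝ) / ((1 : ℕ) : ℝ)) * (E 0))) + (38188 / 390625 : ℝ) * TT D (((((1 : ℤ) : ℝ) / ((3 : ℕ) : ℝ)) * π) + ((((3 : ℤ) : ℝ) / ((2 : ℕ) : ℝ)) * (E 0))) + (9547 / 31250 : ℝ) * TT D (((((7 : ℤ) : ℝ) / ((18 : ℕ) : ℝ)) * π) + ((((-4 : ℤ) : ℝ) / ((3 : ℕ) : ℝ)) * (E 0)))) ≤ 0 := by
  have p1 := pi_gt_d4
  have p2 := pi_lt_d4
  have t1 := h.t1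
  have t2 := h.t2
  have r := rayL A.cont A.b2 (((((7 : ℤ) : ℝ) / ((18 : ℕ) : ℝ)) * π) + ((((-4 : ℤ) : ℝ) / ((3 : ℕ) : ℝ)) * (E 0))) (((((17 : ℤ) : ℝ) / ((18 : ℕ) : ℝ)) * π) + ((((-5 : ℤ) : ℝ) / ((3 : ℕ) : ℝ)) * (E 0))) (((((1 : ℤ) : ℝ) / ((3 : ℕ) : ℝ)) * π) + ((((3 : ℤ) : ℝ) / ((2 : ℕ) : ℝ)) * (E 0))) (((((1 : ℤ) : ℝ) / ((2 : ℕ) : ℝ)) * π) + ((((-3 : ℤ) : ℝ) / ((1 : ℕ) : ℝ)) * (E 0))) (((((25 : ℤ) : ℝ) / ((18 : ℕ) : ℝ)) * π) + ((((-25 : ℤ) : ℝ) / ((3 : ℕ) : ℝ)) * (E 0))) (((((1 : ℤ) : ℝ) / ((18 : ℕ) : ℝ)) * π) + ((((17 : ℤ) : ℝ) / ((3 : ℕ) : ℝ)) * (E 0)))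
    (((((1 : ℤ) : ℝ) / ((9 : ℕ) : ℝ)) * π) + ((((-5 : ℤ) : ℝ) / ((3 : ℕ) : ℝ)) * (E 0))) (1 : ℝ) (4 : ℝ) (-5 / 2 : ℝ) ((9547 / 31250 : ℝ)) (0 : ℝ) (by linarith only [p1, p2, t1, t2])
    (by norm_num) (by norm_num) (by norm_num) (by ring) (by ring) (by ring) (by ring) (by ring) (by norm_num) (by norm_num)
    ⟨by linarith only [p1, p2, t1, t2], by linarith only [p1, p2, t1, t2], by linarith only [p1, p2, t1, t2], by linarith only [p1, p2, t1, t2], by linarith only [p1, p2, t1, t2], by linarith only [p1, p2, t1, t2]⟩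
    ⟨by linarith only [p1, p2, t1, t2], by linarith only [p1, p2, t1, t2], by linarith only [p1, p2, t1, t2], by linarith only [p1, p2, t1, t2], by linarith only [p1, p2, t1, t2], by linarith only [p1, p2, t1, t2]⟩
  unfold sd at r
  rw [(fo1 A).1, (fo1 A).2.1, (fo6 A).1, (fo6 A).2.1] at r
  linear_combination r

theorem ry8 (h : H E) (A : Adm1 (E 0) D) : ((168541 / 3600000 : ℝ) * π * KK D (((((-1 : ℤ) : ℝ) / ((18 : ℕ) : ℝ)) * π) + ((((10 : ℤ) : ℝ) / ((3 : ℕ) : ℝ)) * (E 0))) + (-168541 / 3600000 : ℝ) * π * KK D (((((-1 : ℤ) : ℝ) / ((6 : ℕ) : ℝ)) * π) + ((((5 : ℤ) : ℝ) / ((1 : ℕ) : ℝ)) * (E 0))) + (-168541 / 8640000 : ℝ) * π * KK D (((((1 : ℤ) : ℝ) / ((2 : ℕ) : ℝ)) * π) + ((((-3 : ℤ) : ℝ) / ((1 : ℕ) : ℝ)) * (E 0))) + (-168541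 / 270000 : ℝ) * π * KK D (((((2 : ℤ) : ℝ) / ((9 : ℕ) : ℝ)) * π) + ((((19 : ℤ) : ℝ) / ((6 : ℕ) : ℝ)) * (E 0))) + (168541 / 8640000 : ℝ) * π * KK D (((((5 : ℤ) : ℝ) / ((18 : ℕ) : ℝ)) * π) + ((((1 : ℤ) : ℝ) / ((3 : ℕ) : ℝ)) * (E 0))) + (168541 / 270000 : ℝ) * π * KK D (((((5 : ℤ) : ℝ) / ((18 : ℕ) : ℝ)) * π) + ((((7 : ℤ) : ℝ) / ((3 : ℕ) : ℝ)) * (E 0))) + (-168541 / 120000 : ℝ) * E 0 * KK D (((((-1 : ℤ) : ℝ) / ((18 : ℕ) : ℝ)) * π) + ((((10 : ℤ) : ℝ) / ((3 : ℕ) : ℝ)) * (E 0))) + (168541 / 120000 : ℝ) * E 0 * KK D (((((-1 : ℤ) : ℝ) / ((6 : ℕ) : ℝ)) * π) + ((((5 : ℤ) : ℝ) / ((1 : ℕ) : ℝ)) * (E 0))) + (-168541 / 7200000 : ℝ) * E 0 * KK D (((((1 : ℤ) : ℝ) / ((2 : ℕ) : ℝ)) * π) + ((((-3 : ℤ) : ℝ) / ((1 : ℕ) : ℝ)) * (E 0))) + (-1179787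 / 225000 : ℝ) * E 0 * KK D (((((2 : ℤ) : ℝ) / ((9 : ℕ) : ℝ)) * π) + ((((19 : ℤ) : ℝ) / ((6 : ℕ) : ℝ)) * (E 0))) + (168541 / 7200000 : ℝ) * E 0 * KK D (((((5 : ℤ) : ℝ) / ((18 : ℕ) : ℝ)) * π) + ((((1 : ℤ) : ℝ) / ((3 : ℕ) : ℝ)) * (E 0))) + (1179787 / 225000 : ℝ) * E 0 * KK D (((((5 : ℤ) : ℝ) / ((18 : ℕ) : ℝ)) * π) + ((((7 : ℤ) : ℝ) / ((3 : ℕ) : ℝ)) * (E 0))) + (168541 / 600000 : ℝ) * TT D (((((-1 : ℤ) : ℝ) / ((18 : ℕ) : ℝ)) * π) + ((((10 : ℤ) : ℝ) / ((3 : ℕ) : ℝ)) * (E 0))) + (-168541 / 600000 : ℝ) * TT D (((((-1 : ℤ) : ℝ) / ((6 : ℕ) : ℝ)) * π) + ((((5 : ℤ) : ℝ) / ((1 : ℕ) : ℝ)) * (E 0))) + (168541 / 2400000 : ℝ) * TT D (((((1 : ℤ) : ℝ) / ((2 : ℕ) : ℝ)) * π) + ((((-3 : ℤ) : ℝ) / ((1 : ℕ) : ℝ)) * (E 0))) + (168541 / 75000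 : ℝ) * TT D (((((2 : ℤ) : ℝ) / ((9 : ℕ) : ℝ)) * π) + ((((19 : ℤ) : ℝ) / ((6 : ℕ) : ℝ)) * (E 0))) + (-168541 / 2400000 : ℝ) * TT D (((((5 : ℤ) : ℝ) / ((18 : ℕ) : ℝ)) * π) + ((((1 : ℤ) : ℝ) / ((3 : ℕ) : ℝ)) * (E 0))) + (-168541 / 75000 : ℝ) * TT D (((((5 : ℤ) : ℝ) / ((18 : ℕ) : ℝ)) * π) + ((((7 : ℤ) : ℝ) / ((3 : ℕ) : ℝ)) * (E 0)))) ≤ 0 := by
  have p1 := pi_gt_d4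
  have p2 := pi_lt_d4
  have t1 := h.t1
  have t2 := h.t2
  have r := rayL A.cont A.b2 (((((5 : ℤ) : ℝ) / ((18 : ℕ) : ℝ)) * π) + ((((1 : ℤ) : ℝ) / ((3 : ℕ) : ℝ)) * (E 0))) (((((7 : ℤ) : ℝ) / ((6 : ℕ) : ℝ)) * π) + ((((-5 : ℤ) : ℝ) / ((1 : ℕ) : ℝ)) * (E 0))) (((((5 : ℤ) : ℝ) / ((18 : ℕ) : ℝ)) * π) + ((((7 : ℤ) : ℝ) / ((3 : ℕ) : ℝ)) * (E 0))) (((((1 : ℤ) : ℝ) / ((2 : ℕ) : ℝ)) * π) + ((((-3 : ℤ) : ℝ) / ((1 : ℕ) : ℝ)) * (E 0))) (((((19 : ℤ) : ℝ) / ((18 : ℕ) : ℝ)) * π) + ((((-10 : ℤ) : ℝ) / ((3 : ℕ) : ℝ)) * (E 0))) (((((2 : ℤ) : ℝ) / ((9 : ℕ) : ℝ)) * π) + ((((19 : ℤ) : ℝ) / ((6 : ℕ) : ℝ)) * (E 0)))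
    (((((1 : ℤ) : ℝ) / ((9 : ℕ) : ℝ)) * π) + ((((-5 : ℤ) : ℝ) / ((3 : ℕ) : ℝ)) * (E 0))) (2 : ℝ) (-1 : ℝ) (-1 / 2 : ℝ) (0 : ℝ) ((168541 / 600000 : ℝ)) (by linarith only [p1, p2, t1, t2])
    (by norm_num) (by norm_num) (by norm_num) (by ring) (by ring) (by ring) (by ring) (by ring) (by norm_num) (by norm_num)
    ⟨by linarith only [p1, p2, t1, t2], by linarith only [p1, p2, t1, t2], by linarith only [p1, p2, t1, t2], by linarith only [p1, p2, t1, t2], by linarith only [p1, p2, t1, t2], by linarith only [p1, p2, t1, t2]⟩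
    ⟨by linarith only [p1, p2, t1, t2], by linarith only [p1, p2, t1, t2], by linarith only [p1, p2, t1, t2], by linarith only [p1, p2, t1, t2], by linarith only [p1, p2, t1, t2], by linarith only [p1, p2, t1, t2]⟩
  unfold sd at r
  rw [(fo4 A).1, (fo4 A).2.1, (fo2 A).1, (fo2 A).2.1] at r
  linear_combination r

theorem ry9 (h : H E) (A : Adm1 (E 0) D) : ((420913 / 6000000 : ℝ) * π * KK D (((((-1 : ℤ) : ℝ) / ((18 : ℕ) : ℝ)) * π) + ((((10 : ℤ) : ℝ) / ((3 : ℕ) : ℝ)) * (E 0))) + (-420913 / 6000000 : ℝ) * π * KK D (((((-1 : ℤ) : ℝ) / ((6 : ℕ) : ℝ)) * π) + ((((5 : ℤ) : ℝ) / ((1 : ℕ) : ℝ)) * (E 0))) + (420913 / 2000000 : ℝ) * π * KK D (((((1 : ℤ) : ℝ) / ((2 : ℕ) : ℝ)) * π) + ((((-3 : ℤ) : ℝ) / ((1 : ℕ) : ℝ)) * (E 0))) + (420913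 / 3000000 : ℝ) * π * KK D (((((1 : ℤ) : ℝ) / ((6 : ℕ) : ℝ)) * π) + ((((4 : ℤ) : ℝ) / ((1 : ℕ) : ℝ)) * (E 0))) + (-420913 / 3000000 : ℝ) * π * KK D (((((5 : ℤ) : ℝ) / ((18 : ℕ) : ℝ)) * π) + ((((7 : ℤ) : ℝ) / ((3 : ℕ) : ℝ)) * (E 0))) + (-420913 / 2000000 : ℝ) * π * KK D (((((7 : ℤ) : ℝ) / ((18 : ℕ) : ℝ)) * π) + ((((-4 : ℤ) : ℝ) / ((3 : ℕ) : ℝ)) * (E 0))) + (-420913 / 200000 : ℝ) * E 0 * KK D (((((-1 : ℤ) : ℝ) / ((18 : ℕ) : ℝ)) * π) + ((((10 : ℤ) : ℝ) / ((3 : ℕ) : ℝ)) * (E 0))) + (420913 / 200000 : ℝ) * E 0 * KK D (((((-1 : ℤ) : ℝ) / ((6 : ℕ) : ℝ)) * π) + ((((5 : ℤ) : ℝ) / ((1 : ℕ) : ℝ)) * (E 0))) + (-1262739 / 1000000 : ℝ) * E 0 * KK D (((((1 : ℤ) : ℝ) / ((2 : ℕ) : ℝ)) * π) + ((((-3 : ℤ) : ℝ) / ((1 : ℕ) : ℝ)) * (E 0))) +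 (420913 / 125000 : ℝ) * E 0 * KK D (((((1 : ℤ) : ℝ) / ((6 : ℕ) : ℝ)) * π) + ((((4 : ℤ) : ℝ) / ((1 : ℕ) : ℝ)) * (E 0))) + (-420913 / 125000 : ℝ) * E 0 * KK D (((((5 : ℤ) : ℝ) / ((18 : ℕ) : ℝ)) * π) + ((((7 : ℤ) : ℝ) / ((3 : ℕ) : ℝ)) * (E 0))) + (1262739 / 1000000 : ℝ) * E 0 * KK D (((((7 : ℤ) : ℝ) / ((18 : ℕ) : ℝ)) * π) + ((((-4 : ℤ) : ℝ) / ((3 : ℕ) : ℝ)) * (E 0))) + (420913 / 1000000 : ℝ) * TT D (((((-1 : ℤ) : ℝ) / ((18 : ℕ) : ℝ)) * π) + ((((10 : ℤ) : ℝ) / ((3 : ℕ) : ℝ)) * (E 0))) + (-420913 / 1000000 : ℝ) * TT D (((((-1 : ℤ) : ℝ) / ((6 : ℕ) : ℝ)) * π) + ((((5 : ℤ) : ℝ) / ((1 : ℕ) : ℝ)) * (E 0))) + (-420913 / 1000000 : ℝ) * TT D (((((1 : ℤ) : ℝ) / ((2 : ℕ) : ℝ)) * π) + ((((-3 : ℤ) : ℝ) / ((1 : ℕ) : ℝ)) * (E 0))) + (-420913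 / 500000 : ℝ) * TT D (((((1 : ℤ) : ℝ) / ((6 : ℕ) : ℝ)) * π) + ((((4 : ℤ) : ℝ) / ((1 : ℕ) : ℝ)) * (E 0))) + (420913 / 500000 : ℝ) * TT D (((((5 : ℤ) : ℝ) / ((18 : ℕ) : ℝ)) * π) + ((((7 : ℤ) : ℝ) / ((3 : ℕ) : ℝ)) * (E 0))) + (420913 / 1000000 : ℝ) * TT D (((((7 : ℤ) : ℝ) / ((18 : ℕ) : ℝ)) * π) + ((((-4 : ℤ) : ℝ) / ((3 : ℕ) : ℝ)) * (E 0)))) ≤ 0 := by
  have p1 := pi_gt_d4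
  have p2 := pi_lt_d4
  have t1 := h.t1
  have t2 := h.t2
  have r := rayL A.cont A.b2 (((((7 : ℤ) : ℝ) / ((18 : ℕ) : ℝ)) * π) + ((((-4 : ℤ) : ℝ) / ((3 : ℕ) : ℝ)) * (E 0))) (((((19 : ℤ) : ℝ) / ((18 : ℕ) : ℝ)) * π) + ((((-10 : ℤ) : ℝ) / ((3 : ℕ) : ℝ)) * (E 0))) (((((5 : ℤ) : ℝ) / ((18 : ℕ) : ℝ)) * π) + ((((7 : ℤ) : ℝ) / ((3 : ℕ) : ℝ)) * (E 0))) (((((1 : ℤ) : ℝ) / ((2 : ℕ) : ℝ)) * π) + ((((-3 : ℤ) : ℝ) / ((1 : ℕ) : ℝ)) * (E 0))) (((((7 : ℤ) : ℝ) / ((6 : ℕ) : ℝ)) * π) + ((((-5 : ℤ) : ℝ) / ((1 : ℕ) : ℝ)) * (E 0))) (((((1 : ℤ) : ℝ) / ((6 : ℕ) : ℝ)) * π) + ((((4 : ℤ) : ℝ) / ((1 : ℕ) : ℝ)) * (E 0)))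
    (((((1 : ℤ) : ℝ) / ((9 : ℕ) : ℝ)) * π) + ((((-5 : ℤ) : ℝ) / ((3 : ℕ) : ℝ)) * (E 0))) (1 : ℝ) (1 : ℝ) (-1 : ℝ) ((420913 / 1000000 : ℝ)) (0 : ℝ) (by linarith only [p1, p2, t1, t2])
    (by norm_num) (by norm_num) (by norm_num) (by ring) (by ring) (by ring) (by ring) (by ring) (by norm_num) (by norm_num)
    ⟨by linarith only [p1, p2, t1, t2], by linarith only [p1, p2, t1, t2], by linarith only [p1, p2, t1, t2], by linarith only [p1, p2, t1, t2], by linarith only [p1, p2, t1, t2], by linarith only [p1, p2, t1, t2]⟩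
    ⟨by linarith only [p1, p2, t1, t2], by linarith only [p1, p2, t1, t2], by linarith only [p1, p2, t1, t2], by linarith only [p1, p2, t1, t2], by linarith only [p1, p2, t1, t2], by linarith only [p1, p2, t1, t2]⟩
  unfold sd at r
  rw [(fo2 A).1, (fo2 A).2.1, (fo4 A).1, (fo4 A).2.1] at r
  linear_combination r

theorem ry10 (h : H E) (A : Adm1 (E 0) D) : ((-3753953 / 144000000 : ℝ) * π * KK D (((((-7 : ℤ) : ℝ) / ((18 : ℕ) : ℝ)) * π) + ((((25 : ℤ) : ℝ) / ((3 : ℕ) : ℝ)) * (E 0))) + (3753953 / 144000000 : ℝ) * π * KK D (((((1 : ℤ) : ℝ) / ((18 : ℕ) : ℝ)) * π) + ((((5 : ℤ) : ℝ) / ((3 : ℕ) : ℝ)) * (E 0))) + (-3753953 / 9000000 : ℝ) * π * KK D (((((1 : ℤ) : ℝ) / ((2 : ℕ) : ℝ)) * π) + ((((-3 : ℤ) : ℝ) / ((1 : ℕ) : ℝ)) * (E 0)))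 + (536279 / 5062500 : ℝ) * π * KK D (((((1 : ℤ) : ℝ) / ((9 : ℕ) : ℝ)) * π) + ((((29 : ℤ) : ℝ) / ((6 : ℕ) : ℝ)) * (E 0))) + (-536279 / 5062500 : ℝ) * π * KK D (((((5 : ℤ) : ℝ) / ((18 : ℕ) : ℝ)) * π) + ((((7 : ℤ) : ℝ) / ((3 : ℕ) : ℝ)) * (E 0))) + (3753953 / 9000000 : ℝ) * π * KK D (((((7 : ℤ) : ℝ) / ((18 : ℕ) : ℝ)) * π) + ((((-4 : ℤ) : ℝ) / ((3 : ℕ) : ℝ)) * (E 0))) + (536279 / 960000 : ℝ) * E 0 * KK D (((((-7 : ℤ) : ℝ) / ((18 : ℕ) : ℝ)) * π) + ((((25 : ℤ) : ℝ) / ((3 : ℕ) : ℝ)) * (E 0))) + (-536279 / 960000 : ℝ) * E 0 * KK D (((((1 : ℤ) : ℝ) / ((18 : ℕ) : ℝ)) * π) + ((((5 : ℤ) : ℝ) / ((3 : ℕ) : ℝ)) * (E 0))) + (536279 / 375000 : ℝ) * E 0 * KK D (((((1 : ℤ) : ℝ) / ((2 : ℕ) : ℝ)) * π) + ((((-3 : ℤ) : ℝ) / ((1 : ℕ) : ℝ)) * (E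 0))) + (15552091 / 3375000 : ℝ) * E 0 * KK D (((((1 : ℤ) : ℝ) / ((9 : ℕ) : ℝ)) * π) + ((((29 : ℤ) : ℝ) / ((6 : ℕ) : ℝ)) * (E 0))) + (-15552091 / 3375000 : ℝ) * E 0 * KK D (((((5 : ℤ) : ℝ) / ((18 : ℕ) : ℝ)) * π) + ((((7 : ℤ) : ℝ) / ((3 : ℕ) : ℝ)) * (E 0))) + (-536279 / 375000 : ℝ) * E 0 * KK D (((((7 : ℤ) : ℝ) / ((18 : ℕ) : ℝ)) * π) + ((((-4 : ℤ) : ℝ) / ((3 : ℕ) : ℝ)) * (E 0))) + (-536279 / 8000000 : ℝ) * TT D (((((-7 : ℤ) : ℝ) / ((18 : ℕ) : ℝ)) * π) + ((((25 : ℤ) : ℝ) / ((3 : ℕ) : ℝ)) * (E 0))) + (536279 / 8000000 : ℝ) * TT D (((((1 : ℤ) : ℝ) / ((18 : ℕ) : ℝ)) * π) + ((((5 : ℤ) : ℝ) / ((3 : ℕ) : ℝ)) * (E 0))) + (536279 / 500000 : ℝ) * TT D (((((1 : ℤ) : ℝ) / ((2 : ℕ) : ℝ)) * π) + ((((-3 : ℤ) : ℝ) / ((1 : ℕ) : ℝ)) * (E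 0))) + (-536279 / 562500 : ℝ) * TT D (((((1 : ℤ) : ℝ) / ((9 : ℕ) : ℝ)) * π) + ((((29 : ℤ) : ℝ) / ((6 : ℕ) : ℝ)) * (E 0))) + (536279 / 562500 : ℝ) * TT D (((((5 : ℤ) : ℝ) / ((18 : ℕ) : ℝ)) * π) + ((((7 : ℤ) : ℝ) / ((3 : ℕ) : ℝ)) * (E 0))) + (-536279 / 500000 : ℝ) * TT D (((((7 : ℤ) : ℝ) / ((18 : ℕ) : ℝ)) * π) + ((((-4 : ℤ) : ℝ) / ((3 : ℕ) : ℝ)) * (E 0)))) ≤ 0 := by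
  have p1 := pi_gt_d4
  have p2 := pi_lt_d4
  have t1 := h.t1
  have t2 := h.t2
  have r := rayL A.cont A.b2 (((((1 : ℤ) : ℝ) / ((2 : ℕ) : ℝ)) * π) + ((((-3 : ℤ) : ℝ) / ((1 : ℕ) : ℝ)) * (E 0))) (((((17 : ℤ) : ℝ) / ((18 : ℕ) : ℝ)) * π) + ((((-5 : ℤ) : ℝ) / ((3 : ℕ) : ℝ)) * (E 0))) (((((5 : ℤ) : ℝ) / ((18 : ℕ) : ℝ)) * π) + ((((7 : ℤ) : ℝ) / ((3 : ℕ) : ℝ)) * (E 0))) (((((7 : ℤ) : ℝ) / ((18 : ℕ) : ℝ)) * π) + ((((-4 : ℤ) : ℝ) / ((3 : ℕ) : ℝ)) * (E 0))) (((((25 : ℤ) : ℝ) / ((18 : ℕ) : ℝ)) * π) + ((((-25 : ℤ) : ℝ) / ((3 : ℕ) : ℝ)) * (E 0))) (((((1 : ℤ) : ℝ) / ((9 : ℕ) : ℝ)) * π) + ((((29 : ℤ) : ℝ) / ((6 : ℕ) : ℝ)) * (E 0)))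
    (((((1 : ℤ) : ℝ) / ((9 : ℕ) : ℝ)) * π) + ((((-5 : ℤ) : ℝ) / ((3 : ℕ) : ℝ)) * (E 0))) (-1 : ℝ) (4 : ℝ) (-3 / 2 : ℝ) ((536279 / 500000 : ℝ)) (0 : ℝ) (by linarith only [p1, p2, t1, t2])
    (by norm_num) (by norm_num) (by norm_num) (by ring) (by ring) (by ring) (by ring) (by ring) (by norm_num) (by norm_num)
    ⟨by linarith only [p1, p2, t1, t2], by linarith only [p1, p2, t1, t2], by linarith only [p1, p2, t1, t2], by linarith only [p1, p2, t1, t2], by linarith only [p1, p2, t1, t2], by linarith only [p1, p2, t1, t2]⟩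
    ⟨by linarith only [p1, p2, t1, t2], by linarith only [p1, p2, t1, t2], by linarith only [p1, p2, t1, t2], by linarith only [p1, p2, t1, t2], by linarith only [p1, p2, t1, t2], by linarith only [p1, p2, t1, t2]⟩
  unfold sd at r
  rw [(fo1 A).1, (fo1 A).2.1, (fo6 A).1, (fo6 A).2.1] at r
  linear_combination r

theorem ry11 (h : H E) (A : Adm1 (E 0) D) : ((2813659 / 36000000 : ℝ) * π * KK D (((((-1 : ℤ) : ℝ) / ((6 : ℕ) : ℝ)) * π) + ((((5 : ℤ) : ℝ) / ((1 : ℕ) : ℝ)) * (E 0))) + (-2813659 / 36000000 : ℝ) * π * KK D (((((-7 : ℤ) : ℝ) / ((18 : ℕ) : ℝ)) * π) + ((((25 : ℤ) : ℝ) / ((3 : ℕ) : ℝ)) * (E 0))) + (160183 / 6750000 : ℝ) * π * KK D (((((1 : ℤ) : ℝ) / ((18 : ℕ) : ℝ)) * π) + ((((17 : ℤ) : ℝ) / ((3 : ℕ) : ℝ)) * (E 0)))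 + (1737643 / 4500000 : ℝ) * π * KK D (((((1 : ℤ) : ℝ) / ((2 : ℕ) : ℝ)) * π) + ((((-3 : ℤ) : ℝ) / ((1 : ℕ) : ℝ)) * (E 0))) + (-160183 / 6750000 : ℝ) * π * KK D (((((2 : ℤ) : ℝ) / ((9 : ℕ) : ℝ)) * π) + ((((19 : ℤ) : ℝ) / ((6 : ℕ) : ℝ)) * (E 0))) + (-1737643 / 4500000 : ℝ) * π * KK D (((((7 : ℤ) : ℝ) / ((18 : ℕ) : ℝ)) * π) + ((((-4 : ℤ) : ℝ) / ((3 : ℕ) : ℝ)) * (E 0))) + (-985477 / 600000 : ℝ) * E 0 * KK D (((((-1 : ℤ) : ℝ) / ((6 : ℕ) : ℝ)) * π) + ((((5 : ℤ) : ℝ) / ((1 : ℕ) : ℝ)) * (E 0))) + (985477 / 600000 : ℝ) * E 0 * KK D (((((-7 : ℤ) : ℝ) / ((18 : ℕ) : ℝ)) * π) + ((((25 : ℤ) : ℝ) / ((3 : ℕ) : ℝ)) * (E 0))) + (8977243 / 2250000 : ℝ) * E 0 * KK D (((((1 : ℤ) : ℝ) / ((18 : ℕ) : ℝ)) * π) + ((((17 : ℤ) : ℝ) / ((3 : ℕ) : ℝ))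 * (E 0))) + (-7222189 / 3000000 : ℝ) * E 0 * KK D (((((1 : ℤ) : ℝ) / ((2 : ℕ) : ℝ)) * π) + ((((-3 : ℤ) : ℝ) / ((1 : ℕ) : ℝ)) * (E 0))) + (-8977243 / 2250000 : ℝ) * E 0 * KK D (((((2 : ℤ) : ℝ) / ((9 : ℕ) : ℝ)) * π) + ((((19 : ℤ) : ℝ) / ((6 : ℕ) : ℝ)) * (E 0))) + (7222189 / 3000000 : ℝ) * E 0 * KK D (((((7 : ℤ) : ℝ) / ((18 : ℕ) : ℝ)) * π) + ((((-4 : ℤ) : ℝ) / ((3 : ℕ) : ℝ)) * (E 0))) + (376083 / 2000000 : ℝ) * TT D (((((-1 : ℤ) : ℝ) / ((6 : ℕ) : ℝ)) * π) + ((((5 : ℤ) : ℝ) / ((1 : ℕ) : ℝ)) * (E 0))) + (-376083 / 2000000 : ℝ) * TT D (((((-7 : ℤ) : ℝ) / ((18 : ℕ) : ℝ)) * π) + ((((25 : ℤ) : ℝ) / ((3 : ℕ) : ℝ)) * (E 0))) + (-41787 / 62500 : ℝ) * TT D (((((1 : ℤ) : ℝ) / ((18 : ℕ) : ℝ)) * π) + ((((17 : ℤ) : ℝ) / ((3 : ℕ) : ℝ))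 * (E 0))) + (-376083 / 500000 : ℝ) * TT D (((((1 : ℤ) : ℝ) / ((2 : ℕ) : ℝ)) * π) + ((((-3 : ℤ) : ℝ) / ((1 : ℕ) : ℝ)) * (E 0))) + (41787 / 62500 : ℝ) * TT D (((((2 : ℤ) : ℝ) / ((9 : ℕ) : ℝ)) * π) + ((((19 : ℤ) : ℝ) / ((6 : ℕ) : ℝ)) * (E 0))) + (376083 / 500000 : ℝ) * TT D (((((7 : ℤ) : ℝ) / ((18 : ℕ) : ℝ)) * π) + ((((-4 : ℤ) : ℝ) / ((3 : ℕ) : ℝ)) * (E 0)))) ≤ 0 := by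
  have p1 := pi_gt_d4
  have p2 := pi_lt_d4
  have t1 := h.t1
  have t2 := h.t2
  have r := rayL A.cont A.b2 (((((7 : ℤ) : ℝ) / ((18 : ℕ) : ℝ)) * π) + ((((-4 : ℤ) : ℝ) / ((3 : ℕ) : ℝ)) * (E 0))) (((((7 : ℤ) : ℝ) / ((6 : ℕ) : ℝ)) * π) + ((((-5 : ℤ) : ℝ) / ((1 : ℕ) : ℝ)) * (E 0))) (((((2 : ℤ) : ℝ) / ((9 : ℕ) : ℝ)) * π) + ((((19 : ℤ) : ℝ) / ((6 : ℕ) : ℝ)) * (E 0))) (((((1 : ℤ) : ℝ) / ((2 : ℕ) : ℝ)) * π) + ((((-3 : ℤ) : ℝ) / ((1 : ℕ) : ℝ)) * (E 0))) (((((25 : ℤ) : ℝ) / ((18 : ℕ) : ℝ)) * π) + ((((-25 : ℤ) : ℝ) / ((3 : ℕ) : ℝ)) * (E 0))) (((((1 : ℤ) : ℝ) / ((18 : ℕ) : ℝ)) * π) + ((((17 : ℤ) : ℝ) / ((3 : ℕ) : ℝ)) * (E 0)))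
    (((((1 : ℤ) : ℝ) / ((9 : ℕ) : ℝ)) * π) + ((((-5 : ℤ) : ℝ) / ((3 : ℕ) : ℝ)) * (E 0))) (1 : ℝ) (2 : ℝ) (-3 / 2 : ℝ) ((168541 / 200000 : ℝ)) ((90539 / 1000000 : ℝ)) (by linarith only [p1, p2, t1, t2])
    (by norm_num) (by norm_num) (by norm_num) (by ring) (by ring) (by ring) (by ring) (by ring) (by norm_num) (by norm_num)
    ⟨by linarith only [p1, p2, t1, t2], by linarith only [p1, p2, t1, t2], by linarith only [p1, p2, t1, t2], by linarith only [p1, p2, t1, t2], by linarith only [p1, p2, t1, t2], by linarith only [p1, p2, t1, t2]⟩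
    ⟨by linarith only [p1, p2, t1, t2], by linarith only [p1, p2, t1, t2], by linarith only [p1, p2, t1, t2], by linarith only [p1, p2, t1, t2], by linarith only [p1, p2, t1, t2], by linarith only [p1, p2, t1, t2]⟩
  unfold sd at r
  rw [(fo4 A).1, (fo4 A).2.1, (fo6 A).1, (fo6 A).2.1] at r
  linear_combination r

theorem ry12 (h : H E) (A : Adm1 (E 0) D) : ((-209951 / 72000000 : ℝ) * π * KK D (((((-1 : ℤ) : ℝ) / ((18 : ℕ) : ℝ)) * π) + ((((10 : ℤ) : ℝ) / ((3 : ℕ) : ℝ)) * (E 0))) + (209951 / 72000000 : ℝ) * π * KK D (((((-5 : ℤ) : ℝ) / ((18 : ℕ) : ℝ)) * π) + ((((20 : ℤ) : ℝ) / ((3 : ℕ) : ℝ)) * (E 0))) + (209951 / 2000000 : ℝ) * π * KK D (((((1 : ℤ) : ℝ) / ((2 : ℕ) : ℝ)) * π) + ((((-3 : ℤ) : ℝ) / ((1 : ℕ) : ℝ)) * (E 0)))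 + (-209951 / 562500 : ℝ) * π * KK D (((((1 : ℤ) : ℝ) / ((6 : ℕ) : ℝ)) * π) + ((((4 : ℤ) : ℝ) / ((1 : ℕ) : ℝ)) * (E 0))) + (209951 / 562500 : ℝ) * π * KK D (((((2 : ℤ) : ℝ) / ((9 : ℕ) : ℝ)) * π) + ((((19 : ℤ) : ℝ) / ((6 : ℕ) : ℝ)) * (E 0))) + (-209951 / 2000000 : ℝ) * π * KK D (((((7 : ℤ) : ℝ) / ((18 : ℕ) : ℝ)) * π) + ((((-4 : ℤ) : ℝ) / ((3 : ℕ) : ℝ)) * (E 0))) + (209951 / 1200000 : ℝ) * E 0 * KK D (((((-1 : ℤ) : ℝ) / ((18 : ℕ) : ℝ)) * π) + ((((10 : ℤ) : ℝ) / ((3 : ℕ) : ℝ)) * (E 0))) + (-209951 / 1200000 : ℝ) * E 0 * KK D (((((-5 : ℤ) : ℝ) / ((18 : ℕ) : ℝ)) * π) + ((((20 : ℤ) : ℝ) / ((3 : ℕ) : ℝ)) * (E 0))) + (-629853 / 1000000 : ℝ) * E 0 * KK D (((((1 : ℤ) : ℝ) / ((2 : ℕ) : ℝ)) * π) + ((((-3 : ℤ) : ℝ) / ((1 : ℕ) : ℝ))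 * (E 0))) + (-3989069 / 750000 : ℝ) * E 0 * KK D (((((1 : ℤ) : ℝ) / ((6 : ℕ) : ℝ)) * π) + ((((4 : ℤ) : ℝ) / ((1 : ℕ) : ℝ)) * (E 0))) + (3989069 / 750000 : ℝ) * E 0 * KK D (((((2 : ℤ) : ℝ) / ((9 : ℕ) : ℝ)) * π) + ((((19 : ℤ) : ℝ) / ((6 : ℕ) : ℝ)) * (E 0))) + (629853 / 1000000 : ℝ) * E 0 * KK D (((((7 : ℤ) : ℝ) / ((18 : ℕ) : ℝ)) * π) + ((((-4 : ℤ) : ℝ) / ((3 : ℕ) : ℝ)) * (E 0))) + (-209951 / 4000000 : ℝ) * TT D (((((-1 : ℤ) : ℝ) / ((18 : ℕ) : ℝ)) * π) + ((((10 : ℤ) : ℝ) / ((3 : ℕ) : ℝ)) * (E 0))) + (209951 / 4000000 : ℝ) * TT D (((((-5 : ℤ) : ℝ) / ((18 : ℕ) : ℝ)) * π) + ((((20 : ℤ) : ℝ) / ((3 : ℕ) : ℝ)) * (E 0))) + (-209951 / 1000000 : ℝ) * TT D (((((1 : ℤ) : ℝ) / ((2 : ℕ) : ℝ)) * π) + ((((-3 : ℤ) : ℝ) / ((1 : ℕ) : ℝ)) *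 (E 0))) + (209951 / 125000 : ℝ) * TT D (((((1 : ℤ) : ℝ) / ((6 : ℕ) : ℝ)) * π) + ((((4 : ℤ) : ℝ) / ((1 : ℕ) : ℝ)) * (E 0))) + (-209951 / 125000 : ℝ) * TT D (((((2 : ℤ) : ℝ) / ((9 : ℕ) : ℝ)) * π) + ((((19 : ℤ) : ℝ) / ((6 : ℕ) : ℝ)) * (E 0))) + (209951 / 1000000 : ℝ) * TT D (((((7 : ℤ) : ℝ) / ((18 : ℕ) : ℝ)) * π) + ((((-4 : ℤ) : ℝ) / ((3 : ℕ) : ℝ)) * (E 0)))) ≤ 0 := by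
  have p1 := pi_gt_d4
  have p2 := pi_lt_d4
  have t1 := h.t1
  have t2 := h.t2
  have r := rayL A.cont A.b2 (((((1 : ℤ) : ℝ) / ((2 : ℕ) : ℝ)) * π) + ((((-3 : ℤ) : ℝ) / ((1 : ℕ) : ℝ)) * (E 0))) (((((19 : ℤ) : ℝ) / ((18 : ℕ) : ℝ)) * π) + ((((-10 : ℤ) : ℝ) / ((3 : ℕ) : ℝ)) * (E 0))) (((((2 : ℤ) : ℝ) / ((9 : ℕ) : ℝ)) * π) + ((((19 : ℤ) : ℝ) / ((6 : ℕ) : ℝ)) * (E 0))) (((((7 : ℤ) : ℝ) / ((18 : ℕ) : ℝ)) * π) + ((((-4 : ℤ) : ℝ) / ((3 : ℕ) : ℝ)) * (E 0))) (((((23 : ℤ) : ℝ) / ((18 : ℕ) : ℝ)) * π) + ((((-20 : ℤ) : ℝ) / ((3 : ℕ) : ℝ)) * (E 0))) (((((1 : ℤ) : ℝ) / ((6 : ℕ) : ℝ)) * π) + ((((4 : ℤ) : ℝ) / ((1 : ℕ) : ℝ)) * (E 0)))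
    (((((1 : ℤ) : ℝ) / ((9 : ℕ) : ℝ)) * π) + ((((-5 : ℤ) : ℝ) / ((3 : ℕ) : ℝ)) * (E 0))) (-1 : ℝ) (2 : ℝ) (-1 / 2 : ℝ) (0 : ℝ) ((209951 / 1000000 : ℝ)) (by linarith only [p1, p2, t1, t2])
    (by norm_num) (by norm_num) (by norm_num) (by ring) (by ring) (by ring) (by ring) (by ring) (by norm_num) (by norm_num)
    ⟨by linarith only [p1, p2, t1, t2], by linarith only [p1, p2, t1, t2], by linarith only [p1, p2, t1, t2], by linarith only [p1, p2, t1, t2], by linarith only [p1, p2, t1, t2], by linarith only [p1, p2, t1, t2]⟩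
    ⟨by linarith only [p1, p2, t1, t2], by linarith only [p1, p2, t1, t2], by linarith only [p1, p2, t1, t2], by linarith only [p1, p2, t1, t2], by linarith only [p1, p2, t1, t2], by linarith only [p1, p2, t1, t2]⟩
  unfold sd at r
  rw [(fo2 A).1, (fo2 A).2.1, (fo5 A).1, (fo5 A).2.1] at r
  linear_combination r

theorem ry13 (h : H E) (A : Adm1 (E 0) D) : ((26115691 / 216000000 : ℝ) * π * KK D (((((-5 : ℤ) : ℝ) / ((18 : ℕ) : ℝ)) * π) + ((((20 : ℤ) : ℝ) / ((3 : ℕ) : ℝ)) * (E 0))) + (-26115691 / 216000000 : ℝ) * π * KK D (((((-7 : ℤ) : ℝ) / ((18 : ℕ) : ℝ)) * π) + ((((25 : ℤ) : ℝ) / ((3 : ℕ) : ℝ)) * (E 0))) + (-3730813 / 172800000 : ℝ) * π * KK D (((((1 : ℤ) : ℝ) / ((2 : ℕ) : ℝ)) * π) + ((((-3 : ℤ) : ℝ) / ((1 : ℕ) : ℝ))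 * (E 0))) + (3730813 / 9000000 : ℝ) * π * KK D (((((1 : ℤ) : ℝ) / ((6 : ℕ) : ℝ)) * π) + ((((4 : ℤ) : ℝ) / ((1 : ℕ) : ℝ)) * (E 0))) + (-3730813 / 9000000 : ℝ) * π * KK D (((((1 : ℤ) : ℝ) / ((9 : ℕ) : ℝ)) * π) + ((((29 : ℤ) : ℝ) / ((6 : ℕ) : ℝ)) * (E 0))) + (3730813 / 172800000 : ℝ) * π * KK D (((((5 : ℤ) : ℝ) / ((18 : ℕ) : ℝ)) * π) + ((((1 : ℤ) : ℝ) / ((3 : ℕ) : ℝ)) * (E 0))) + (-3730813 / 1440000 : ℝ) * E 0 * KK D (((((-5 : ℤ) : ℝ) / ((18 : ℕ) : ℝ)) * π) + ((((20 : ℤ) : ℝ) / ((3 : ℕ) : ℝ)) * (E 0))) + (3730813 / 1440000 : ℝ) * E 0 * KK D (((((-7 : ℤ) : ℝ) / ((18 : ℕ) : ℝ)) * π) + ((((25 : ℤ) : ℝ) / ((3 : ℕ) : ℝ)) * (E 0))) + (-3730813 / 144000000 : ℝ) * E 0 * KK D (((((1 : ℤ) : ℝ) / ((2 : ℕ) : ℝ)) * π) + ((((-3 : ℤ) :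 ℝ) / ((1 : ℕ) : ℝ)) * (E 0))) + (3730813 / 375000 : ℝ) * E 0 * KK D (((((1 : ℤ) : ℝ) / ((6 : ℕ) : ℝ)) * π) + ((((4 : ℤ) : ℝ) / ((1 : ℕ) : ℝ)) * (E 0))) + (-3730813 / 375000 : ℝ) * E 0 * KK D (((((1 : ℤ) : ℝ) / ((9 : ℕ) : ℝ)) * π) + ((((29 : ℤ) : ℝ) / ((6 : ℕ) : ℝ)) * (E 0))) + (3730813 / 144000000 : ℝ) * E 0 * KK D (((((5 : ℤ) : ℝ) / ((18 : ℕ) : ℝ)) * π) + ((((1 : ℤ) : ℝ) / ((3 : ℕ) : ℝ)) * (E 0))) + (3730813 / 12000000 : ℝ) * TT D (((((-5 : ℤ) : ℝ) / ((18 : ℕ) : ℝ)) * π) + ((((20 : ℤ) : ℝ) / ((3 : ℕ) : ℝ)) * (E 0))) + (-3730813 / 12000000 : ℝ) * TT D (((((-7 : ℤ) : ℝ) / ((18 : ℕ) : ℝ)) * π) + ((((25 : ℤ) : ℝ) / ((3 : ℕ) : ℝ)) * (E 0))) + (3730813 / 48000000 : ℝ) * TT D (((((1 : ℤ) : ℝ) / ((2 : ℕ) : ℝ)) * π) + ((((-3 :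 ℤ) : ℝ) / ((1 : ℕ) : ℝ)) * (E 0))) + (-3730813 / 1500000 : ℝ) * TT D (((((1 : ℤ) : ℝ) / ((6 : ℕ) : ℝ)) * π) + ((((4 : ℤ) : ℝ) / ((1 : ℕ) : ℝ)) * (E 0))) + (3730813 / 1500000 : ℝ) * TT D (((((1 : ℤ) : ℝ) / ((9 : ℕ) : ℝ)) * π) + ((((29 : ℤ) : ℝ) / ((6 : ℕ) : ℝ)) * (E 0))) + (-3730813 / 48000000 : ℝ) * TT D (((((5 : ℤ) : ℝ) / ((18 : ℕ) : ℝ)) * π) + ((((1 : ℤ) : ℝ) / ((3 : ℕ) : ℝ)) * (E 0)))) ≤ 0 := by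
  have p1 := pi_gt_d4
  have p2 := pi_lt_d4
  have t1 := h.t1
  have t2 := h.t2
  have r := rayL A.cont A.b2 (((((5 : ℤ) : ℝ) / ((18 : ℕ) : ℝ)) * π) + ((((1 : ℤ) : ℝ) / ((3 : ℕ) : ℝ)) * (E 0))) (((((25 : ℤ) : ℝ) / ((18 : ℕ) : ℝ)) * π) + ((((-25 : ℤ) : ℝ) / ((3 : ℕ) : ℝ)) * (E 0))) (((((1 : ℤ) : ℝ) / ((6 : ℕ) : ℝ)) * π) + ((((4 : ℤ) : ℝ) / ((1 : ℕ) : ℝ)) * (E 0))) (((((1 : ℤ) : ℝ) / ((2 : ℕ) : ℝ)) * π) + ((((-3 : ℤ) : ℝ) / ((1 : ℕ) : ℝ)) * (E 0))) (((((23 : ℤ) : ℝ) / ((18 : ℕ) : ℝ)) * π) + ((((-20 : ℤ) : ℝ) / ((3 : ℕ) : ℝ)) * (E 0))) (((((1 : ℤ) : ℝ) / ((9 : ℕ) : ℝ)) * π) + ((((29 : ℤ) : ℝ) / ((6 : ℕ) : ℝ)) * (E 0)))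
    (((((1 : ℤ) : ℝ) / ((9 : ℕ) : ℝ)) * π) + ((((-5 : ℤ) : ℝ) / ((3 : ℕ) : ℝ)) * (E 0))) (2 : ℝ) (-1 : ℝ) (-1 / 2 : ℝ) (0 : ℝ) ((3730813 / 12000000 : ℝ)) (by linarith only [p1, p2, t1, t2])
    (by norm_num) (by norm_num) (by norm_num) (by ring) (by ring) (by ring) (by ring) (by ring) (by norm_num) (by norm_num)
    ⟨by linarith only [p1, p2, t1, t2], by linarith only [p1, p2, t1, t2], by linarith only [p1, p2, t1, t2], by linarith only [p1, p2, t1, t2], by linarith only [p1, p2, t1, t2], by linarith only [p1, p2, t1, t2]⟩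
    ⟨by linarith only [p1, p2, t1, t2], by linarith only [p1, p2, t1, t2], by linarith only [p1, p2, t1, t2], by linarith only [p1, p2, t1, t2], by linarith only [p1, p2, t1, t2], by linarith only [p1, p2, t1, t2]⟩
  unfold sd at r
  rw [(fo6 A).1, (fo6 A).2.1, (fo5 A).1, (fo5 A).2.1] at r
  linear_combination r

theorem ry14 (h : H E) (A : Adm1 (E 0) D) : ((1469657 / 72000000 : ℝ) * π * KK D (((((-1 : ℤ) : ℝ) / ((6 : ℕ) : ℝ)) * π) + ((((5 : ℤ) : ℝ) / ((1 : ℕ) : ℝ)) * (E 0))) + (-1469657 / 72000000 : ℝ) * π * KK D (((((-7 : ℤ) : ℝ) / ((18 : ℕ) : ℝ)) * π) + ((((25 : ℤ) : ℝ) / ((3 : ℕ) : ℝ)) * (E 0))) + (-1469657 / 18000000 : ℝ) * π * KK D (((((1 : ℤ) : ℝ) / ((2 : ℕ) : ℝ)) * π) + ((((-3 : ℤ) : ℝ) / ((1 : ℕ) : ℝ)) * (E 0)))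 + (-209951 / 1125000 : ℝ) * π * KK D (((((1 : ℤ) : ℝ) / ((6 : ℕ) : ℝ)) * π) + ((((4 : ℤ) : ℝ) / ((1 : ℕ) : ℝ)) * (E 0))) + (209951 / 1125000 : ℝ) * π * KK D (((((1 : ℤ) : ℝ) / ((9 : ℕ) : ℝ)) * π) + ((((29 : ℤ) : ℝ) / ((6 : ℕ) : ℝ)) * (E 0))) + (1469657 / 18000000 : ℝ) * π * KK D (((((7 : ℤ) : ℝ) / ((18 : ℕ) : ℝ)) * π) + ((((-4 : ℤ) : ℝ) / ((3 : ℕ) : ℝ)) * (E 0))) + (-209951 / 480000 : ℝ) * E 0 * KK D (((((-1 : ℤ) : ℝ) / ((6 : ℕ) : ℝ)) * π) + ((((5 : ℤ) : ℝ) / ((1 : ℕ) : ℝ)) * (E 0))) + (209951 / 480000 : ℝ) * E 0 * KK D (((((-7 : ℤ) : ℝ) / ((18 : ℕ) : ℝ)) * π) + ((((25 : ℤ) : ℝ) / ((3 : ℕ) : ℝ)) * (E 0))) + (209951 / 750000 : ℝ) * E 0 * KK D (((((1 : ℤ) : ℝ) / ((2 : ℕ) : ℝ)) * π) + ((((-3 : ℤ) : ℝ) / ((1 : ℕ) : ℝ)) * (E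 0))) + (-6088579 / 750000 : ℝ) * E 0 * KK D (((((1 : ℤ) : ℝ) / ((6 : ℕ) : ℝ)) * π) + ((((4 : ℤ) : ℝ) / ((1 : ℕ) : ℝ)) * (E 0))) + (6088579 / 750000 : ℝ) * E 0 * KK D (((((1 : ℤ) : ℝ) / ((9 : ℕ) : ℝ)) * π) + ((((29 : ℤ) : ℝ) / ((6 : ℕ) : ℝ)) * (E 0))) + (-209951 / 750000 : ℝ) * E 0 * KK D (((((7 : ℤ) : ℝ) / ((18 : ℕ) : ℝ)) * π) + ((((-4 : ℤ) : ℝ) / ((3 : ℕ) : ℝ)) * (E 0))) + (209951 / 4000000 : ℝ) * TT D (((((-1 : ℤ) : ℝ) / ((6 : ℕ) : ℝ)) * π) + ((((5 : ℤ) : ℝ) / ((1 : ℕ) : ℝ)) * (E 0))) + (-209951 / 4000000 : ℝ) * TT D (((((-7 : ℤ) : ℝ) / ((18 : ℕ) : ℝ)) * π) + ((((25 : ℤ) : ℝ) / ((3 : ℕ) : ℝ)) * (E 0))) + (209951 / 1000000 : ℝ) * TT D (((((1 : ℤ) : ℝ) / ((2 : ℕ) : ℝ)) * π) + ((((-3 : ℤ) : ℝ) / ((1 : ℕ) : ℝ)) * (E 0)))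 + (209951 / 125000 : ℝ) * TT D (((((1 : ℤ) : ℝ) / ((6 : ℕ) : ℝ)) * π) + ((((4 : ℤ) : ℝ) / ((1 : ℕ) : ℝ)) * (E 0))) + (-209951 / 125000 : ℝ) * TT D (((((1 : ℤ) : ℝ) / ((9 : ℕ) : ℝ)) * π) + ((((29 : ℤ) : ℝ) / ((6 : ℕ) : ℝ)) * (E 0))) + (-209951 / 1000000 : ℝ) * TT D (((((7 : ℤ) : ℝ) / ((18 : ℕ) : ℝ)) * π) + ((((-4 : ℤ) : ℝ) / ((3 : ℕ) : ℝ)) * (E 0)))) ≤ 0 := by
  have p1 := pi_gt_d4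
  have p2 := pi_lt_d4
  have t1 := h.t1
  have t2 := h.t2
  have r := rayL A.cont A.b2 (((((1 : ℤ) : ℝ) / ((2 : ℕ) : ℝ)) * π) + ((((-3 : ℤ) : ℝ) / ((1 : ℕ) : ℝ)) * (E 0))) (((((7 : ℤ) : ℝ) / ((6 : ℕ) : ℝ)) * π) + ((((-5 : ℤ) : ℝ) / ((1 : ℕ) : ℝ)) * (E 0))) (((((1 : ℤ) : ℝ) / ((6 : ℕ) : ℝ)) * π) + ((((4 : ℤ) : ℝ) / ((1 : ℕ) : ℝ)) * (E 0))) (((((7 : ℤ) : ℝ) / ((18 : ℕ) : ℝ)) * π) + ((((-4 : ℤ) : ℝ) / ((3 : ℕ) : ℝ)) * (E 0))) (((((25 : ℤ) : ℝ) / ((18 : ℕ) : ℝ)) * π) + ((((-25 : ℤ) : ℝ) / ((3 : ℕ) : ℝ)) * (E 0))) (((((1 : ℤ) : ℝ) / ((9 : ℕ) : ℝ)) * π) + ((((29 : ℤ) : ℝ) / ((6 : ℕ) : ℝ)) * (E 0)))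
    (((((1 : ℤ) : ℝ) / ((9 : ℕ) : ℝ)) * π) + ((((-5 : ℤ) : ℝ) / ((3 : ℕ) : ℝ)) * (E 0))) (-1 : ℝ) (2 : ℝ) (-1 / 2 : ℝ) ((209951 / 1000000 : ℝ)) (0 : ℝ) (by linarith only [p1, p2, t1, t2])
    (by norm_num) (by norm_num) (by norm_num) (by ring) (by ring) (by ring) (by ring) (by ring) (by norm_num) (by norm_num)
    ⟨by linarith only [p1, p2, t1, t2], by linarith only [p1, p2, t1, t2], by linarith only [p1, p2, t1, t2], by linarith only [p1, p2, t1, t2], by linarith only [p1, p2, t1, t2], by linarith only [p1, p2, t1, t2]⟩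
    ⟨by linarith only [p1, p2, t1, t2], by linarith only [p1, p2, t1, t2], by linarith only [p1, p2, t1, t2], by linarith only [p1, p2, t1, t2], by linarith only [p1, p2, t1, t2], by linarith only [p1, p2, t1, t2]⟩
  unfold sd at r
  rw [(fo4 A).1, (fo4 A).2.1, (fo6 A).1, (fo6 A).2.1] at r
  linear_combination r

theorem ry15 (h : H E) (A : Adm1 (E 0) D) : ((-90539 / 4000000 : ℝ) * π * KK D (((((-1 : ℤ) : ℝ) / ((2 : ℕ) : ℝ)) * π) + ((((10 : ℤ) : ℝ) / ((1 : ℕ) : ℝ)) * (E 0))) + (90539 / 4000000 : ℝ) * π * KK D (((((-7 : ℤ) : ℝ) / ((18 : ℕ) : ℝ)) * π) + ((((25 : ℤ) : ℝ) / ((3 : ℕ) : ℝ)) * (E 0))) + (-90539 / 2250000 : ℝ) * π * KK D (((((1 : ℤ) : ℝ) / ((18 : ℕ) : ℝ)) * π) + ((((17 : ℤ) : ℝ) / ((3 : ℕ) : ℝ)) * (E 0))) + (-90539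 / 28800000 : ℝ) * π * KK D (((((1 : ℤ) : ℝ) / ((2 : ℕ) : ℝ)) * π) + ((((-3 : ℤ) : ℝ) / ((1 : ℕ) : ℝ)) * (E 0))) + (90539 / 2250000 : ℝ) * π * KK D (((((1 : ℤ) : ℝ) / ((9 : ℕ) : ℝ)) * π) + ((((29 : ℤ) : ℝ) / ((6 : ℕ) : ℝ)) * (E 0))) + (90539 / 28800000 : ℝ) * π * KK D (((((5 : ℤ) : ℝ) / ((18 : ℕ) : ℝ)) * π) + ((((1 : ℤ) : ℝ) / ((3 : ℕ) : ℝ)) * (E 0))) + (90539 / 200000 : ℝ) * E 0 * KK D (((((-1 : ℤ) : ℝ) / ((2 : ℕ) : ℝ)) * π) + ((((10 : ℤ) : ℝ) / ((1 : ℕ) : ℝ)) * (E 0))) + (-90539 / 200000 : ℝ) * E 0 * KK D (((((-7 : ℤ) : ℝ) / ((18 : ℕ) : ℝ)) * π) + ((((25 : ℤ) : ℝ) / ((3 : ℕ) : ℝ)) * (E 0))) + (-2625631 / 1500000 : ℝ) * E 0 * KK D (((((1 : ℤ) : ℝ) / ((18 : ℕ) : ℝ)) * π) + ((((17 : ℤ) : ℝ) / ((3 : ℕ) : ℝ)) * (E 0))) + (-90539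 / 24000000 : ℝ) * E 0 * KK D (((((1 : ℤ) : ℝ) / ((2 : ℕ) : ℝ)) * π) + ((((-3 : ℤ) : ℝ) / ((1 : ℕ) : ℝ)) * (E 0))) + (2625631 / 1500000 : ℝ) * E 0 * KK D (((((1 : ℤ) : ℝ) / ((9 : ℕ) : ℝ)) * π) + ((((29 : ℤ) : ℝ) / ((6 : ℕ) : ℝ)) * (E 0))) + (90539 / 24000000 : ℝ) * E 0 * KK D (((((5 : ℤ) : ℝ) / ((18 : ℕ) : ℝ)) * π) + ((((1 : ℤ) : ℝ) / ((3 : ℕ) : ℝ)) * (E 0))) + (-90539 / 2000000 : ℝ) * TT D (((((-1 : ℤ) : ℝ) / ((2 : ℕ) : ℝ)) * π) + ((((10 : ℤ) : ℝ) / ((1 : ℕ) : ℝ)) * (E 0))) + (90539 / 2000000 : ℝ) * TT D (((((-7 : ℤ) : ℝ) / ((18 : ℕ) : ℝ)) * π) + ((((25 : ℤ) : ℝ) / ((3 : ℕ) : ℝ)) * (E 0))) + (90539 / 250000 : ℝ) * TT D (((((1 : ℤ) : ℝ) / ((18 : ℕ) : ℝ)) * π) + ((((17 : ℤ) : ℝ) / ((3 : ℕ) : ℝ)) * (E 0))) + (90539 / 8000000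 : ℝ) * TT D (((((1 : ℤ) : ℝ) / ((2 : ℕ) : ℝ)) * π) + ((((-3 : ℤ) : ℝ) / ((1 : ℕ) : ℝ)) * (E 0))) + (-90539 / 250000 : ℝ) * TT D (((((1 : ℤ) : ℝ) / ((9 : ℕ) : ℝ)) * π) + ((((29 : ℤ) : ℝ) / ((6 : ℕ) : ℝ)) * (E 0))) + (-90539 / 8000000 : ℝ) * TT D (((((5 : ℤ) : ℝ) / ((18 : ℕ) : ℝ)) * π) + ((((1 : ℤ) : ℝ) / ((3 : ℕ) : ℝ)) * (E 0)))) ≤ 0 := by
  have p1 := pi_gt_d4
  have p2 := pi_lt_d4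
  have t1 := h.t1
  have t2 := h.t2
  have r := rayL A.cont A.b2 (((((5 : ℤ) : ℝ) / ((18 : ℕ) : ℝ)) * π) + ((((1 : ℤ) : ℝ) / ((3 : ℕ) : ℝ)) * (E 0))) (((((3 : ℤ) : ℝ) / ((2 : ℕ) : ℝ)) * π) + ((((-10 : ℤ) : ℝ) / ((1 : ℕ) : ℝ)) * (E 0))) (((((1 : ℤ) : ℝ) / ((9 : ℕ) : ℝ)) * π) + ((((29 : ℤ) : ℝ) / ((6 : ℕ) : ℝ)) * (E 0))) (((((1 : ℤ) : ℝ) / ((2 : ℕ) : ℝ)) * π) + ((((-3 : ℤ) : ℝ) / ((1 : ℕ) : ℝ)) * (E 0))) (((((25 : ℤ) : ℝ) / ((18 : ℕ) : ℝ)) * π) + ((((-25 : ℤ) : ℝ) / ((3 : ℕ) : ℝ)) * (E 0))) (((((1 : ℤ) : ℝ) / ((18 : ℕ) : ℝ)) * π) + ((((17 : ℤ) : ℝ) / ((3 : ℕ) : ℝ)) * (E 0)))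
    (((((1 : ℤ) : ℝ) / ((9 : ℕ) : ℝ)) * π) + ((((-5 : ℤ) : ℝ) / ((3 : ℕ) : ℝ)) * (E 0))) (2 : ℝ) (-1 : ℝ) (-1 / 2 : ℝ) (0 : ℝ) ((90539 / 2000000 : ℝ)) (by linarith only [p1, p2, t1, t2])
    (by norm_num) (by norm_num) (by norm_num) (by ring) (by ring) (by ring) (by ring) (by ring) (by norm_num) (by norm_num)
    ⟨by linarith only [p1, p2, t1, t2], by linarith only [p1, p2, t1, t2], by linarith only [p1, p2, t1, t2], by linarith only [p1, p2, t1, t2], by linarith only [p1, p2, t1, t2], by linarith only [p1, p2, t1, t2]⟩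
    ⟨by linarith only [p1, p2, t1, t2], by linarith only [p1, p2, t1, t2], by linarith only [p1, p2, t1, t2], by linarith only [p1, p2, t1, t2], by linarith only [p1, p2, t1, t2], by linarith only [p1, p2, t1, t2]⟩
  unfold sd at r
  rw [(fo10 A).1, (fo10 A).2.1, (fo6 A).1, (fo6 A).2.1] at r
  linear_combination r

theorem ry16 (h : H E) (A : Adm1 (E 0) D) : ((-7572983 / 324000000 : ℝ) * π * KK D (((((-11 : ℤ) : ℝ) / ((18 : ℕ) : ℝ)) * π) + ((((35 : ℤ) : ℝ) / ((3 : ℕ) : ℝ)) * (E 0))) + (7572983 / 324000000 : ℝ) * π * KK D (((((-5 : ℤ) : ℝ) / ((18 : ℕ) : ℝ)) * π) + ((((20 : ℤ) : ℝ) / ((3 : ℕ) : ℝ)) * (E 0))) + (-4819171 / 36000000 : ℝ) * π * KK D (((((1 : ℤ) : ℝ) / ((2 : ℕ) : ℝ)) * π) + ((((-3 : ℤ) : ℝ) / ((1 : ℕ) : ℝ))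 * (E 0))) + (4819171 / 36000000 : ℝ) * π * KK D (((((7 : ℤ) : ℝ) / ((18 : ℕ) : ℝ)) * π) + ((((-4 : ℤ) : ℝ) / ((3 : ℕ) : ℝ)) * (E 0))) + (4819171 / 10800000 : ℝ) * E 0 * KK D (((((-11 : ℤ) : ℝ) / ((18 : ℕ) : ℝ)) * π) + ((((35 : ℤ) : ℝ) / ((3 : ℕ) : ℝ)) * (E 0))) + (-4819171 / 10800000 : ℝ) * E 0 * KK D (((((-5 : ℤ) : ℝ) / ((18 : ℕ) : ℝ)) * π) + ((((20 : ℤ) : ℝ) / ((3 : ℕ) : ℝ)) * (E 0))) + (688453 / 1500000 : ℝ) * E 0 * KK D (((((1 : ℤ) : ℝ) / ((2 : ℕ) : ℝ)) * π) + ((((-3 : ℤ) : ℝ) / ((1 : ℕ) : ℝ)) * (E 0))) + (-8949889 / 2000000 : ℝ) * E 0 * KK D (((((1 : ℤ) : ℝ) / ((9 : ℕ) : ℝ)) * π) + ((((29 : ℤ) : ℝ) / ((6 : ℕ) : ℝ)) * (E 0))) + (-688453 / 1500000 : ℝ) * E 0 * KK D (((((7 : ℤ) : ℝ) / ((18 : ℕ) : ℝ)) * π) + ((((-4 :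 ℤ) : ℝ) / ((3 : ℕ) : ℝ)) * (E 0))) + (8949889 / 2000000 : ℝ) * E 0 * KK D ((((13 : ℤ) : ℝ) / ((2 : ℕ) : ℝ)) * (E 0)) + (-688453 / 18000000 : ℝ) * TT D (((((-11 : ℤ) : ℝ) / ((18 : ℕ) : ℝ)) * π) + ((((35 : ℤ) : ℝ) / ((3 : ℕ) : ℝ)) * (E 0))) + (688453 / 18000000 : ℝ) * TT D (((((-5 : ℤ) : ℝ) / ((18 : ℕ) : ℝ)) * π) + ((((20 : ℤ) : ℝ) / ((3 : ℕ) : ℝ)) * (E 0))) + (688453 / 2000000 : ℝ) * TT D (((((1 : ℤ) : ℝ) / ((2 : ℕ) : ℝ)) * π) + ((((-3 : ℤ) : ℝ) / ((1 : ℕ) : ℝ)) * (E 0))) + (688453 / 1000000 : ℝ) * TT D (((((1 : ℤ) : ℝ) / ((9 : ℕ) : ℝ)) * π) + ((((29 : ℤ) : ℝ) / ((6 : ℕ) : ℝ)) * (E 0))) + (-688453 / 2000000 : ℝ) * TT D (((((7 : ℤ) : ℝ) / ((18 : ℕ) : ℝ)) * π) + ((((-4 : ℤ) : ℝ) / ((3 : ℕ) : ℝ)) * (E 0))) + (-688453 / 1000000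 : ℝ) * TT D ((((13 : ℤ) : ℝ) / ((2 : ℕ) : ℝ)) * (E 0))) ≤ 0 := by
  have p1 := pi_gt_d4
  have p2 := pi_lt_d4
  have t1 := h.t1
  have t2 := h.t2
  have r := rayL A.cont A.b2 (((((1 : ℤ) : ℝ) / ((2 : ℕ) : ℝ)) * π) + ((((-3 : ℤ) : ℝ) / ((1 : ℕ) : ℝ)) * (E 0))) (((((23 : ℤ) : ℝ) / ((18 : ℕ) : ℝ)) * π) + ((((-20 : ℤ) : ℝ) / ((3 : ℕ) : ℝ)) * (E 0))) (((((1 : ℤ) : ℝ) / ((9 : ℕ) : ℝ)) * π) + ((((29 : ℤ) : ℝ) / ((6 : ℕ) : ℝ)) * (E 0))) (((((7 : ℤ) : ℝ) / ((18 : ℕ) : ℝ)) * π) + ((((-4 : ℤ) : ℝ) / ((3 : ℕ) : ℝ)) * (E 0))) (((((29 : ℤ) : ℝ) / ((18 : ℕ) : ℝ)) * π) + ((((-35 : ℤ) : ℝ) / ((3 : ℕ) : ℝ)) * (E 0))) ((((13 : ℤ) : ℝ) / ((2 : ℕ) : ℝ)) * (E 0))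
    (((((1 : ℤ) : ℝ) / ((9 : ℕ) : ℝ)) * π) + ((((-5 : ℤ) : ℝ) / ((3 : ℕ) : ℝ)) * (E 0))) (-1 : ℝ) (3 : ℝ) (-1 : ℝ) ((688453 / 2000000 : ℝ)) (0 : ℝ) (by linarith only [p1, p2, t1, t2])
    (by norm_num) (by norm_num) (by norm_num) (by ring) (by ring) (by ring) (by ring) (by ring) (by norm_num) (by norm_num)
    ⟨by linarith only [p1, p2, t1, t2], by linarith only [p1, p2, t1, t2], by linarith only [p1, p2, t1, t2], by linarith only [p1, p2, t1, t2], by linarith only [p1, p2, t1, t2], by linarith only [p1, p2, t1, t2]⟩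
    ⟨by linarith only [p1, p2, t1, t2], by linarith only [p1, p2, t1, t2], by linarith only [p1, p2, t1, t2], by linarith only [p1, p2, t1, t2], by linarith only [p1, p2, t1, t2], by linarith only [p1, p2, t1, t2]⟩
  unfold sd at r
  rw [(fo5 A).1, (fo5 A).2.1, (fo14 A).1, (fo14 A).2.1] at r
  linear_combination r

theorem ry17 (h : H E) (A : Adm1 (E 0) D) : ((-11425607 / 288000000 : ℝ) * π * KK D (((((-13 : ℤ) : ℝ) / ((18 : ℕ) : ℝ)) * π) + ((((40 : ℤ) : ℝ) / ((3 : ℕ) : ℝ)) * (E 0))) + (11425607 / 288000000 : ℝ) * π * KK D (((((-5 : ℤ) : ℝ) / ((18 : ℕ) : ℝ)) * π) + ((((20 : ℤ) : ℝ) / ((3 : ℕ) : ℝ)) * (E 0))) + (-1104431 / 72000000 : ℝ) * π * KK D (((((1 : ℤ) : ℝ) / ((2 : ℕ) : ℝ)) * π) + ((((-3 : ℤ) : ℝ) / ((1 : ℕ) : ℝ))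 * (E 0))) + (14528 / 140625 : ℝ) * π * KK D (((((1 : ℤ) : ℝ) / ((9 : ℕ) : ℝ)) * π) + ((((29 : ℤ) : ℝ) / ((6 : ℕ) : ℝ)) * (E 0))) + (1104431 / 72000000 : ℝ) * π * KK D (((((5 : ℤ) : ℝ) / ((18 : ℕ) : ℝ)) * π) + ((((1 : ℤ) : ℝ) / ((3 : ℕ) : ℝ)) * (E 0))) + (-14528 / 140625 : ℝ) * π * KK D ((((13 : ℤ) : ℝ) / ((2 : ℕ) : ℝ)) * (E 0)) + (825251 / 1200000 : ℝ) * E 0 * KK D (((((-13 : ℤ) : ℝ) / ((18 : ℕ) : ℝ)) * π) + ((((40 : ℤ) : ℝ) / ((3 : ℕ) : ℝ)) * (E 0))) + (-825251 / 1200000 : ℝ) * E 0 * KK D (((((-5 : ℤ) : ℝ) / ((18 : ℕ) : ℝ)) * π) + ((((20 : ℤ) : ℝ) / ((3 : ℕ) : ℝ)) * (E 0))) + (-5241763 / 12000000 : ℝ) * E 0 * KK D (((((1 : ℤ) : ℝ) / ((2 : ℕ) : ℝ)) * π) + ((((-3 : ℤ) : ℝ) / ((1 : ℕ) : ℝ)) * (E 0))) + (-27768277 / 3000000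 : ℝ) * E 0 * KK D (((((1 : ℤ) : ℝ) / ((9 : ℕ) : ℝ)) * π) + ((((29 : ℤ) : ℝ) / ((6 : ℕ) : ℝ)) * (E 0))) + (5241763 / 12000000 : ℝ) * E 0 * KK D (((((5 : ℤ) : ℝ) / ((18 : ℕ) : ℝ)) * π) + ((((1 : ℤ) : ℝ) / ((3 : ℕ) : ℝ)) * (E 0))) + (27768277 / 3000000 : ℝ) * E 0 * KK D ((((13 : ℤ) : ℝ) / ((2 : ℕ) : ℝ)) * (E 0)) + (-592803 / 16000000 : ℝ) * TT D (((((-13 : ℤ) : ℝ) / ((18 : ℕ) : ℝ)) * π) + ((((40 : ℤ) : ℝ) / ((3 : ℕ) : ℝ)) * (E 0))) + (592803 / 16000000 : ℝ) * TT D (((((-5 : ℤ) : ℝ) / ((18 : ℕ) : ℝ)) * π) + ((((20 : ℤ) : ℝ) / ((3 : ℕ) : ℝ)) * (E 0))) + (592803 / 4000000 : ℝ) * TT D (((((1 : ℤ) : ℝ) / ((2 : ℕ) : ℝ)) * π) + ((((-3 : ℤ) : ℝ) / ((1 : ℕ) : ℝ)) * (E 0))) + (592803 / 500000 : ℝ) * TT D (((((1 : ℤ) : ℝ) / ((9 : ℕ)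 : ℝ)) * π) + ((((29 : ℤ) : ℝ) / ((6 : ℕ) : ℝ)) * (E 0))) + (-592803 / 4000000 : ℝ) * TT D (((((5 : ℤ) : ℝ) / ((18 : ℕ) : ℝ)) * π) + ((((1 : ℤ) : ℝ) / ((3 : ℕ) : ℝ)) * (E 0))) + (-592803 / 500000 : ℝ) * TT D ((((13 : ℤ) : ℝ) / ((2 : ℕ) : ℝ)) * (E 0))) ≤ 0 := by
  have p1 := pi_gt_d4
  have p2 := pi_lt_d4
  have t1 := h.t1
  have t2 := h.t2
  have r := rayL A.cont A.b2 (((((1 : ℤ) : ℝ) / ((2 : ℕ) : ℝ)) * π) + ((((-3 : ℤ) : ℝ) / ((1 : ℕ) : ℝ)) * (E 0))) (((((23 : ℤ) : ℝ) / ((18 : ℕ) : ℝ)) * π) + ((((-20 : ℤ) : ℝ) / ((3 : ℕ) : ℝ)) * (E 0))) (((((1 : ℤ) : ℝ) / ((9 : ℕ) : ℝ)) * π) + ((((29 : ℤ) : ℝ) / ((6 : ℕ) : ℝ)) * (E 0))) (((((5 : ℤ) : ℝ) / ((18 : ℕ) : ℝ)) * π) + ((((1 : ℤ) : ℝ) / ((3 : ℕ) : ℝ)) * (E 0))) (((((31 : ℤ) :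 ℝ) / ((18 : ℕ) : ℝ)) * π) + ((((-40 : ℤ) : ℝ) / ((3 : ℕ) : ℝ)) * (E 0))) ((((13 : ℤ) : ℝ) / ((2 : ℕ) : ℝ)) * (E 0))
    (((((1 : ℤ) : ℝ) / ((9 : ℕ) : ℝ)) * π) + ((((-5 : ℤ) : ℝ) / ((3 : ℕ) : ℝ)) * (E 0))) (-2 : ℝ) (4 : ℝ) (-1 : ℝ) ((1057699 / 1000000 : ℝ)) ((7264 / 15625 : ℝ)) (by linarith only [p1, p2, t1, t2])
    (by norm_num) (by norm_num) (by norm_num) (by ring) (by ring) (by ring) (by ring) (by ring) (by norm_num) (by norm_num)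
    ⟨by linarith only [p1, p2, t1, t2], by linarith only [p1, p2, t1, t2], by linarith only [p1, p2, t1, t2], by linarith only [p1, p2, t1, t2], by linarith only [p1, p2, t1, t2], by linarith only [p1, p2, t1, t2]⟩
    ⟨by linarith only [p1, p2, t1, t2], by linarith only [p1, p2, t1, t2], by linarith only [p1, p2, t1, t2], by linarith only [p1, p2, t1, t2], by linarith only [p1, p2, t1, t2], by linarith only [p1, p2, t1, t2]⟩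
  unfold sd at r
  rw [(fo5 A).1, (fo5 A).2.1, (fo18 A).1, (fo18 A).2.1] at r
  linear_combination r

theorem ry18 (h : H E) (A : Adm1 (E 0) D) : ((-90539 / 6000000 : ℝ) * π * KK D (((((-1 : ℤ) : ℝ) / ((2 : ℕ) : ℝ)) * π) + ((((10 : ℤ) : ℝ) / ((1 : ℕ) : ℝ)) * (E 0))) + (90539 / 6000000 : ℝ) * π * KK D (((((-11 : ℤ) : ℝ) / ((18 : ℕ) : ℝ)) * π) + ((((35 : ℤ) : ℝ) / ((3 : ℕ) : ℝ)) * (E 0))) + (90539 / 24000000 : ℝ) * π * KK D (((((1 : ℤ) : ℝ) / ((2 : ℕ) : ℝ)) * π) + ((((-3 : ℤ) : ℝ) / ((1 : ℕ) : ℝ)) * (E 0))) + (-90539 / 24000000 : ℝ) * π * KK D (((((5 : ℤ) : ℝ) / ((18 : ℕ) : ℝ)) * π) + ((((1 : ℤ) : ℝ) / ((3 : ℕ) : ℝ)) * (E 0))) + (90539 / 300000 : ℝ) * E 0 * KK D (((((-1 : ℤ) : ℝ) / ((2 : ℕ) : ℝ)) * π) + ((((10 : ℤ) : ℝ)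 / ((1 : ℕ) : ℝ)) * (E 0))) + (-90539 / 300000 : ℝ) * E 0 * KK D (((((-11 : ℤ) : ℝ) / ((18 : ℕ) : ℝ)) * π) + ((((35 : ℤ) : ℝ) / ((3 : ℕ) : ℝ)) * (E 0))) + (-1177007 / 750000 : ℝ) * E 0 * KK D (((((1 : ℤ) : ℝ) / ((18 : ℕ) : ℝ)) * π) + ((((17 : ℤ) : ℝ) / ((3 : ℕ) : ℝ)) * (E 0))) + (-90539 / 4000000 : ℝ) * E 0 * KK D (((((1 : ℤ) : ℝ) / ((2 : ℕ) : ℝ)) * π) + ((((-3 : ℤ) : ℝ) / ((1 : ℕ) : ℝ)) * (E 0))) + (90539 / 4000000 : ℝ) * E 0 * KK D (((((5 : ℤ) : ℝ) / ((18 : ℕ) : ℝ)) * π) + ((((1 : ℤ) : ℝ) / ((3 : ℕ) : ℝ)) * (E 0))) + (1177007 / 750000 : ℝ) * E 0 * KK D ((((13 : ℤ) : ℝ) / ((2 : ℕ) : ℝ)) * (E 0)) + (-90539 / 3000000 : ℝ) * TT D (((((-1 : ℤ) : ℝ) / ((2 : ℕ) : ℝ)) * π) + ((((10 : ℤ) : ℝ) / ((1 : ℕ) : ℝ)) * (E 0))) + (90539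 / 3000000 : ℝ) * TT D (((((-11 : ℤ) : ℝ) / ((18 : ℕ) : ℝ)) * π) + ((((35 : ℤ) : ℝ) / ((3 : ℕ) : ℝ)) * (E 0))) + (90539 / 375000 : ℝ) * TT D (((((1 : ℤ) : ℝ) / ((18 : ℕ) : ℝ)) * π) + ((((17 : ℤ) : ℝ) / ((3 : ℕ) : ℝ)) * (E 0))) + (-90539 / 12000000 : ℝ) * TT D (((((1 : ℤ) : ℝ) / ((2 : ℕ) : ℝ)) * π) + ((((-3 : ℤ) : ℝ) / ((1 : ℕ) : ℝ)) * (E 0))) + (90539 / 12000000 : ℝ) * TT D (((((5 : ℤ) : ℝ) / ((18 : ℕ) : ℝ)) * π) + ((((1 : ℤ) : ℝ) / ((3 : ℕ) : ℝ)) * (E 0))) + (-90539 / 375000 : ℝ) * TT D ((((13 : ℤ) : ℝ) / ((2 : ℕ) : ℝ)) * (E 0))) ≤ 0 := by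
  have p1 := pi_gt_d4
  have p2 := pi_lt_d4
  have t1 := h.t1
  have t2 := h.t2
  have r := rayL A.cont A.b2 (((((5 : ℤ) : ℝ) / ((18 : ℕ) : ℝ)) * π) + ((((1 : ℤ) : ℝ) / ((3 : ℕ) : ℝ)) * (E 0))) (((((29 : ℤ) : ℝ) / ((18 : ℕ) : ℝ)) * π) + ((((-35 : ℤ) : ℝ) / ((3 : ℕ) : ℝ)) * (E 0))) (((((1 : ℤ) : ℝ) / ((18 : ℕ) : ℝ)) * π) + ((((17 : ℤ) : ℝ) / ((3 : ℕ) : ℝ)) * (E 0))) (((((1 : ℤ) : ℝ) / ((2 : ℕ) : ℝ)) * π) + ((((-3 : ℤ) : ℝ) / ((1 : ℕ) : ℝ)) * (E 0))) (((((3 : ℤ) : ℝ) / ((2 : ℕ) : ℝ)) * π) + ((((-10 : ℤ) : ℝ) / ((1 : ℕ) : ℝ)) * (E 0))) ((((13 : ℤ) : ℝ) / ((2 : ℕ) : ℝ)) * (E 0))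
    (((((1 : ℤ) : ℝ) / ((9 : ℕ) : ℝ)) * π) + ((((-5 : ℤ) : ℝ) / ((3 : ℕ) : ℝ)) * (E 0))) (2 : ℝ) (-1 : ℝ) (-1 / 2 : ℝ) ((90539 / 3000000 : ℝ)) (0 : ℝ) (by linarith only [p1, p2, t1, t2])
    (by norm_num) (by norm_num) (by norm_num) (by ring) (by ring) (by ring) (by ring) (by ring) (by norm_num) (by norm_num)
    ⟨by linarith only [p1, p2, t1, t2], by linarith only [p1, p2, t1, t2], by linarith only [p1, p2, t1, t2], by linarith only [p1, p2, t1, t2], by linarith only [p1, p2, t1, t2], by linarith only [p1, p2, t1, t2]⟩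
    ⟨by linarith only [p1, p2, t1, t2], by linarith only [p1, p2, t1, t2], by linarith only [p1, p2, t1, t2], by linarith only [p1, p2, t1, t2], by linarith only [p1, p2, t1, t2], by linarith only [p1, p2, t1, t2]⟩
  unfold sd at r
  rw [(fo14 A).1, (fo14 A).2.1, (fo10 A).1, (fo10 A).2.1] at r
  linear_combination r

theorem ry19 (h : H E) (A : Adm1 (E 0) D) : ((-90539 / 9000000 : ℝ) * π * KK D (((((-1 : ℤ) : ℝ) / ((18 : ℕ) : ℝ)) * π) + ((((22 : ℤ) : ℝ) / ((3 : ℕ) : ℝ)) * (E 0))) + (1539163 / 162000000 : ℝ) * π * KK D (((((-11 : ℤ) : ℝ) / ((18 : ℕ) : ℝ)) * π) + ((((35 : ℤ) : ℝ) / ((3 : ℕ) : ℝ)) * (E 0))) + (90539 / 9000000 : ℝ) * π * KK D (((((1 : ℤ) : ℝ) / ((18 : ℕ) : ℝ)) * π) + ((((17 : ℤ) : ℝ) / ((3 : ℕ) : ℝ)) * (E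 0))) + (90539 / 6000000 : ℝ) * π * KK D (((((1 : ℤ) : ℝ) / ((6 : ℕ) : ℝ)) * π) + ((((2 : ℤ) : ℝ) / ((1 : ℕ) : ℝ)) * (E 0))) + (-1539163 / 162000000 : ℝ) * π * KK D (((((17 : ℤ) : ℝ) / ((18 : ℕ) : ℝ)) * π) + ((((-50 : ℤ) : ℝ) / ((3 : ℕ) : ℝ)) * (E 0))) + (-90539 / 6000000 : ℝ) * π * KK D (((((5 : ℤ) : ℝ) / ((18 : ℕ) : ℝ)) * π) + ((((1 : ℤ) : ℝ) / ((3 : ℕ) : ℝ)) * (E 0))) + (995929 / 750000 : ℝ) * E 0 * KK D (((((-1 : ℤ) : ℝ) / ((18 : ℕ) : ℝ)) * π) + ((((22 : ℤ) : ℝ) / ((3 : ℕ) : ℝ)) * (E 0))) + (-90539 / 540000 : ℝ) * E 0 * KK D (((((-11 : ℤ) : ℝ) / ((18 : ℕ) : ℝ)) * π) + ((((35 : ℤ) : ℝ) / ((3 : ℕ) : ℝ)) * (E 0))) + (-995929 / 750000 : ℝ) * E 0 * KK D (((((1 : ℤ) : ℝ) / ((18 : ℕ) : ℝ)) * π) + ((((17 : ℤ) : ℝ) / ((3 : ℕ)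 : ℝ)) * (E 0))) + (90539 / 500000 : ℝ) * E 0 * KK D (((((1 : ℤ) : ℝ) / ((6 : ℕ) : ℝ)) * π) + ((((2 : ℤ) : ℝ) / ((1 : ℕ) : ℝ)) * (E 0))) + (90539 / 540000 : ℝ) * E 0 * KK D (((((17 : ℤ) : ℝ) / ((18 : ℕ) : ℝ)) * π) + ((((-50 : ℤ) : ℝ) / ((3 : ℕ) : ℝ)) * (E 0))) + (-90539 / 500000 : ℝ) * E 0 * KK D (((((5 : ℤ) : ℝ) / ((18 : ℕ) : ℝ)) * π) + ((((1 : ℤ) : ℝ) / ((3 : ℕ) : ℝ)) * (E 0))) + (-90539 / 500000 : ℝ) * TT D (((((-1 : ℤ) : ℝ) / ((18 : ℕ) : ℝ)) * π) + ((((22 : ℤ) : ℝ) / ((3 : ℕ) : ℝ)) * (E 0))) + (90539 / 9000000 : ℝ) * TT D (((((-11 : ℤ) : ℝ) / ((18 : ℕ) : ℝ)) * π) + ((((35 : ℤ) : ℝ) / ((3 : ℕ) : ℝ)) * (E 0))) + (90539 / 500000 : ℝ) * TT D (((((1 : ℤ) : ℝ) / ((18 : ℕ) : ℝ)) * π) + ((((17 : ℤ) : ℝ) / ((3 : ℕ) : ℝ)) * (E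 0))) + (-90539 / 1000000 : ℝ) * TT D (((((1 : ℤ) : ℝ) / ((6 : ℕ) : ℝ)) * π) + ((((2 : ℤ) : ℝ) / ((1 : ℕ) : ℝ)) * (E 0))) + (90539 / 9000000 : ℝ) * TT D (((((17 : ℤ) : ℝ) / ((18 : ℕ) : ℝ)) * π) + ((((-50 : ℤ) : ℝ) / ((3 : ℕ) : ℝ)) * (E 0))) + (90539 / 1000000 : ℝ) * TT D (((((5 : ℤ) : ℝ) / ((18 : ℕ) : ℝ)) * π) + ((((1 : ℤ) : ℝ) / ((3 : ℕ) : ℝ)) * (E 0)))) ≤ 0 := by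
  have p1 := pi_gt_d4
  have p2 := pi_lt_d4
  have t1 := h.t1
  have t2 := h.t2
  have r := rayL A.cont A.b2 (((((5 : ℤ) : ℝ) / ((18 : ℕ) : ℝ)) * π) + ((((1 : ℤ) : ℝ) / ((3 : ℕ) : ℝ)) * (E 0))) (((((29 : ℤ) : ℝ) / ((18 : ℕ) : ℝ)) * π) + ((((-35 : ℤ) : ℝ) / ((3 : ℕ) : ℝ)) * (E 0))) (((((1 : ℤ) : ℝ) / ((18 : ℕ) : ℝ)) * π) + ((((17 : ℤ) : ℝ) / ((3 : ℕ) : ℝ)) * (E 0))) (((((1 : ℤ) : ℝ) / ((6 : ℕ) : ℝ)) * π) + ((((2 : ℤ) : ℝ) / ((1 : ℕ) : ℝ)) * (E 0))) (((((35 : ℤ) : ℝ) / ((18 : ℕ) : ℝ)) * π) + ((((-50 : ℤ) : ℝ) / ((3 : ℕ) : ℝ)) * (E 0))) (((((-1 : ℤ) : ℝ) / ((18 : ℕ) : ℝ)) * π) + ((((22 : ℤ) : ℝ) / ((3 : ℕ) : ℝ)) * (E 0)))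
    (((((1 : ℤ) : ℝ) / ((9 : ℕ) : ℝ)) * π) + ((((-5 : ℤ) : ℝ) / ((3 : ℕ) : ℝ)) * (E 0))) (-1 : ℝ) (3 : ℝ) (-1 : ℝ) ((90539 / 1000000 : ℝ)) (0 : ℝ) (by linarith only [p1, p2, t1, t2])
    (by norm_num) (by norm_num) (by norm_num) (by ring) (by ring) (by ring) (by ring) (by ring) (by norm_num) (by norm_num)
    ⟨by linarith only [p1, p2, t1, t2], by linarith only [p1, p2, t1, t2], by linarith only [p1, p2, t1, t2], by linarith only [p1, p2, t1, t2], by linarith only [p1, p2, t1, t2], by linarith only [p1, p2, t1, t2]⟩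
    ⟨by linarith only [p1, p2, t1, t2], by linarith only [p1, p2, t1, t2], by linarith only [p1, p2, t1, t2], by linarith only [p1, p2, t1, t2], by linarith only [p1, p2, t1, t2], by linarith only [p1, p2, t1, t2]⟩
  unfold sd at r
  rw [(fo14 A).1, (fo14 A).2.1, (fo22 A).1, (fo22 A).2.1] at r
  linear_combination r

theorem ry20 (h : H E) (A : Adm1 (E 0) D) : ((-14528 / 140625 : ℝ) * π * KK D (((((-1 : ℤ) : ℝ) / ((18 : ℕ) : ℝ)) * π) + ((((22 : ℤ) : ℝ) / ((3 : ℕ) : ℝ)) * (E 0))) + (7718 / 140625 : ℝ) * π * KK D (((((-13 : ℤ) : ℝ) / ((18 : ℕ) : ℝ)) * π) + ((((40 : ℤ) : ℝ) / ((3 : ℕ) : ℝ)) * (E 0))) + (1816 / 46875 : ℝ) * π * KK D (((((1 : ℤ) : ℝ) / ((6 : ℕ) : ℝ)) * π) + ((((2 : ℤ) : ℝ) / ((1 : ℕ) : ℝ)) * (E 0))) + (-7718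 / 140625 : ℝ) * π * KK D (((((17 : ℤ) : ℝ) / ((18 : ℕ) : ℝ)) * π) + ((((-50 : ℤ) : ℝ) / ((3 : ℕ) : ℝ)) * (E 0))) + (-1816 / 46875 : ℝ) * π * KK D (((((5 : ℤ) : ℝ) / ((18 : ℕ) : ℝ)) * π) + ((((1 : ℤ) : ℝ) / ((3 : ℕ) : ℝ)) * (E 0))) + (14528 / 140625 : ℝ) * π * KK D ((((13 : ℤ) : ℝ) / ((2 : ℕ) : ℝ)) * (E 0)) + (639232 / 46875 : ℝ) * E 0 * KK D (((((-1 : ℤ) : ℝ) / ((18 : ℕ) : ℝ)) * π) + ((((22 : ℤ) : ℝ) / ((3 : ℕ) : ℝ)) * (E 0))) + (-1816 / 1875 : ℝ) * E 0 * KK D (((((-13 : ℤ) : ℝ) / ((18 : ℕ) : ℝ)) * π) + ((((40 : ℤ) : ℝ) / ((3 : ℕ) : ℝ)) * (E 0))) + (7264 / 15625 : ℝ) * E 0 * KK D (((((1 : ℤ) : ℝ) / ((6 : ℕ) : ℝ)) * π) + ((((2 : ℤ) : ℝ) / ((1 : ℕ) : ℝ)) * (E 0))) + (1816 / 1875 : ℝ) * E 0 * KK D (((((17 : ℤ) : ℝ) / ((18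 : ℕ) : ℝ)) * π) + ((((-50 : ℤ) : ℝ) / ((3 : ℕ) : ℝ)) * (E 0))) + (-7264 / 15625 : ℝ) * E 0 * KK D (((((5 : ℤ) : ℝ) / ((18 : ℕ) : ℝ)) * π) + ((((1 : ℤ) : ℝ) / ((3 : ℕ) : ℝ)) * (E 0))) + (-639232 / 46875 : ℝ) * E 0 * KK D ((((13 : ℤ) : ℝ) / ((2 : ℕ) : ℝ)) * (E 0)) + (-29056 / 15625 : ℝ) * TT D (((((-1 : ℤ) : ℝ) / ((18 : ℕ) : ℝ)) * π) + ((((22 : ℤ) : ℝ) / ((3 : ℕ) : ℝ)) * (E 0))) + (908 / 15625 : ℝ) * TT D (((((-13 : ℤ) : ℝ) / ((18 : ℕ) : ℝ)) * π) + ((((40 : ℤ) : ℝ) / ((3 : ℕ) : ℝ)) * (E 0))) + (-3632 / 15625 : ℝ) * TT D (((((1 : ℤ) : ℝ) / ((6 : ℕ) : ℝ)) * π) + ((((2 : ℤ) : ℝ) / ((1 : ℕ) : ℝ)) * (E 0))) + (908 / 15625 : ℝ) * TT D (((((17 : ℤ) : ℝ) / ((18 : ℕ) : ℝ)) * π) + ((((-50 : ℤ) : ℝ) / ((3 : ℕ) : ℝ)) * (E 0))) + (3632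 / 15625 : ℝ) * TT D (((((5 : ℤ) : ℝ) / ((18 : ℕ) : ℝ)) * π) + ((((1 : ℤ) : ℝ) / ((3 : ℕ) : ℝ)) * (E 0))) + (29056 / 15625 : ℝ) * TT D ((((13 : ℤ) : ℝ) / ((2 : ℕ) : ℝ)) * (E 0))) ≤ 0 := by
  have p1 := pi_gt_d4
  have p2 := pi_lt_d4
  have t1 := h.t1
  have t2 := h.t2
  have r := rayL A.cont A.b2 (((((5 : ℤ) : ℝ) / ((18 : ℕ) : ℝ)) * π) + ((((1 : ℤ) : ℝ) / ((3 : ℕ) : ℝ)) * (E 0))) (((((31 : ℤ) : ℝ) / ((18 : ℕ) : ℝ)) * π) + ((((-40 : ℤ) : ℝ) / ((3 : ℕ) : ℝ)) * (E 0))) ((((13 : ℤ) : ℝ) / ((2 : ℕ) : ℝ)) * (E 0)) (((((1 : ℤ) : ℝ) / ((6 : ℕ) : ℝ)) * π) + ((((2 : ℤ) : ℝ) / ((1 : ℕ) : ℝ)) * (E 0))) (((((35 : ℤ) : ℝ) / ((18 : ℕ) : ℝ)) * π) + ((((-50 : ℤ) : ℝ) / ((3 : ℕ) : ℝ)) * (E 0))) (((((-1 : ℤ) : ℝ) / ((18 : ℕ) : ℝ)) * π) +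 ((((22 : ℤ) : ℝ) / ((3 : ℕ) : ℝ)) * (E 0)))
    (((((1 : ℤ) : ℝ) / ((9 : ℕ) : ℝ)) * π) + ((((-5 : ℤ) : ℝ) / ((3 : ℕ) : ℝ)) * (E 0))) (-1 : ℝ) (2 : ℝ) (-1 / 2 : ℝ) ((3632 / 15625 : ℝ)) (0 : ℝ) (by linarith only [p1, p2, t1, t2])
    (by norm_num) (by norm_num) (by norm_num) (by ring) (by ring) (by ring) (by ring) (by ring) (by norm_num) (by norm_num)
    ⟨by linarith only [p1, p2, t1, t2], by linarith only [p1, p2, t1, t2], by linarith only [p1, p2, t1, t2], by linarith only [p1, p2, t1, t2], by linarith only [p1, p2, t1, t2], by linarith only [p1, p2, t1, t2]⟩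
    ⟨by linarith only [p1, p2, t1, t2], by linarith only [p1, p2, t1, t2], by linarith only [p1, p2, t1, t2], by linarith only [p1, p2, t1, t2], by linarith only [p1, p2, t1, t2], by linarith only [p1, p2, t1, t2]⟩
  unfold sd at r
  rw [(fo18 A).1, (fo18 A).2.1, (fo22 A).1, (fo22 A).2.1] at r
  linear_combination r

theorem ry21 (h : H E) (A : Adm1 (E 0) D) : ((79789979 / 2268000000 : ℝ) * π * KK D (((((-5 : ℤ) : ℝ) / ((18 : ℕ) : ℝ)) * π) + ((((17 : ℤ) : ℝ) / ((3 : ℕ) : ℝ)) * (E 0))) + (-79789979 / 2268000000 : ℝ) * π * KK D (((((-7 : ℤ) : ℝ) / ((18 : ℕ) : ℝ)) * π) + ((((22 : ℤ) : ℝ) / ((3 : ℕ) : ℝ)) * (E 0))) + (-79789979 / 141750000 : ℝ) * π * KK D (((((1 : ℤ) : ℝ) / ((2 : ℕ) : ℝ)) * π) + ((((-3 : ℤ) : ℝ) / ((1 : ℕ)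 : ℝ)) * (E 0))) + (79789979 / 15120000000 : ℝ) * π * KK D (((((1 : ℤ) : ℝ) / ((6 : ℕ) : ℝ)) * π) + ((((2 : ℤ) : ℝ) / ((1 : ℕ) : ℝ)) * (E 0))) + (79789979 / 141750000 : ℝ) * π * KK D (((((5 : ℤ) : ℝ) / ((9 : ℕ) : ℝ)) * π) + ((((-23 : ℤ) : ℝ) / ((6 : ℕ) : ℝ)) * (E 0))) + (-79789979 / 15120000000 : ℝ) * π * KK D (((((7 : ℤ) : ℝ) / ((18 : ℕ) : ℝ)) * π) + ((((-4 : ℤ) : ℝ) / ((3 : ℕ) : ℝ)) * (E 0))) + (-1356429643 / 1890000000 : ℝ) * E 0 * KK D (((((-5 : ℤ) : ℝ) / ((18 : ℕ) : ℝ)) * π) + ((((17 : ℤ) : ℝ) / ((3 : ℕ) : ℝ)) * (E 0))) + (1356429643 / 1890000000 : ℝ) * E 0 * KK D (((((-7 : ℤ) : ℝ) / ((18 : ℕ) : ℝ)) * π) + ((((22 : ℤ) : ℝ) / ((3 : ℕ) : ℝ)) * (E 0))) + (1835169517 / 472500000 : ℝ) * E 0 * KK D (((((1 : ℤ) : ℝ) / ((2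 : ℕ) : ℝ)) * π) + ((((-3 : ℤ) : ℝ) / ((1 : ℕ) : ℝ)) * (E 0))) + (79789979 / 1260000000 : ℝ) * E 0 * KK D (((((1 : ℤ) : ℝ) / ((6 : ℕ) : ℝ)) * π) + ((((2 : ℤ) : ℝ) / ((1 : ℕ) : ℝ)) * (E 0))) + (-1835169517 / 472500000 : ℝ) * E 0 * KK D (((((5 : ℤ) : ℝ) / ((9 : ℕ) : ℝ)) * π) + ((((-23 : ℤ) : ℝ) / ((6 : ℕ) : ℝ)) * (E 0))) + (-79789979 / 1260000000 : ℝ) * E 0 * KK D (((((7 : ℤ) : ℝ) / ((18 : ℕ) : ℝ)) * π) + ((((-4 : ℤ) : ℝ) / ((3 : ℕ) : ℝ)) * (E 0))) + (79789979 / 630000000 : ℝ) * TT D (((((-5 : ℤ) : ℝ) / ((18 : ℕ) : ℝ)) * π) + ((((17 : ℤ) : ℝ) / ((3 : ℕ) : ℝ)) * (E 0))) + (-79789979 / 630000000 : ℝ) * TT D (((((-7 : ℤ) : ℝ) / ((18 : ℕ) : ℝ)) * π) + ((((22 : ℤ) : ℝ) / ((3 : ℕ) : ℝ)) * (E 0))) + (79789979 / 78750000 : ℝ) * TT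 D (((((1 : ℤ) : ℝ) / ((2 : ℕ) : ℝ)) * π) + ((((-3 : ℤ) : ℝ) / ((1 : ℕ) : ℝ)) * (E 0))) + (-79789979 / 2520000000 : ℝ) * TT D (((((1 : ℤ) : ℝ) / ((6 : ℕ) : ℝ)) * π) + ((((2 : ℤ) : ℝ) / ((1 : ℕ) : ℝ)) * (E 0))) + (-79789979 / 78750000 : ℝ) * TT D (((((5 : ℤ) : ℝ) / ((9 : ℕ) : ℝ)) * π) + ((((-23 : ℤ) : ℝ) / ((6 : ℕ) : ℝ)) * (E 0))) + (79789979 / 2520000000 : ℝ) * TT D (((((7 : ℤ) : ℝ) / ((18 : ℕ) : ℝ)) * π) + ((((-4 : ℤ) : ℝ) / ((3 : ℕ) : ℝ)) * (E 0)))) ≤ 0 := by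
  have p1 := pi_gt_d4
  have p2 := pi_lt_d4
  have t1 := h.t1
  have t2 := h.t2
  have r := rayL A.cont A.b2 (((((1 : ℤ) : ℝ) / ((6 : ℕ) : ℝ)) * π) + ((((2 : ℤ) : ℝ) / ((1 : ℕ) : ℝ)) * (E 0))) (((((13 : ℤ) : ℝ) / ((18 : ℕ) : ℝ)) * π) + ((((17 : ℤ) : ℝ) / ((3 : ℕ) : ℝ)) * (E 0))) (((((5 : ℤ) : ℝ) / ((9 : ℕ) : ℝ)) * π) + ((((-23 : ℤ) : ℝ) / ((6 : ℕ) : ℝ)) * (E 0))) (((((7 : ℤ) : ℝ) / ((18 : ℕ) : ℝ)) * π) + ((((-4 : ℤ) : ℝ) / ((3 : ℕ) : ℝ)) * (E 0))) (((((11 : ℤ) : ℝ) / ((18 : ℕ) : ℝ)) * π) + ((((22 : ℤ) : ℝ) / ((3 : ℕ) : ℝ)) * (E 0))) (((((1 : ℤ) : ℝ) / ((2 : ℕ) : ℝ)) * π) + ((((-3 : ℤ) : ℝ) / ((1 : ℕ) : ℝ)) * (E 0)))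
    (((((1 : ℤ) : ℝ) / ((9 : ℕ) : ℝ)) * π) + ((((-5 : ℤ) : ℝ) / ((3 : ℕ) : ℝ)) * (E 0))) (2 : ℝ) (-1 : ℝ) (-1 / 2 : ℝ) (0 : ℝ) ((79789979 / 630000000 : ℝ)) (by linarith only [p1, p2, t1, t2])
    (by norm_num) (by norm_num) (by norm_num) (by ring) (by ring) (by ring) (by ring) (by ring) (by norm_num) (by norm_num)
    ⟨by linarith only [p1, p2, t1, t2], by linarith only [p1, p2, t1, t2], by linarith only [p1, p2, t1, t2], by linarith only [p1, p2, t1, t2], by linarith only [p1, p2, t1, t2], by linarith only [p1, p2, t1, t2]⟩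
    ⟨by linarith only [p1, p2, t1, t2], by linarith only [p1, p2, t1, t2], by linarith only [p1, p2, t1, t2], by linarith only [p1, p2, t1, t2], by linarith only [p1, p2, t1, t2], by linarith only [p1, p2, t1, t2]⟩
  unfold sd at r
  rw [(fo23 A).1, (fo23 A).2.1, (fo24 A).1, (fo24 A).2.1] at r
  linear_combination r

theorem ry22 (h : H E) (A : Adm1 (E 0) D) : ((-12358219 / 360000000 : ℝ) * π * KK D (((((-7 : ℤ) : ℝ) / ((18 : ℕ) : ℝ)) * π) + ((((22 : ℤ) : ℝ) / ((3 : ℕ) : ℝ)) * (E 0))) + (-135940409 / 1620000000 : ℝ) * π * KK D (((((1 : ℤ) : ℝ) / ((2 : ℕ) : ℝ)) * π) + ((((-3 : ℤ) : ℝ) / ((1 : ℕ) : ℝ)) * (E 0))) + (12358219 / 360000000 : ℝ) * π * KK D (((((1 : ℤ) : ℝ) / ((2 : ℕ) : ℝ)) * π) + ((((-9 : ℤ) : ℝ) / ((1 : ℕ) :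 ℝ)) * (E 0))) + (135940409 / 1620000000 : ℝ) * π * KK D (((((11 : ℤ) : ℝ) / ((18 : ℕ) : ℝ)) * π) + ((((-14 : ℤ) : ℝ) / ((3 : ℕ) : ℝ)) * (E 0))) + (12358219 / 648000000 : ℝ) * π * KK D (((((5 : ℤ) : ℝ) / ((18 : ℕ) : ℝ)) * π) + ((((1 : ℤ) : ℝ) / ((3 : ℕ) : ℝ)) * (E 0))) + (-12358219 / 648000000 : ℝ) * π * KK D (((((7 : ℤ) : ℝ) / ((18 : ℕ) : ℝ)) * π) + ((((-4 : ℤ) : ℝ) / ((3 : ℕ) : ℝ)) * (E 0))) + (12358219 / 20000000 : ℝ) * E 0 * KK D (((((-7 : ℤ) : ℝ) / ((18 : ℕ) : ℝ)) * π) + ((((22 : ℤ) : ℝ) / ((3 : ℕ) : ℝ)) * (E 0))) + (86507533 / 135000000 : ℝ) * E 0 * KK D (((((1 : ℤ) : ℝ) / ((2 : ℕ) : ℝ)) * π) + ((((-3 : ℤ) : ℝ) / ((1 : ℕ) : ℝ)) * (E 0))) + (-12358219 / 20000000 : ℝ) * E 0 * KK D (((((1 : ℤ) : ℝ) / ((2 : ℕ) : ℝ)) *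 π) + ((((-9 : ℤ) : ℝ) / ((1 : ℕ) : ℝ)) * (E 0))) + (-86507533 / 135000000 : ℝ) * E 0 * KK D (((((11 : ℤ) : ℝ) / ((18 : ℕ) : ℝ)) * π) + ((((-14 : ℤ) : ℝ) / ((3 : ℕ) : ℝ)) * (E 0))) + (12358219 / 540000000 : ℝ) * E 0 * KK D (((((5 : ℤ) : ℝ) / ((18 : ℕ) : ℝ)) * π) + ((((1 : ℤ) : ℝ) / ((3 : ℕ) : ℝ)) * (E 0))) + (-12358219 / 540000000 : ℝ) * E 0 * KK D (((((7 : ℤ) : ℝ) / ((18 : ℕ) : ℝ)) * π) + ((((-4 : ℤ) : ℝ) / ((3 : ℕ) : ℝ)) * (E 0))) + (-12358219 / 180000000 : ℝ) * TT D (((((-7 : ℤ) : ℝ) / ((18 : ℕ) : ℝ)) * π) + ((((22 : ℤ) : ℝ) / ((3 : ℕ) : ℝ)) * (E 0))) + (12358219 / 90000000 : ℝ) * TT D (((((1 : ℤ) : ℝ) / ((2 : ℕ) : ℝ)) * π) + ((((-3 : ℤ) : ℝ) / ((1 : ℕ) : ℝ)) * (E 0))) + (-12358219 / 180000000 : ℝ) * TT D (((((1 : ℤ)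 : ℝ) / ((2 : ℕ) : ℝ)) * π) + ((((-9 : ℤ) : ℝ) / ((1 : ℕ) : ℝ)) * (E 0))) + (-12358219 / 90000000 : ℝ) * TT D (((((11 : ℤ) : ℝ) / ((18 : ℕ) : ℝ)) * π) + ((((-14 : ℤ) : ℝ) / ((3 : ℕ) : ℝ)) * (E 0))) + (-12358219 / 180000000 : ℝ) * TT D (((((5 : ℤ) : ℝ) / ((18 : ℕ) : ℝ)) * π) + ((((1 : ℤ) : ℝ) / ((3 : ℕ) : ℝ)) * (E 0))) + (12358219 / 180000000 : ℝ) * TT D (((((7 : ℤ) : ℝ) / ((18 : ℕ) : ℝ)) * π) + ((((-4 : ℤ) : ℝ) / ((3 : ℕ) : ℝ)) * (E 0)))) ≤ 0 := by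
  have p1 := pi_gt_d4
  have p2 := pi_lt_d4
  have t1 := h.t1
  have t2 := h.t2
  have r := rayL A.cont A.b2 (((((5 : ℤ) : ℝ) / ((18 : ℕ) : ℝ)) * π) + ((((1 : ℤ) : ℝ) / ((3 : ℕ) : ℝ)) * (E 0))) (((((1 : ℤ) : ℝ) / ((2 : ℕ) : ℝ)) * π) + ((((9 : ℤ) : ℝ) / ((1 : ℕ) : ℝ)) * (E 0))) (((((11 : ℤ) : ℝ) / ((18 : ℕ) : ℝ)) * π) + ((((-14 : ℤ) : ℝ) / ((3 : ℕ) : ℝ)) * (E 0))) (((((7 : ℤ) : ℝ) / ((18 : ℕ) : ℝ)) * π) + ((((-4 : ℤ) : ℝ) / ((3 : ℕ) : ℝ)) * (E 0))) (((((11 : ℤ) : ℝ) / ((18 : ℕ) : ℝ)) * π) + ((((22 : ℤ) : ℝ) / ((3 : ℕ) : ℝ)) * (E 0))) (((((1 : ℤ) : ℝ) / ((2 : ℕ) : ℝ)) * π) + ((((-3 : ℤ) : ℝ) / ((1 : ℕ) : ℝ)) * (E 0)))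
    (((((1 : ℤ) : ℝ) / ((9 : ℕ) : ℝ)) * π) + ((((-5 : ℤ) : ℝ) / ((3 : ℕ) : ℝ)) * (E 0))) (1 : ℝ) (1 : ℝ) (-1 : ℝ) (0 : ℝ) ((12358219 / 180000000 : ℝ)) (by linarith only [p1, p2, t1, t2])
    (by norm_num) (by norm_num) (by norm_num) (by ring) (by ring) (by ring) (by ring) (by ring) (by norm_num) (by norm_num)
    ⟨by linarith only [p1, p2, t1, t2], by linarith only [p1, p2, t1, t2], by linarith only [p1, p2, t1, t2], by linarith only [p1, p2, t1, t2], by linarith only [p1, p2, t1, t2], by linarith only [p1, p2, t1, t2]⟩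
    ⟨by linarith only [p1, p2, t1, t2], by linarith only [p1, p2, t1, t2], by linarith only [p1, p2, t1, t2], by linarith only [p1, p2, t1, t2], by linarith only [p1, p2, t1, t2], by linarith only [p1, p2, t1, t2]⟩
  unfold sd at r
  rw [(fo15 A).1, (fo15 A).2.1, (fo24 A).1, (fo24 A).2.1] at r
  linear_combination r

theorem ry23 (h : H E) (A : Adm1 (E 0) D) : ((1840633 / 112000000 : ℝ) * π * KK D (((((-1 : ℤ) : ℝ) / ((6 : ℕ) : ℝ)) * π) + ((((4 : ℤ) : ℝ) / ((1 : ℕ) : ℝ)) * (E 0))) + (-1840633 / 112000000 : ℝ) * π * KK D (((((-7 : ℤ) : ℝ) / ((18 : ℕ) : ℝ)) * π) + ((((22 : ℤ) : ℝ) / ((3 : ℕ) : ℝ)) * (E 0))) + (5521899 / 3500000 : ℝ) * π * KK D (((((1 : ℤ) : ℝ) / ((2 : ℕ) : ℝ)) * π) + ((((-3 : ℤ) : ℝ) / ((1 : ℕ) : ℝ)) * (E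 0))) + (1840633 / 28000000 : ℝ) * π * KK D (((((1 : ℤ) : ℝ) / ((6 : ℕ) : ℝ)) * π) + ((((2 : ℤ) : ℝ) / ((1 : ℕ) : ℝ)) * (E 0))) + (-1840633 / 28000000 : ℝ) * π * KK D (((((5 : ℤ) : ℝ) / ((18 : ℕ) : ℝ)) * π) + ((((1 : ℤ) : ℝ) / ((3 : ℕ) : ℝ)) * (E 0))) + (-5521899 / 3500000 : ℝ) * π * KK D (((((5 : ℤ) : ℝ) / ((9 : ℕ) : ℝ)) * π) + ((((-23 : ℤ) : ℝ) / ((6 : ℕ) : ℝ)) * (E 0))) + (-5521899 / 14000000 : ℝ) * E 0 * KK D (((((-1 : ℤ) : ℝ) / ((6 : ℕ) : ℝ)) * π) + ((((4 : ℤ) : ℝ) / ((1 : ℕ) : ℝ)) * (E 0))) + (5521899 / 14000000 : ℝ) * E 0 * KK D (((((-7 : ℤ) : ℝ) / ((18 : ℕ) : ℝ)) * π) + ((((22 : ℤ) : ℝ) / ((3 : ℕ) : ℝ)) * (E 0))) + (-16565697 / 1750000 : ℝ) * E 0 * KK D (((((1 : ℤ) : ℝ) / ((2 : ℕ) : ℝ)) * π) + ((((-3 : ℤ) : ℝ) /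 ((1 : ℕ) : ℝ)) * (E 0))) + (5521899 / 7000000 : ℝ) * E 0 * KK D (((((1 : ℤ) : ℝ) / ((6 : ℕ) : ℝ)) * π) + ((((2 : ℤ) : ℝ) / ((1 : ℕ) : ℝ)) * (E 0))) + (-5521899 / 7000000 : ℝ) * E 0 * KK D (((((5 : ℤ) : ℝ) / ((18 : ℕ) : ℝ)) * π) + ((((1 : ℤ) : ℝ) / ((3 : ℕ) : ℝ)) * (E 0))) + (16565697 / 1750000 : ℝ) * E 0 * KK D (((((5 : ℤ) : ℝ) / ((9 : ℕ) : ℝ)) * π) + ((((-23 : ℤ) : ℝ) / ((6 : ℕ) : ℝ)) * (E 0))) + (5521899 / 56000000 : ℝ) * TT D (((((-1 : ℤ) : ℝ) / ((6 : ℕ) : ℝ)) * π) + ((((4 : ℤ) : ℝ) / ((1 : ℕ) : ℝ)) * (E 0))) + (-5521899 / 56000000 : ℝ) * TT D (((((-7 : ℤ) : ℝ) / ((18 : ℕ) : ℝ)) * π) + ((((22 : ℤ) : ℝ) / ((3 : ℕ) : ℝ)) * (E 0))) + (-5521899 / 1750000 : ℝ) * TT D (((((1 : ℤ) : ℝ) / ((2 : ℕ) : ℝ)) * π) + ((((-3 : ℤ) :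 ℝ) / ((1 : ℕ) : ℝ)) * (E 0))) + (-5521899 / 14000000 : ℝ) * TT D (((((1 : ℤ) : ℝ) / ((6 : ℕ) : ℝ)) * π) + ((((2 : ℤ) : ℝ) / ((1 : ℕ) : ℝ)) * (E 0))) + (5521899 / 14000000 : ℝ) * TT D (((((5 : ℤ) : ℝ) / ((18 : ℕ) : ℝ)) * π) + ((((1 : ℤ) : ℝ) / ((3 : ℕ) : ℝ)) * (E 0))) + (5521899 / 1750000 : ℝ) * TT D (((((5 : ℤ) : ℝ) / ((9 : ℕ) : ℝ)) * π) + ((((-23 : ℤ) : ℝ) / ((6 : ℕ) : ℝ)) * (E 0)))) ≤ 0 := by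
  have p1 := pi_gt_d4
  have p2 := pi_lt_d4
  have t1 := h.t1
  have t2 := h.t2
  have r := rayL A.cont A.b2 (((((5 : ℤ) : ℝ) / ((18 : ℕ) : ℝ)) * π) + ((((1 : ℤ) : ℝ) / ((3 : ℕ) : ℝ)) * (E 0))) (((((11 : ℤ) : ℝ) / ((18 : ℕ) : ℝ)) * π) + ((((22 : ℤ) : ℝ) / ((3 : ℕ) : ℝ)) * (E 0))) (((((5 : ℤ) : ℝ) / ((9 : ℕ) : ℝ)) * π) + ((((-23 : ℤ) : ℝ) / ((6 : ℕ) : ℝ)) * (E 0))) (((((1 : ℤ) : ℝ) / ((6 : ℕ) : ℝ)) * π) + ((((2 : ℤ) : ℝ) / ((1 : ℕ) : ℝ)) * (E 0))) (((((5 : ℤ) : ℝ) / ((6 : ℕ) : ℝ)) * π) + ((((4 : ℤ) : ℝ) / ((1 : ℕ) : ℝ)) * (E 0))) (((((1 : ℤ) : ℝ) / ((2 : ℕ) : ℝ)) * π) + ((((-3 : ℤ) : ℝ) / ((1 : ℕ) : ℝ)) * (E 0)))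
    (((((1 : ℤ) : ℝ) / ((9 : ℕ) : ℝ)) * π) + ((((-5 : ℤ) : ℝ) / ((3 : ℕ) : ℝ)) * (E 0))) (-1 : ℝ) (2 : ℝ) (-1 / 2 : ℝ) ((5521899 / 14000000 : ℝ)) (0 : ℝ) (by linarith only [p1, p2, t1, t2])
    (by norm_num) (by norm_num) (by norm_num) (by ring) (by ring) (by ring) (by ring) (by ring) (by norm_num) (by norm_num)
    ⟨by linarith only [p1, p2, t1, t2], by linarith only [p1, p2, t1, t2], by linarith only [p1, p2, t1, t2], by linarith only [p1, p2, t1, t2], by linarith only [p1, p2, t1, t2], by linarith only [p1, p2, t1, t2]⟩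
    ⟨by linarith only [p1, p2, t1, t2], by linarith only [p1, p2, t1, t2], by linarith only [p1, p2, t1, t2], by linarith only [p1, p2, t1, t2], by linarith only [p1, p2, t1, t2], by linarith only [p1, p2, t1, t2]⟩
  unfold sd at r
  rw [(fo24 A).1, (fo24 A).2.1, (fo20 A).1, (fo20 A).2.1] at r
  linear_combination r

theorem ry24 (h : H E) (A : Adm1 (E 0) D) : ((162601 / 126000000 : ℝ) * π * KK D (((((-1 : ℤ) : ℝ) / ((6 : ℕ) : ℝ)) * π) + ((((4 : ℤ) : ℝ) / ((1 : ℕ) : ℝ)) * (E 0))) + (487803 / 7000000 : ℝ) * π * KK D (((((1 : ℤ) : ℝ) / ((2 : ℕ) : ℝ)) * π) + ((((-3 : ℤ) : ℝ) / ((1 : ℕ) : ℝ)) * (E 0))) + (-162601 / 126000000 : ℝ) * π * KK D (((((1 : ℤ) : ℝ) / ((2 : ℕ) : ℝ)) * π) + ((((-9 : ℤ) : ℝ) / ((1 : ℕ) : ℝ)) * (E 0)))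 + (162601 / 14000000 : ℝ) * π * KK D (((((1 : ℤ) : ℝ) / ((6 : ℕ) : ℝ)) * π) + ((((2 : ℤ) : ℝ) / ((1 : ℕ) : ℝ)) * (E 0))) + (-487803 / 7000000 : ℝ) * π * KK D (((((11 : ℤ) : ℝ) / ((18 : ℕ) : ℝ)) * π) + ((((-14 : ℤ) : ℝ) / ((3 : ℕ) : ℝ)) * (E 0))) + (-162601 / 14000000 : ℝ) * π * KK D (((((5 : ℤ) : ℝ) / ((18 : ℕ) : ℝ)) * π) + ((((1 : ℤ) : ℝ) / ((3 : ℕ) : ℝ)) * (E 0))) + (-162601 / 5250000 : ℝ) * E 0 * KK D (((((-1 : ℤ) : ℝ) / ((6 : ℕ) : ℝ)) * π) + ((((4 : ℤ) : ℝ) / ((1 : ℕ) : ℝ)) * (E 0))) + (-1463409 / 3500000 : ℝ) * E 0 * KK D (((((1 : ℤ) : ℝ) / ((2 : ℕ) : ℝ)) * π) + ((((-3 : ℤ) : ℝ) / ((1 : ℕ) : ℝ)) * (E 0))) + (162601 / 5250000 : ℝ) * E 0 * KK D (((((1 : ℤ) : ℝ) / ((2 : ℕ) : ℝ)) * π) + ((((-9 : ℤ) : ℝ) / ((1 : ℕ) : ℝ))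 * (E 0))) + (487803 / 3500000 : ℝ) * E 0 * KK D (((((1 : ℤ) : ℝ) / ((6 : ℕ) : ℝ)) * π) + ((((2 : ℤ) : ℝ) / ((1 : ℕ) : ℝ)) * (E 0))) + (1463409 / 3500000 : ℝ) * E 0 * KK D (((((11 : ℤ) : ℝ) / ((18 : ℕ) : ℝ)) * π) + ((((-14 : ℤ) : ℝ) / ((3 : ℕ) : ℝ)) * (E 0))) + (-487803 / 3500000 : ℝ) * E 0 * KK D (((((5 : ℤ) : ℝ) / ((18 : ℕ) : ℝ)) * π) + ((((1 : ℤ) : ℝ) / ((3 : ℕ) : ℝ)) * (E 0))) + (162601 / 21000000 : ℝ) * TT D (((((-1 : ℤ) : ℝ) / ((6 : ℕ) : ℝ)) * π) + ((((4 : ℤ) : ℝ) / ((1 : ℕ) : ℝ)) * (E 0))) + (-487803 / 3500000 : ℝ) * TT D (((((1 : ℤ) : ℝ) / ((2 : ℕ) : ℝ)) * π) + ((((-3 : ℤ) : ℝ) / ((1 : ℕ) : ℝ)) * (E 0))) + (162601 / 21000000 : ℝ) * TT D (((((1 : ℤ) : ℝ) / ((2 : ℕ) : ℝ)) * π) + ((((-9 : ℤ) : ℝ) / ((1 : ℕ) : ℝ)) *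 (E 0))) + (-487803 / 7000000 : ℝ) * TT D (((((1 : ℤ) : ℝ) / ((6 : ℕ) : ℝ)) * π) + ((((2 : ℤ) : ℝ) / ((1 : ℕ) : ℝ)) * (E 0))) + (487803 / 3500000 : ℝ) * TT D (((((11 : ℤ) : ℝ) / ((18 : ℕ) : ℝ)) * π) + ((((-14 : ℤ) : ℝ) / ((3 : ℕ) : ℝ)) * (E 0))) + (487803 / 7000000 : ℝ) * TT D (((((5 : ℤ) : ℝ) / ((18 : ℕ) : ℝ)) * π) + ((((1 : ℤ) : ℝ) / ((3 : ℕ) : ℝ)) * (E 0)))) ≤ 0 := by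
  have p1 := pi_gt_d4
  have p2 := pi_lt_d4
  have t1 := h.t1
  have t2 := h.t2
  have r := rayL A.cont A.b2 (((((5 : ℤ) : ℝ) / ((18 : ℕ) : ℝ)) * π) + ((((1 : ℤ) : ℝ) / ((3 : ℕ) : ℝ)) * (E 0))) (((((1 : ℤ) : ℝ) / ((2 : ℕ) : ℝ)) * π) + ((((9 : ℤ) : ℝ) / ((1 : ℕ) : ℝ)) * (E 0))) (((((11 : ℤ) : ℝ) / ((18 : ℕ) : ℝ)) * π) + ((((-14 : ℤ) : ℝ) / ((3 : ℕ) : ℝ)) * (E 0))) (((((1 : ℤ) : ℝ) / ((6 : ℕ) : ℝ)) * π) + ((((2 : ℤ) : ℝ) / ((1 : ℕ) : ℝ)) * (E 0))) (((((5 : ℤ) : ℝ) / ((6 : ℕ) : ℝ)) * π) + ((((4 : ℤ) : ℝ) / ((1 : ℕ) : ℝ)) * (E 0))) (((((1 : ℤ) : ℝ) / ((2 : ℕ) : ℝ)) * π) + ((((-3 : ℤ) : ℝ) / ((1 : ℕ) : ℝ)) * (E 0)))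
    (((((1 : ℤ) : ℝ) / ((9 : ℕ) : ℝ)) * π) + ((((-5 : ℤ) : ℝ) / ((3 : ℕ) : ℝ)) * (E 0))) (-1 : ℝ) (3 : ℝ) (-1 : ℝ) ((487803 / 7000000 : ℝ)) (0 : ℝ) (by linarith only [p1, p2, t1, t2])
    (by norm_num) (by norm_num) (by norm_num) (by ring) (by ring) (by ring) (by ring) (by ring) (by norm_num) (by norm_num)
    ⟨by linarith only [p1, p2, t1, t2], by linarith only [p1, p2, t1, t2], by linarith only [p1, p2, t1, t2], by linarith only [p1, p2, t1, t2], by linarith only [p1, p2, t1, t2], by linarith only [p1, p2, t1, t2]⟩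
    ⟨by linarith only [p1, p2, t1, t2], by linarith only [p1, p2, t1, t2], by linarith only [p1, p2, t1, t2], by linarith only [p1, p2, t1, t2], by linarith only [p1, p2, t1, t2], by linarith only [p1, p2, t1, t2]⟩
  unfold sd at r
  rw [(fo15 A).1, (fo15 A).2.1, (fo20 A).1, (fo20 A).2.1] at r
  linear_combination r

theorem ry25 (h : H E) (A : Adm1 (E 0) D) : ((-1788611 / 126000000 : ℝ) * π * KK D (((((1 : ℤ) : ℝ) / ((2 : ℕ) : ℝ)) * π) + ((((-9 : ℤ) : ℝ) / ((1 : ℕ) : ℝ)) * (E 0))) + (1788611 / 126000000 : ℝ) * π * KK D (((((11 : ℤ) : ℝ) / ((18 : ℕ) : ℝ)) * π) + ((((-32 : ℤ) : ℝ) / ((3 : ℕ) : ℝ)) * (E 0))) + (162601 / 5250000 : ℝ) * π * KK D (((((2 : ℤ) : ℝ) / ((3 : ℕ) : ℝ)) * π) + ((((-11 : ℤ) : ℝ) / ((2 : ℕ) : ℝ)) *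 (E 0))) + (162601 / 25200000 : ℝ) * π * KK D (((((5 : ℤ) : ℝ) / ((18 : ℕ) : ℝ)) * π) + ((((1 : ℤ) : ℝ) / ((3 : ℕ) : ℝ)) * (E 0))) + (-162601 / 5250000 : ℝ) * π * KK D (((((5 : ℤ) : ℝ) / ((9 : ℕ) : ℝ)) * π) + ((((-23 : ℤ) : ℝ) / ((6 : ℕ) : ℝ)) * (E 0))) + (-162601 / 25200000 : ℝ) * π * KK D (((((7 : ℤ) : ℝ) / ((18 : ℕ) : ℝ)) * π) + ((((-4 : ℤ) : ℝ) / ((3 : ℕ) : ℝ)) * (E 0))) + (162601 / 656250 : ℝ) * E 0 * KK D (((((1 : ℤ) : ℝ) / ((2 : ℕ) : ℝ)) * π) + ((((-9 : ℤ) : ℝ) / ((1 : ℕ) : ℝ)) * (E 0))) + (-162601 / 656250 : ℝ) * E 0 * KK D (((((11 : ℤ) : ℝ) / ((18 : ℕ) : ℝ)) * π) + ((((-32 : ℤ) : ℝ) / ((3 : ℕ) : ℝ)) * (E 0))) + (-1788611 / 7000000 : ℝ) * E 0 * KK D (((((2 : ℤ) : ℝ) / ((3 : ℕ) : ℝ)) * π) + ((((-11 : ℤ) : ℝ) / ((2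 : ℕ) : ℝ)) * (E 0))) + (162601 / 21000000 : ℝ) * E 0 * KK D (((((5 : ℤ) : ℝ) / ((18 : ℕ) : ℝ)) * π) + ((((1 : ℤ) : ℝ) / ((3 : ℕ) : ℝ)) * (E 0))) + (1788611 / 7000000 : ℝ) * E 0 * KK D (((((5 : ℤ) : ℝ) / ((9 : ℕ) : ℝ)) * π) + ((((-23 : ℤ) : ℝ) / ((6 : ℕ) : ℝ)) * (E 0))) + (-162601 / 21000000 : ℝ) * E 0 * KK D (((((7 : ℤ) : ℝ) / ((18 : ℕ) : ℝ)) * π) + ((((-4 : ℤ) : ℝ) / ((3 : ℕ) : ℝ)) * (E 0))) + (162601 / 7000000 : ℝ) * TT D (((((1 : ℤ) : ℝ) / ((2 : ℕ) : ℝ)) * π) + ((((-9 : ℤ) : ℝ) / ((1 : ℕ) : ℝ)) * (E 0))) + (-162601 / 7000000 : ℝ) * TT D (((((11 : ℤ) : ℝ) / ((18 : ℕ) : ℝ)) * π) + ((((-32 : ℤ) : ℝ) / ((3 : ℕ) : ℝ)) * (E 0))) + (-162601 / 3500000 : ℝ) * TT D (((((2 : ℤ) : ℝ) / ((3 : ℕ) : ℝ)) * π) + ((((-11 : ℤ) : ℝ) /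 ((2 : ℕ) : ℝ)) * (E 0))) + (-162601 / 7000000 : ℝ) * TT D (((((5 : ℤ) : ℝ) / ((18 : ℕ) : ℝ)) * π) + ((((1 : ℤ) : ℝ) / ((3 : ℕ) : ℝ)) * (E 0))) + (162601 / 3500000 : ℝ) * TT D (((((5 : ℤ) : ℝ) / ((9 : ℕ) : ℝ)) * π) + ((((-23 : ℤ) : ℝ) / ((6 : ℕ) : ℝ)) * (E 0))) + (162601 / 7000000 : ℝ) * TT D (((((7 : ℤ) : ℝ) / ((18 : ℕ) : ℝ)) * π) + ((((-4 : ℤ) : ℝ) / ((3 : ℕ) : ℝ)) * (E 0)))) ≤ 0 := by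
  have p1 := pi_gt_d4
  have p2 := pi_lt_d4
  have t1 := h.t1
  have t2 := h.t2
  have r := rayL A.cont A.b2 (((((5 : ℤ) : ℝ) / ((18 : ℕ) : ℝ)) * π) + ((((1 : ℤ) : ℝ) / ((3 : ℕ) : ℝ)) * (E 0))) (((((7 : ℤ) : ℝ) / ((18 : ℕ) : ℝ)) * π) + ((((32 : ℤ) : ℝ) / ((3 : ℕ) : ℝ)) * (E 0))) (((((2 : ℤ) : ℝ) / ((3 : ℕ) : ℝ)) * π) + ((((-11 : ℤ) : ℝ) / ((2 : ℕ) : ℝ)) * (E 0))) (((((7 : ℤ) : ℝ) / ((18 : ℕ) : ℝ)) * π) + ((((-4 : ℤ) : ℝ) / ((3 : ℕ) : ℝ)) * (E 0))) (((((1 : ℤ) : ℝ) / ((2 : ℕ) : ℝ)) * π) + ((((9 : ℤ) : ℝ) / ((1 : ℕ) : ℝ)) * (E 0))) (((((5 : ℤ) : ℝ) / ((9 : ℕ) : ℝ)) * π) + ((((-23 : ℤ) : ℝ) / ((6 : ℕ) : ℝ)) * (E 0)))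
    (((((1 : ℤ) : ℝ) / ((9 : ℕ) : ℝ)) * π) + ((((-5 : ℤ) : ℝ) / ((3 : ℕ) : ℝ)) * (E 0))) (1 : ℝ) (1 : ℝ) (-1 : ℝ) (0 : ℝ) ((162601 / 7000000 : ℝ)) (by linarith only [p1, p2, t1, t2])
    (by norm_num) (by norm_num) (by norm_num) (by ring) (by ring) (by ring) (by ring) (by ring) (by norm_num) (by norm_num)
    ⟨by linarith only [p1, p2, t1, t2], by linarith only [p1, p2, t1, t2], by linarith only [p1, p2, t1, t2], by linarith only [p1, p2, t1, t2], by linarith only [p1, p2, t1, t2], by linarith only [p1, p2, t1, t2]⟩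
    ⟨by linarith only [p1, p2, t1, t2], by linarith only [p1, p2, t1, t2], by linarith only [p1, p2, t1, t2], by linarith only [p1, p2, t1, t2], by linarith only [p1, p2, t1, t2], by linarith only [p1, p2, t1, t2]⟩
  unfold sd at r
  rw [(fo12 A).1, (fo12 A).2.1, (fo15 A).1, (fo15 A).2.1] at r
  linear_combination r

theorem ry26 (h : H E) (A : Adm1 (E 0) D) : ((-4976491 / 81000000 : ℝ) * π * KK D (((((-7 : ℤ) : ℝ) / ((18 : ℕ) : ℝ)) * π) + ((((22 : ℤ) : ℝ) / ((3 : ℕ) : ℝ)) * (E 0))) + (4976491 / 81000000 : ℝ) * π * KK D (((((13 : ℤ) : ℝ) / ((18 : ℕ) : ℝ)) * π) + ((((-37 : ℤ) : ℝ) / ((3 : ℕ) : ℝ)) * (E 0))) + (382807 / 375000 : ℝ) * π * KK D (((((2 : ℤ) : ℝ) / ((3 : ℕ) : ℝ)) * π) + ((((-11 : ℤ) : ℝ) / ((2 : ℕ) : ℝ)) * (E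 0))) + (-2679649 / 9000000 : ℝ) * π * KK D (((((5 : ℤ) : ℝ) / ((18 : ℕ) : ℝ)) * π) + ((((1 : ℤ) : ℝ) / ((3 : ℕ) : ℝ)) * (E 0))) + (-382807 / 375000 : ℝ) * π * KK D (((((5 : ℤ) : ℝ) / ((9 : ℕ) : ℝ)) * π) + ((((-23 : ℤ) : ℝ) / ((6 : ℕ) : ℝ)) * (E 0))) + (2679649 / 9000000 : ℝ) * π * KK D (((((7 : ℤ) : ℝ) / ((18 : ℕ) : ℝ)) * π) + ((((-4 : ℤ) : ℝ) / ((3 : ℕ) : ℝ)) * (E 0))) + (14163859 / 13500000 : ℝ) * E 0 * KK D (((((-7 : ℤ) : ℝ) / ((18 : ℕ) : ℝ)) * π) + ((((22 : ℤ) : ℝ) / ((3 : ℕ) : ℝ)) * (E 0))) + (-14163859 / 13500000 : ℝ) * E 0 * KK D (((((13 : ℤ) : ℝ) / ((18 : ℕ) : ℝ)) * π) + ((((-37 : ℤ) : ℝ) / ((3 : ℕ) : ℝ)) * (E 0))) + (-4210877 / 500000 : ℝ) * E 0 * KK D (((((2 : ℤ) : ℝ) / ((3 : ℕ) : ℝ)) * π) + ((((-11 : ℤ) : ℝ)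 / ((2 : ℕ) : ℝ)) * (E 0))) + (382807 / 375000 : ℝ) * E 0 * KK D (((((5 : ℤ) : ℝ) / ((18 : ℕ) : ℝ)) * π) + ((((1 : ℤ) : ℝ) / ((3 : ℕ) : ℝ)) * (E 0))) + (4210877 / 500000 : ℝ) * E 0 * KK D (((((5 : ℤ) : ℝ) / ((9 : ℕ) : ℝ)) * π) + ((((-23 : ℤ) : ℝ) / ((6 : ℕ) : ℝ)) * (E 0))) + (-382807 / 375000 : ℝ) * E 0 * KK D (((((7 : ℤ) : ℝ) / ((18 : ℕ) : ℝ)) * π) + ((((-4 : ℤ) : ℝ) / ((3 : ℕ) : ℝ)) * (E 0))) + (-382807 / 4500000 : ℝ) * TT D (((((-7 : ℤ) : ℝ) / ((18 : ℕ) : ℝ)) * π) + ((((22 : ℤ) : ℝ) / ((3 : ℕ) : ℝ)) * (E 0))) + (-382807 / 4500000 : ℝ) * TT D (((((13 : ℤ) : ℝ) / ((18 : ℕ) : ℝ)) * π) + ((((-37 : ℤ) : ℝ) / ((3 : ℕ) : ℝ)) * (E 0))) + (-382807 / 250000 : ℝ) * TT D (((((2 : ℤ) : ℝ) / ((3 : ℕ) : ℝ)) * π) + ((((-11 : ℤ) : ℝ)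 / ((2 : ℕ) : ℝ)) * (E 0))) + (382807 / 500000 : ℝ) * TT D (((((5 : ℤ) : ℝ) / ((18 : ℕ) : ℝ)) * π) + ((((1 : ℤ) : ℝ) / ((3 : ℕ) : ℝ)) * (E 0))) + (382807 / 250000 : ℝ) * TT D (((((5 : ℤ) : ℝ) / ((9 : ℕ) : ℝ)) * π) + ((((-23 : ℤ) : ℝ) / ((6 : ℕ) : ℝ)) * (E 0))) + (-382807 / 500000 : ℝ) * TT D (((((7 : ℤ) : ℝ) / ((18 : ℕ) : ℝ)) * π) + ((((-4 : ℤ) : ℝ) / ((3 : ℕ) : ℝ)) * (E 0)))) ≤ 0 := by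
  have p1 := pi_gt_d4
  have p2 := pi_lt_d4
  have t1 := h.t1
  have t2 := h.t2
  have r := rayL A.cont A.b2 (((((7 : ℤ) : ℝ) / ((18 : ℕ) : ℝ)) * π) + ((((-4 : ℤ) : ℝ) / ((3 : ℕ) : ℝ)) * (E 0))) (((((5 : ℤ) : ℝ) / ((18 : ℕ) : ℝ)) * π) + ((((37 : ℤ) : ℝ) / ((3 : ℕ) : ℝ)) * (E 0))) (((((2 : ℤ) : ℝ) / ((3 : ℕ) : ℝ)) * π) + ((((-11 : ℤ) : ℝ) / ((2 : ℕ) : ℝ)) * (E 0))) (((((5 : ℤ) : ℝ) / ((18 : ℕ) : ℝ)) * π) + ((((1 : ℤ) : ℝ) / ((3 : ℕ) : ℝ)) * (E 0))) (((((11 : ℤ) : ℝ) / ((18 : ℕ) : ℝ)) * π) + ((((22 : ℤ) : ℝ) / ((3 : ℕ) : ℝ)) * (E 0))) (((((5 : ℤ) : ℝ) / ((9 : ℕ) : ℝ)) * π) + ((((-23 : ℤ) : ℝ) / ((6 : ℕ) : ℝ)) * (E 0)))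
    (((((1 : ℤ) : ℝ) / ((9 : ℕ) : ℝ)) * π) + ((((-5 : ℤ) : ℝ) / ((3 : ℕ) : ℝ)) * (E 0))) (-1 : ℝ) (3 : ℝ) (-1 : ℝ) (0 : ℝ) ((382807 / 500000 : ℝ)) (by linarith only [p1, p2, t1, t2])
    (by norm_num) (by norm_num) (by norm_num) (by ring) (by ring) (by ring) (by ring) (by ring) (by norm_num) (by norm_num)
    ⟨by linarith only [p1, p2, t1, t2], by linarith only [p1, p2, t1, t2], by linarith only [p1, p2, t1, t2], by linarith only [p1, p2, t1, t2], by linarith only [p1, p2, t1, t2], by linarith only [p1, p2, t1, t2]⟩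
    ⟨by linarith only [p1, p2, t1, t2], by linarith only [p1, p2, t1, t2], by linarith only [p1, p2, t1, t2], by linarith only [p1, p2, t1, t2], by linarith only [p1, p2, t1, t2], by linarith only [p1, p2, t1, t2]⟩
  unfold sd at r
  rw [(fo8 A).1, (fo8 A).2.1, (fo24 A).1, (fo24 A).2.1] at r
  linear_combination r

theorem ry27 (h : H E) (A : Adm1 (E 0) D) : ((-162601 / 67200000 : ℝ) * π * KK D (((((1 : ℤ) : ℝ) / ((2 : ℕ) : ℝ)) * π) + ((((-3 : ℤ) : ℝ) / ((1 : ℕ) : ℝ)) * (E 0))) + (-162601 / 875000 : ℝ) * π * KK D (((((11 : ℤ) : ℝ) / ((18 : ℕ) : ℝ)) * π) + ((((-14 : ℤ) : ℝ) / ((3 : ℕ) : ℝ)) * (E 0))) + (1788611 / 84000000 : ℝ) * π * KK D (((((11 : ℤ) : ℝ) / ((18 : ℕ) : ℝ)) * π) + ((((-32 : ℤ) : ℝ) / ((3 : ℕ) : ℝ)) * (E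 0))) + (-1788611 / 84000000 : ℝ) * π * KK D (((((13 : ℤ) : ℝ) / ((18 : ℕ) : ℝ)) * π) + ((((-37 : ℤ) : ℝ) / ((3 : ℕ) : ℝ)) * (E 0))) + (162601 / 875000 : ℝ) * π * KK D (((((2 : ℤ) : ℝ) / ((3 : ℕ) : ℝ)) * π) + ((((-11 : ℤ) : ℝ) / ((2 : ℕ) : ℝ)) * (E 0))) + (162601 / 67200000 : ℝ) * π * KK D (((((5 : ℤ) : ℝ) / ((18 : ℕ) : ℝ)) * π) + ((((1 : ℤ) : ℝ) / ((3 : ℕ) : ℝ)) * (E 0))) + (-162601 / 56000000 : ℝ) * E 0 * KK D (((((1 : ℤ) : ℝ) / ((2 : ℕ) : ℝ)) * π) + ((((-3 : ℤ) : ℝ) / ((1 : ℕ) : ℝ)) * (E 0))) + (5365833 / 3500000 : ℝ) * E 0 * KK D (((((11 : ℤ) : ℝ) / ((18 : ℕ) : ℝ)) * π) + ((((-14 : ℤ) : ℝ) / ((3 : ℕ) : ℝ)) * (E 0))) + (-162601 / 437500 : ℝ) * E 0 * KK D (((((11 : ℤ) : ℝ) / ((18 : ℕ) : ℝ)) * π) + ((((-32 : ℤ) : ℝ) /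 ((3 : ℕ) : ℝ)) * (E 0))) + (162601 / 437500 : ℝ) * E 0 * KK D (((((13 : ℤ) : ℝ) / ((18 : ℕ) : ℝ)) * π) + ((((-37 : ℤ) : ℝ) / ((3 : ℕ) : ℝ)) * (E 0))) + (-5365833 / 3500000 : ℝ) * E 0 * KK D (((((2 : ℤ) : ℝ) / ((3 : ℕ) : ℝ)) * π) + ((((-11 : ℤ) : ℝ) / ((2 : ℕ) : ℝ)) * (E 0))) + (162601 / 56000000 : ℝ) * E 0 * KK D (((((5 : ℤ) : ℝ) / ((18 : ℕ) : ℝ)) * π) + ((((1 : ℤ) : ℝ) / ((3 : ℕ) : ℝ)) * (E 0))) + (487803 / 56000000 : ℝ) * TT D (((((1 : ℤ) : ℝ) / ((2 : ℕ) : ℝ)) * π) + ((((-3 : ℤ) : ℝ) / ((1 : ℕ) : ℝ)) * (E 0))) + (487803 / 1750000 : ℝ) * TT D (((((11 : ℤ) : ℝ) / ((18 : ℕ) : ℝ)) * π) + ((((-14 : ℤ) : ℝ) / ((3 : ℕ) : ℝ)) * (E 0))) + (-487803 / 14000000 : ℝ) * TT D (((((11 : ℤ) : ℝ) / ((18 : ℕ) : ℝ)) * π) + ((((-32 : ℤ)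 : ℝ) / ((3 : ℕ) : ℝ)) * (E 0))) + (487803 / 14000000 : ℝ) * TT D (((((13 : ℤ) : ℝ) / ((18 : ℕ) : ℝ)) * π) + ((((-37 : ℤ) : ℝ) / ((3 : ℕ) : ℝ)) * (E 0))) + (-487803 / 1750000 : ℝ) * TT D (((((2 : ℤ) : ℝ) / ((3 : ℕ) : ℝ)) * π) + ((((-11 : ℤ) : ℝ) / ((2 : ℕ) : ℝ)) * (E 0))) + (-487803 / 56000000 : ℝ) * TT D (((((5 : ℤ) : ℝ) / ((18 : ℕ) : ℝ)) * π) + ((((1 : ℤ) : ℝ) / ((3 : ℕ) : ℝ)) * (E 0)))) ≤ 0 := by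
  have p1 := pi_gt_d4
  have p2 := pi_lt_d4
  have t1 := h.t1
  have t2 := h.t2
  have r := rayL A.cont A.b2 (((((5 : ℤ) : ℝ) / ((18 : ℕ) : ℝ)) * π) + ((((1 : ℤ) : ℝ) / ((3 : ℕ) : ℝ)) * (E 0))) (((((7 : ℤ) : ℝ) / ((18 : ℕ) : ℝ)) * π) + ((((32 : ℤ) : ℝ) / ((3 : ℕ) : ℝ)) * (E 0))) (((((2 : ℤ) : ℝ) / ((3 : ℕ) : ℝ)) * π) + ((((-11 : ℤ) : ℝ) / ((2 : ℕ) : ℝ)) * (E 0))) (((((1 : ℤ) : ℝ) / ((2 : ℕ) : ℝ)) * π) + ((((-3 : ℤ) : ℝ) / ((1 : ℕ) : ℝ)) * (E 0))) (((((5 : ℤ) : ℝ) / ((18 : ℕ) : ℝ)) * π) + ((((37 : ℤ) : ℝ) / ((3 : ℕ) : ℝ)) * (E 0))) (((((11 : ℤ) : ℝ) / ((18 : ℕ) : ℝ)) * π) + ((((-14 : ℤ) : ℝ) / ((3 : ℕ) : ℝ)) * (E 0)))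
    (((((1 : ℤ) : ℝ) / ((9 : ℕ) : ℝ)) * π) + ((((-5 : ℤ) : ℝ) / ((3 : ℕ) : ℝ)) * (E 0))) (2 : ℝ) (-1 : ℝ) (-1 / 2 : ℝ) (0 : ℝ) ((487803 / 14000000 : ℝ)) (by linarith only [p1, p2, t1, t2])
    (by norm_num) (by norm_num) (by norm_num) (by ring) (by ring) (by ring) (by ring) (by ring) (by norm_num) (by norm_num)
    ⟨by linarith only [p1, p2, t1, t2], by linarith only [p1, p2, t1, t2], by linarith only [p1, p2, t1, t2], by linarith only [p1, p2, t1, t2], by linarith only [p1, p2, t1, t2], by linarith only [p1, p2, t1, t2]⟩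
    ⟨by linarith only [p1, p2, t1, t2], by linarith only [p1, p2, t1, t2], by linarith only [p1, p2, t1, t2], by linarith only [p1, p2, t1, t2], by linarith only [p1, p2, t1, t2], by linarith only [p1, p2, t1, t2]⟩
  unfold sd at r
  rw [(fo12 A).1, (fo12 A).2.1, (fo8 A).1, (fo8 A).2.1] at r
  linear_combination r

theorem ry28 (h : H E) (A : Adm1 (E 0) D) : ((-1 / 6 : ℝ) * π * E 4 * KK D (((((1 : ℤ) : ℝ) / ((6 : ℕ) : ℝ)) * π) + ((((-1 : ℤ) : ℝ) / ((1 : ℕ) : ℝ)) * (E 0))) + (1 / 6 : ℝ) * π * E 4 * KK D (((((1 : ℤ) : ℝ) / ((6 : ℕ) : ℝ)) * π) + ((((-2 : ℤ) : ℝ) / ((1 : ℕ) : ℝ)) * (E 0))) + (-4 / 3 : ℝ) * π * E 4 * KK D (((((1 : ℤ) : ℝ) / ((6 : ℕ) : ℝ)) * π) + ((((1 : ℤ) : ℝ) / ((1 : ℕ) : ℝ)) * (E 0))) + (4 / 3 : ℝ) * π *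 E 4 * KK D (((((1 : ℤ) : ℝ) / ((6 : ℕ) : ℝ)) * π) + ((((1 : ℤ) : ℝ) / ((2 : ℕ) : ℝ)) * (E 0))) + (1 / 9 : ℝ) * π * E 6 * KK D (((((1 : ℤ) : ℝ) / ((6 : ℕ) : ℝ)) * π) + ((((-1 : ℤ) : ℝ) / ((1 : ℕ) : ℝ)) * (E 0))) + (-1 / 9 : ℝ) * π * E 6 * KK D (((((1 : ℤ) : ℝ) / ((6 : ℕ) : ℝ)) * π) + ((((-2 : ℤ) : ℝ) / ((1 : ℕ) : ℝ)) * (E 0))) + (8 / 9 : ℝ) * π * E 6 * KK D (((((1 : ℤ) : ℝ) / ((6 : ℕ) : ℝ)) * π) + ((((1 : ℤ) : ℝ) / ((1 : ℕ) : ℝ)) * (E 0))) + (-8 / 9 : ℝ) * π * E 6 * KK D (((((1 : ℤ) : ℝ) / ((6 : ℕ) : ℝ)) * π) + ((((1 : ℤ) : ℝ) / ((2 : ℕ) : ℝ)) * (E 0))) + (-26983 / 1500000 : ℝ) * π * KK D (((((1 : ℤ) : ℝ) / ((6 : ℕ) : ℝ)) * π) + ((((-1 : ℤ) : ℝ) / ((1 : ℕ) : ℝ)) * (E 0))) + (26983 / 1500000 : ℝ) * π * KK D (((((1 : ℤ) :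 ℝ) / ((6 : ℕ) : ℝ)) * π) + ((((-2 : ℤ) : ℝ) / ((1 : ℕ) : ℝ)) * (E 0))) + (-26983 / 187500 : ℝ) * π * KK D (((((1 : ℤ) : ℝ) / ((6 : ℕ) : ℝ)) * π) + ((((1 : ℤ) : ℝ) / ((1 : ℕ) : ℝ)) * (E 0))) + (26983 / 187500 : ℝ) * π * KK D (((((1 : ℤ) : ℝ) / ((6 : ℕ) : ℝ)) * π) + ((((1 : ℤ) : ℝ) / ((2 : ℕ) : ℝ)) * (E 0))) + (1 / 2 : ℝ) * E 0 * E 4 * KK D (((((1 : ℤ) : ℝ) / ((2 : ℕ) : ℝ)) * π) + ((((-1 : ℤ) : ℝ) / ((1 : ℕ) : ℝ)) * (E 0))) + (-1 / 2 : ℝ) * E 0 * E 4 * KK D ((((1 : ℤ) : ℝ) / ((2 : ℕ) : ℝ)) * π) + (2 : ℝ) * E 0 * E 4 * KK D (((((1 : ℤ) : ℝ) / ((6 : ℕ) : ℝ)) * π) + ((((-1 : ℤ) : ℝ) / ((1 : ℕ) : ℝ)) * (E 0))) + (-2 : ℝ) * E 0 * E 4 * KK D (((((1 : ℤ) : ℝ) / ((6 : ℕ) : ℝ)) * π) + ((((-2 : ℤ) : ℝ) / ((1 : ℕ) : ℝ)) * (E 0))) +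 (-4 : ℝ) * E 0 * E 4 * KK D (((((1 : ℤ) : ℝ) / ((6 : ℕ) : ℝ)) * π) + ((((1 : ℤ) : ℝ) / ((1 : ℕ) : ℝ)) * (E 0))) + (4 : ℝ) * E 0 * E 4 * KK D (((((1 : ℤ) : ℝ) / ((6 : ℕ) : ℝ)) * π) + ((((1 : ℤ) : ℝ) / ((2 : ℕ) : ℝ)) * (E 0))) + (-1 / 3 : ℝ) * E 0 * E 6 * KK D (((((1 : ℤ) : ℝ) / ((2 : ℕ) : ℝ)) * π) + ((((-1 : ℤ) : ℝ) / ((1 : ℕ) : ℝ)) * (E 0))) + (1 / 3 : ℝ) * E 0 * E 6 * KK D ((((1 : ℤ) : ℝ) / ((2 : ℕ) : ℝ)) * π) + (-4 / 3 : ℝ) * E 0 * E 6 * KK D (((((1 : ℤ) : ℝ) / ((6 : ℕ) : ℝ)) * π) + ((((-1 : ℤ) : ℝ) / ((1 : ℕ) : ℝ)) * (E 0))) + (4 / 3 : ℝ) * E 0 * E 6 * KK D (((((1 : ℤ) : ℝ) / ((6 : ℕ) : ℝ)) * π) + ((((-2 : ℤ) : ℝ) / ((1 : ℕ) : ℝ)) * (E 0))) + (8 / 3 : ℝ) * E 0 * E 6 * KK D (((((1 : ℤ) : ℝ) / ((6 : ℕ) : ℝ)) * π) + ((((1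 : ℤ) : ℝ) / ((1 : ℕ) : ℝ)) * (E 0))) + (-8 / 3 : ℝ) * E 0 * E 6 * KK D (((((1 : ℤ) : ℝ) / ((6 : ℕ) : ℝ)) * π) + ((((1 : ℤ) : ℝ) / ((2 : ℕ) : ℝ)) * (E 0))) + (26983 / 500000 : ℝ) * E 0 * KK D (((((1 : ℤ) : ℝ) / ((2 : ℕ) : ℝ)) * π) + ((((-1 : ℤ) : ℝ) / ((1 : ℕ) : ℝ)) * (E 0))) + (-26983 / 500000 : ℝ) * E 0 * KK D ((((1 : ℤ) : ℝ) / ((2 : ℕ) : ℝ)) * π) + (26983 / 125000 : ℝ) * E 0 * KK D (((((1 : ℤ) : ℝ) / ((6 : ℕ) : ℝ)) * π) + ((((-1 : ℤ) : ℝ) / ((1 : ℕ) : ℝ)) * (E 0))) + (-26983 / 125000 : ℝ) * E 0 * KK D (((((1 : ℤ) : ℝ) / ((6 : ℕ) : ℝ)) * π) + ((((-2 : ℤ) : ℝ) / ((1 : ℕ) : ℝ)) * (E 0))) + (-26983 / 62500 : ℝ) * E 0 * KK D (((((1 : ℤ) : ℝ) / ((6 : ℕ) : ℝ)) * π) + ((((1 : ℤ) : ℝ) / ((1 : ℕ) : ℝ)) * (E 0))) + (26983 / 62500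 : ℝ) * E 0 * KK D (((((1 : ℤ) : ℝ) / ((6 : ℕ) : ℝ)) * π) + ((((1 : ℤ) : ℝ) / ((2 : ℕ) : ℝ)) * (E 0))) + (1 : ℝ) * E 4 * TT D (((((1 : ℤ) : ℝ) / ((6 : ℕ) : ℝ)) * π) + ((((-1 : ℤ) : ℝ) / ((1 : ℕ) : ℝ)) * (E 0))) + (-1 : ℝ) * E 4 * TT D (((((1 : ℤ) : ℝ) / ((6 : ℕ) : ℝ)) * π) + ((((-2 : ℤ) : ℝ) / ((1 : ℕ) : ℝ)) * (E 0))) + (8 : ℝ) * E 4 * TT D (((((1 : ℤ) : ℝ) / ((6 : ℕ) : ℝ)) * π) + ((((1 : ℤ) : ℝ) / ((1 : ℕ) : ℝ)) * (E 0))) + (-8 : ℝ) * E 4 * TT D (((((1 : ℤ) : ℝ) / ((6 : ℕ) : ℝ)) * π) + ((((1 : ℤ) : ℝ) / ((2 : ℕ) : ℝ)) * (E 0))) + (-2 / 3 : ℝ) * E 6 * TT D (((((1 : ℤ) : ℝ) / ((6 : ℕ) : ℝ)) * π) + ((((-1 : ℤ) : ℝ) / ((1 : ℕ) : ℝ)) * (E 0))) + (2 / 3 : ℝ) * E 6 * TT D (((((1 : ℤ) : ℝ) / ((6 : ℕ) : ℝ)) * π) + ((((-2 : ℤ) :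 ℝ) / ((1 : ℕ) : ℝ)) * (E 0))) + (-16 / 3 : ℝ) * E 6 * TT D (((((1 : ℤ) : ℝ) / ((6 : ℕ) : ℝ)) * π) + ((((1 : ℤ) : ℝ) / ((1 : ℕ) : ℝ)) * (E 0))) + (16 / 3 : ℝ) * E 6 * TT D (((((1 : ℤ) : ℝ) / ((6 : ℕ) : ℝ)) * π) + ((((1 : ℤ) : ℝ) / ((2 : ℕ) : ℝ)) * (E 0))) + (26983 / 250000 : ℝ) * TT D (((((1 : ℤ) : ℝ) / ((6 : ℕ) : ℝ)) * π) + ((((-1 : ℤ) : ℝ) / ((1 : ℕ) : ℝ)) * (E 0))) + (-26983 / 250000 : ℝ) * TT D (((((1 : ℤ) : ℝ) / ((6 : ℕ) : ℝ)) * π) + ((((-2 : ℤ) : ℝ) / ((1 : ℕ) : ℝ)) * (E 0))) + (26983 / 31250 : ℝ) * TT D (((((1 : ℤ) : ℝ) / ((6 : ℕ) : ℝ)) * π) + ((((1 : ℤ) : ℝ) / ((1 : ℕ) : ℝ)) * (E 0))) + (-26983 / 31250 : ℝ) * TT D (((((1 : ℤ) : ℝ) / ((6 : ℕ) : ℝ)) * π) + ((((1 : ℤ) : ℝ) / ((2 : ℕ) : ℝ)) * (E 0)))) ≤ 0 := by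
  have p1 := pi_gt_d4
  have p2 := pi_lt_d4
  have t1 := h.t1
  have t2 := h.t2
  have r := rayL A.cont A.b1 (((((1 : ℤ) : ℝ) / ((6 : ℕ) : ℝ)) * π) + ((((-2 : ℤ) : ℝ) / ((1 : ℕ) : ℝ)) * (E 0))) (((((3 : ℤ) : ℝ) / ((2 : ℕ) : ℝ)) * π) + ((((1 : ℤ) : ℝ) / ((1 : ℕ) : ℝ)) * (E 0))) (((((1 : ℤ) : ℝ) / ((6 : ℕ) : ℝ)) * π) + ((((1 : ℤ) : ℝ) / ((2 : ℕ) : ℝ)) * (E 0))) (((((1 : ℤ) : ℝ) / ((6 : ℕ) : ℝ)) * π) + ((((-1 : ℤ) : ℝ) / ((1 : ℕ) : ℝ)) * (E 0))) (((((3 : ℤ) : ℝ) / ((2 : ℕ) : ℝ)) * π) + ((((-1 : ℤ) : ℝ) / ((1 : ℕ) : ℝ)) * (E 0))) (((((1 : ℤ) : ℝ) / ((6 : ℕ) : ℝ)) * π) + ((((1 : ℤ) : ℝ) / ((1 : ℕ) : ℝ)) * (E 0)))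
    ((((1 : ℤ) : ℝ) / ((1 : ℕ) : ℝ)) * (E 0)) (1 : ℝ) (-2 : ℝ) (1 / 2 : ℝ) (0 : ℝ) ((1 : ℝ) * E 4 + (-2 / 3 : ℝ) * E 6 + (26983 / 250000 : ℝ)) (by linarith only [p1, p2, t1, t2])
    (by norm_num) (by norm_num) (by norm_num) (by ring) (by ring) (by ring) (by ring) (by ring) (by norm_num) (by linarith only [(P6 h).2.2.2.2.1])
    ⟨by linarith only [p1, p2, t1, t2], by linarith only [p1, p2, t1, t2], by linarith only [p1, p2, t1, t2], by linarith only [p1, p2, t1, t2], by linarith only [p1, p2, t1, t2], by linarith only [p1, p2, t1, t2]⟩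
    ⟨by linarith only [p1, p2, t1, t2], by linarith only [p1, p2, t1, t2], by linarith only [p1, p2, t1, t2], by linarith only [p1, p2, t1, t2], by linarith only [p1, p2, t1, t2], by linarith only [p1, p2, t1, t2]⟩
  unfold sd at r
  rw [(fo25 A).1, (fo25 A).2.1, (fo26 A).1, (fo26 A).2.1] at r
  linear_combination r

theorem ry29 (h : H E) (A : Adm1 (E 0) D) : ((-2 / 3 : ℝ) * π * E 2 * KK D (((((1 : ℤ) : ℝ) / ((2 : ℕ) : ℝ)) * π) + ((((-1 : ℤ) : ℝ) / ((1 : ℕ) : ℝ)) * (E 0))) + (2 / 3 : ℝ) * π * E 2 * KK D ((((1 : ℤ) : ℝ) / ((2 : ℕ) : ℝ)) * π) + (2 / 9 : ℝ) * π * E 2 * KK D (((((1 : ℤ) : ℝ) / ((6 : ℕ) : ℝ)) * π) + ((((-2 : ℤ) : ℝ) / ((1 : ℕ) : ℝ)) * (E 0))) + (-2 / 9 : ℝ) * π * E 2 * KK D (((((1 : ℤ) : ℝ) / ((6 : ℕ) : ℝ))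 * π) + ((((-3 : ℤ) : ℝ) / ((1 : ℕ) : ℝ)) * (E 0))) + (4 / 9 : ℝ) * π * E 2 * KK D (((((1 : ℤ) : ℝ) / ((6 : ℕ) : ℝ)) * π) + ((((1 : ℤ) : ℝ) / ((2 : ℕ) : ℝ)) * (E 0))) + (-4 / 9 : ℝ) * π * E 2 * KK D (((((1 : ℤ) : ℝ) / ((6 : ℕ) : ℝ)) * π) + ((((3 : ℤ) : ℝ) / ((2 : ℕ) : ℝ)) * (E 0))) + (2 / 9 : ℝ) * π * E 4 * KK D (((((1 : ℤ) : ℝ) / ((2 : ℕ) : ℝ)) * π) + ((((-1 : ℤ) : ℝ) / ((1 : ℕ) : ℝ)) * (E 0))) + (-2 / 9 : ℝ) * π * E 4 * KK D ((((1 : ℤ) : ℝ) / ((2 : ℕ) : ℝ)) * π) + (-2 / 27 : ℝ) * π * E 4 * KK D (((((1 : ℤ) : ℝ) / ((6 : ℕ) : ℝ)) * π) + ((((-2 : ℤ) : ℝ) / ((1 : ℕ) : ℝ)) * (E 0))) + (2 / 27 : ℝ) * π * E 4 * KK D (((((1 : ℤ) : ℝ) / ((6 : ℕ) : ℝ)) * π) + ((((-3 : ℤ) : ℝ) / ((1 : ℕ) : ℝ)) * (E 0))) + (-4 / 27 : ℝ) * π * E 4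 * KK D (((((1 : ℤ) : ℝ) / ((6 : ℕ) : ℝ)) * π) + ((((1 : ℤ) : ℝ) / ((2 : ℕ) : ℝ)) * (E 0))) + (4 / 27 : ℝ) * π * E 4 * KK D (((((1 : ℤ) : ℝ) / ((6 : ℕ) : ℝ)) * π) + ((((3 : ℤ) : ℝ) / ((2 : ℕ) : ℝ)) * (E 0))) + (-39793 / 375000 : ℝ) * π * KK D (((((1 : ℤ) : ℝ) / ((2 : ℕ) : ℝ)) * π) + ((((-1 : ℤ) : ℝ) / ((1 : ℕ) : ℝ)) * (E 0))) + (39793 / 375000 : ℝ) * π * KK D ((((1 : ℤ) : ℝ) / ((2 : ℕ) : ℝ)) * π) + (39793 / 1125000 : ℝ) * π * KK D (((((1 : ℤ) : ℝ) / ((6 : ℕ) : ℝ)) * π) + ((((-2 : ℤ) : ℝ) / ((1 : ℕ) : ℝ)) * (E 0))) + (-39793 / 1125000 : ℝ) * π * KK D (((((1 : ℤ) : ℝ) / ((6 : ℕ) : ℝ)) * π) + ((((-3 : ℤ) : ℝ) / ((1 : ℕ) : ℝ)) * (E 0))) + (39793 / 562500 : ℝ) * π * KK D (((((1 : ℤ) : ℝ) / ((6 : ℕ) : ℝ)) * π) + ((((1 : ℤ) :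 ℝ) / ((2 : ℕ) : ℝ)) * (E 0))) + (-39793 / 562500 : ℝ) * π * KK D (((((1 : ℤ) : ℝ) / ((6 : ℕ) : ℝ)) * π) + ((((3 : ℤ) : ℝ) / ((2 : ℕ) : ℝ)) * (E 0))) + (4 / 3 : ℝ) * E 0 * E 2 * KK D (((((1 : ℤ) : ℝ) / ((2 : ℕ) : ℝ)) * π) + ((((-1 : ℤ) : ℝ) / ((1 : ℕ) : ℝ)) * (E 0))) + (-4 / 3 : ℝ) * E 0 * E 2 * KK D ((((1 : ℤ) : ℝ) / ((2 : ℕ) : ℝ)) * π) + (-8 / 3 : ℝ) * E 0 * E 2 * KK D (((((1 : ℤ) : ℝ) / ((6 : ℕ) : ℝ)) * π) + ((((-2 : ℤ) : ℝ) / ((1 : ℕ) : ℝ)) * (E 0))) + (8 / 3 : ℝ) * E 0 * E 2 * KK D (((((1 : ℤ) : ℝ) / ((6 : ℕ) : ℝ)) * π) + ((((-3 : ℤ) : ℝ) / ((1 : ℕ) : ℝ)) * (E 0))) + (4 / 3 : ℝ) * E 0 * E 2 * KK D (((((1 : ℤ) : ℝ) / ((6 : ℕ) : ℝ)) * π) + ((((1 : ℤ) : ℝ) / ((2 : ℕ) : ℝ)) * (E 0))) + (-4 / 3 : ℝ) * E 0 * E 2 * KK D (((((1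 : ℤ) : ℝ) / ((6 : ℕ) : ℝ)) * π) + ((((3 : ℤ) : ℝ) / ((2 : ℕ) : ℝ)) * (E 0))) + (-4 / 9 : ℝ) * E 0 * E 4 * KK D (((((1 : ℤ) : ℝ) / ((2 : ℕ) : ℝ)) * π) + ((((-1 : ℤ) : ℝ) / ((1 : ℕ) : ℝ)) * (E 0))) + (4 / 9 : ℝ) * E 0 * E 4 * KK D ((((1 : ℤ) : ℝ) / ((2 : ℕ) : ℝ)) * π) + (8 / 9 : ℝ) * E 0 * E 4 * KK D (((((1 : ℤ) : ℝ) / ((6 : ℕ) : ℝ)) * π) + ((((-2 : ℤ) : ℝ) / ((1 : ℕ) : ℝ)) * (E 0))) + (-8 / 9 : ℝ) * E 0 * E 4 * KK D (((((1 : ℤ) : ℝ) / ((6 : ℕ) : ℝ)) * π) + ((((-3 : ℤ) : ℝ) / ((1 : ℕ) : ℝ)) * (E 0))) + (-4 / 9 : ℝ) * E 0 * E 4 * KK D (((((1 : ℤ) : ℝ) / ((6 : ℕ) : ℝ)) * π) + ((((1 : ℤ) : ℝ) / ((2 : ℕ) : ℝ)) * (E 0))) + (4 / 9 : ℝ) * E 0 * E 4 * KK D (((((1 : ℤ) : ℝ) / ((6 : ℕ) : ℝ)) * π) + ((((3 : ℤ) : ℝ) / ((2 : ℕ) : ℝ))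 * (E 0))) + (39793 / 187500 : ℝ) * E 0 * KK D (((((1 : ℤ) : ℝ) / ((2 : ℕ) : ℝ)) * π) + ((((-1 : ℤ) : ℝ) / ((1 : ℕ) : ℝ)) * (E 0))) + (-39793 / 187500 : ℝ) * E 0 * KK D ((((1 : ℤ) : ℝ) / ((2 : ℕ) : ℝ)) * π) + (-39793 / 93750 : ℝ) * E 0 * KK D (((((1 : ℤ) : ℝ) / ((6 : ℕ) : ℝ)) * π) + ((((-2 : ℤ) : ℝ) / ((1 : ℕ) : ℝ)) * (E 0))) + (39793 / 93750 : ℝ) * E 0 * KK D (((((1 : ℤ) : ℝ) / ((6 : ℕ) : ℝ)) * π) + ((((-3 : ℤ) : ℝ) / ((1 : ℕ) : ℝ)) * (E 0))) + (39793 / 187500 : ℝ) * E 0 * KK D (((((1 : ℤ) : ℝ) / ((6 : ℕ) : ℝ)) * π) + ((((1 : ℤ) : ℝ) / ((2 : ℕ) : ℝ)) * (E 0))) + (-39793 / 187500 : ℝ) * E 0 * KK D (((((1 : ℤ) : ℝ) / ((6 : ℕ) : ℝ)) * π) + ((((3 : ℤ) : ℝ) / ((2 : ℕ) : ℝ)) * (E 0))) + (4 / 3 : ℝ) * E 2 * TT D (((((1 : ℤ) :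 ℝ) / ((2 : ℕ) : ℝ)) * π) + ((((-1 : ℤ) : ℝ) / ((1 : ℕ) : ℝ)) * (E 0))) + (-4 / 3 : ℝ) * E 2 * TT D ((((1 : ℤ) : ℝ) / ((2 : ℕ) : ℝ)) * π) + (-4 / 3 : ℝ) * E 2 * TT D (((((1 : ℤ) : ℝ) / ((6 : ℕ) : ℝ)) * π) + ((((-2 : ℤ) : ℝ) / ((1 : ℕ) : ℝ)) * (E 0))) + (4 / 3 : ℝ) * E 2 * TT D (((((1 : ℤ) : ℝ) / ((6 : ℕ) : ℝ)) * π) + ((((-3 : ℤ) : ℝ) / ((1 : ℕ) : ℝ)) * (E 0))) + (-8 / 3 : ℝ) * E 2 * TT D (((((1 : ℤ) : ℝ) / ((6 : ℕ) : ℝ)) * π) + ((((1 : ℤ) : ℝ) / ((2 : ℕ) : ℝ)) * (E 0))) + (8 / 3 : ℝ) * E 2 * TT D (((((1 : ℤ) : ℝ) / ((6 : ℕ) : ℝ)) * π) + ((((3 : ℤ) : ℝ) / ((2 : ℕ) : ℝ)) * (E 0))) + (-4 / 9 : ℝ) * E 4 * TT D (((((1 : ℤ) : ℝ) / ((2 : ℕ) : ℝ)) * π) + ((((-1 : ℤ) : ℝ) / ((1 : ℕ) : ℝ)) * (E 0))) + (4 / 9 : ℝ) * E 4 * TT D ((((1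 : ℤ) : ℝ) / ((2 : ℕ) : ℝ)) * π) + (4 / 9 : ℝ) * E 4 * TT D (((((1 : ℤ) : ℝ) / ((6 : ℕ) : ℝ)) * π) + ((((-2 : ℤ) : ℝ) / ((1 : ℕ) : ℝ)) * (E 0))) + (-4 / 9 : ℝ) * E 4 * TT D (((((1 : ℤ) : ℝ) / ((6 : ℕ) : ℝ)) * π) + ((((-3 : ℤ) : ℝ) / ((1 : ℕ) : ℝ)) * (E 0))) + (8 / 9 : ℝ) * E 4 * TT D (((((1 : ℤ) : ℝ) / ((6 : ℕ) : ℝ)) * π) + ((((1 : ℤ) : ℝ) / ((2 : ℕ) : ℝ)) * (E 0))) + (-8 / 9 : ℝ) * E 4 * TT D (((((1 : ℤ) : ℝ) / ((6 : ℕ) : ℝ)) * π) + ((((3 : ℤ) : ℝ) / ((2 : ℕ) : ℝ)) * (E 0))) + (39793 / 187500 : ℝ) * TT D (((((1 : ℤ) : ℝ) / ((2 : ℕ) : ℝ)) * π) + ((((-1 : ℤ) : ℝ) / ((1 : ℕ) : ℝ)) * (E 0))) + (-39793 / 187500 : ℝ) * TT D ((((1 : ℤ) : ℝ) / ((2 : ℕ) : ℝ)) * π) + (-39793 / 187500 : ℝ) * TT D (((((1 : ℤ) : ℝ) / ((6 : ℕ) : ℝ))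 * π) + ((((-2 : ℤ) : ℝ) / ((1 : ℕ) : ℝ)) * (E 0))) + (39793 / 187500 : ℝ) * TT D (((((1 : ℤ) : ℝ) / ((6 : ℕ) : ℝ)) * π) + ((((-3 : ℤ) : ℝ) / ((1 : ℕ) : ℝ)) * (E 0))) + (-39793 / 93750 : ℝ) * TT D (((((1 : ℤ) : ℝ) / ((6 : ℕ) : ℝ)) * π) + ((((1 : ℤ) : ℝ) / ((2 : ℕ) : ℝ)) * (E 0))) + (39793 / 93750 : ℝ) * TT D (((((1 : ℤ) : ℝ) / ((6 : ℕ) : ℝ)) * π) + ((((3 : ℤ) : ℝ) / ((2 : ℕ) : ℝ)) * (E 0)))) ≤ 0 := by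
  have p1 := pi_gt_d4
  have p2 := pi_lt_d4
  have t1 := h.t1
  have t2 := h.t2
  have r := rayL A.cont A.b1 (((((1 : ℤ) : ℝ) / ((6 : ℕ) : ℝ)) * π) + ((((-2 : ℤ) : ℝ) / ((1 : ℕ) : ℝ)) * (E 0))) (((((3 : ℤ) : ℝ) / ((2 : ℕ) : ℝ)) * π) + ((((1 : ℤ) : ℝ) / ((1 : ℕ) : ℝ)) * (E 0))) (((((1 : ℤ) : ℝ) / ((6 : ℕ) : ℝ)) * π) + ((((1 : ℤ) : ℝ) / ((2 : ℕ) : ℝ)) * (E 0))) (((((1 : ℤ) : ℝ) / ((6 : ℕ) : ℝ)) * π) + ((((-3 : ℤ) : ℝ) / ((1 : ℕ) : ℝ)) * (E 0))) ((((3 : ℤ) : ℝ) / ((2 : ℕ) : ℝ)) * π) (((((1 : ℤ) : ℝ) / ((6 : ℕ) : ℝ)) * π) + ((((3 : ℤ) : ℝ) / ((2 : ℕ) : ℝ)) * (E 0)))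
    ((((1 : ℤ) : ℝ) / ((1 : ℕ) : ℝ)) * (E 0)) (-1 : ℝ) (-1 : ℝ) (1 : ℝ) (0 : ℝ) ((4 / 3 : ℝ) * E 2 + (-4 / 9 : ℝ) * E 4 + (39793 / 187500 : ℝ)) (by linarith only [p1, p2, t1, t2])
    (by norm_num) (by norm_num) (by norm_num) (by ring) (by ring) (by ring) (by ring) (by ring) (by norm_num) (by linarith only [(P6 h).2.2.2.2.2.1])
    ⟨by linarith only [p1, p2, t1, t2], by linarith only [p1, p2, t1, t2], by linarith only [p1, p2, t1, t2], by linarith only [p1, p2, t1, t2], by linarith only [p1, p2, t1, t2], by linarith only [p1, p2, t1, t2]⟩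
    ⟨by linarith only [p1, p2, t1, t2], by linarith only [p1, p2, t1, t2], by linarith only [p1, p2, t1, t2], by linarith only [p1, p2, t1, t2], by linarith only [p1, p2, t1, t2], by linarith only [p1, p2, t1, t2]⟩
  unfold sd at r
  rw [(fo25 A).1, (fo25 A).2.1, (fo27 A).1, (fo27 A).2.1] at r
  linear_combination r

theorem ry30 (h : H E) (A : Adm1 (E 0) D) : ((-1 / 3 : ℝ) * π * E 6 * KK D (((((1 : ℤ) : ℝ) / ((2 : ℕ) : ℝ)) * π) + ((((-1 : ℤ) : ℝ) / ((1 : ℕ) : ℝ)) * (E 0))) + (1 / 3 : ℝ) * π * E 6 * KK D ((((1 : ℤ) : ℝ) / ((2 : ℕ) : ℝ)) * π) + (-1 / 9 : ℝ) * π * E 6 * KK D (((((1 : ℤ) : ℝ) / ((6 : ℕ) : ℝ)) * π) + ((((-1 : ℤ) : ℝ) / ((1 : ℕ) : ℝ)) * (E 0))) + (1 / 9 : ℝ) * π * E 6 * KK D (((((1 : ℤ) : ℝ) / ((6 : ℕ) : ℝ))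 * π) + ((((-2 : ℤ) : ℝ) / ((1 : ℕ) : ℝ)) * (E 0))) + (-2 / 9 : ℝ) * π * E 6 * KK D (((((1 : ℤ) : ℝ) / ((6 : ℕ) : ℝ)) * π) + ((((1 : ℤ) : ℝ) / ((2 : ℕ) : ℝ)) * (E 0))) + (2 / 9 : ℝ) * π * E 6 * KK D (((((1 : ℤ) : ℝ) / ((6 : ℕ) : ℝ)) * π) + ((((3 : ℤ) : ℝ) / ((2 : ℕ) : ℝ)) * (E 0))) + (-38641 / 500000 : ℝ) * π * KK D (((((1 : ℤ) : ℝ) / ((2 : ℕ) : ℝ)) * π) + ((((-1 : ℤ) : ℝ) / ((1 : ℕ) : ℝ)) * (E 0))) + (38641 / 500000 : ℝ) * π * KK D ((((1 : ℤ) : ℝ) / ((2 : ℕ) : ℝ)) * π) + (-38641 / 1500000 : ℝ) * π * KK D (((((1 : ℤ) : ℝ) / ((6 : ℕ) : ℝ)) * π) + ((((-1 : ℤ) : ℝ) / ((1 : ℕ) : ℝ)) * (E 0))) + (38641 / 1500000 : ℝ) * π * KK D (((((1 : ℤ) : ℝ) / ((6 : ℕ) : ℝ)) * π) + ((((-2 : ℤ) : ℝ) / ((1 : ℕ) : ℝ)) * (E 0))) + (-38641 / 750000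 : ℝ) * π * KK D (((((1 : ℤ) : ℝ) / ((6 : ℕ) : ℝ)) * π) + ((((1 : ℤ) : ℝ) / ((2 : ℕ) : ℝ)) * (E 0))) + (38641 / 750000 : ℝ) * π * KK D (((((1 : ℤ) : ℝ) / ((6 : ℕ) : ℝ)) * π) + ((((3 : ℤ) : ℝ) / ((2 : ℕ) : ℝ)) * (E 0))) + (2 / 3 : ℝ) * E 0 * E 6 * KK D (((((1 : ℤ) : ℝ) / ((2 : ℕ) : ℝ)) * π) + ((((-1 : ℤ) : ℝ) / ((1 : ℕ) : ℝ)) * (E 0))) + (-2 / 3 : ℝ) * E 0 * E 6 * KK D ((((1 : ℤ) : ℝ) / ((2 : ℕ) : ℝ)) * π) + (4 / 3 : ℝ) * E 0 * E 6 * KK D (((((1 : ℤ) : ℝ) / ((6 : ℕ) : ℝ)) * π) + ((((-1 : ℤ) : ℝ) / ((1 : ℕ) : ℝ)) * (E 0))) + (-4 / 3 : ℝ) * E 0 * E 6 * KK D (((((1 : ℤ) : ℝ) / ((6 : ℕ) : ℝ)) * π) + ((((-2 : ℤ) : ℝ) / ((1 : ℕ) : ℝ)) * (E 0))) + (-2 : ℝ) * E 0 * E 6 * KK D (((((1 : ℤ) : ℝ) / ((6 : ℕ) : ℝ)) * π) + ((((1 : ℤ) :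 ℝ) / ((2 : ℕ) : ℝ)) * (E 0))) + (2 : ℝ) * E 0 * E 6 * KK D (((((1 : ℤ) : ℝ) / ((6 : ℕ) : ℝ)) * π) + ((((3 : ℤ) : ℝ) / ((2 : ℕ) : ℝ)) * (E 0))) + (38641 / 250000 : ℝ) * E 0 * KK D (((((1 : ℤ) : ℝ) / ((2 : ℕ) : ℝ)) * π) + ((((-1 : ℤ) : ℝ) / ((1 : ℕ) : ℝ)) * (E 0))) + (-38641 / 250000 : ℝ) * E 0 * KK D ((((1 : ℤ) : ℝ) / ((2 : ℕ) : ℝ)) * π) + (38641 / 125000 : ℝ) * E 0 * KK D (((((1 : ℤ) : ℝ) / ((6 : ℕ) : ℝ)) * π) + ((((-1 : ℤ) : ℝ) / ((1 : ℕ) : ℝ)) * (E 0))) + (-38641 / 125000 : ℝ) * E 0 * KK D (((((1 : ℤ) : ℝ) / ((6 : ℕ) : ℝ)) * π) + ((((-2 : ℤ) : ℝ) / ((1 : ℕ) : ℝ)) * (E 0))) + (-115923 / 250000 : ℝ) * E 0 * KK D (((((1 : ℤ) : ℝ) / ((6 : ℕ) : ℝ)) * π) + ((((1 : ℤ) : ℝ) / ((2 : ℕ) : ℝ)) * (E 0))) + (115923 / 250000 : ℝ)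 * E 0 * KK D (((((1 : ℤ) : ℝ) / ((6 : ℕ) : ℝ)) * π) + ((((3 : ℤ) : ℝ) / ((2 : ℕ) : ℝ)) * (E 0))) + (2 / 3 : ℝ) * E 6 * TT D (((((1 : ℤ) : ℝ) / ((2 : ℕ) : ℝ)) * π) + ((((-1 : ℤ) : ℝ) / ((1 : ℕ) : ℝ)) * (E 0))) + (-2 / 3 : ℝ) * E 6 * TT D ((((1 : ℤ) : ℝ) / ((2 : ℕ) : ℝ)) * π) + (2 / 3 : ℝ) * E 6 * TT D (((((1 : ℤ) : ℝ) / ((6 : ℕ) : ℝ)) * π) + ((((-1 : ℤ) : ℝ) / ((1 : ℕ) : ℝ)) * (E 0))) + (-2 / 3 : ℝ) * E 6 * TT D (((((1 : ℤ) : ℝ) / ((6 : ℕ) : ℝ)) * π) + ((((-2 : ℤ) : ℝ) / ((1 : ℕ) : ℝ)) * (E 0))) + (4 / 3 : ℝ) * E 6 * TT D (((((1 : ℤ) : ℝ) / ((6 : ℕ) : ℝ)) * π) + ((((1 : ℤ) : ℝ) / ((2 : ℕ) : ℝ)) * (E 0))) + (-4 / 3 : ℝ) * E 6 * TT D (((((1 : ℤ) : ℝ) / ((6 : ℕ) : ℝ)) * π) + ((((3 : ℤ) : ℝ) / ((2 : ℕ) : ℝ)) * (E 0))) + (38641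 / 250000 : ℝ) * TT D (((((1 : ℤ) : ℝ) / ((2 : ℕ) : ℝ)) * π) + ((((-1 : ℤ) : ℝ) / ((1 : ℕ) : ℝ)) * (E 0))) + (-38641 / 250000 : ℝ) * TT D ((((1 : ℤ) : ℝ) / ((2 : ℕ) : ℝ)) * π) + (38641 / 250000 : ℝ) * TT D (((((1 : ℤ) : ℝ) / ((6 : ℕ) : ℝ)) * π) + ((((-1 : ℤ) : ℝ) / ((1 : ℕ) : ℝ)) * (E 0))) + (-38641 / 250000 : ℝ) * TT D (((((1 : ℤ) : ℝ) / ((6 : ℕ) : ℝ)) * π) + ((((-2 : ℤ) : ℝ) / ((1 : ℕ) : ℝ)) * (E 0))) + (38641 / 125000 : ℝ) * TT D (((((1 : ℤ) : ℝ) / ((6 : ℕ) : ℝ)) * π) + ((((1 : ℤ) : ℝ) / ((2 : ℕ) : ℝ)) * (E 0))) + (-38641 / 125000 : ℝ) * TT D (((((1 : ℤ) : ℝ) / ((6 : ℕ) : ℝ)) * π) + ((((3 : ℤ) : ℝ) / ((2 : ℕ) : ℝ)) * (E 0)))) ≤ 0 := by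
  have p1 := pi_gt_d4
  have p2 := pi_lt_d4
  have t1 := h.t1
  have t2 := h.t2
  have r := rayL A.cont A.b1 (((((1 : ℤ) : ℝ) / ((6 : ℕ) : ℝ)) * π) + ((((-1 : ℤ) : ℝ) / ((1 : ℕ) : ℝ)) * (E 0))) ((((3 : ℤ) : ℝ) / ((2 : ℕ) : ℝ)) * π) (((((1 : ℤ) : ℝ) / ((6 : ℕ) : ℝ)) * π) + ((((1 : ℤ) : ℝ) / ((2 : ℕ) : ℝ)) * (E 0))) (((((1 : ℤ) : ℝ) / ((6 : ℕ) : ℝ)) * π) + ((((-2 : ℤ) : ℝ) / ((1 : ℕ) : ℝ)) * (E 0))) (((((3 : ℤ) : ℝ) / ((2 : ℕ) : ℝ)) * π) + ((((-1 : ℤ) : ℝ) / ((1 : ℕ) : ℝ)) * (E 0))) (((((1 : ℤ) : ℝ) / ((6 : ℕ) : ℝ)) * π) + ((((3 : ℤ) : ℝ) / ((2 : ℕ) : ℝ)) * (E 0)))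
    ((((1 : ℤ) : ℝ) / ((1 : ℕ) : ℝ)) * (E 0)) (-1 : ℝ) (-1 : ℝ) (1 : ℝ) ((2 / 3 : ℝ) * E 6 + (38641 / 250000 : ℝ)) (0 : ℝ) (by linarith only [p1, p2, t1, t2])
    (by norm_num) (by norm_num) (by norm_num) (by ring) (by ring) (by ring) (by ring) (by ring) (by linarith only [(P6 h).2.2.2.2.2.2.1]) (by norm_num)
    ⟨by linarith only [p1, p2, t1, t2], by linarith only [p1, p2, t1, t2], by linarith only [p1, p2, t1, t2], by linarith only [p1, p2, t1, t2], by linarith only [p1, p2, t1, t2], by linarith only [p1, p2, t1, t2]⟩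
    ⟨by linarith only [p1, p2, t1, t2], by linarith only [p1, p2, t1, t2], by linarith only [p1, p2, t1, t2], by linarith only [p1, p2, t1, t2], by linarith only [p1, p2, t1, t2], by linarith only [p1, p2, t1, t2]⟩
  unfold sd at r
  rw [(fo27 A).1, (fo27 A).2.1, (fo26 A).1, (fo26 A).2.1] at r
  linear_combination r

theorem ry31 (h : H E) (A : Adm1 (E 0) D) : ((1 / 6 : ℝ) * π * E 2 * KK D (((((-1 : ℤ) : ℝ) / ((6 : ℕ) : ℝ)) * π) + ((((4 : ℤ) : ℝ) / ((1 : ℕ) : ℝ)) * (E 0))) + (1 / 2 : ℝ) * π * E 2 * KK D (((((1 : ℤ) : ℝ) / ((2 : ℕ) : ℝ)) * π) + ((((-1 : ℤ) : ℝ) / ((1 : ℕ) : ℝ)) * (E 0))) + (-1 / 2 : ℝ) * π * E 2 * KK D ((((1 : ℤ) : ℝ) / ((2 : ℕ) : ℝ)) * π) + (-1 / 6 : ℝ) * π * E 2 * KK D (((((1 : ℤ) : ℝ) / ((6 : ℕ) : ℝ))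 * π) + ((((-3 : ℤ) : ℝ) / ((1 : ℕ) : ℝ)) * (E 0))) + (-1 / 3 : ℝ) * π * E 2 * KK D (((((1 : ℤ) : ℝ) / ((6 : ℕ) : ℝ)) * π) + ((((1 : ℤ) : ℝ) / ((1 : ℕ) : ℝ)) * (E 0))) + (1 / 3 : ℝ) * π * E 2 * KK D (((((1 : ℤ) : ℝ) / ((6 : ℕ) : ℝ)) * π) + ((((2 : ℤ) : ℝ) / ((1 : ℕ) : ℝ)) * (E 0))) + (-1 / 18 : ℝ) * π * E 4 * KK D (((((-1 : ℤ) : ℝ) / ((6 : ℕ) : ℝ)) * π) + ((((4 : ℤ) : ℝ) / ((1 : ℕ) : ℝ)) * (E 0))) + (-1 / 6 : ℝ) * π * E 4 * KK D (((((1 : ℤ) : ℝ) / ((2 : ℕ) : ℝ)) * π) + ((((-1 : ℤ) : ℝ) / ((1 : ℕ) : ℝ)) * (E 0))) + (1 / 6 : ℝ) * π * E 4 * KK D ((((1 : ℤ) : ℝ) / ((2 : ℕ) : ℝ)) * π) + (1 / 18 : ℝ) * π * E 4 * KK D (((((1 : ℤ) : ℝ) / ((6 : ℕ) : ℝ)) * π) + ((((-3 : ℤ) : ℝ) / ((1 : ℕ) : ℝ)) * (E 0))) + (1 / 9 : ℝ) * π * E 4 *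 KK D (((((1 : ℤ) : ℝ) / ((6 : ℕ) : ℝ)) * π) + ((((1 : ℤ) : ℝ) / ((1 : ℕ) : ℝ)) * (E 0))) + (-1 / 9 : ℝ) * π * E 4 * KK D (((((1 : ℤ) : ℝ) / ((6 : ℕ) : ℝ)) * π) + ((((2 : ℤ) : ℝ) / ((1 : ℕ) : ℝ)) * (E 0))) + (39793 / 1500000 : ℝ) * π * KK D (((((-1 : ℤ) : ℝ) / ((6 : ℕ) : ℝ)) * π) + ((((4 : ℤ) : ℝ) / ((1 : ℕ) : ℝ)) * (E 0))) + (39793 / 500000 : ℝ) * π * KK D (((((1 : ℤ) : ℝ) / ((2 : ℕ) : ℝ)) * π) + ((((-1 : ℤ) : ℝ) / ((1 : ℕ) : ℝ)) * (E 0))) + (-39793 / 500000 : ℝ) * π * KK D ((((1 : ℤ) : ℝ) / ((2 : ℕ) : ℝ)) * π) + (-39793 / 1500000 : ℝ) * π * KK D (((((1 : ℤ) : ℝ) / ((6 : ℕ) : ℝ)) * π) + ((((-3 : ℤ) : ℝ) / ((1 : ℕ) : ℝ)) * (E 0))) + (-39793 / 750000 : ℝ) * π * KK D (((((1 : ℤ) : ℝ) / ((6 : ℕ) : ℝ)) * π) + ((((1 : ℤ) : ℝ)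 / ((1 : ℕ) : ℝ)) * (E 0))) + (39793 / 750000 : ℝ) * π * KK D (((((1 : ℤ) : ℝ) / ((6 : ℕ) : ℝ)) * π) + ((((2 : ℤ) : ℝ) / ((1 : ℕ) : ℝ)) * (E 0))) + (-4 : ℝ) * E 0 * E 2 * KK D (((((-1 : ℤ) : ℝ) / ((6 : ℕ) : ℝ)) * π) + ((((4 : ℤ) : ℝ) / ((1 : ℕ) : ℝ)) * (E 0))) + (4 : ℝ) * E 0 * E 2 * KK D (((((1 : ℤ) : ℝ) / ((6 : ℕ) : ℝ)) * π) + ((((-3 : ℤ) : ℝ) / ((1 : ℕ) : ℝ)) * (E 0))) + (-4 : ℝ) * E 0 * E 2 * KK D (((((1 : ℤ) : ℝ) / ((6 : ℕ) : ℝ)) * π) + ((((1 : ℤ) : ℝ) / ((1 : ℕ) : ℝ)) * (E 0))) + (4 : ℝ) * E 0 * E 2 * KK D (((((1 : ℤ) : ℝ) / ((6 : ℕ) : ℝ)) * π) + ((((2 : ℤ) : ℝ) / ((1 : ℕ) : ℝ)) * (E 0))) + (4 / 3 : ℝ) * E 0 * E 4 * KK D (((((-1 : ℤ) : ℝ) / ((6 : ℕ) : ℝ)) * π) + ((((4 : ℤ) : ℝ) / ((1 : ℕ) : ℝ)) * (E 0))) + (-4 / 3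 : ℝ) * E 0 * E 4 * KK D (((((1 : ℤ) : ℝ) / ((6 : ℕ) : ℝ)) * π) + ((((-3 : ℤ) : ℝ) / ((1 : ℕ) : ℝ)) * (E 0))) + (4 / 3 : ℝ) * E 0 * E 4 * KK D (((((1 : ℤ) : ℝ) / ((6 : ℕ) : ℝ)) * π) + ((((1 : ℤ) : ℝ) / ((1 : ℕ) : ℝ)) * (E 0))) + (-4 / 3 : ℝ) * E 0 * E 4 * KK D (((((1 : ℤ) : ℝ) / ((6 : ℕ) : ℝ)) * π) + ((((2 : ℤ) : ℝ) / ((1 : ℕ) : ℝ)) * (E 0))) + (-39793 / 62500 : ℝ) * E 0 * KK D (((((-1 : ℤ) : ℝ) / ((6 : ℕ) : ℝ)) * π) + ((((4 : ℤ) : ℝ) / ((1 : ℕ) : ℝ)) * (E 0))) + (39793 / 62500 : ℝ) * E 0 * KK D (((((1 : ℤ) : ℝ) / ((6 : ℕ) : ℝ)) * π) + ((((-3 : ℤ) : ℝ) / ((1 : ℕ) : ℝ)) * (E 0))) + (-39793 / 62500 : ℝ) * E 0 * KK D (((((1 : ℤ) : ℝ) / ((6 : ℕ) : ℝ)) * π) + ((((1 : ℤ) : ℝ) / ((1 : ℕ) : ℝ)) * (E 0))) + (39793 / 62500 : ℝ) *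 E 0 * KK D (((((1 : ℤ) : ℝ) / ((6 : ℕ) : ℝ)) * π) + ((((2 : ℤ) : ℝ) / ((1 : ℕ) : ℝ)) * (E 0))) + (1 : ℝ) * E 2 * TT D (((((-1 : ℤ) : ℝ) / ((6 : ℕ) : ℝ)) * π) + ((((4 : ℤ) : ℝ) / ((1 : ℕ) : ℝ)) * (E 0))) + (-1 : ℝ) * E 2 * TT D (((((1 : ℤ) : ℝ) / ((2 : ℕ) : ℝ)) * π) + ((((-1 : ℤ) : ℝ) / ((1 : ℕ) : ℝ)) * (E 0))) + (1 : ℝ) * E 2 * TT D ((((1 : ℤ) : ℝ) / ((2 : ℕ) : ℝ)) * π) + (1 : ℝ) * E 2 * TT D (((((1 : ℤ) : ℝ) / ((6 : ℕ) : ℝ)) * π) + ((((-3 : ℤ) : ℝ) / ((1 : ℕ) : ℝ)) * (E 0))) + (2 : ℝ) * E 2 * TT D (((((1 : ℤ) : ℝ) / ((6 : ℕ) : ℝ)) * π) + ((((1 : ℤ) : ℝ) / ((1 : ℕ) : ℝ)) * (E 0))) + (-2 : ℝ) * E 2 * TT D (((((1 : ℤ) : ℝ) / ((6 : ℕ) : ℝ)) * π) + ((((2 : ℤ) : ℝ) / ((1 : ℕ) : ℝ)) * (E 0))) + (-1 / 3 : ℝ) * E 4 * TT D (((((-1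 : ℤ) : ℝ) / ((6 : ℕ) : ℝ)) * π) + ((((4 : ℤ) : ℝ) / ((1 : ℕ) : ℝ)) * (E 0))) + (1 / 3 : ℝ) * E 4 * TT D (((((1 : ℤ) : ℝ) / ((2 : ℕ) : ℝ)) * π) + ((((-1 : ℤ) : ℝ) / ((1 : ℕ) : ℝ)) * (E 0))) + (-1 / 3 : ℝ) * E 4 * TT D ((((1 : ℤ) : ℝ) / ((2 : ℕ) : ℝ)) * π) + (-1 / 3 : ℝ) * E 4 * TT D (((((1 : ℤ) : ℝ) / ((6 : ℕ) : ℝ)) * π) + ((((-3 : ℤ) : ℝ) / ((1 : ℕ) : ℝ)) * (E 0))) + (-2 / 3 : ℝ) * E 4 * TT D (((((1 : ℤ) : ℝ) / ((6 : ℕ) : ℝ)) * π) + ((((1 : ℤ) : ℝ) / ((1 : ℕ) : ℝ)) * (E 0))) + (2 / 3 : ℝ) * E 4 * TT D (((((1 : ℤ) : ℝ) / ((6 : ℕ) : ℝ)) * π) + ((((2 : ℤ) : ℝ) / ((1 : ℕ) : ℝ)) * (E 0))) + (39793 / 250000 : ℝ) * TT D (((((-1 : ℤ) : ℝ) / ((6 : ℕ) : ℝ)) * π) + ((((4 : ℤ) : ℝ) / ((1 : ℕ) : ℝ)) * (E 0))) + (-39793 / 250000 : ℝ)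 * TT D (((((1 : ℤ) : ℝ) / ((2 : ℕ) : ℝ)) * π) + ((((-1 : ℤ) : ℝ) / ((1 : ℕ) : ℝ)) * (E 0))) + (39793 / 250000 : ℝ) * TT D ((((1 : ℤ) : ℝ) / ((2 : ℕ) : ℝ)) * π) + (39793 / 250000 : ℝ) * TT D (((((1 : ℤ) : ℝ) / ((6 : ℕ) : ℝ)) * π) + ((((-3 : ℤ) : ℝ) / ((1 : ℕ) : ℝ)) * (E 0))) + (39793 / 125000 : ℝ) * TT D (((((1 : ℤ) : ℝ) / ((6 : ℕ) : ℝ)) * π) + ((((1 : ℤ) : ℝ) / ((1 : ℕ) : ℝ)) * (E 0))) + (-39793 / 125000 : ℝ) * TT D (((((1 : ℤ) : ℝ) / ((6 : ℕ) : ℝ)) * π) + ((((2 : ℤ) : ℝ) / ((1 : ℕ) : ℝ)) * (E 0)))) ≤ 0 := by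
  have p1 := pi_gt_d4
  have p2 := pi_lt_d4
  have t1 := h.t1
  have t2 := h.t2
  have r := rayL A.cont A.b1 (((((1 : ℤ) : ℝ) / ((6 : ℕ) : ℝ)) * π) + ((((-3 : ℤ) : ℝ) / ((1 : ℕ) : ℝ)) * (E 0))) (((((3 : ℤ) : ℝ) / ((2 : ℕ) : ℝ)) * π) + ((((1 : ℤ) : ℝ) / ((1 : ℕ) : ℝ)) * (E 0))) (((((1 : ℤ) : ℝ) / ((6 : ℕ) : ℝ)) * π) + ((((1 : ℤ) : ℝ) / ((1 : ℕ) : ℝ)) * (E 0))) (((((1 : ℤ) : ℝ) / ((6 : ℕ) : ℝ)) * π) + ((((-4 : ℤ) : ℝ) / ((1 : ℕ) : ℝ)) * (E 0))) ((((3 : ℤ) : ℝ) / ((2 : ℕ) : ℝ)) * π) (((((1 : ℤ) : ℝ) / ((6 : ℕ) : ℝ)) * π) + ((((2 : ℤ) : ℝ) / ((1 : ℕ) : ℝ)) * (E 0)))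
    ((((1 : ℤ) : ℝ) / ((1 : ℕ) : ℝ)) * (E 0)) (-1 : ℝ) (-1 : ℝ) (1 : ℝ) ((1 : ℝ) * E 2 + (-1 / 3 : ℝ) * E 4 + (39793 / 250000 : ℝ)) (0 : ℝ) (by linarith only [p1, p2, t1, t2])
    (by norm_num) (by norm_num) (by norm_num) (by ring) (by ring) (by ring) (by ring) (by ring) (by linarith only [(P6 h).2.2.2.2.2.2.2.1]) (by norm_num)
    ⟨by linarith only [p1, p2, t1, t2], by linarith only [p1, p2, t1, t2], by linarith only [p1, p2, t1, t2], by linarith only [p1, p2, t1, t2], by linarith only [p1, p2, t1, t2], by linarith only [p1, p2, t1, t2]⟩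
    ⟨by linarith only [p1, p2, t1, t2], by linarith only [p1, p2, t1, t2], by linarith only [p1, p2, t1, t2], by linarith only [p1, p2, t1, t2], by linarith only [p1, p2, t1, t2], by linarith only [p1, p2, t1, t2]⟩
  unfold sd at r
  rw [(fo25 A).1, (fo25 A).2.1, (fo28 A).1, (fo28 A).2.1, (fo27 A).1, (fo27 A).2.1] at r
  linear_combination r

theorem ry32 (h : H E) (A : Adm1 (E 0) D) : ((-115721 / 18000000 : ℝ) * π * KK D (((((-1 : ℤ) : ℝ) / ((6 : ℕ) : ℝ)) * π) + ((((5 : ℤ) : ℝ) / ((1 : ℕ) : ℝ)) * (E 0))) + (347163 / 2000000 : ℝ) * π * KK D (((((1 : ℤ) : ℝ) / ((2 : ℕ) : ℝ)) * π) + ((((-1 : ℤ) : ℝ) / ((1 : ℕ) : ℝ)) * (E 0))) + (-347163 / 2000000 : ℝ) * π * KK D ((((1 : ℤ) : ℝ) / ((2 : ℕ) : ℝ)) * π) + (115721 / 18000000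 : ℝ) * π * KK D (((((1 : ℤ) : ℝ) / ((6 : ℕ) : ℝ)) * π) + ((((-2 : ℤ) : ℝ) / ((1 : ℕ) : ℝ)) * (E 0))) + (115721 / 1000000 : ℝ) * π * KK D (((((1 : ℤ) : ℝ) / ((6 : ℕ) : ℝ)) * π) + ((((1 : ℤ) : ℝ) / ((1 : ℕ) : ℝ)) * (E 0))) + (-115721 / 1000000 : ℝ) * π * KK D (((((1 : ℤ) : ℝ) / ((6 : ℕ) : ℝ)) * π) + ((((2 : ℤ) : ℝ) / ((1 : ℕ) : ℝ)) * (E 0))) + (115721 / 1500000 : ℝ) * E 0 * KK D (((((-1 : ℤ) : ℝ) / ((6 : ℕ) : ℝ)) * π) + ((((5 : ℤ) : ℝ) / ((1 : ℕ) : ℝ)) * (E 0))) + (-115721 / 1500000 : ℝ) * E 0 * KK D (((((1 : ℤ) : ℝ) / ((6 : ℕ) : ℝ)) * π) + ((((-2 : ℤ) : ℝ) / ((1 : ℕ) : ℝ)) * (E 0))) + (347163 / 500000 : ℝ) * E 0 * KK D (((((1 : ℤ) : ℝ) / ((6 : ℕ) : ℝ)) * π) + ((((1 : ℤ) : ℝ) / ((1 : ℕ) : ℝ)) * (E 0))) + (-347163 / 500000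 : ℝ) * E 0 * KK D (((((1 : ℤ) : ℝ) / ((6 : ℕ) : ℝ)) * π) + ((((2 : ℤ) : ℝ) / ((1 : ℕ) : ℝ)) * (E 0))) + (-115721 / 3000000 : ℝ) * TT D (((((-1 : ℤ) : ℝ) / ((6 : ℕ) : ℝ)) * π) + ((((5 : ℤ) : ℝ) / ((1 : ℕ) : ℝ)) * (E 0))) + (-347163 / 1000000 : ℝ) * TT D (((((1 : ℤ) : ℝ) / ((2 : ℕ) : ℝ)) * π) + ((((-1 : ℤ) : ℝ) / ((1 : ℕ) : ℝ)) * (E 0))) + (347163 / 1000000 : ℝ) * TT D ((((1 : ℤ) : ℝ) / ((2 : ℕ) : ℝ)) * π) + (-115721 / 3000000 : ℝ) * TT D (((((1 : ℤ) : ℝ) / ((6 : ℕ) : ℝ)) * π) + ((((-2 : ℤ) : ℝ) / ((1 : ℕ) : ℝ)) * (E 0))) + (-347163 / 500000 : ℝ) * TT D (((((1 : ℤ) : ℝ) / ((6 : ℕ) : ℝ)) * π) + ((((1 : ℤ) : ℝ) / ((1 : ℕ) : ℝ)) * (E 0))) + (347163 / 500000 : ℝ) * TT D (((((1 : ℤ) : ℝ) / ((6 : ℕ) : ℝ)) * π) + ((((2 : ℤ) : ℝ)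 / ((1 : ℕ) : ℝ)) * (E 0)))) ≤ 0 := by
  have p1 := pi_gt_d4
  have p2 := pi_lt_d4
  have t1 := h.t1
  have t2 := h.t2
  have r := rayL A.cont A.b1 (((((1 : ℤ) : ℝ) / ((6 : ℕ) : ℝ)) * π) + ((((-2 : ℤ) : ℝ) / ((1 : ℕ) : ℝ)) * (E 0))) ((((3 : ℤ) : ℝ) / ((2 : ℕ) : ℝ)) * π) (((((1 : ℤ) : ℝ) / ((6 : ℕ) : ℝ)) * π) + ((((1 : ℤ) : ℝ) / ((1 : ℕ) : ℝ)) * (E 0))) (((((1 : ℤ) : ℝ) / ((6 : ℕ) : ℝ)) * π) + ((((-5 : ℤ) : ℝ) / ((1 : ℕ) : ℝ)) * (E 0))) (((((3 : ℤ) : ℝ) / ((2 : ℕ) : ℝ)) * π) + ((((1 : ℤ) : ℝ) / ((1 : ℕ) : ℝ)) * (E 0))) (((((1 : ℤ) : ℝ) / ((6 : ℕ) : ℝ)) * π) + ((((2 : ℤ) : ℝ) / ((1 : ℕ) : ℝ)) * (E 0)))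
    ((((1 : ℤ) : ℝ) / ((1 : ℕ) : ℝ)) * (E 0)) (-3 : ℝ) (1 : ℝ) (1 : ℝ) (0 : ℝ) ((347163 / 1000000 : ℝ)) (by linarith only [p1, p2, t1, t2])
    (by norm_num) (by norm_num) (by norm_num) (by ring) (by ring) (by ring) (by ring) (by ring) (by norm_num) (by norm_num)
    ⟨by linarith only [p1, p2, t1, t2], by linarith only [p1, p2, t1, t2], by linarith only [p1, p2, t1, t2], by linarith only [p1, p2, t1, t2], by linarith only [p1, p2, t1, t2], by linarith only [p1, p2, t1, t2]⟩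
    ⟨by linarith only [p1, p2, t1, t2], by linarith only [p1, p2, t1, t2], by linarith only [p1, p2, t1, t2], by linarith only [p1, p2, t1, t2], by linarith only [p1, p2, t1, t2], by linarith only [p1, p2, t1, t2]⟩
  unfold sd at r
  rw [(fo27 A).1, (fo27 A).2.1, (fo29 A).1, (fo29 A).2.1, (fo25 A).1, (fo25 A).2.1] at r
  linear_combination r

theorem ry33 (h : H E) (A : Adm1 (E 0) D) : ((1 / 36 : ℝ) * π * E 2 * KK D (((((-1 : ℤ) : ℝ) / ((6 : ℕ) : ℝ)) * π) + ((((5 : ℤ) : ℝ) / ((1 : ℕ) : ℝ)) * (E 0))) + (-1 / 3 : ℝ) * π * E 2 * KK D (((((1 : ℤ) : ℝ) / ((2 : ℕ) : ℝ)) * π) + ((((-1 : ℤ) : ℝ) / ((1 : ℕ) : ℝ)) * (E 0))) + (1 / 3 : ℝ) * π * E 2 * KK D ((((1 : ℤ) : ℝ) / ((2 : ℕ) : ℝ)) * π) + (-1 / 36 : ℝ) * π * E 2 * KK D (((((1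 : ℤ) : ℝ) / ((6 : ℕ) : ℝ)) * π) + ((((-3 : ℤ) : ℝ) / ((1 : ℕ) : ℝ)) * (E 0))) + (8 / 9 : ℝ) * π * E 2 * KK D (((((1 : ℤ) : ℝ) / ((6 : ℕ) : ℝ)) * π) + ((((2 : ℤ) : ℝ) / ((1 : ℕ) : ℝ)) * (E 0))) + (-8 / 9 : ℝ) * π * E 2 * KK D (((((1 : ℤ) : ℝ) / ((6 : ℕ) : ℝ)) * π) + ((((3 : ℤ) : ℝ) / ((2 : ℕ) : ℝ)) * (E 0))) + (-1 / 108 : ℝ) * π * E 4 * KK D (((((-1 : ℤ) : ℝ) / ((6 : ℕ) : ℝ)) * π) + ((((5 : ℤ) : ℝ) / ((1 : ℕ) : ℝ)) * (E 0))) + (1 / 9 : ℝ) * π * E 4 * KK D (((((1 : ℤ) : ℝ) / ((2 : ℕ) : ℝ)) * π) + ((((-1 : ℤ) : ℝ) / ((1 : ℕ) : ℝ)) * (E 0))) + (-1 / 9 : ℝ) * π * E 4 * KK D ((((1 : ℤ) : ℝ) / ((2 : ℕ) : ℝ)) * π) + (1 / 108 : ℝ) * π * E 4 * KK D (((((1 : ℤ) : ℝ) / ((6 : ℕ) : ℝ)) * π) + ((((-3 : ℤ) : ℝ) / ((1 : ℕ) : ℝ)) * (E 0)))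 + (-8 / 27 : ℝ) * π * E 4 * KK D (((((1 : ℤ) : ℝ) / ((6 : ℕ) : ℝ)) * π) + ((((2 : ℤ) : ℝ) / ((1 : ℕ) : ℝ)) * (E 0))) + (8 / 27 : ℝ) * π * E 4 * KK D (((((1 : ℤ) : ℝ) / ((6 : ℕ) : ℝ)) * π) + ((((3 : ℤ) : ℝ) / ((2 : ℕ) : ℝ)) * (E 0))) + (39793 / 9000000 : ℝ) * π * KK D (((((-1 : ℤ) : ℝ) / ((6 : ℕ) : ℝ)) * π) + ((((5 : ℤ) : ℝ) / ((1 : ℕ) : ℝ)) * (E 0))) + (-39793 / 750000 : ℝ) * π * KK D (((((1 : ℤ) : ℝ) / ((2 : ℕ) : ℝ)) * π) + ((((-1 : ℤ) : ℝ) / ((1 : ℕ) : ℝ)) * (E 0))) + (39793 / 750000 : ℝ) * π * KK D ((((1 : ℤ) : ℝ) / ((2 : ℕ) : ℝ)) * π) + (-39793 / 9000000 : ℝ) * π * KK D (((((1 : ℤ) : ℝ) / ((6 : ℕ) : ℝ)) * π) + ((((-3 : ℤ) : ℝ) / ((1 : ℕ) : ℝ)) * (E 0))) + (39793 / 281250 : ℝ) * π * KK D (((((1 : ℤ) : ℝ) / ((6 : ℕ)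 : ℝ)) * π) + ((((2 : ℤ) : ℝ) / ((1 : ℕ) : ℝ)) * (E 0))) + (-39793 / 281250 : ℝ) * π * KK D (((((1 : ℤ) : ℝ) / ((6 : ℕ) : ℝ)) * π) + ((((3 : ℤ) : ℝ) / ((2 : ℕ) : ℝ)) * (E 0))) + (-5 / 6 : ℝ) * E 0 * E 2 * KK D (((((-1 : ℤ) : ℝ) / ((6 : ℕ) : ℝ)) * π) + ((((5 : ℤ) : ℝ) / ((1 : ℕ) : ℝ)) * (E 0))) + (2 / 3 : ℝ) * E 0 * E 2 * KK D (((((1 : ℤ) : ℝ) / ((2 : ℕ) : ℝ)) * π) + ((((-1 : ℤ) : ℝ) / ((1 : ℕ) : ℝ)) * (E 0))) + (-2 / 3 : ℝ) * E 0 * E 2 * KK D ((((1 : ℤ) : ℝ) / ((2 : ℕ) : ℝ)) * π) + (5 / 6 : ℝ) * E 0 * E 2 * KK D (((((1 : ℤ) : ℝ) / ((6 : ℕ) : ℝ)) * π) + ((((-3 : ℤ) : ℝ) / ((1 : ℕ) : ℝ)) * (E 0))) + (32 / 3 : ℝ) * E 0 * E 2 * KK D (((((1 : ℤ) : ℝ) / ((6 : ℕ) : ℝ)) * π) + ((((2 : ℤ) : ℝ) / ((1 : ℕ) : ℝ)) * (E 0))) + (-32 /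 3 : ℝ) * E 0 * E 2 * KK D (((((1 : ℤ) : ℝ) / ((6 : ℕ) : ℝ)) * π) + ((((3 : ℤ) : ℝ) / ((2 : ℕ) : ℝ)) * (E 0))) + (5 / 18 : ℝ) * E 0 * E 4 * KK D (((((-1 : ℤ) : ℝ) / ((6 : ℕ) : ℝ)) * π) + ((((5 : ℤ) : ℝ) / ((1 : ℕ) : ℝ)) * (E 0))) + (-2 / 9 : ℝ) * E 0 * E 4 * KK D (((((1 : ℤ) : ℝ) / ((2 : ℕ) : ℝ)) * π) + ((((-1 : ℤ) : ℝ) / ((1 : ℕ) : ℝ)) * (E 0))) + (2 / 9 : ℝ) * E 0 * E 4 * KK D ((((1 : ℤ) : ℝ) / ((2 : ℕ) : ℝ)) * π) + (-5 / 18 : ℝ) * E 0 * E 4 * KK D (((((1 : ℤ) : ℝ) / ((6 : ℕ) : ℝ)) * π) + ((((-3 : ℤ) : ℝ) / ((1 : ℕ) : ℝ)) * (E 0))) + (-32 / 9 : ℝ) * E 0 * E 4 * KK D (((((1 : ℤ) : ℝ) / ((6 : ℕ) : ℝ)) * π) + ((((2 : ℤ) : ℝ) / ((1 : ℕ) : ℝ)) * (E 0))) + (32 / 9 : ℝ) * E 0 * E 4 * KK D (((((1 : ℤ) : ℝ) / ((6 : ℕ) : ℝ)) *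 π) + ((((3 : ℤ) : ℝ) / ((2 : ℕ) : ℝ)) * (E 0))) + (-39793 / 300000 : ℝ) * E 0 * KK D (((((-1 : ℤ) : ℝ) / ((6 : ℕ) : ℝ)) * π) + ((((5 : ℤ) : ℝ) / ((1 : ℕ) : ℝ)) * (E 0))) + (39793 / 375000 : ℝ) * E 0 * KK D (((((1 : ℤ) : ℝ) / ((2 : ℕ) : ℝ)) * π) + ((((-1 : ℤ) : ℝ) / ((1 : ℕ) : ℝ)) * (E 0))) + (-39793 / 375000 : ℝ) * E 0 * KK D ((((1 : ℤ) : ℝ) / ((2 : ℕ) : ℝ)) * π) + (39793 / 300000 : ℝ) * E 0 * KK D (((((1 : ℤ) : ℝ) / ((6 : ℕ) : ℝ)) * π) + ((((-3 : ℤ) : ℝ) / ((1 : ℕ) : ℝ)) * (E 0))) + (79586 / 46875 : ℝ) * E 0 * KK D (((((1 : ℤ) : ℝ) / ((6 : ℕ) : ℝ)) * π) + ((((2 : ℤ) : ℝ) / ((1 : ℕ) : ℝ)) * (E 0))) + (-79586 / 46875 : ℝ) * E 0 * KK D (((((1 : ℤ) : ℝ) / ((6 : ℕ) : ℝ)) * π) + ((((3 : ℤ) : ℝ) / ((2 : ℕ) : ℝ)) * (E 0))) +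 (1 / 6 : ℝ) * E 2 * TT D (((((-1 : ℤ) : ℝ) / ((6 : ℕ) : ℝ)) * π) + ((((5 : ℤ) : ℝ) / ((1 : ℕ) : ℝ)) * (E 0))) + (2 / 3 : ℝ) * E 2 * TT D (((((1 : ℤ) : ℝ) / ((2 : ℕ) : ℝ)) * π) + ((((-1 : ℤ) : ℝ) / ((1 : ℕ) : ℝ)) * (E 0))) + (-2 / 3 : ℝ) * E 2 * TT D ((((1 : ℤ) : ℝ) / ((2 : ℕ) : ℝ)) * π) + (1 / 6 : ℝ) * E 2 * TT D (((((1 : ℤ) : ℝ) / ((6 : ℕ) : ℝ)) * π) + ((((-3 : ℤ) : ℝ) / ((1 : ℕ) : ℝ)) * (E 0))) + (-16 / 3 : ℝ) * E 2 * TT D (((((1 : ℤ) : ℝ) / ((6 : ℕ) : ℝ)) * π) + ((((2 : ℤ) : ℝ) / ((1 : ℕ) : ℝ)) * (E 0))) + (16 / 3 : ℝ) * E 2 * TT D (((((1 : ℤ) : ℝ) / ((6 : ℕ) : ℝ)) * π) + ((((3 : ℤ) : ℝ) / ((2 : ℕ) : ℝ)) * (E 0))) + (-1 / 18 : ℝ) * E 4 * TT D (((((-1 : ℤ) : ℝ) / ((6 : ℕ) : ℝ)) * π) + ((((5 : ℤ) : ℝ) / ((1 : ℕ) : ℝ))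 * (E 0))) + (-2 / 9 : ℝ) * E 4 * TT D (((((1 : ℤ) : ℝ) / ((2 : ℕ) : ℝ)) * π) + ((((-1 : ℤ) : ℝ) / ((1 : ℕ) : ℝ)) * (E 0))) + (2 / 9 : ℝ) * E 4 * TT D ((((1 : ℤ) : ℝ) / ((2 : ℕ) : ℝ)) * π) + (-1 / 18 : ℝ) * E 4 * TT D (((((1 : ℤ) : ℝ) / ((6 : ℕ) : ℝ)) * π) + ((((-3 : ℤ) : ℝ) / ((1 : ℕ) : ℝ)) * (E 0))) + (16 / 9 : ℝ) * E 4 * TT D (((((1 : ℤ) : ℝ) / ((6 : ℕ) : ℝ)) * π) + ((((2 : ℤ) : ℝ) / ((1 : ℕ) : ℝ)) * (E 0))) + (-16 / 9 : ℝ) * E 4 * TT D (((((1 : ℤ) : ℝ) / ((6 : ℕ) : ℝ)) * π) + ((((3 : ℤ) : ℝ) / ((2 : ℕ) : ℝ)) * (E 0))) + (39793 / 1500000 : ℝ) * TT D (((((-1 : ℤ) : ℝ) / ((6 : ℕ) : ℝ)) * π) + ((((5 : ℤ) : ℝ) / ((1 : ℕ) : ℝ)) * (E 0))) + (39793 / 375000 : ℝ) * TT D (((((1 : ℤ) : ℝ) / ((2 : ℕ) : ℝ)) * π) + ((((-1 : ℤ) :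 ℝ) / ((1 : ℕ) : ℝ)) * (E 0))) + (-39793 / 375000 : ℝ) * TT D ((((1 : ℤ) : ℝ) / ((2 : ℕ) : ℝ)) * π) + (39793 / 1500000 : ℝ) * TT D (((((1 : ℤ) : ℝ) / ((6 : ℕ) : ℝ)) * π) + ((((-3 : ℤ) : ℝ) / ((1 : ℕ) : ℝ)) * (E 0))) + (-39793 / 46875 : ℝ) * TT D (((((1 : ℤ) : ℝ) / ((6 : ℕ) : ℝ)) * π) + ((((2 : ℤ) : ℝ) / ((1 : ℕ) : ℝ)) * (E 0))) + (39793 / 46875 : ℝ) * TT D (((((1 : ℤ) : ℝ) / ((6 : ℕ) : ℝ)) * π) + ((((3 : ℤ) : ℝ) / ((2 : ℕ) : ℝ)) * (E 0)))) ≤ 0 := by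
  have p1 := pi_gt_d4
  have p2 := pi_lt_d4
  have t1 := h.t1
  have t2 := h.t2
  have r := rayL A.cont A.b1 (((((1 : ℤ) : ℝ) / ((6 : ℕ) : ℝ)) * π) + ((((-3 : ℤ) : ℝ) / ((1 : ℕ) : ℝ)) * (E 0))) ((((3 : ℤ) : ℝ) / ((2 : ℕ) : ℝ)) * π) (((((1 : ℤ) : ℝ) / ((6 : ℕ) : ℝ)) * π) + ((((3 : ℤ) : ℝ) / ((2 : ℕ) : ℝ)) * (E 0))) (((((1 : ℤ) : ℝ) / ((6 : ℕ) : ℝ)) * π) + ((((-5 : ℤ) : ℝ) / ((1 : ℕ) : ℝ)) * (E 0))) (((((3 : ℤ) : ℝ) / ((2 : ℕ) : ℝ)) * π) + ((((1 : ℤ) : ℝ) / ((1 : ℕ) : ℝ)) * (E 0))) (((((1 : ℤ) : ℝ) / ((6 : ℕ) : ℝ)) * π) + ((((2 : ℤ) : ℝ) / ((1 : ℕ) : ℝ)) * (E 0)))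
    ((((1 : ℤ) : ℝ) / ((1 : ℕ) : ℝ)) * (E 0)) (-2 : ℝ) (1 : ℝ) (1 / 2 : ℝ) ((2 / 3 : ℝ) * E 2 + (-2 / 9 : ℝ) * E 4 + (39793 / 375000 : ℝ)) (0 : ℝ) (by linarith only [p1, p2, t1, t2])
    (by norm_num) (by norm_num) (by norm_num) (by ring) (by ring) (by ring) (by ring) (by ring) (by linarith only [(P6 h).2.2.2.2.2.2.2.2.1]) (by norm_num)
    ⟨by linarith only [p1, p2, t1, t2], by linarith only [p1, p2, t1, t2], by linarith only [p1, p2, t1, t2], by linarith only [p1, p2, t1, t2], by linarith only [p1, p2, t1, t2], by linarith only [p1, p2, t1, t2]⟩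
    ⟨by linarith only [p1, p2, t1, t2], by linarith only [p1, p2, t1, t2], by linarith only [p1, p2, t1, t2], by linarith only [p1, p2, t1, t2], by linarith only [p1, p2, t1, t2], by linarith only [p1, p2, t1, t2]⟩
  unfold sd at r
  rw [(fo27 A).1, (fo27 A).2.1, (fo29 A).1, (fo29 A).2.1, (fo25 A).1, (fo25 A).2.1] at r
  linear_combination r

theorem ry34 (h : H E) (A : Adm1 (E 0) D) : ((1 : ℝ) * π * E 6 * KK D (((((1 : ℤ) : ℝ) / ((2 : ℕ) : ℝ)) * π) + ((((-1 : ℤ) : ℝ) / ((1 : ℕ) : ℝ)) * (E 0))) + (-1 : ℝ) * π * E 6 * KK D ((((1 : ℤ) : ℝ) / ((2 : ℕ) : ℝ)) * π) + (-20 / 27 : ℝ) * π * E 6 * KK D (((((1 : ℤ) : ℝ) / ((6 : ℕ) : ℝ)) * π) + ((((1 : ℤ) : ℝ) / ((2 : ℕ) : ℝ)) * (E 0))) + (2 / 27 : ℝ) * π * E 6 * KK D (((((1 : ℤ)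 : ℝ) / ((6 : ℕ) : ℝ)) * π) + ((((2 : ℤ) : ℝ) / ((1 : ℕ) : ℝ)) * (E 0))) + (2 / 3 : ℝ) * π * E 6 * KK D ((((1 : ℤ) : ℝ) / ((6 : ℕ) : ℝ)) * π) + (115923 / 500000 : ℝ) * π * KK D (((((1 : ℤ) : ℝ) / ((2 : ℕ) : ℝ)) * π) + ((((-1 : ℤ) : ℝ) / ((1 : ℕ) : ℝ)) * (E 0))) + (-115923 / 500000 : ℝ) * π * KK D ((((1 : ℤ) : ℝ) / ((2 : ℕ) : ℝ)) * π) + (-38641 / 225000 : ℝ) * π * KK D (((((1 : ℤ) : ℝ) / ((6 : ℕ) : ℝ)) * π) + ((((1 : ℤ) : ℝ) / ((2 : ℕ) : ℝ)) * (E 0))) + (38641 / 2250000 : ℝ) * π * KK D (((((1 : ℤ) : ℝ) / ((6 : ℕ) : ℝ)) * π) + ((((2 : ℤ) : ℝ) / ((1 : ℕ) : ℝ)) * (E 0))) + (38641 / 250000 : ℝ) * π * KK D ((((1 : ℤ) : ℝ) / ((6 : ℕ) : ℝ)) * π) + (-2 : ℝ) * E 0 * E 6 * KK D (((((1 : ℤ) : ℝ) / ((2 : ℕ) : ℝ)) * π) + ((((-1 : ℤ)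 : ℝ) / ((1 : ℕ) : ℝ)) * (E 0))) + (2 : ℝ) * E 0 * E 6 * KK D ((((1 : ℤ) : ℝ) / ((2 : ℕ) : ℝ)) * π) + (-8 / 9 : ℝ) * E 0 * E 6 * KK D (((((1 : ℤ) : ℝ) / ((6 : ℕ) : ℝ)) * π) + ((((1 : ℤ) : ℝ) / ((2 : ℕ) : ℝ)) * (E 0))) + (8 / 9 : ℝ) * E 0 * E 6 * KK D (((((1 : ℤ) : ℝ) / ((6 : ℕ) : ℝ)) * π) + ((((2 : ℤ) : ℝ) / ((1 : ℕ) : ℝ)) * (E 0))) + (-115923 / 250000 : ℝ) * E 0 * KK D (((((1 : ℤ) : ℝ) / ((2 : ℕ) : ℝ)) * π) + ((((-1 : ℤ) : ℝ) / ((1 : ℕ) : ℝ)) * (E 0))) + (115923 / 250000 : ℝ) * E 0 * KK D ((((1 : ℤ) : ℝ) / ((2 : ℕ) : ℝ)) * π) + (-38641 / 187500 : ℝ) * E 0 * KK D (((((1 : ℤ) : ℝ) / ((6 : ℕ) : ℝ)) * π) + ((((1 : ℤ) : ℝ) / ((2 : ℕ) : ℝ)) * (E 0))) + (38641 / 187500 : ℝ) * E 0 * KK D (((((1 : ℤ) : ℝ) / ((6 : ℕ) : ℝ)) * π)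 + ((((2 : ℤ) : ℝ) / ((1 : ℕ) : ℝ)) * (E 0))) + (-2 : ℝ) * E 6 * TT D (((((1 : ℤ) : ℝ) / ((2 : ℕ) : ℝ)) * π) + ((((-1 : ℤ) : ℝ) / ((1 : ℕ) : ℝ)) * (E 0))) + (2 : ℝ) * E 6 * TT D ((((1 : ℤ) : ℝ) / ((2 : ℕ) : ℝ)) * π) + (40 / 9 : ℝ) * E 6 * TT D (((((1 : ℤ) : ℝ) / ((6 : ℕ) : ℝ)) * π) + ((((1 : ℤ) : ℝ) / ((2 : ℕ) : ℝ)) * (E 0))) + (-4 / 9 : ℝ) * E 6 * TT D (((((1 : ℤ) : ℝ) / ((6 : ℕ) : ℝ)) * π) + ((((2 : ℤ) : ℝ) / ((1 : ℕ) : ℝ)) * (E 0))) + (-4 : ℝ) * E 6 * TT D ((((1 : ℤ) : ℝ) / ((6 : ℕ) : ℝ)) * π) + (-115923 / 250000 : ℝ) * TT D (((((1 : ℤ) : ℝ) / ((2 : ℕ) : ℝ)) * π) + ((((-1 : ℤ) : ℝ) / ((1 : ℕ) : ℝ)) * (E 0))) + (115923 / 250000 : ℝ) * TT D ((((1 : ℤ) : ℝ) / ((2 : ℕ) : ℝ)) * π) + (38641 / 37500 : ℝ) * TT D (((((1 : ℤ)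 : ℝ) / ((6 : ℕ) : ℝ)) * π) + ((((1 : ℤ) : ℝ) / ((2 : ℕ) : ℝ)) * (E 0))) + (-38641 / 375000 : ℝ) * TT D (((((1 : ℤ) : ℝ) / ((6 : ℕ) : ℝ)) * π) + ((((2 : ℤ) : ℝ) / ((1 : ℕ) : ℝ)) * (E 0))) + (-115923 / 125000 : ℝ) * TT D ((((1 : ℤ) : ℝ) / ((6 : ℕ) : ℝ)) * π)) ≤ 0 := by
  have p1 := pi_gt_d4
  have p2 := pi_lt_d4
  have t1 := h.t1
  have t2 := h.t2
  have r := rayL A.cont A.b3 (((((1 : ℤ) : ℝ) / ((6 : ℕ) : ℝ)) * π) + ((((2 : ℤ) : ℝ) / ((1 : ℕ) : ℝ)) * (E 0))) ((((5 : ℤ) : ℝ) / ((6 : ℕ) : ℝ)) * π) (((((1 : ℤ) : ℝ) / ((2 : ℕ) : ℝ)) * π) + ((((-1 : ℤ) : ℝ) / ((1 : ℕ) : ℝ)) * (E 0))) (((((1 : ℤ) : ℝ) / ((6 : ℕ) : ℝ)) * π) + ((((1 : ℤ) : ℝ) / ((2 : ℕ) : ℝ)) * (E 0))) (((((5 : ℤ) : ℝ) / ((6 : ℕ) : ℝ)) * π) + ((((-1 : ℤ) : ℝ) /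 ((2 : ℕ) : ℝ)) * (E 0))) ((((1 : ℤ) : ℝ) / ((2 : ℕ) : ℝ)) * π)
    ((((1 : ℤ) : ℝ) / ((1 : ℕ) : ℝ)) * (E 0)) (-3 / 2 : ℝ) (-1 / 2 : ℝ) (1 : ℝ) (0 : ℝ) ((1 : ℝ) * E 6 + (115923 / 500000 : ℝ)) (by linarith only [p1, p2, t1, t2])
    (by norm_num) (by norm_num) (by norm_num) (by ring) (by ring) (by ring) (by ring) (by ring) (by norm_num) (by linarith only [(P6 h).2.2.2.2.2.2.2.2.2.1])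
    ⟨by linarith only [p1, p2, t1, t2], by linarith only [p1, p2, t1, t2], by linarith only [p1, p2, t1, t2], by linarith only [p1, p2, t1, t2], by linarith only [p1, p2, t1, t2], by linarith only [p1, p2, t1, t2]⟩
    ⟨by linarith only [p1, p2, t1, t2], by linarith only [p1, p2, t1, t2], by linarith only [p1, p2, t1, t2], by linarith only [p1, p2, t1, t2], by linarith only [p1, p2, t1, t2], by linarith only [p1, p2, t1, t2]⟩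
  unfold sd at r
  rw [(fo0 A).1, (fo0 A).2.1, (fo30 A).1, (fo30 A).2.1] at r
  linear_combination r

theorem ry35 (h : H E) (A : Adm1 (E 0) D) : ((79 / 20000 : ℝ) * π * KK D (((((1 : ℤ) : ℝ) / ((2 : ℕ) : ℝ)) * π) + ((((-1 : ℤ) : ℝ) / ((1 : ℕ) : ℝ)) * (E 0))) + (-79 / 20000 : ℝ) * π * KK D ((((1 : ℤ) : ℝ) / ((2 : ℕ) : ℝ)) * π) + (-79 / 60000 : ℝ) * π * KK D (((((1 : ℤ) : ℝ) / ((6 : ℕ) : ℝ)) * π) + ((((1 : ℤ) : ℝ) / ((1 : ℕ) : ℝ)) * (E 0))) + (79 / 120000 : ℝ) * π * KK D (((((1 : ℤ) : ℝ) / ((6 : ℕ) : ℝ)) * π) + ((((2 : ℤ) : ℝ) / ((1 : ℕ) : ℝ)) * (E 0))) + (79 / 120000 : ℝ) * π * KK D ((((1 : ℤ) : ℝ) / ((6 : ℕ) : ℝ)) * π) + (-1299277 / 500000 : ℝ) * E 0 * KK D (((((1 : ℤ) : ℝ) / ((2 : ℕ) : ℝ)) * π) + ((((-1 : ℤ) : ℝ) / ((1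 : ℕ) : ℝ)) * (E 0))) + (1299277 / 500000 : ℝ) * E 0 * KK D ((((1 : ℤ) : ℝ) / ((2 : ℕ) : ℝ)) * π) + (-79 / 10000 : ℝ) * E 0 * KK D (((((1 : ℤ) : ℝ) / ((6 : ℕ) : ℝ)) * π) + ((((1 : ℤ) : ℝ) / ((1 : ℕ) : ℝ)) * (E 0))) + (1303227 / 1000000 : ℝ) * E 0 * KK D (((((1 : ℤ) : ℝ) / ((6 : ℕ) : ℝ)) * π) + ((((2 : ℤ) : ℝ) / ((1 : ℕ) : ℝ)) * (E 0))) + (-1295327 / 1000000 : ℝ) * E 0 * KK D ((((1 : ℤ) : ℝ) / ((6 : ℕ) : ℝ)) * π) + (-79 / 10000 : ℝ) * TT D (((((1 : ℤ) : ℝ) / ((2 : ℕ) : ℝ)) * π) + ((((-1 : ℤ) : ℝ) / ((1 : ℕ) : ℝ)) * (E 0))) + (79 / 10000 : ℝ) * TT D ((((1 : ℤ) : ℝ) / ((2 : ℕ) : ℝ)) * π) + (79 / 10000 : ℝ) * TT D (((((1 : ℤ) : ℝ) / ((6 : ℕ) : ℝ)) * π) + ((((1 : ℤ) : ℝ) / ((1 : ℕ) : ℝ)) * (E 0))) + (-79 / 20000 : ℝ) * TT D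 (((((1 : ℤ) : ℝ) / ((6 : ℕ) : ℝ)) * π) + ((((2 : ℤ) : ℝ) / ((1 : ℕ) : ℝ)) * (E 0))) + (-79 / 20000 : ℝ) * TT D ((((1 : ℤ) : ℝ) / ((6 : ℕ) : ℝ)) * π)) ≤ 0 := by
  have p1 := pi_gt_d4
  have p2 := pi_lt_d4
  have t1 := h.t1
  have t2 := h.t2
  have r := rayL A.cont A.b3 (((((1 : ℤ) : ℝ) / ((6 : ℕ) : ℝ)) * π) + ((((2 : ℤ) : ℝ) / ((1 : ℕ) : ℝ)) * (E 0))) ((((5 : ℤ) : ℝ) / ((6 : ℕ) : ℝ)) * π) (((((1 : ℤ) : ℝ) / ((2 : ℕ) : ℝ)) * π) + ((((-1 : ℤ) : ℝ) / ((1 : ℕ) : ℝ)) * (E 0))) (((((1 : ℤ) : ℝ) / ((6 : ℕ) : ℝ)) * π) + ((((1 : ℤ) : ℝ) / ((1 : ℕ) : ℝ)) * (E 0))) (((((5 : ℤ) : ℝ) / ((6 : ℕ) : ℝ)) * π) + ((((-1 : ℤ) : ℝ) / ((1 : ℕ) : ℝ)) * (E 0))) ((((1 : ℤ) : ℝ) / ((2 : ℕ) : ℝ)) * π)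
    ((((1 : ℤ) : ℝ) / ((1 : ℕ) : ℝ)) * (E 0)) (-1 : ℝ) (-1 : ℝ) (1 : ℝ) ((1295327 / 1000000 : ℝ)) ((1299277 / 1000000 : ℝ)) (by linarith only [p1, p2, t1, t2])
    (by norm_num) (by norm_num) (by norm_num) (by ring) (by ring) (by ring) (by ring) (by ring) (by norm_num) (by norm_num)
    ⟨by linarith only [p1, p2, t1, t2], by linarith only [p1, p2, t1, t2], by linarith only [p1, p2, t1, t2], by linarith only [p1, p2, t1, t2], by linarith only [p1, p2, t1, t2], by linarith only [p1, p2, t1, t2]⟩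
    ⟨by linarith only [p1, p2, t1, t2], by linarith only [p1, p2, t1, t2], by linarith only [p1, p2, t1, t2], by linarith only [p1, p2, t1, t2], by linarith only [p1, p2, t1, t2], by linarith only [p1, p2, t1, t2]⟩
  unfold sd at r
  rw [(fo0 A).1, (fo0 A).2.1, (fo31 A).1, (fo31 A).2.1] at r
  linear_combination r

theorem ry36 (h : H E) (A : Adm1 (E 0) D) : ((-254713 / 1000000 : ℝ) * π * KK D (((((1 : ℤ) : ℝ) / ((2 : ℕ) : ℝ)) * π) + ((((-1 : ℤ) : ℝ) / ((1 : ℕ) : ℝ)) * (E 0))) + (254713 / 1000000 : ℝ) * π * KK D ((((1 : ℤ) : ℝ) / ((2 : ℕ) : ℝ)) * π) + (-254713 / 1500000 : ℝ) * π * KK D (((((1 : ℤ) : ℝ) / ((6 : ℕ) : ℝ)) * π) + ((((2 : ℤ) : ℝ) / ((1 : ℕ) : ℝ)) * (E 0))) + (254713 / 1350000 : ℝ) * π * KK D (((((1 : ℤ) : ℝ)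 / ((6 : ℕ) : ℝ)) * π) + ((((3 : ℤ) : ℝ) / ((2 : ℕ) : ℝ)) * (E 0))) + (-254713 / 13500000 : ℝ) * π * KK D ((((1 : ℤ) : ℝ) / ((6 : ℕ) : ℝ)) * π) + (-764139 / 500000 : ℝ) * E 0 * KK D (((((1 : ℤ) : ℝ) / ((6 : ℕ) : ℝ)) * π) + ((((2 : ℤ) : ℝ) / ((1 : ℕ) : ℝ)) * (E 0))) + (254713 / 150000 : ℝ) * E 0 * KK D (((((1 : ℤ) : ℝ) / ((6 : ℕ) : ℝ)) * π) + ((((3 : ℤ) : ℝ) / ((2 : ℕ) : ℝ)) * (E 0))) + (-254713 / 1500000 : ℝ) * E 0 * KK D ((((1 : ℤ) : ℝ) / ((6 : ℕ) : ℝ)) * π) + (254713 / 500000 : ℝ) * TT D (((((1 : ℤ) : ℝ) / ((2 : ℕ) : ℝ)) * π) + ((((-1 : ℤ) : ℝ) / ((1 : ℕ) : ℝ)) * (E 0))) + (-254713 / 500000 : ℝ) * TT D ((((1 : ℤ) : ℝ) / ((2 : ℕ) : ℝ)) * π) + (254713 / 250000 : ℝ) * TT D (((((1 : ℤ) : ℝ) / ((6 : ℕ) : ℝ)) * π) + ((((2 :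 ℤ) : ℝ) / ((1 : ℕ) : ℝ)) * (E 0))) + (-254713 / 225000 : ℝ) * TT D (((((1 : ℤ) : ℝ) / ((6 : ℕ) : ℝ)) * π) + ((((3 : ℤ) : ℝ) / ((2 : ℕ) : ℝ)) * (E 0))) + (254713 / 2250000 : ℝ) * TT D ((((1 : ℤ) : ℝ) / ((6 : ℕ) : ℝ)) * π)) ≤ 0 := by
  have p1 := pi_gt_d4
  have p2 := pi_lt_d4
  have t1 := h.t1
  have t2 := h.t2
  have r := rayL A.cont A.b3 (((((1 : ℤ) : ℝ) / ((6 : ℕ) : ℝ)) * π) + ((((2 : ℤ) : ℝ) / ((1 : ℕ) : ℝ)) * (E 0))) ((((5 : ℤ) : ℝ) / ((6 : ℕ) : ℝ)) * π) (((((1 : ℤ) : ℝ) / ((2 : ℕ) : ℝ)) * π) + ((((-1 : ℤ) : ℝ) / ((1 : ℕ) : ℝ)) * (E 0))) (((((1 : ℤ) : ℝ) / ((6 : ℕ) : ℝ)) * π) + ((((3 : ℤ) : ℝ) / ((2 : ℕ) : ℝ)) * (E 0))) (((((5 : ℤ) : ℝ) / ((6 : ℕ) : ℝ)) * π) + ((((-3 : ℤ) : ℝ) / ((2 : ℕ) : ℝ)) * (E 0))) ((((1 : ℤ)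 : ℝ) / ((2 : ℕ) : ℝ)) * π)
    ((((1 : ℤ) : ℝ) / ((1 : ℕ) : ℝ)) * (E 0)) (-1 / 2 : ℝ) (-3 / 2 : ℝ) (1 : ℝ) ((254713 / 1000000 : ℝ)) (0 : ℝ) (by linarith only [p1, p2, t1, t2])
    (by norm_num) (by norm_num) (by norm_num) (by ring) (by ring) (by ring) (by ring) (by ring) (by norm_num) (by norm_num)
    ⟨by linarith only [p1, p2, t1, t2], by linarith only [p1, p2, t1, t2], by linarith only [p1, p2, t1, t2], by linarith only [p1, p2, t1, t2], by linarith only [p1, p2, t1, t2], by linarith only [p1, p2, t1, t2]⟩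
    ⟨by linarith only [p1, p2, t1, t2], by linarith only [p1, p2, t1, t2], by linarith only [p1, p2, t1, t2], by linarith only [p1, p2, t1, t2], by linarith only [p1, p2, t1, t2], by linarith only [p1, p2, t1, t2]⟩
  unfold sd at r
  rw [(fo0 A).1, (fo0 A).2.1, (fo32 A).1, (fo32 A).2.1] at r
  linear_combination r

end Pool.Agent.MP_e5b4ec_an.Sm
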