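import Pool.Agent.MP_e5b4ec_an.Sm.DA
import Pool.Agent.MP_e5b4ec_an.Sm.DR

set_option maxRecDepth 20000
set_option linter.unusedVariables false
set_option linter.unusedSimpArgs false

open Real

namespace Pool.Agent.MP_e5b4ec_an.Sm

open Mid

variable {E : ℕ → ℝ} {D : ℝ → ℝ}

theorem dual0 (h : H E) (A : Adm1 (E 0) D) : SS D ((((1 : ℤ) : ℝ) / ((2 : ℕ) : ℝ)) * π) ≤ 0 := by
  linear_combination frU h A + frV h A + ry0 h A + ry1 h A + ry2 h A + ry3 h A + ry4 h A + ry5 h A + ry6 h A + ry7 h A + ry8 h A + ry9 h A + ry10 h A + ry11 h A + ry12 h A + ry13 h A + ry14 h A + ry15 h A + ry16 h A + ry17 h A + ry18 h A + ry19 h A + ry20 h A + ry21 h A + ry22 h A + ry23 h A + ry24 h A + ry25 h A + ry26 h A + ry27 h A + ry28 h A + ry29 h A + ry30 h A + ry31 h A + ry32 h A + ry33 h A + ry34 h A + ry35 h A + ry36 h A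

theorem dual (h : H E) : Dual1 (E 0) := fun D A => by
  have := dual0 h A
  rw [hm] at this
  exact this

end Pool.Agent.MP_e5b4ec_an.Sm
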