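import Pool.Agent.MP_e5b4ec_an.Sm.St
import Pool.Agent.MP_e5b4ec_an.Mid.DL

/-! Small lemmas for the generated dual certificate. -/

open Real

namespace Pool.Agent.MP_e5b4ec_an.Sm

open Mid

variable {D : ℝ → ℝ} {θ : ℝ}

/-- one side of a segment with direction `d` and scale `s` -/
noncomputable def sd (D : ℝ → ℝ) (p q s d a0 a1 : ℝ) : ℝ :=
  ((a0 * d * s - (a1 - a0) * p) * (KK D q - KK D p) + (a1 - a0) * (TT D q - TT D p)) / d ^ 2

theorem rv_sd {p q s d a0 a1 : ℝ} (hs : 0 < s) (hd : d ≠ 0) (e : q = p + d * s) :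
    rv D p q (a0 * s ^ 2) (a1 * s ^ 2) = sd D p q s d a0 a1 := by
  have h0 := hs.ne'
  unfold rv sd
  rw [show q - p = d * s by rw [e]; ring]
  generalize KK D q - KK D p = A
  generalize TT D q - TT D p = B
  rw [e]
  field_simp
  ring

theorem ne_sd {p q s d : ℝ} (hs : 0 < s) (hd : d ≠ 0) (e : q = p + d * s) : p ≠ q := by
  intro h
  rw [← h] at e
  exact mul_ne_zero hd hs.ne' (by linarith)

theorem rayL (hD : Continuous D) {T0 T1 V0 V1 X0 X1 : ℝ} (hB : Box 1 D T0 T1 V0 V1 X0 X1)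
    (t v x t' v' x' s dt dv dx a0 a1 : ℝ) (hs : 0 < s)
    (nt : dt ≠ 0) (nv : dv ≠ 0) (nx : dx ≠ 0)
    (et : t' = t + dt * s) (ev : v' = v + dv * s) (ex : x' = x + dx * s)
    (ha : t + v + 2 * x = 2 * π) (hb : t' + v' + 2 * x' = 2 * π) (h0 : 0 ≤ a0) (h1 : 0 ≤ a1)
    (a : T0 ≤ t ∧ t ≤ T1 ∧ V0 ≤ v ∧ v ≤ V1 ∧ X0 ≤ x ∧ x ≤ X1)
    (b : T0 ≤ t' ∧ t' ≤ T1 ∧ V0 ≤ v' ∧ v' ≤ V1 ∧ X0 ≤ x' ∧ x' ≤ X1) :
    sd D t t' s dt a0 a1 + sd D v v' s dv a0 a1 + 2 * sd D x x' s dx a0 a1 ≤ 0 := by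
  have := ray hD hB a.1 a.2.1 a.2.2.1 a.2.2.2.1 a.2.2.2.2.1 a.2.2.2.2.2
    b.1 b.2.1 b.2.2.1 b.2.2.2.1 b.2.2.2.2.1 b.2.2.2.2.2 ha hb
    (mul_nonneg h0 (sq_nonneg s)) (mul_nonneg h1 (sq_nonneg s))
    (ne_sd hs nt et) (ne_sd hs nv ev) (ne_sd hs nx ex)
  rw [rv_sd hs nt et, rv_sd hs nv ev, rv_sd hs nx ex] at this
  linarith

theorem Adm1.anti (A : Adm1 θ D) (y : ℝ) : D (π + y) = -D y := by
  rw [← A.odd, ← A.sym (-y), sub_neg_eq_add]

theorem Adm1.per (A : Adm1 θ D) (y : ℝ) : D (y + 2 * π) = D y := by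
  rw [show y + 2 * π = π + (π + y) by ring, A.anti, A.anti, neg_neg]

theorem foldZ (D : ℝ → ℝ) {w : ℝ} (e : w = 0) : KK D w = 0 ∧ TT D w = 0 ∧ SS D w = 0 := by
  rw [e]
  exact ⟨(prim0 D).1, (prim0 D).2.2, (prim0 D).2.1⟩

theorem foldN (A : Adm1 θ D) {w u : ℝ} (e : w = -u) :
    KK D w = KK D u ∧ TT D w = -TT D u ∧ SS D w = -SS D u := by
  have := folds A.cont A.odd A.per u
  rw [e]
  exact ⟨this.1, this.2.2.1, this.2.1⟩

theorem foldP0 (A : Adm1 θ D) (u : ℝ) :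
    KK D (π - u) = KK D π - KK D u ∧ TT D (π - u) = TT D π - π * KK D u + TT D u ∧
      SS D (π - u) = SS D π - SS D u := by
  have hD := A.cont
  have h2 : ∀ y : ℝ, HasDerivAt (fun y => π - y) (-1) y := fun y => (hasDerivAt_id' y).const_sub _
  exact ⟨eq_Part (fun y => (dK_Part hD _).comp y (h2 y)) (fun y => (dK_Part hD y).const_sub _)
      (fun y => by rw [A.sym]; ring) 0 (by simp [KK]) u,
    eq_Part (fun y => (dT_Part hD _).comp y (h2 y))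
      (fun y => (((dK_Part hD y).const_mul π).const_sub _).fun_add (dT_Part hD y))
      (fun y => by rw [A.sym]; ring) 0 (by simp [KK, TT]) u,
    eq_Part (fun y => (dS_Part hD _).comp y (h2 y)) (fun y => (dS_Part hD y).const_sub _)
      (fun y => by rw [A.sym, sin_pi_sub]; ring) 0 (by simp [SS]) u⟩

theorem foldT (A : Adm1 θ D) {m : ℝ} (hm : m = π / 2) :
    KK D π = 2 * KK D m ∧ TT D π = π * KK D m ∧ SS D π = 2 * SS D m := by
  have := foldP0 A m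
  rw [show π - m = m by rw [hm]; ring] at this
  exact ⟨by linarith [this.1], by linarith [this.2.1], by linarith [this.2.2]⟩

theorem foldP (A : Adm1 θ D) {w u m : ℝ} (hm : m = π / 2) (e : w = π - u) :
    KK D w = 2 * KK D m - KK D u ∧ TT D w = π * KK D m - π * KK D u + TT D u ∧
      SS D w = 2 * SS D m - SS D u := by
  obtain ⟨h1, h2, h3⟩ := foldT A hm
  rw [e, ← h1, ← h2, ← h3]
  exact foldP0 A u

theorem foldQ (A : Adm1 θ D) {w u m : ℝ} (hm : m = π / 2) (e : w = π + u) :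
    KK D w = 2 * KK D m - KK D u ∧ TT D w = π * KK D m - π * KK D u - TT D u ∧
      SS D w = 2 * SS D m + SS D u := by
  obtain ⟨h1, h2, h3⟩ := foldP A (w := w) (u := -u) hm (by rw [e]; ring)
  obtain ⟨k1, k2, k3⟩ := foldN A (w := -u) (u := u) rfl
  rw [h1, h2, h3, k1, k2, k3]
  exact ⟨rfl, by ring, by ring⟩

theorem foldS (A : Adm1 θ D) {w u m : ℝ} (hm : m = π / 2) (e : w = 2 * π - u) :
    KK D w = KK D u ∧ TT D w = -(2 * π) * KK D m + 2 * π * KK D u - TT D u ∧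
      SS D w = 4 * SS D m - SS D u := by
  obtain ⟨h1, h2, h3⟩ := foldT A hm
  obtain ⟨-, -, -, k1, k2, k3⟩ := folds A.cont A.odd A.per u
  rw [e, k1, k2, k3, h1, h2, h3]
  exact ⟨rfl, by ring, by ring⟩

theorem solv {p i R y : ℝ} (hp : 0 < p) (hi : i = p⁻¹)
    (hy : y = ((0 : ℤ) : ℝ) / ((1 : ℕ) : ℝ) - R * i) : p * y + R = 0 := by
  have := inv_reg hp hi
  linear_combination p * hy - R * this

theorem mo1 {a b : ℝ} (h1 : 0 ≤ a) (h2 : b ≤ π) : Mono a b := Or.inl ⟨h1, h2⟩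

theorem mo3 {a b : ℝ} (h1 : π ≤ a) (h2 : b ≤ 2 * π) : Mono a b := Or.inr (Or.inr ⟨h1, h2⟩)

end Pool.Agent.MP_e5b4ec_an.Sm
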