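import Pool.Agent.MP_e5b4ec_an.Mid.Base

open Real

namespace Pool.Agent.MP_e5b4ec_an.Sm

open Mid

/-- `u` cut off at `-a` and `a` -/
noncomputable def cl (a u : ℝ) : ℝ := max (-a) (min a u)

/-- odd, piecewise linear on `[0, π/2]` with slopes `1, 1/2, 0, -1/2, 0` -/
noncomputable def g (θ u : ℝ) : ℝ :=
  (cl (π / 6) u + cl (π / 6 + 2 * θ) u + cl (π / 2 - 3 * θ) u - cl (π / 2 - θ) u) / 2

/-- the extremal function of the linearised problem -/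
noncomputable def V (θ y : ℝ) : ℝ := g θ (arcsin (sin y))

noncomputable def kap (θ : ℝ) : ℝ := 2 / π * (1 / 2 + sin (π / 6 + 2 * θ) - cos θ + cos (3 * θ))

def Rng (θ : ℝ) : Prop := 17 / 100 ≤ θ ∧ θ ≤ 171 / 1000

/-- admissible differences -/
structure Adm1 (θ : ℝ) (D : ℝ → ℝ) : Prop where
  cont : Continuous D
  odd : ∀ y, D (-y) = -D y
  sym : ∀ y, D (π - y) = D y
  b1 : Box 1 D (-(π / 6)) (π / 6) (3 * π / 2 - θ) (3 * π / 2 + θ) (π / 6) (π / 6 + 2 * θ)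
  b2 : Box 1 D (π / 6 + 2 * θ) (π / 2 - 3 * θ) (5 * π / 6) (7 * π / 6) (π / 2 - 3 * θ) (π / 2 - θ)
  b3 : Box 1 D (π / 6) (π / 6 + 2 * θ) (5 * π / 6 - 2 * θ) (5 * π / 6) (π / 2 - θ) (π / 2 + θ)

def Dual1 (θ : ℝ) : Prop := ∀ D : ℝ → ℝ, Adm1 θ D → ∫ y in (0 : ℝ)..(π / 2), D y * sin y ≤ 0

/-- basic facts on `V` -/
structure Bas (θ : ℝ) : Prop where
  cont : Continuous (V θ)
  odd : ∀ y, V θ (-y) = -V θ y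
  sym : ∀ y, V θ (π - y) = V θ y
  per : ∀ y, V θ (y + 2 * π) = V θ y
  lip : ∀ x y, |V θ x - V θ y| ≤ |x - y|
  pA : ∀ y, -(π / 6) ≤ y → y ≤ π / 6 → V θ y = y
  pB : ∀ y, π / 6 ≤ y → y ≤ π / 6 + 2 * θ → V θ y = π / 12 + y / 2
  pC : ∀ y, π / 6 + 2 * θ ≤ y → y ≤ π / 2 - 3 * θ → V θ y = π / 6 + θ
  pD : ∀ y, π / 2 - 3 * θ ≤ y → y ≤ π / 2 - θ → V θ y = 5 * π / 12 - θ / 2 - y / 2
  pE : ∀ y, π / 2 - θ ≤ y → y ≤ π / 2 + θ → V θ y = π / 6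
  int : ∫ y in (0 : ℝ)..(π / 2), V θ y * sin y = π / 4 * kap θ

/-- the second differences of `V` -/
def Zyg (θ : ℝ) : Prop :=
  ∀ x t, 0 ≤ t → t ≤ π → 2 * V θ x - V θ (x + t) - V θ (x - t) ≤ t

def BasSt : Prop := ∀ θ, Rng θ → Bas θ

def PrimSt : Prop := ∀ θ, Rng θ → Bas θ → Zyg θ

def LowSt : Prop := ∀ θ, Rng θ → Bas θ → Zyg θ → ∀ M : ℝ, 1 ≤ M →
  ∃ v, IsQS M v ∧ kap θ * (M - 1) / M ≤ ‖Z v‖

def UpSt : Prop := ∀ θ, Rng θ → Bas θ → Dual1 θ → ∀ (M : ℝ) (v : ℝ → ℝ), 1 ≤ M → IsQS M v →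
  ‖Z v‖ ≤ kap θ * (M - 1) * (1 + 13 * (M - 1))

end Pool.Agent.MP_e5b4ec_an.Sm
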